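import Pool.Agent.Lib.P28g.Defs
import Pool.Agent.Lib.P28f.AnnFlat

set_option autoImplicit false

/-!
# Flatness on an annulus, for functions with values in a Banach algebra

PROOF SKETCH. Copy `Pool/Agent/Lib/P28f/AnnFlat.lean` (and what it needs of `RingNear.lean`: `norm_one`, `near_mul`, `near_chain`, `near_inv`) with `fderiv ℝ f` replaced by a function `u : V m → A`,
`A` a complete normed ring (`norm_one_le'` becomes `norm_one`; `isUnit_of_near` from `isUnit_one_sub_of_norm_lt_one`).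
-/

open MeasureTheory Set Metric
open scoped ContDiff Topology ENNReal

namespace Pool.Agent.Lib.P28g

open Pool.Agent.P28b04d Pool.Agent.Lib.P28e Pool.Agent.Lib.P28c
open Pool.Agent.Lib.P28f (V EV ann)

variable {n m : ℕ}

namespace AnnGAux

section
variable {A : Type} [NormedRing A] [NormOneClass A] [CompleteSpace A] {X : Type}

theorem nmul {a b : A} {α β : ℝ} (ha : ‖a - 1‖ ≤ α) (hb : ‖b - 1‖ ≤ β) :
    ‖a * b - 1‖ ≤ α + β + α * β := by
  have e : a * b - 1 = (a - 1) + (b - 1) + (a - 1) * (b - 1) := by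
    rw [sub_mul, mul_sub, mul_sub, mul_one, one_mul, mul_one]; abel
  have hα : 0 ≤ α := (norm_nonneg _).trans ha
  rw [e]
  calc ‖(a - 1) + (b - 1) + (a - 1) * (b - 1)‖ ≤ ‖(a - 1) + (b - 1)‖ + ‖(a - 1) * (b - 1)‖ :=
        norm_add_le _ _
    _ ≤ (‖a - 1‖ + ‖b - 1‖) + ‖a - 1‖ * ‖b - 1‖ := add_le_add (norm_add_le _ _) (norm_mul_le _ _)
    _ ≤ α + β + α * β := add_le_add (add_le_add ha hb) (mul_le_mul ha hb (norm_nonneg _) hα)

theorem chain {u : X → A} {x y z : X} {α β : ℝ} (hy : IsUnit (u y))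
    (h1 : ‖Ring.inverse (u x) * u y - 1‖ ≤ α) (h2 : ‖Ring.inverse (u y) * u z - 1‖ ≤ β) :
    ‖Ring.inverse (u x) * u z - 1‖ ≤ α + β + α * β := by
  have e : Ring.inverse (u x) * u z =
      (Ring.inverse (u x) * u y) * (Ring.inverse (u y) * u z) := by
    rw [mul_assoc, ← mul_assoc (u y), Ring.mul_inverse_cancel _ hy, one_mul]
  rw [e]
  exact nmul h1 h2

/-- one plus the deviation of the values at `x` and `y` -/
noncomputable def M (u : X → A) (x y : X) : ℝ :=
  1 + ‖Ring.inverse (u x) * u y - 1‖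

theorem M_chain {u : X → A} {x y z : X} (hy : IsUnit (u y)) {α β : ℝ}
    (h1 : M u x y ≤ α) (h2 : M u y z ≤ β) : M u x z ≤ α * β := by
  unfold M at *
  have h := chain (u := u) (x := x) (z := z) hy (α := α - 1) (β := β - 1)
    (by linarith) (by linarith)
  nlinarith

theorem M_self {u : X → A} {x : X} (hx : IsUnit (u x)) : M u x x = 1 := by
  unfold M
  rw [Ring.inverse_mul_cancel _ hx, sub_self, norm_zero, add_zero]

/-- one segment -/
theorem segm {δ : ℝ} (h0 : 0 ≤ δ) {u : V m → A} {S : Set (V m)} (hS : Convex ℝ S) {R : ℝ}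
    (hI : ∀ x ∈ S, IsUnit (u x))
    (hloc : ∀ x ∈ S, FlatU δ (closedBall x (R / 32)) u) {x y : V m} (hx : x ∈ S) (hy : y ∈ S)
    (hxy : ‖y - x‖ ≤ 4 * R) : M u x y ≤ (1 + δ) ^ 256 := by
  set p : ℕ → V m := fun k => x + ((k : ℝ) / 256) • (y - x) with hp
  have hmem : ∀ k ≤ 256, p k ∈ S := by
    intro k hk
    have hk' : (k : ℝ) ≤ 256 := by exact_mod_cast hk
    exact hS.add_smul_sub_mem hx hy ⟨by positivity, by rw [div_le_one (by norm_num)]; exact hk'⟩
  have key : ∀ k ≤ 256, M u x (p k) ≤ (1 + δ) ^ k := by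
    intro k
    induction k with
    | zero =>
      intro _
      have e : p 0 = x := by simp [hp]
      rw [e, M_self (hI x hx), pow_zero]
    | succ k ih =>
      intro hk
      have h1 := ih (by omega)
      have hpk := hmem k (by omega)
      rw [pow_succ]
      apply M_chain (hI _ hpk) h1
      unfold M
      have h4R : 0 ≤ R := by
        have := (norm_nonneg (y - x)).trans hxy
        linarith
      have h2 := hloc _ hpk (p k) (mem_closedBall_self (by positivity)) (p (k + 1)) (by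
        rw [mem_closedBall, dist_eq_norm]
        have e : p (k + 1) - p k = (1 / 256 : ℝ) • (y - x) := by
          simp only [hp]
          push_cast
          module
        rw [e, norm_smul, Real.norm_eq_abs, abs_of_pos (by norm_num)]
        linarith)
      linarith
  have h1 := key 256 le_rfl
  have e : p 256 = y := by simp [hp]
  rwa [e] at h1

end

end AnnGAux

open AnnGAux in
open Pool.Agent.Lib.P28f.AnnFlatAux hiding M M_chain M_self segm in
theorem ann_flat_g {A : Type} [NormedRing A] [NormOneClass A] [CompleteSpace A] (hm : 2 ≤ m)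
    {δ : ℝ} (h0 : 0 ≤ δ) (h1 : δ ≤ 1 / 2000) {u : V m → A} {a : V m} {R : ℝ} (hR : 0 < R)
    (hI : ∀ x ∈ ann a R, IsUnit (u x)) (hloc : ∀ x ∈ ann a R, FlatU δ (closedBall x (R / 32)) u) :
    FlatU (2000 * δ) (ann a R) u := by
  obtain ⟨P, hPdef⟩ : ∃ P : ℝ, P = (1 + δ) ^ 256 := ⟨_, rfl⟩
  have hone : (1 : ℝ) ≤ P := by
    rw [hPdef]
    exact one_le_pow₀ (by linarith)
  have hPexp : P ≤ Real.exp (256 * δ) := by
    rw [hPdef]
    exact num_pow h0 256
  have hseg : ∀ (i : Fin m) (σ : ℝ), |σ| = 1 → ∀ x ∈ piece a R i σ, ∀ y ∈ piece a R i σ,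
      AnnGAux.M u x y ≤ P := by
    intro i σ hσ x hx y hy
    rw [hPdef]
    apply AnnGAux.segm h0 (piece_convex a i σ) (fun z hz => hI z (piece_sub hσ hz))
      (fun z hz => hloc z (piece_sub hσ hz)) hx hy
    calc ‖y - x‖ = ‖(y - a) - (x - a)‖ := by rw [sub_sub_sub_cancel_right]
      _ ≤ ‖y - a‖ + ‖x - a‖ := norm_sub_le _ _
      _ ≤ 2 * R + 2 * R := add_le_add hy.1 hx.1
      _ = 4 * R := by ring
  clear hPdef
  have h11 : |(1 : ℝ)| = 1 := abs_one
  have hseg2 : ∀ (i : Fin m) (σ : ℝ), |σ| = 1 → ∀ (j : Fin m) (τ : ℝ), |τ| = 1 → j ≠ i →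
      ∀ x ∈ piece a R i σ, ∀ y ∈ piece a R j τ, AnnGAux.M u x y ≤ P * P := by
    intro i σ hσ j τ hτ hij x hx y hy
    have hq := qp_left a hR i hσ j hτ
    exact AnnGAux.M_chain (hI _ (piece_sub hσ hq)) (hseg i σ hσ x hx _ hq)
      (hseg j τ hτ _ (qp_right a hR i hσ j hτ hij) y hy)
  intro x hx y hy
  obtain ⟨i, σ, hσ, hxi⟩ := exists_piece hR hx
  obtain ⟨j, τ, hτ, hyj⟩ := exists_piece hR hy
  have habs : ∀ s : ℝ, (s = 1 ∨ s = -1) → |s| = 1 := by
    rintro s (rfl | rfl)
    · exact abs_one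
    · rw [abs_neg, abs_one]
  have hσ' := habs σ hσ
  have hτ' := habs τ hτ
  have hPP : P ≤ P * P := le_mul_of_one_le_left (by linarith) hone
  have hPPP : P * P ≤ P * P * P := le_mul_of_one_le_right (by positivity) hone
  have hfin : AnnGAux.M u x y ≤ P * P * P := by
    by_cases hij : j = i
    · subst hij
      by_cases hst : τ = σ
      · subst hst
        exact (hseg j τ hτ' x hxi y hyj).trans (hPP.trans hPPP)
      · obtain ⟨l, hl⟩ : ∃ l : Fin m, l ≠ j := by
          by_cases h : (⟨0, by omega⟩ : Fin m) = j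
          · refine ⟨⟨1, by omega⟩, fun h' => ?_⟩
            rw [← h] at h'
            have := congrArg Fin.val h'
            simp at this
          · exact ⟨_, h⟩
        have e1 := hseg2 j σ hσ' l 1 h11 hl x hxi (qp a R j τ l 1)
          (qp_right a hR j hτ' l h11 hl)
        exact AnnGAux.M_chain (hI _ (piece_sub hτ' (qp_left a hR j hτ' l h11))) e1
          (hseg j τ hτ' _ (qp_left a hR j hτ' l h11) y hyj)
    · exact (hseg2 i σ hσ' j τ hτ' hij x hxi y hyj).trans hPPP
  have hn := num h0 h1 (cube_le h0 (by linarith) hPexp)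
  unfold AnnGAux.M at hfin
  linarith

theorem ann_ctrl_g {A : Type} [NormedRing A] [NormOneClass A] [CompleteSpace A] (hm : 2 ≤ m)
    {δ c : ℝ} (h0 : 0 ≤ δ) (h1 : δ ≤ 1 / 2000) {U : Set (V m)} {u : V m → A}
    {μ : Measure (V m)} [IsFiniteMeasure μ] (h : CtrlG δ c U u μ) {a : V m} {R : ℝ} (hR : 0 < R)
    (hU : closedBall a (9 / 4 * R) ⊆ U)
    (hμ : μ.real (closedBall a (9 / 4 * R) \ ball a (3 / 4 * R)) ≤ c) :
    FlatU (2000 * δ) (ann a R) u := by
  have hsub : ∀ x ∈ ann a R, closedBall x (R / 4) ⊆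
      closedBall a (9 / 4 * R) \ ball a (3 / 4 * R) := by
    intro x hx y hy
    rw [mem_closedBall, dist_eq_norm] at hy
    have h2 : ‖y - a‖ ≤ ‖y - x‖ + ‖x - a‖ := norm_sub_le_norm_sub_add_norm_sub y x a
    have h3 : ‖x - a‖ ≤ ‖y - x‖ + ‖y - a‖ := by
      have := norm_sub_le_norm_sub_add_norm_sub x y a
      rwa [norm_sub_rev x y] at this
    refine ⟨?_, ?_⟩
    · rw [mem_closedBall, dist_eq_norm]
      linarith [hx.2]
    · rw [mem_ball, dist_eq_norm, not_lt]
      linarith [hx.1]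
  apply ann_flat_g hm h0 h1 hR
  · intro x hx
    exact h.unit x (hU ((hsub x hx) (mem_closedBall_self (by positivity))).1)
  · intro x hx
    have h4 := h.flat x (R / 4) (by positivity) (fun y hy => hU ((hsub x hx) hy).1)
      ((measureReal_mono (hsub x hx)).trans hμ)
    have e : R / 4 / 8 = R / 32 := by ring
    rwa [e] at h4

theorem flatU_chain {A : Type} [NormedRing A] [NormOneClass A] [CompleteSpace A] {X : Type}
    {u : X → A} {x y z : X} {α β : ℝ} (hy : IsUnit (u y)) (h1 : ‖Ring.inverse (u x) * u y - 1‖ ≤ α)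
    (h2 : ‖Ring.inverse (u y) * u z - 1‖ ≤ β) :
    ‖Ring.inverse (u x) * u z - 1‖ ≤ α + β + α * β :=
  AnnGAux.chain hy h1 h2

end Pool.Agent.Lib.P28g
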