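import Pool.Agent.Lib.P28f.Defs
import Pool.Agent.Lib.P28e.Defs
import Pool.Agent.Lib.P28c.Defs

set_option autoImplicit false

/-!
# Two points of an annulus are joined by three segments

PROOF SKETCH. Maximum norm. Choose `i`, `σ = ±1` with `σ x_i = ‖x‖ ≥ r` and `j`, `τ` with `τ y_j = ‖y‖ ≥ r`. If `i ≠ j` let `p = q` be the point with `p_i = σ r`, `p_j = τ r`, other coordinates `0`:
on `[x, p]` `σ` times the coordinate `i` is `≥ r`, on `[p, y]` `τ` times the coordinate `j`. If `i = j` choose `k ≠ i` and `p = σ r e_i + r e_k`, `q = τ r e_i + r e_k`.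
All norms are `≤ R` by convexity (`r ≤ ‖x‖ ≤ R`).
-/

open MeasureTheory Set Metric
open scoped ContDiff Topology ENNReal

namespace Pool.Agent.Lib.P28g

open Pool.Agent.P28b04d Pool.Agent.Lib.P28e Pool.Agent.Lib.P28c
open Pool.Agent.Lib.P28f (V)

variable {n m : ℕ}

namespace AnnSegAux

theorem seg_ge {a b : V m} {r s : ℝ} {i : Fin m} (hs : s = 1 ∨ s = -1) (ha : r ≤ s * a i)
    (hb : r ≤ s * b i) {t : ℝ} (ht : t ∈ Icc (0 : ℝ) 1) : r ≤ ‖a + t • (b - a)‖ := by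
  have h1 : ‖(a + t • (b - a)) i‖ ≤ ‖a + t • (b - a)‖ := norm_le_pi_norm _ i
  have h2 : (a + t • (b - a)) i = a i + t * (b i - a i) := rfl
  rw [h2, Real.norm_eq_abs] at h1
  have h3 : s * (a i + t * (b i - a i)) ≤ |a i + t * (b i - a i)| := by
    rcases hs with rfl | rfl
    · rw [one_mul]; exact le_abs_self _
    · rw [neg_one_mul]; exact neg_le_abs _
  have h4 : r ≤ s * (a i + t * (b i - a i)) := by
    have h5 : s * (a i + t * (b i - a i)) = (1 - t) * (s * a i) + t * (s * b i) := by ring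
    rw [h5]
    nlinarith [mul_le_mul_of_nonneg_left ha (sub_nonneg.2 ht.2),
      mul_le_mul_of_nonneg_left hb ht.1]
  linarith

theorem seg_le {a b : V m} {R : ℝ} (ha : ‖a‖ ≤ R) (hb : ‖b‖ ≤ R) {t : ℝ}
    (ht : t ∈ Icc (0 : ℝ) 1) : ‖a + t • (b - a)‖ ≤ R := by
  have h : a + t • (b - a) = (1 - t) • a + t • b := by
    rw [smul_sub, sub_smul, one_smul]; abel
  rw [h]
  refine (norm_add_le _ _).trans ?_
  rw [norm_smul, norm_smul, Real.norm_of_nonneg (sub_nonneg.2 ht.2), Real.norm_of_nonneg ht.1]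
  nlinarith [mul_le_mul_of_nonneg_left ha (sub_nonneg.2 ht.2),
      mul_le_mul_of_nonneg_left hb ht.1]

theorem exists_coord {r : ℝ} (hr : 0 < r) {x : V m} (hx : r ≤ ‖x‖) :
    ∃ (i : Fin m) (s : ℝ), (s = 1 ∨ s = -1) ∧ r ≤ s * x i := by
  have h : ∃ i, r ≤ ‖x i‖ := by
    by_contra h
    push Not at h
    have := (pi_norm_lt_iff hr).2 h
    linarith
  obtain ⟨i, hi⟩ := h
  rw [Real.norm_eq_abs] at hi
  rcases le_total 0 (x i) with h0 | h0
  · exact ⟨i, 1, Or.inl rfl, by rwa [one_mul, ← abs_of_nonneg h0]⟩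
  · refine ⟨i, -1, Or.inr rfl, ?_⟩
    rw [neg_one_mul, ← abs_of_nonpos h0]; exact hi

/-- the corner point with coordinate `i` equal to `s`, coordinate `k` equal to `u` -/
noncomputable def P (i k : Fin m) (s u : ℝ) : V m :=
  fun l => if l = i then s else if l = k then u else 0

theorem P_i (i k : Fin m) (s u : ℝ) : P i k s u i = s := if_pos rfl

theorem P_k {i k : Fin m} (h : k ≠ i) (s u : ℝ) : P i k s u k = u := by
  unfold P; rw [if_neg h, if_pos rfl]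

theorem P_norm (i k : Fin m) {s u R : ℝ} (hR : 0 ≤ R) (hs : |s| ≤ R) (hu : |u| ≤ R) :
    ‖P i k s u‖ ≤ R := by
  refine (pi_norm_le_iff_of_nonneg hR).2 fun l => ?_
  unfold P
  rw [Real.norm_eq_abs]
  split_ifs
  · exact hs
  · exact hu
  · rw [abs_zero]; exact hR

theorem sgn_abs {s r R : ℝ} (hs : s = 1 ∨ s = -1) (hr : 0 < r) (hR : r ≤ R) : |s * r| ≤ R := by
  rcases hs with rfl | rfl
  · rw [one_mul, abs_of_pos hr]; exact hR
  · rw [neg_one_mul, abs_neg, abs_of_pos hr]; exact hR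

theorem sgn_mul {s r : ℝ} (hs : s = 1 ∨ s = -1) : s * (s * r) = r := by
  rcases hs with rfl | rfl <;> ring

end AnnSegAux

open AnnSegAux in
theorem ann_seg (hm : 2 ≤ m) {r R : ℝ} (hr : 0 < r) {x y : V m} (hx : r ≤ ‖x‖ ∧ ‖x‖ ≤ R)
    (hy : r ≤ ‖y‖ ∧ ‖y‖ ≤ R) : ∃ p q : V m,
      (∀ t ∈ Icc (0 : ℝ) 1, r ≤ ‖x + t • (p - x)‖ ∧ ‖x + t • (p - x)‖ ≤ R) ∧
      (∀ t ∈ Icc (0 : ℝ) 1, r ≤ ‖p + t • (q - p)‖ ∧ ‖p + t • (q - p)‖ ≤ R) ∧
      ∀ t ∈ Icc (0 : ℝ) 1, r ≤ ‖q + t • (y - q)‖ ∧ ‖q + t • (y - q)‖ ≤ R := by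
  obtain ⟨i, s, hs, hxi⟩ := exists_coord hr hx.1
  obtain ⟨j, u, hu, hyj⟩ := exists_coord hr hy.1
  have hR : r ≤ R := hx.1.trans hx.2
  have hR0 : 0 ≤ R := hr.le.trans hR
  by_cases hij : j = i
  · subst hij
    obtain ⟨k, hk⟩ : ∃ k : Fin m, k ≠ j := by
      haveI : Nontrivial (Fin m) := Fin.nontrivial_iff_two_le.2 hm
      exact exists_ne j
    have hp : ‖P j k (s * r) r‖ ≤ R :=
      P_norm j k hR0 (sgn_abs hs hr hR) (by rw [abs_of_pos hr]; exact hR)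
    have hq : ‖P j k (u * r) r‖ ≤ R :=
      P_norm j k hR0 (sgn_abs hu hr hR) (by rw [abs_of_pos hr]; exact hR)
    refine ⟨P j k (s * r) r, P j k (u * r) r, fun t ht => ⟨?_, seg_le hx.2 hp ht⟩,
      fun t ht => ⟨?_, seg_le hp hq ht⟩, fun t ht => ⟨?_, seg_le hq hy.2 ht⟩⟩
    · exact seg_ge hs hxi (by rw [P_i, sgn_mul hs]) ht
    · exact seg_ge (s := 1) (i := k) (Or.inl rfl) (by rw [P_k hk, one_mul])
        (by rw [P_k hk, one_mul]) ht
    · exact seg_ge hu (by rw [P_i, sgn_mul hu]) hyj ht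
  · have hp : ‖P i j (s * r) (u * r)‖ ≤ R :=
      P_norm i j hR0 (sgn_abs hs hr hR) (sgn_abs hu hr hR)
    refine ⟨P i j (s * r) (u * r), P i j (s * r) (u * r), fun t ht => ⟨?_, seg_le hx.2 hp ht⟩,
      fun t ht => ⟨?_, seg_le hp hp ht⟩, fun t ht => ⟨?_, seg_le hp hy.2 ht⟩⟩
    · exact seg_ge hs hxi (by rw [P_i, sgn_mul hs]) ht
    · exact seg_ge hs (i := i) (by rw [P_i, sgn_mul hs]) (by rw [P_i, sgn_mul hs]) ht
    · exact seg_ge hu (by rw [P_k hij, sgn_mul hu]) hyj ht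

end Pool.Agent.Lib.P28g
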