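import Pool.Agent.Lib.P28g.AnnG
import Pool.Agent.Lib.P28f.Bdd

set_option autoImplicit false

/-!
# Uniform bounds from local flatness and connectedness, Banach algebra version

PROOF SKETCH. Copy the proof of `P28f.bdd` (`Pool/Agent/Lib/P28f/Bdd.lean`) with `EV m` replaced by a complete normed ring `A`.
-/

open MeasureTheory Set Metric
open scoped ContDiff Topology ENNReal

namespace Pool.Agent.Lib.P28g

open Pool.Agent.P28b04d Pool.Agent.Lib.P28e Pool.Agent.Lib.P28c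
open Pool.Agent.Lib.P28f (V EV ult)

variable {n m : ℕ}

namespace BddGAux

variable {A : Type} [NormedRing A] [NormOneClass A]

theorem chainG {a b c : A} (hb : IsUnit b) :
    Ring.inverse a * c = (Ring.inverse a * b) * (Ring.inverse b * c) := by
  rw [mul_assoc, ← mul_assoc b, Ring.mul_inverse_cancel _ hb, one_mul]

theorem swapG {b c : A} (hb : IsUnit b) (hc : IsUnit c)
    (h : ‖Ring.inverse b * c - 1‖ ≤ 1 / 2) : ‖Ring.inverse c * b - 1‖ ≤ 1 := by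
  have e : Ring.inverse c * b - 1 = -((Ring.inverse c * b) * (Ring.inverse b * c - 1)) := by
    rw [mul_sub, mul_one, ← chainG (a := c) (c := c) hb, Ring.inverse_mul_cancel _ hc]
    abel
  have h1 : ‖Ring.inverse c * b‖ ≤ ‖Ring.inverse c * b - 1‖ + 1 := by
    calc ‖Ring.inverse c * b‖ = ‖(Ring.inverse c * b - 1) + 1‖ := by rw [sub_add_cancel]
      _ ≤ ‖Ring.inverse c * b - 1‖ + ‖(1 : A)‖ := norm_add_le _ _
      _ = _ := by rw [norm_one]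
  have h2 : ‖Ring.inverse c * b - 1‖ ≤ ‖Ring.inverse c * b‖ * (1 / 2) := by
    conv_lhs => rw [e]
    rw [norm_neg]
    exact (norm_mul_le _ _).trans (mul_le_mul_of_nonneg_left h (norm_nonneg _))
  linarith

theorem step {a b c : A} (hb : IsUnit b) (hc : IsUnit c) {C : ℝ}
    (h : ‖Ring.inverse b * c - 1‖ ≤ 1 / 2) (h1 : ‖Ring.inverse a * b‖ ≤ C)
    (h2 : ‖Ring.inverse b * a‖ ≤ C) :
    ‖Ring.inverse a * c‖ ≤ 2 * C ∧ ‖Ring.inverse c * a‖ ≤ 2 * C := by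
  have hC : 0 ≤ C := (norm_nonneg _).trans h1
  have h3 : ‖Ring.inverse b * c‖ ≤ 2 := by
    calc ‖Ring.inverse b * c‖ = ‖(Ring.inverse b * c - 1) + 1‖ := by rw [sub_add_cancel]
      _ ≤ ‖Ring.inverse b * c - 1‖ + ‖(1 : A)‖ := norm_add_le _ _
      _ ≤ 1 / 2 + 1 := add_le_add h norm_one.le
      _ ≤ 2 := by norm_num
  have h4 : ‖Ring.inverse c * b - 1‖ ≤ 1 := swapG hb hc h
  have h5 : ‖Ring.inverse c * b‖ ≤ 2 := by
    calc ‖Ring.inverse c * b‖ = ‖(Ring.inverse c * b - 1) + 1‖ := by rw [sub_add_cancel]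
      _ ≤ ‖Ring.inverse c * b - 1‖ + ‖(1 : A)‖ := norm_add_le _ _
      _ ≤ 1 + 1 := add_le_add h4 norm_one.le
      _ = 2 := by norm_num
  constructor
  · rw [chainG hb]
    calc _ ≤ ‖Ring.inverse a * b‖ * ‖Ring.inverse b * c‖ := norm_mul_le _ _
      _ ≤ C * 2 := mul_le_mul h1 h3 (norm_nonneg _) hC
      _ = 2 * C := mul_comm _ _
  · rw [chainG hb]
    exact (norm_mul_le _ _).trans (mul_le_mul h5 h2 (norm_nonneg _) (by norm_num))

theorem step' {a b c : A} (hb : IsUnit b) (hc : IsUnit c) {C : ℝ}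
    (h : ‖Ring.inverse b * c - 1‖ ≤ 1 / 2) (h1 : ‖Ring.inverse a * c‖ ≤ C)
    (h2 : ‖Ring.inverse c * a‖ ≤ C) :
    ‖Ring.inverse a * b‖ ≤ 2 * C ∧ ‖Ring.inverse b * a‖ ≤ 2 * C := by
  have hC : 0 ≤ C := (norm_nonneg _).trans h1
  have h3 : ‖Ring.inverse b * c‖ ≤ 2 := by
    calc ‖Ring.inverse b * c‖ = ‖(Ring.inverse b * c - 1) + 1‖ := by rw [sub_add_cancel]
      _ ≤ ‖Ring.inverse b * c - 1‖ + ‖(1 : A)‖ := norm_add_le _ _
      _ ≤ 1 / 2 + 1 := add_le_add h norm_one.le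
      _ ≤ 2 := by norm_num
  have h4 : ‖Ring.inverse c * b - 1‖ ≤ 1 := swapG hb hc h
  have h5 : ‖Ring.inverse c * b‖ ≤ 2 := by
    calc ‖Ring.inverse c * b‖ = ‖(Ring.inverse c * b - 1) + 1‖ := by rw [sub_add_cancel]
      _ ≤ ‖Ring.inverse c * b - 1‖ + ‖(1 : A)‖ := norm_add_le _ _
      _ ≤ 1 + 1 := add_le_add h4 norm_one.le
      _ = 2 := by norm_num
  constructor
  · rw [chainG hc]
    calc _ ≤ ‖Ring.inverse a * c‖ * ‖Ring.inverse c * b‖ := norm_mul_le _ _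
      _ ≤ C * 2 := mul_le_mul h1 h5 (norm_nonneg _) hC
      _ = 2 * C := mul_comm _ _
  · rw [chainG hc]
    exact (norm_mul_le _ _).trans (mul_le_mul h3 h2 (norm_nonneg _) (by norm_num))

end BddGAux

open BddGAux in
theorem bdd_g {A : Type} [NormedRing A] [NormOneClass A] [CompleteSpace A] {Ω : Set (V m)}
    (hΩ : IsOpen Ω) (hc : IsPreconnected Ω) {x₀ : V m} (hx₀ : x₀ ∈ Ω) (G : ℕ → V m → A)
    (hu : ∀ᶠ j in (ult : Filter ℕ), ∀ x ∈ Ω, IsUnit (G j x))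
    (hloc : ∀ x ∈ Ω, ∃ ρ : ℝ, 0 < ρ ∧ closedBall x ρ ⊆ Ω ∧
      ∀ᶠ j in (ult : Filter ℕ), ∀ y ∈ closedBall x ρ, ‖Ring.inverse (G j x) * G j y - 1‖ ≤ 1 / 2)
    {K : Set (V m)} (hK : IsCompact K) (hKΩ : K ⊆ Ω) :
    ∃ C : ℝ, 0 < C ∧ ∀ᶠ j in (ult : Filter ℕ), ∀ x ∈ K,
      ‖Ring.inverse (G j x₀) * G j x‖ ≤ C ∧ ‖Ring.inverse (G j x) * G j x₀‖ ≤ C := by
  let P : V m → Prop := fun x => ∃ C : ℝ, 0 < C ∧ ∀ᶠ j in (ult : Filter ℕ),
    ‖Ring.inverse (G j x₀) * G j x‖ ≤ C ∧ ‖Ring.inverse (G j x) * G j x₀‖ ≤ C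
  have hA : IsOpen {x | x ∈ Ω ∧ P x} := by
    rw [Metric.isOpen_iff]
    rintro x ⟨hx, C, hC, hCx⟩
    obtain ⟨ρ, hρ, hρΩ, hev⟩ := hloc x hx
    refine ⟨ρ, hρ, fun y hy => ?_⟩
    have hy' := ball_subset_closedBall hy
    refine ⟨hρΩ hy', 2 * C, by positivity, ?_⟩
    filter_upwards [hu, hCx, hev] with j h1 h2 h3
    exact step (h1 x hx) (h1 y (hρΩ hy')) (h3 y hy') h2.1 h2.2
  have hB : IsOpen {x | x ∈ Ω ∧ ¬ P x} := by
    rw [Metric.isOpen_iff]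
    rintro x ⟨hx, hPx⟩
    obtain ⟨ρ, hρ, hρΩ, hev⟩ := hloc x hx
    refine ⟨ρ, hρ, fun y hy => ?_⟩
    have hy' := ball_subset_closedBall hy
    refine ⟨hρΩ hy', fun hPy => hPx ?_⟩
    obtain ⟨C, hC, hCy⟩ := hPy
    refine ⟨2 * C, by positivity, ?_⟩
    filter_upwards [hu, hCy, hev] with j h1 h2 h3
    exact step' (h1 x hx) (h1 y (hρΩ hy')) (h3 y hy') h2.1 h2.2
  have hall : ∀ x ∈ Ω, P x := by
    have h1 : Ω ⊆ {x | x ∈ Ω ∧ P x} := by
      refine hc.subset_left_of_subset_union hA hB ?_ ?_ ?_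
      · rw [Set.disjoint_left]
        rintro x ⟨_, h⟩ ⟨_, h'⟩
        exact h' h
      · intro x hx
        by_cases h : P x
        · exact Or.inl ⟨hx, h⟩
        · exact Or.inr ⟨hx, h⟩
      · refine ⟨x₀, hx₀, hx₀, 1, one_pos, ?_⟩
        filter_upwards [hu] with j h1
        rw [Ring.inverse_mul_cancel _ (h1 x₀ hx₀)]
        exact ⟨norm_one.le, norm_one.le⟩
    exact fun x hx => (h1 hx).2
  choose! c hcpos hcev using hall
  choose! ρ hρ hρΩ hρev using hloc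
  obtain ⟨t, htK, htc⟩ := hK.elim_nhds_subcover (fun x => closedBall x (ρ x))
    (fun x hx => closedBall_mem_nhds x (hρ x (hKΩ hx)))
  refine ⟨1 + ∑ x ∈ t, 2 * c x, ?_, ?_⟩
  · have : 0 ≤ ∑ x ∈ t, 2 * c x :=
      Finset.sum_nonneg fun x hx => by have := hcpos x (hKΩ (htK x hx)); positivity
    linarith
  · have h1 : ∀ᶠ j in (ult : Filter ℕ), ∀ x ∈ t,
        (‖Ring.inverse (G j x₀) * G j x‖ ≤ c x ∧ ‖Ring.inverse (G j x) * G j x₀‖ ≤ c x) ∧
        ∀ y ∈ closedBall x (ρ x), ‖Ring.inverse (G j x) * G j y - 1‖ ≤ 1 / 2 := by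
      rw [Filter.eventually_all_finset]
      intro x hx
      exact (hcev x (hKΩ (htK x hx))).and (hρev x (hKΩ (htK x hx)))
    filter_upwards [hu, h1] with j h2 h3
    intro y hy
    obtain ⟨x, hx, hyx⟩ : ∃ x ∈ t, y ∈ closedBall x (ρ x) := by
      have := htc hy
      simp only [mem_iUnion, exists_prop] at this
      exact this
    have hxΩ := hKΩ (htK x hx)
    obtain ⟨h4, h5⟩ := h3 x hx
    have h6 := step (h2 x hxΩ) (h2 y (hρΩ x hxΩ hyx)) (h5 y hyx) h4.1 h4.2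
    have h7 : 2 * c x ≤ 1 + ∑ x ∈ t, 2 * c x := by
      have h8 : 2 * c x ≤ ∑ x ∈ t, 2 * c x :=
        Finset.single_le_sum (f := fun x => 2 * c x)
          (fun z hz => by have := hcpos z (hKΩ (htK z hz)); positivity) hx
      linarith
    exact ⟨h6.1.trans h7, h6.2.trans h7⟩

end Pool.Agent.Lib.P28g
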