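import Pool.Agent.Lib.P28g.Defs

set_option autoImplicit false

/-!
# The affine chart

PROOF SKETCH. `sl n x = Fin.cons 1 (kap n x)`, `kap n : V (n * 2) ≃L[ℝ] (Fin n → ℂ)` with `‖x‖ ≤ ‖kap n x‖ ≤ 2 ‖x‖` (`norm_le_kap`, `norm_kap_le` in `P28e/CV.lean`); `sl_eq : sl n x = e0 n + Lv n x`.
`pt_sl_inj`: `eq_smul_of_pt_eq` and the coordinate `0`. `norm_le_of_cc`: `z = z 0 • sl n (cc z)` and `‖sl n y‖ = max 1 ‖kap n y‖`.
`fc_imm`: `fc H = cc ∘ H ∘ sl n`; smooth by composition. The derivative is injective: if `v` is in the kernel of `fderiv (fc H) x` then, because `H (sl n y) = H (sl n y) 0 • sl n (fc H y)` near `x`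
(`fc_spec`), the derivative of the left side in the direction `v` is a complex multiple `b • H (sl n x)`; but `fderiv H (sl n x) (b • sl n x) = b • H (sl n x)` (homogeneity, `P28c.euler` and
`fderiv` of `t ↦ H ((1 + t b) • z) = (1 + t b) • H z`), so by injectivity of `fderiv H (sl n x)` `Lv n v = b • sl n x`, coordinate `0` gives `b = 0`, hence `v = 0`. In finite dimension injective = unit
(`ContinuousLinearMap` over a finite-dimensional space; see `P28e.isUnit_fderiv` for the pattern). `fderiv_homog` is the homogeneity fact.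
-/

open MeasureTheory Set Metric
open scoped ContDiff Topology ENNReal

namespace Pool.Agent.Lib.P28g

open Pool.Agent.P28b04d Pool.Agent.Lib.P28e Pool.Agent.Lib.P28c
open Pool.Agent.Lib.P28f (V EV)

variable {n m : ℕ}

theorem cc_smul {c : ℂ} (hc : c ≠ 0) (z : W n) : cc (c • z) = cc z := by
  unfold cc
  congr 1
  funext k
  simp only [Pi.smul_apply, smul_eq_mul]
  rw [mul_div_mul_left _ _ hc]

theorem cc_sl (x : V (n * 2)) : cc (sl n x) = x := by
  unfold cc sl
  simp

theorem sl_apply_zero (x : V (n * 2)) : sl n x 0 = 1 := by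
  simp [sl]

theorem smul_sl_cc {z : W n} (hz : z 0 ≠ 0) : z 0 • sl n (cc z) = z := by
  ext i
  refine Fin.cases ?_ (fun j => ?_) i
  · simp [sl]
  · simp only [sl, cc, Pi.smul_apply, Fin.cons_succ, ContinuousLinearEquiv.apply_symm_apply,
      smul_eq_mul]
    rw [mul_div_cancel₀ _ hz]

theorem contDiffAt_cc {z : W n} (hz : z 0 ≠ 0) : ContDiffAt ℝ ∞ (cc : W n → V (n * 2)) z := by
  have h1 : ContDiffAt ℝ ∞ (fun z : W n => fun k : Fin n => z k.succ / z 0) z := by
    rw [contDiffAt_pi]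
    intro k
    have a1 : ContDiffAt ℝ ∞ (fun z : W n => z k.succ) z :=
      (contDiff_apply ℝ ℂ k.succ).contDiffAt
    have a2 : ContDiffAt ℝ ∞ (fun z : W n => z 0) z :=
      (contDiff_apply ℝ ℂ (0 : Fin (n + 1))).contDiffAt
    simp only [div_eq_mul_inv]
    exact a1.mul (a2.inv hz)
  exact ((kap n).symm.contDiff.contDiffAt).comp z h1

theorem measurable_cc : Measurable (cc : W n → V (n * 2)) := by
  have h1 : Measurable (fun z : W n => fun k : Fin n => z k.succ / z 0) := by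
    apply measurable_pi_lambda
    intro k
    exact (measurable_pi_apply _).div (measurable_pi_apply _)
  exact (kap n).symm.continuous.measurable.comp h1

theorem pt_sl_inj {x y : V (n * 2)} (h : pt (sl n x) = pt (sl n y)) : x = y := by
  obtain ⟨c, hc, h1⟩ := eq_smul_of_pt_eq (sl_ne y) h
  have h2 := cc_smul hc (sl n x)
  rw [← h1, cc_sl, cc_sl] at h2
  exact h2.symm

theorem one_le_norm_sl (x : V (n * 2)) : 1 ≤ ‖sl n x‖ := by
  have h := norm_le_pi_norm (sl n x) 0
  rw [sl_apply_zero, norm_one] at h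
  exact h

theorem norm_sl_sub_le (x y : V (n * 2)) : ‖sl n x - sl n y‖ ≤ 2 * ‖x - y‖ := by
  have : sl n x - sl n y = Lv n (x - y) := by
    rw [sl_eq, sl_eq, map_sub]; abel
  rw [this]
  exact norm_Lv_le _

theorem norm_le_of_cc {z : W n} (hz : z 0 ≠ 0) : ‖z‖ ≤ max 1 (2 * ‖cc z‖) * ‖z 0‖ := by
  have h : ‖sl n (cc z)‖ ≤ max 1 (2 * ‖cc z‖) := by
    rw [pi_norm_le_iff_of_nonneg (le_trans zero_le_one (le_max_left _ _))]
    intro i
    refine Fin.cases ?_ (fun j => ?_) i
    · rw [sl_apply_zero, norm_one]; exact le_max_left _ _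
    · refine le_trans ?_ (le_max_right _ _)
      simp only [sl, Fin.cons_succ]
      exact (norm_le_pi_norm (kap n (cc z)) j).trans (norm_kap_le n _)
  calc ‖z‖ = ‖z 0 • sl n (cc z)‖ := by rw [smul_sl_cc hz]
    _ = ‖z 0‖ * ‖sl n (cc z)‖ := norm_smul _ _
    _ ≤ ‖z 0‖ * max 1 (2 * ‖cc z‖) := mul_le_mul_of_nonneg_left h (norm_nonneg _)
    _ = _ := mul_comm _ _

theorem cc_norm_le {z : W n} (hz : z 0 ≠ 0) : ‖cc z‖ * ‖z 0‖ ≤ ‖z‖ := by
  have h1 : ‖kap n (cc z)‖ ≤ ‖sl n (cc z)‖ := by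
    rw [pi_norm_le_iff_of_nonneg (norm_nonneg _)]
    intro j
    have := norm_le_pi_norm (sl n (cc z)) j.succ
    simpa only [sl, Fin.cons_succ] using this
  calc ‖cc z‖ * ‖z 0‖ ≤ ‖sl n (cc z)‖ * ‖z 0‖ :=
        mul_le_mul_of_nonneg_right ((norm_le_kap n _).trans h1) (norm_nonneg _)
    _ = ‖z 0 • sl n (cc z)‖ := by rw [norm_smul, mul_comm]
    _ = ‖z‖ := by rw [smul_sl_cc hz]

theorem hasFDerivAt_sl (x : V (n * 2)) : HasFDerivAt (sl n) (Lv n) x := by
  have h : sl n = fun y => e0 n + Lv n y := funext fun y => sl_eq y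
  rw [h]
  exact (Lv n).hasFDerivAt.const_add _

theorem fderiv_homog {H : W n → W n} (h : HLoc H) {z : W n} (hz : z ≠ 0) (b : ℂ) :
    fderiv ℝ H z (b • z) = b • H z := by
  have hd : DifferentiableAt ℝ H z := by
    have h1 : ContDiffAt ℝ ∞ H z := (h.smooth z hz).contDiffAt (isOpen_compl_singleton.mem_nhds hz)
    exact h1.differentiableAt (by simp)
  have h3 : HasDerivAt (fun t : ℝ => (1 + (t : ℂ) * b) • z) (b • z) 0 := by
    have a1 : HasDerivAt (fun t : ℝ => (1 + (t : ℂ) * b)) b 0 := by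
      have a2 : HasDerivAt (fun t : ℝ => (t : ℂ)) 1 0 := Complex.ofRealCLM.hasDerivAt
      simpa using (a2.mul_const b).const_add 1
    exact a1.smul_const z
  have h2 : HasDerivAt (fun t : ℝ => H ((1 + (t : ℂ) * b) • z)) (fderiv ℝ H z (b • z)) 0 := by
    have h4 : HasFDerivAt H (fderiv ℝ H z) ((1 + ((0 : ℝ) : ℂ) * b) • z) := by
      simp only [Complex.ofReal_zero, zero_mul, add_zero, one_smul]
      exact hd.hasFDerivAt
    exact h4.comp_hasDerivAt (0 : ℝ) h3
  have h5 : HasDerivAt (fun t : ℝ => H ((1 + (t : ℂ) * b) • z)) (b • H z) 0 := by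
    have e : (fun t : ℝ => H ((1 + (t : ℂ) * b) • z)) = fun t : ℝ => (1 + (t : ℂ) * b) • H z :=
      funext fun t => h.hom _ _
    rw [e]
    have a1 : HasDerivAt (fun t : ℝ => (1 + (t : ℂ) * b)) b 0 := by
      have a2 : HasDerivAt (fun t : ℝ => (t : ℂ)) 1 0 := Complex.ofRealCLM.hasDerivAt
      simpa using (a2.mul_const b).const_add 1
    exact a1.smul_const (H z)
  exact h2.unique h5

theorem fc_spec {H : W n → W n} {x : V (n * 2)} (h0 : H (sl n x) 0 ≠ 0) :
    H (sl n x) 0 • sl n (fc H x) = H (sl n x) := smul_sl_cc h0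

theorem fc_imm {H : W n → W n} (h : HLoc H) {x : V (n * 2)} (h0 : H (sl n x) 0 ≠ 0) :
    ContDiffAt ℝ ∞ (fc H) x ∧ IsUnit (fderiv ℝ (fc H) x : EV (n * 2)) := by
  have hH : ContDiffAt ℝ ∞ H (sl n x) :=
    (h.smooth _ (sl_ne x)).contDiffAt (isOpen_compl_singleton.mem_nhds (sl_ne x))
  have hs : ContDiffAt ℝ ∞ (sl n) x := by
    have e : sl n = fun y => e0 n + Lv n y := funext fun y => sl_eq y
    rw [e]
    exact contDiffAt_const.add (Lv n).contDiff.contDiffAt
  have hHs : ContDiffAt ℝ ∞ (fun y => H (sl n y)) x := hH.comp x hs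
  have hfc : ContDiffAt ℝ ∞ (fc H) x := (contDiffAt_cc h0).comp x hHs
  refine ⟨hfc, ?_⟩
  have hdH : HasFDerivAt H (fderiv ℝ H (sl n x)) (sl n x) :=
    (hH.differentiableAt (by simp)).hasFDerivAt
  have hdHs : HasFDerivAt (fun y => H (sl n y)) ((fderiv ℝ H (sl n x)).comp (Lv n)) x :=
    hdH.comp x (hasFDerivAt_sl x)
  have hdfc : HasFDerivAt (fc H) (fderiv ℝ (fc H) x) x :=
    (hfc.differentiableAt (by simp)).hasFDerivAt
  have hinj : ∀ v, fderiv ℝ (fc H) x v = 0 → v = 0 := by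
    intro v hv
    -- the scalar factor
    have hc0 : HasFDerivAt (fun y => H (sl n y) 0)
        ((ContinuousLinearMap.proj (R := ℝ) (φ := fun _ : Fin (n + 1) => ℂ) 0).comp
          ((fderiv ℝ H (sl n x)).comp (Lv n))) x :=
      (ContinuousLinearMap.proj (R := ℝ) (φ := fun _ : Fin (n + 1) => ℂ) 0).hasFDerivAt.comp x hdHs
    have hsf : HasFDerivAt (fun y => sl n (fc H y)) ((Lv n).comp (fderiv ℝ (fc H) x)) x :=
      (hasFDerivAt_sl (fc H x)).comp x hdfc
    have hprod := hc0.smul hsf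
    have hev : (fun y => H (sl n y) 0 • sl n (fc H y)) =ᶠ[𝓝 x] fun y => H (sl n y) := by
      have hcont : ContinuousAt (fun y => H (sl n y) 0) x := hc0.continuousAt
      filter_upwards [hcont.eventually_ne h0] with y hy
      exact fc_spec hy
    have huniq := (hprod.congr_of_eventuallyEq hev.symm).unique hdHs
    have h1 := congrArg (fun D : V (n * 2) →L[ℝ] W n => D v) huniq
    simp only [add_apply, smul_apply,
      ContinuousLinearMap.comp_apply, ContinuousLinearMap.smulRight_apply, hv, map_zero,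
      smul_zero, zero_add] at h1
    set a : ℂ := (ContinuousLinearMap.proj (R := ℝ) (φ := fun _ : Fin (n + 1) => ℂ) 0)
      (fderiv ℝ H (sl n x) (Lv n v)) with ha
    set b : ℂ := a / H (sl n x) 0 with hb
    have h2 : fderiv ℝ H (sl n x) (Lv n v) = b • H (sl n x) := by
      rw [← h1, ← fc_spec h0, smul_smul, hb, div_mul_cancel₀ _ h0]
    have h3 : fderiv ℝ H (sl n x) (Lv n v - b • sl n x) = 0 := by
      rw [map_sub, fderiv_homog h (sl_ne x), h2, sub_self]
    have h4 := h.inj _ (sl_ne x) _ h3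
    have h5 : Lv n v = b • sl n x := sub_eq_zero.1 h4
    have h6 := congrFun h5 0
    rw [Lv_apply] at h6
    simp only [Fin.cons_zero, Pi.smul_apply, sl_apply_zero, smul_eq_mul, mul_one] at h6
    rw [← h6, zero_smul, Lv_apply] at h5
    have h7 : kap n v = 0 := by
      funext j
      have := congrFun h5 j.succ
      simpa only [Fin.cons_succ, Pi.zero_apply] using this
    exact (kap n).injective (by rw [h7, map_zero])
  obtain ⟨D', hD'⟩ := exists_equiv (fderiv ℝ (fc H) x) hinj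
  refine ⟨ContinuousLinearEquiv.toUnit D', ?_⟩
  rw [← hD']
  rfl

/-- Equal chart expressions mean equal induced maps. -/
theorem pt_eq_of_fc {H H' : W n → W n} {x : V (n * 2)} (h0 : H (sl n x) 0 ≠ 0)
    (h0' : H' (sl n x) 0 ≠ 0) (h : fc H x = fc H' x) : pt (H (sl n x)) = pt (H' (sl n x)) := by
  rw [← fc_spec h0, ← fc_spec h0', h, pt_smul h0, pt_smul h0']

end Pool.Agent.Lib.P28g
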