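import Pool.Agent.Lib.P28g.ChartApi

set_option autoImplicit false

/-!
# Comparison of the derivatives of two chart expressions

PROOF SKETCH. For `w 0 ≠ 0` let `D w : W n → V (n * 2)`, `D w ξ = (kap n).symm (ξ' / w_0 - (ξ_0 / w_0 ^ 2) w')` (`ξ' = ` the last `n` coordinates) be the derivative of `cc` at `w` (coordinatewise quotient rule); its kernel contains `ℂ w`.
`fderiv (fc H) x = D w ∘ M ∘ Lv n`, `w = H (sl n x)`, `M = uu H x`, and `M (b • sl n x) = b • w` (`fderiv_homog`). Put `e = sl n x`, `P = D e` (`P e = 0`, `P (Lv v) = v`), `ℓ y = w_0 • Lv n y`, so `D w (ℓ y) = y` and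
`ℓ (D w ξ) = ξ - (ξ_0 / w_0) • w`. Then `(fderiv (fc H) x)⁻¹ y = P (M⁻¹ (ℓ y))`: write `ζ = M⁻¹ ℓ y = Lv (P ζ) + ζ_0 • e`, apply `D w ∘ M`.
Hence `(fderiv (fc H) x)⁻¹ (fderiv (fc H') x') v = P M⁻¹ ℓ (D w ξ) + P M⁻¹ ℓ ((D w' - D w) ξ)`, `ξ = M' Lv v`; the first term is `P (M⁻¹ M' Lv v) = v + P ((M⁻¹ M' - 1) Lv v)`
(`P M⁻¹ (b • w) = P (b • e) = 0`), the second is at most `‖P‖ ‖M⁻¹‖ 2 |w_0| ‖D w' - D w‖ ‖M'‖ 2 ‖v‖` with `‖D w' - D w‖ ≤ C ‖w' - w‖ / |w_0|²` (here `‖w‖ ≤ 4 |w_0|`, `‖w' - w‖ ≤ |w_0| / 2`, because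
`‖M‖ ‖M⁻¹‖ ≥ 1`), `‖M'‖ ≤ 2 ‖M‖`. `fc_fderiv_le`: `‖D w‖ ≤ C / |w_0| ≤ 4 C / ‖w‖`.
-/

open MeasureTheory Set Metric
open scoped ContDiff Topology ENNReal

namespace Pool.Agent.Lib.P28g

open Pool.Agent.P28b04d Pool.Agent.Lib.P28e Pool.Agent.Lib.P28c
open Pool.Agent.Lib.P28f (V EV)

variable {n m : ℕ}

namespace ChartCmpAux

/-- the derivative of the affine coordinate -/
noncomputable def DC (w : W n) : W n →L[ℝ] V (n * 2) :=
  ((kap n).symm : (Fin n → ℂ) →L[ℝ] V (n * 2)).comp (ContinuousLinearMap.pi fun k =>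
    ((w 0)⁻¹ • (ContinuousLinearMap.proj (R := ℝ) (φ := fun _ : Fin (n + 1) => ℂ) k.succ) -
      (w k.succ / (w 0) ^ 2) • (ContinuousLinearMap.proj (R := ℝ) (φ := fun _ : Fin (n + 1) => ℂ) 0)))

theorem kap_DC (w ξ : W n) (k : Fin n) :
    kap n (DC w ξ) k = ξ k.succ / w 0 - ξ 0 * w k.succ / (w 0) ^ 2 := by
  unfold DC
  rw [ContinuousLinearMap.comp_apply]
  have : kap n (((kap n).symm : (Fin n → ℂ) →L[ℝ] V (n * 2)) ((ContinuousLinearMap.pi fun k =>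
    ((w 0)⁻¹ • (ContinuousLinearMap.proj (R := ℝ) (φ := fun _ : Fin (n + 1) => ℂ) k.succ) -
      (w k.succ / (w 0) ^ 2) • (ContinuousLinearMap.proj (R := ℝ) (φ := fun _ : Fin (n + 1) => ℂ) 0)))
        ξ)) = ((ContinuousLinearMap.pi fun k =>
    ((w 0)⁻¹ • (ContinuousLinearMap.proj (R := ℝ) (φ := fun _ : Fin (n + 1) => ℂ) k.succ) -
      (w k.succ / (w 0) ^ 2) • (ContinuousLinearMap.proj (R := ℝ) (φ := fun _ : Fin (n + 1) => ℂ) 0)))
        ξ) := (kap n).apply_symm_apply _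
  rw [this]
  simp only [ContinuousLinearMap.pi_apply, sub_apply,
    smul_apply, ContinuousLinearMap.proj_apply, smul_eq_mul]
  ring

theorem hasFDerivAt_cc {w : W n} (hw : w 0 ≠ 0) :
    HasFDerivAt (cc : W n → V (n * 2)) (DC w) w := by
  have h2 : HasFDerivAt (fun z : W n => fun k : Fin n => z k.succ / z 0)
      (ContinuousLinearMap.pi fun k =>
    ((w 0)⁻¹ • (ContinuousLinearMap.proj (R := ℝ) (φ := fun _ : Fin (n + 1) => ℂ) k.succ) -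
      (w k.succ / (w 0) ^ 2) • (ContinuousLinearMap.proj (R := ℝ) (φ := fun _ : Fin (n + 1) => ℂ) 0)))
      w := by
    refine hasFDerivAt_pi.2 fun k => ?_
    have h1 : HasFDerivAt (fun z : W n => z k.succ)
        (ContinuousLinearMap.proj (R := ℝ) (φ := fun _ : Fin (n + 1) => ℂ) k.succ) w :=
      (ContinuousLinearMap.proj (R := ℝ) (φ := fun _ : Fin (n + 1) => ℂ) k.succ).hasFDerivAt
    have h0 : HasFDerivAt (fun z : W n => z 0)
        (ContinuousLinearMap.proj (R := ℝ) (φ := fun _ : Fin (n + 1) => ℂ) 0) w :=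
      (ContinuousLinearMap.proj (R := ℝ) (φ := fun _ : Fin (n + 1) => ℂ) 0).hasFDerivAt
    have hi := (hasFDerivAt_inv' (𝕜 := ℝ) hw).comp w h0
    have h3 := h1.mul hi
    refine (h3.congr_fderiv ?_).congr_of_eventuallyEq ?_
    · ext ξ
      simp only [add_apply, smul_apply,
        ContinuousLinearMap.comp_apply, neg_apply,
        ContinuousLinearMap.mulLeftRight_apply, ContinuousLinearMap.proj_apply,
        sub_apply, smul_eq_mul, Function.comp_apply]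
      field_simp
      ring
    · exact Filter.Eventually.of_forall fun z => div_eq_mul_inv _ _
  exact (kap n).symm.hasFDerivAt.comp w h2

theorem DC_self (w : W n) (b : ℂ) (hw : w 0 ≠ 0) : DC w (b • w) = 0 := by
  apply (kap n).injective
  ext k
  rw [kap_DC, map_zero]
  simp only [Pi.smul_apply, smul_eq_mul, Pi.zero_apply]
  field_simp
  ring

theorem DC_lift (w : W n) (hw : w 0 ≠ 0) (y : V (n * 2)) : DC w (w 0 • Lv n y) = y := by
  apply (kap n).injective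
  ext k
  rw [kap_DC, Lv_apply]
  simp only [Pi.smul_apply, smul_eq_mul, Fin.cons_succ, Fin.cons_zero]
  field_simp
  ring

theorem lift_DC (w : W n) (hw : w 0 ≠ 0) (ξ : W n) :
    w 0 • Lv n (DC w ξ) = ξ - (ξ 0 / w 0) • w := by
  ext k
  rw [Lv_apply]
  refine Fin.cases ?_ (fun k => ?_) k
  · simp only [Pi.smul_apply, smul_eq_mul, Fin.cons_zero, Pi.sub_apply]
    field_simp
    ring
  · simp only [Pi.smul_apply, smul_eq_mul, Fin.cons_succ, Pi.sub_apply, kap_DC]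
    field_simp

theorem DC_norm_le {w : W n} {c : ℝ} (hw : 0 < ‖w 0‖) (hc : ‖w‖ ≤ c * ‖w 0‖) (ξ : W n) :
    ‖DC w ξ‖ ≤ (1 + c) * ‖ξ‖ / ‖w 0‖ := by
  have hc0 : 0 ≤ c := by
    by_contra h
    push Not at h
    nlinarith [norm_nonneg w]
  refine (norm_le_kap n _).trans ?_
  rw [pi_norm_le_iff_of_nonneg (by positivity)]
  intro k
  rw [kap_DC]
  refine (norm_sub_le _ _).trans ?_
  rw [norm_div, norm_div, norm_mul, norm_pow]
  have h1 := norm_le_pi_norm ξ k.succ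
  have h2 := norm_le_pi_norm ξ 0
  have h3 := norm_le_pi_norm w k.succ
  have e1 : ‖ξ k.succ‖ / ‖w 0‖ ≤ ‖ξ‖ / ‖w 0‖ := by gcongr
  have e2 : ‖ξ 0‖ * ‖w k.succ‖ / ‖w 0‖ ^ 2 ≤ ‖ξ‖ * (c * ‖w 0‖) / ‖w 0‖ ^ 2 := by
    gcongr
    exact h3.trans hc
  have e3 : ‖ξ‖ * (c * ‖w 0‖) / ‖w 0‖ ^ 2 = c * ‖ξ‖ / ‖w 0‖ := by
    field_simp
  rw [e3] at e2
  calc _ ≤ ‖ξ‖ / ‖w 0‖ + c * ‖ξ‖ / ‖w 0‖ := add_le_add e1 e2
    _ = _ := by ring

theorem DC_sub_le {w w' : W n} (hw : 0 < ‖w 0‖) (hc : ‖w‖ ≤ 4 * ‖w 0‖)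
    (hη : ‖w' - w‖ ≤ ‖w 0‖ / 2) (ξ : W n) :
    ‖DC w' ξ - DC w ξ‖ ≤ 46 * ‖w' - w‖ / ‖w 0‖ ^ 2 * ‖ξ‖ := by
  refine (norm_le_kap n _).trans ?_
  rw [pi_norm_le_iff_of_nonneg (by positivity)]
  intro k
  rw [map_sub, Pi.sub_apply, kap_DC, kap_DC]
  have h0 : ‖w' 0 - w 0‖ ≤ ‖w' - w‖ := norm_le_pi_norm (w' - w) 0
  have hk : ‖w' k.succ - w k.succ‖ ≤ ‖w' - w‖ := norm_le_pi_norm (w' - w) k.succ
  have hwk : ‖w k.succ‖ ≤ 4 * ‖w 0‖ := (norm_le_pi_norm w k.succ).trans hc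
  have h1 := norm_le_pi_norm ξ k.succ
  have h2 := norm_le_pi_norm ξ 0
  have hlow : ‖w 0‖ / 2 ≤ ‖w' 0‖ := by
    have := norm_sub_norm_le (w 0) (w 0 - w' 0)
    rw [sub_sub_cancel] at this
    rw [norm_sub_rev] at h0
    linarith
  have hup : ‖w 0 + w' 0‖ ≤ 5 / 2 * ‖w 0‖ := by
    have e : w 0 + w' 0 = 2 * w 0 + (w' 0 - w 0) := by ring
    rw [e]
    refine (norm_add_le _ _).trans ?_
    rw [norm_mul]
    norm_num
    linarith
  have ha : w 0 ≠ 0 := norm_pos_iff.1 hw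
  have ha' : w' 0 ≠ 0 := norm_pos_iff.1 (by linarith)
  generalize w 0 = a at *
  generalize w' 0 = a' at *
  generalize w k.succ = b at *
  generalize w' k.succ = b' at *
  generalize ‖w' - w‖ = η at *
  have hη0 : 0 ≤ η := (norm_nonneg _).trans h0
  have e : ξ k.succ / a' - ξ 0 * b' / a' ^ 2 - (ξ k.succ / a - ξ 0 * b / a ^ 2) =
      -((a' - a) / (a * a')) * ξ k.succ -
        ((b' - b) / a' ^ 2 + -(b * (a' - a) * (a + a') / (a' ^ 2 * a ^ 2))) * ξ 0 := by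
    field_simp
    ring
  rw [e]
  have t1 : ‖(a' - a) / (a * a')‖ ≤ 2 * η / ‖a‖ ^ 2 := by
    rw [norm_div, norm_mul]
    rw [div_le_div_iff₀ (by positivity) (by positivity)]
    calc ‖a' - a‖ * ‖a‖ ^ 2 ≤ η * ‖a‖ ^ 2 := by gcongr
      _ = 2 * η * (‖a‖ * (‖a‖ / 2)) := by ring
      _ ≤ 2 * η * (‖a‖ * ‖a'‖) := by gcongr
  have t2 : ‖(b' - b) / a' ^ 2‖ ≤ 4 * η / ‖a‖ ^ 2 := by
    rw [norm_div, norm_pow]
    rw [div_le_div_iff₀ (by positivity) (by positivity)]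
    calc ‖b' - b‖ * ‖a‖ ^ 2 ≤ η * ‖a‖ ^ 2 := by gcongr
      _ = 4 * η * (‖a‖ / 2) ^ 2 := by ring
      _ ≤ 4 * η * ‖a'‖ ^ 2 := by gcongr
  have t3 : ‖b * (a' - a) * (a + a') / (a' ^ 2 * a ^ 2)‖ ≤ 40 * η / ‖a‖ ^ 2 := by
    rw [norm_div, norm_mul, norm_mul, norm_mul, norm_pow, norm_pow]
    rw [div_le_div_iff₀ (by positivity) (by positivity)]
    calc ‖b‖ * ‖a' - a‖ * ‖a + a'‖ * ‖a‖ ^ 2 ≤
          (4 * ‖a‖) * η * (5 / 2 * ‖a‖) * ‖a‖ ^ 2 := by gcongr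
      _ = 40 * η * ((‖a‖ / 2) ^ 2 * ‖a‖ ^ 2) := by ring
      _ ≤ 40 * η * (‖a'‖ ^ 2 * ‖a‖ ^ 2) := by gcongr
  calc _ ≤ ‖-((a' - a) / (a * a')) * ξ k.succ‖ +
        ‖((b' - b) / a' ^ 2 + -(b * (a' - a) * (a + a') / (a' ^ 2 * a ^ 2))) * ξ 0‖ :=
        norm_sub_le _ _
    _ ≤ 2 * η / ‖a‖ ^ 2 * ‖ξ‖ + (4 * η / ‖a‖ ^ 2 + 40 * η / ‖a‖ ^ 2) * ‖ξ‖ := by
        rw [norm_mul, norm_mul, norm_neg]
        have t4 : ‖(b' - b) / a' ^ 2 + -(b * (a' - a) * (a + a') / (a' ^ 2 * a ^ 2))‖ ≤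
            4 * η / ‖a‖ ^ 2 + 40 * η / ‖a‖ ^ 2 := by
          refine (norm_add_le _ _).trans ?_
          rw [norm_neg]
          exact add_le_add t2 t3
        gcongr
    _ = _ := by ring

theorem fderiv_fc {H : W n → W n} (h : HLoc H) {x : V (n * 2)} (h0 : H (sl n x) 0 ≠ 0) (v : V (n * 2)) :
    (fderiv ℝ (fc H) x : EV (n * 2)) v = DC (H (sl n x)) (uu H x (Lv n v)) := by
  have h1 : HasFDerivAt H (uu H x) (sl n x) := Hom46.hasFDerivAt h (sl_ne x)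
  have h2 : HasFDerivAt (fc H) ((DC (H (sl n x))).comp ((uu H x).comp (Lv n))) x :=
    (hasFDerivAt_cc h0).comp x (h1.comp x (hasFDerivAt_sl x))
  rw [h2.fderiv]
  rfl

theorem norm_sl_le {x : V (n * 2)} (hx : ‖x‖ ≤ 1) : ‖sl n x‖ ≤ 2 := by
  rw [pi_norm_le_iff_of_nonneg (by norm_num)]
  intro i
  refine Fin.cases ?_ (fun j => ?_) i
  · simp [sl]
  · simp only [sl, Fin.cons_succ]
    refine (norm_le_pi_norm _ j).trans ((norm_kap_le n x).trans ?_)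
    linarith

end ChartCmpAux

open ChartCmpAux

theorem chart_cmp (n : ℕ) : ∃ C : ℝ, 1 ≤ C ∧ ∀ H H' : W n → W n, HLoc H → HLoc H' →
    ∀ x x' : V (n * 2), ‖x‖ ≤ 1 → ‖x'‖ ≤ 1 → ‖H (sl n x)‖ ≤ 4 * ‖H (sl n x) 0‖ →
    ∀ δ ε : ℝ, δ ≤ 1 → ε ≤ 1 / 8 → ‖Ring.inverse (uu H x) * uu H' x' - 1‖ ≤ δ →
    ‖H' (sl n x') - H (sl n x)‖ * (‖uu H x‖ * ‖Ring.inverse (uu H x)‖) ≤ ε * ‖H (sl n x)‖ →
    H' (sl n x') 0 ≠ 0 ∧
      ‖Ring.inverse (fderiv ℝ (fc H) x : EV (n * 2)) * fderiv ℝ (fc H') x' - 1‖ ≤ C * (δ + ε) := by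
  refine ⟨4416, by norm_num, ?_⟩
  intro H H' hH hH' x x' hx hx' hw4 δ ε hδ hε hM hη
  have hMu := isUnit_uu hH x
  have hMM : uu H x * Ring.inverse (uu H x) = 1 := Ring.mul_inverse_cancel _ hMu
  have hMM' : Ring.inverse (uu H x) * uu H x = 1 := Ring.inverse_mul_cancel _ hMu
  have he0 : sl n x 0 = 1 := sl_apply_zero x
  have hMe : ∀ b : ℂ, uu H x (b • sl n x) = b • H (sl n x) := fun b => fderiv_homog hH (sl_ne x) b
  have hMie : ∀ b : ℂ, Ring.inverse (uu H x) (b • H (sl n x)) = b • sl n x := by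
    intro b
    rw [← hMe b]
    exact DFunLike.congr_fun hMM' (b • sl n x)
  have hwne : H (sl n x) ≠ 0 := by
    intro h0
    have h1 := hMie 1
    rw [h0, smul_zero, map_zero, one_smul] at h1
    exact sl_ne x h1.symm
  have hwpos : 0 < ‖H (sl n x)‖ := norm_pos_iff.2 hwne
  have hw0 : 0 < ‖H (sl n x) 0‖ := by linarith
  have hw0' : H (sl n x) 0 ≠ 0 := norm_pos_iff.1 hw0
  have hMMn : 1 ≤ ‖uu H x‖ * ‖Ring.inverse (uu H x)‖ := by
    have h1 := norm_mul_le (uu H x) (Ring.inverse (uu H x))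
    rw [hMM, norm_one] at h1
    exact h1
  have hηw : ‖H' (sl n x') - H (sl n x)‖ ≤ ‖H (sl n x) 0‖ / 2 := by
    have h1 : ‖H' (sl n x') - H (sl n x)‖ * 1 ≤
        ‖H' (sl n x') - H (sl n x)‖ * (‖uu H x‖ * ‖Ring.inverse (uu H x)‖) :=
      mul_le_mul_of_nonneg_left hMMn (norm_nonneg _)
    nlinarith
  have hw'0 : H' (sl n x') 0 ≠ 0 := by
    intro h0
    have h1 := norm_le_pi_norm (H' (sl n x') - H (sl n x)) 0
    rw [Pi.sub_apply, h0, zero_sub, norm_neg] at h1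
    linarith
  refine ⟨hw'0, ?_⟩
  have hε0 : 0 ≤ ε := by
    by_contra hc
    push Not at hc
    have h1 : 0 ≤ ‖H' (sl n x') - H (sl n x)‖ * (‖uu H x‖ * ‖Ring.inverse (uu H x)‖) := by
      positivity
    nlinarith
  have hδ0 : 0 ≤ δ := (norm_nonneg _).trans hM
  have hAu := (fc_imm hH hw0').2
  have hAA : Ring.inverse (fderiv ℝ (fc H) x : EV (n * 2)) * fderiv ℝ (fc H) x = 1 :=
    Ring.inverse_mul_cancel _ hAu
  -- the inverse of the derivative of the chart expression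
  have hinv : ∀ y : V (n * 2), Ring.inverse (fderiv ℝ (fc H) x : EV (n * 2)) y =
      DC (sl n x) (Ring.inverse (uu H x) (H (sl n x) 0 • Lv n y)) := by
    intro y
    have h1 : (fderiv ℝ (fc H) x : EV (n * 2))
        (DC (sl n x) (Ring.inverse (uu H x) (H (sl n x) 0 • Lv n y))) = y := by
      rw [fderiv_fc hH hw0']
      have h2 := lift_DC (sl n x) (by rw [he0]; exact one_ne_zero)
        (Ring.inverse (uu H x) (H (sl n x) 0 • Lv n y))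
      rw [he0, one_smul, div_one] at h2
      rw [h2, map_sub, hMe]
      have h3 : uu H x (Ring.inverse (uu H x) (H (sl n x) 0 • Lv n y)) = H (sl n x) 0 • Lv n y :=
        DFunLike.congr_fun hMM _
      rw [h3, map_sub, DC_lift _ hw0', DC_self _ _ hw0', sub_zero]
    conv_lhs => rw [← h1]
    exact DFunLike.congr_fun hAA _
  refine ContinuousLinearMap.opNorm_le_bound _ (by positivity) fun v => ?_
  have hval : (Ring.inverse (fderiv ℝ (fc H) x : EV (n * 2)) * fderiv ℝ (fc H') x' - 1) v =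
      DC (sl n x) ((Ring.inverse (uu H x) * uu H' x' - 1) (Lv n v)) +
      DC (sl n x) (Ring.inverse (uu H x) (H (sl n x) 0 •
        Lv n (DC (H' (sl n x')) (uu H' x' (Lv n v)) - DC (H (sl n x)) (uu H' x' (Lv n v))))) := by
    have h1 : (Ring.inverse (fderiv ℝ (fc H) x : EV (n * 2)) * fderiv ℝ (fc H') x' - 1) v =
      Ring.inverse (fderiv ℝ (fc H) x : EV (n * 2)) ((fderiv ℝ (fc H') x' : EV (n * 2)) v) - v := rfl
    rw [h1, hinv, fderiv_fc hH' hw'0]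
    have h2 : (Ring.inverse (uu H x) * uu H' x' - 1) (Lv n v) =
      Ring.inverse (uu H x) (uu H' x' (Lv n v)) - Lv n v := rfl
    rw [h2, map_sub (DC (sl n x))]
    have h3 : DC (sl n x) (Lv n v) = v := by
      have := DC_lift (sl n x) (by rw [he0]; exact one_ne_zero) v
      rwa [he0, one_smul] at this
    rw [h3, map_sub (Lv n), smul_sub, lift_DC (H (sl n x)) hw0', map_sub (Ring.inverse (uu H x)),
      map_sub (Ring.inverse (uu H x)), hMie, map_sub (DC (sl n x)), map_sub (DC (sl n x)),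
      DC_self _ _ (by rw [he0]; exact one_ne_zero)]
    abel
  rw [hval]
  have hP : ∀ ξ : W n, ‖DC (sl n x) ξ‖ ≤ 3 * ‖ξ‖ := by
    intro ξ
    have h1 := DC_norm_le (w := sl n x) (c := 2) (by rw [he0]; simp)
      (by rw [he0]; simpa using norm_sl_le hx) ξ
    rw [he0] at h1
    simp only [norm_one, div_one] at h1
    linarith
  have hLv : ‖Lv n v‖ ≤ 2 * ‖v‖ := norm_Lv_le v
  have hM2 : ‖uu H' x'‖ ≤ 2 * ‖uu H x‖ := by
    have h1 : uu H' x' = uu H x * (Ring.inverse (uu H x) * uu H' x') := by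
      rw [← mul_assoc, hMM, one_mul]
    have h2 : ‖Ring.inverse (uu H x) * uu H' x'‖ ≤ 2 := by
      have h3 : Ring.inverse (uu H x) * uu H' x' =
        (Ring.inverse (uu H x) * uu H' x' - 1) + 1 := by abel
      rw [h3]
      refine (norm_add_le _ _).trans ?_
      rw [norm_one]
      linarith
    rw [h1]
    refine (norm_mul_le _ _).trans ?_
    nlinarith [norm_nonneg (uu H x)]
  have T1 : ‖DC (sl n x) ((Ring.inverse (uu H x) * uu H' x' - 1) (Lv n v))‖ ≤ 6 * δ * ‖v‖ := by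
    refine (hP _).trans ?_
    have h1 : ‖(Ring.inverse (uu H x) * uu H' x' - 1) (Lv n v)‖ ≤ δ * (2 * ‖v‖) := by
      refine (ContinuousLinearMap.le_opNorm _ _).trans ?_
      gcongr
    linarith
  have T2 : ‖DC (sl n x) (Ring.inverse (uu H x) (H (sl n x) 0 •
        Lv n (DC (H' (sl n x')) (uu H' x' (Lv n v)) - DC (H (sl n x)) (uu H' x' (Lv n v)))))‖ ≤
        4416 * ε * ‖v‖ := by
    refine (hP _).trans ?_
    have h1 : ‖uu H' x' (Lv n v)‖ ≤ (2 * ‖uu H x‖) * (2 * ‖v‖) := by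
      refine (ContinuousLinearMap.le_opNorm _ _).trans ?_
      gcongr
    have h2 := DC_sub_le hw0 hw4 hηw (uu H' x' (Lv n v))
    have h3 : ‖Ring.inverse (uu H x) (H (sl n x) 0 •
        Lv n (DC (H' (sl n x')) (uu H' x' (Lv n v)) - DC (H (sl n x)) (uu H' x' (Lv n v))))‖ ≤
        ‖Ring.inverse (uu H x)‖ * (‖H (sl n x) 0‖ * (2 *
          (46 * ‖H' (sl n x') - H (sl n x)‖ / ‖H (sl n x) 0‖ ^ 2 *
            ((2 * ‖uu H x‖) * (2 * ‖v‖))))) := by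
      refine (ContinuousLinearMap.le_opNorm _ _).trans ?_
      gcongr
      rw [norm_smul]
      gcongr
      refine (norm_Lv_le _).trans ?_
      gcongr
      refine h2.trans ?_
      gcongr
    have h4 : ‖Ring.inverse (uu H x)‖ * (‖H (sl n x) 0‖ * (2 *
          (46 * ‖H' (sl n x') - H (sl n x)‖ / ‖H (sl n x) 0‖ ^ 2 *
            ((2 * ‖uu H x‖) * (2 * ‖v‖))))) =
        368 * (‖H' (sl n x') - H (sl n x)‖ * (‖uu H x‖ * ‖Ring.inverse (uu H x)‖)) /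
          ‖H (sl n x) 0‖ * ‖v‖ := by
      field_simp
      ring
    rw [h4] at h3
    have h5 : 368 * (‖H' (sl n x') - H (sl n x)‖ * (‖uu H x‖ * ‖Ring.inverse (uu H x)‖)) /
          ‖H (sl n x) 0‖ * ‖v‖ ≤ 368 * (ε * (4 * ‖H (sl n x) 0‖)) / ‖H (sl n x) 0‖ * ‖v‖ := by
      have e1 : ‖H' (sl n x') - H (sl n x)‖ * (‖uu H x‖ * ‖Ring.inverse (uu H x)‖) ≤
          ε * (4 * ‖H (sl n x) 0‖) := hη.trans (mul_le_mul_of_nonneg_left hw4 hε0)
      exact mul_le_mul_of_nonneg_right (div_le_div_of_nonneg_right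
        (mul_le_mul_of_nonneg_left e1 (by norm_num)) hw0.le) (norm_nonneg _)
    have h6 : 368 * (ε * (4 * ‖H (sl n x) 0‖)) / ‖H (sl n x) 0‖ * ‖v‖ = 1472 * ε * ‖v‖ := by
      field_simp
      ring
    linarith
  refine (norm_add_le _ _).trans ?_
  have : 0 ≤ δ * ‖v‖ := mul_nonneg hδ0 (norm_nonneg _)
  nlinarith

theorem fc_fderiv_le (n : ℕ) : ∃ C : ℝ, 1 ≤ C ∧ ∀ H : W n → W n, HLoc H →
    ∀ x : V (n * 2), ‖x‖ ≤ 1 → ‖H (sl n x)‖ ≤ 4 * ‖H (sl n x) 0‖ →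
    ‖(fderiv ℝ (fc H) x : EV (n * 2))‖ * ‖H (sl n x)‖ ≤ C * ‖uu H x‖ := by
  refine ⟨40, by norm_num, ?_⟩
  intro H hH x hx hw4
  by_cases hz : H (sl n x) = 0
  · rw [hz, norm_zero, mul_zero]
    positivity
  have hwpos : 0 < ‖H (sl n x)‖ := norm_pos_iff.2 hz
  have hw0 : 0 < ‖H (sl n x) 0‖ := by linarith
  have hw0' : H (sl n x) 0 ≠ 0 := norm_pos_iff.1 hw0
  have h1 : ‖(fderiv ℝ (fc H) x : EV (n * 2))‖ ≤ 10 * ‖uu H x‖ / ‖H (sl n x) 0‖ := by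
    refine ContinuousLinearMap.opNorm_le_bound _ (by positivity) fun v => ?_
    rw [fderiv_fc hH hw0']
    refine (DC_norm_le hw0 hw4 _).trans ?_
    have h2 : ‖uu H x (Lv n v)‖ ≤ ‖uu H x‖ * (2 * ‖v‖) := by
      refine (ContinuousLinearMap.le_opNorm _ _).trans ?_
      gcongr
      exact norm_Lv_le v
    calc (1 + 4) * ‖uu H x (Lv n v)‖ / ‖H (sl n x) 0‖ ≤
          (1 + 4) * (‖uu H x‖ * (2 * ‖v‖)) / ‖H (sl n x) 0‖ := by gcongr
      _ = _ := by ring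
  calc ‖(fderiv ℝ (fc H) x : EV (n * 2))‖ * ‖H (sl n x)‖ ≤
        (10 * ‖uu H x‖ / ‖H (sl n x) 0‖) * (4 * ‖H (sl n x) 0‖) := by gcongr
    _ = _ := by
      field_simp
      ring

end Pool.Agent.Lib.P28g
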