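import Pool.Agent.Lib.P28g.ChartGeom
import Pool.Agent.Lib.P28g.AnnG

set_option autoImplicit false

/-!
# A controlled lift is a controlled function in the affine chart

PROOF SKETCH. `C` from `chm_ge`, `N = ⌈2 C / κ⌉`. Units: `isUnit_uu`. Let `closedBall z r ⊆ ball 0 1` have `chm ν`-mass `≤ c` (`r > 0`; if `n = 0` everything is trivial or degenerate: `V 0` is a point, the statement still holds with `N ≥ 1`). For `x ∈ closedBall z (r/8)`: `closedBall x (r/2) ⊆ closedBall z r`, so
`ν (PB (pt (sl n x)) (r / (2 C))) ≤ c` and `dΨ` is `δ`-flat on `closedBall (sl n x) (κ (r / (2 C)) ‖sl n x‖)`, `‖sl n x‖ ≥ 1`: for `y` with `‖y - x‖ ≤ κ r / (4 C)` `‖(uu Ψ x)⁻¹ uu Ψ y - 1‖ ≤ δ` (`norm_sl_sub_le`). Divide the segment from `x` to `x'`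
(both in `closedBall z (r/8)`, `‖x - x'‖ ≤ r/4`) into `N` equal parts and use `flatU_chain`: the error after `k` steps is `≤ (1 + δ)^k - 1`.
-/

open MeasureTheory Set Metric
open scoped ContDiff Topology ENNReal

namespace Pool.Agent.Lib.P28g

open Pool.Agent.P28b04d Pool.Agent.Lib.P28e Pool.Agent.Lib.P28c
open Pool.Agent.Lib.P28f (V EV)

variable {n m : ℕ}

theorem chart_ctrl (n : ℕ) (hn : 1 ≤ n) {κ : ℝ} (hκ : 0 < κ) (hκ1 : κ ≤ 1) : ∃ N : ℕ,
    ∀ (δ c : ℝ) (Ψ : W n → W n) (ν : Measure (W n)), IsFiniteMeasure ν → 0 ≤ δ →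
      CtrlW κ δ c Ψ ν → CtrlG ((1 + δ) ^ N - 1) c (ball 0 1) (uu Ψ) (chm ν) := by
  obtain ⟨C, hC1, hC⟩ := chm_ge n
  have hC0 : 0 < C := by linarith
  obtain ⟨N, hN⟩ := exists_nat_ge (4 * C / κ)
  have hN0 : (0 : ℝ) < N := lt_of_lt_of_le (by positivity) hN
  have hNk : 4 * C ≤ κ * N := by
    rw [div_le_iff₀ hκ] at hN
    linarith
  refine ⟨N, fun δ c Ψ ν hν hδ h => ⟨fun x _ => isUnit_uu h.hloc x, ?_⟩⟩
  intro z r hr hzr hc x hx x' hx'
  have := hν
  have : IsFiniteMeasure (chm ν) := chm_finite ν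
  have hsub : closedBall z (r / 8) ⊆ closedBall z r := closedBall_subset_closedBall (by linarith)
  -- radius
  set r' : ℝ := min (r / 2) 1 with hr'
  have hr0 : 0 < r' := lt_min (by linarith) one_pos
  have hr1 : r' ≤ 1 := min_le_right _ _
  have hr2 : r' ≤ r / 2 := min_le_left _ _
  have hlt1 : ∀ y ∈ closedBall z (r / 8), ‖y‖ < 1 := fun y hy => by
    simpa using hzr (hsub hy)
  -- one step
  have hstep : ∀ y ∈ closedBall z (r / 8), ∀ y' : V (n * 2), 2 * ‖y - y'‖ ≤ κ * (r' / C) →
      ‖Ring.inverse (uu Ψ y) * uu Ψ y' - 1‖ ≤ δ := by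
    intro y hy y' hyy
    have h1 : ν.real (PB (pt (sl n y)) (r' / C)) ≤ c := by
      refine (hC ν hν y (hlt1 y hy).le r' hr0 hr1).trans (le_trans ?_ hc)
      refine measureReal_mono ?_ (measure_ne_top _ _)
      intro w hw
      rw [mem_closedBall] at hw hy ⊢
      have := dist_triangle w y z
      linarith
    have hne : sl n y ≠ 0 := by
      intro h0
      have := one_le_norm_sl y
      rw [h0, norm_zero] at this
      linarith
    have hs1 : r' / C ≤ 1 := by
      rw [div_le_one hC0]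
      linarith
    have h2 := h.flat (sl n y) hne (r' / C) (div_pos hr0 hC0) hs1 h1
    have hk0 : 0 ≤ κ * (r' / C) := by positivity
    refine h2 (sl n y) (mem_closedBall_self (by positivity)) (sl n y') ?_
    rw [mem_closedBall, dist_comm, dist_eq_norm]
    have h3 := norm_sl_sub_le y y'
    have h4 := one_le_norm_sl y
    nlinarith
  -- length
  have hlen : ‖x' - x‖ ≤ 2 * r' := by
    have h1 : ‖x' - x‖ ≤ r / 4 := by
      have := dist_triangle_right x' x z
      rw [mem_closedBall] at hx hx'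
      rw [← dist_eq_norm]
      linarith
    have h2 : ‖x' - x‖ ≤ 2 := by
      have := norm_sub_le x' x
      have := hlt1 x hx
      have := hlt1 x' hx'
      linarith
    rcases le_total (r / 2) 1 with h3 | h3
    · rw [hr', min_eq_left h3]; linarith
    · rw [hr', min_eq_right h3]; linarith
  set p : ℕ → V (n * 2) := fun k => x + ((k : ℝ) / N) • (x' - x) with hp
  have hpmem : ∀ k : ℕ, k ≤ N → p k ∈ closedBall z (r / 8) := by
    intro k hk
    have hconv : Convex ℝ (closedBall z (r / 8)) := convex_closedBall _ _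
    refine hconv.add_smul_sub_mem hx hx' ⟨by positivity, ?_⟩
    rw [div_le_one hN0]
    exact_mod_cast hk
  have hpd : ∀ k : ℕ, ‖p k - p (k + 1)‖ = ‖x' - x‖ / N := by
    intro k
    have h1 : p k - p (k + 1) = (-(1 / (N : ℝ))) • (x' - x) := by
      simp only [hp]
      push_cast
      rw [add_sub_add_left_eq_sub, ← sub_smul]
      congr 1
      field_simp
      ring
    rw [h1, norm_smul, norm_neg, Real.norm_eq_abs, abs_of_pos (by positivity)]
    ring
  have hsmall : 2 * (‖x' - x‖ / N) ≤ κ * (r' / C) := by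
    rw [← mul_div_assoc, ← mul_div_assoc, div_le_div_iff₀ hN0 hC0]
    nlinarith
  have key : ∀ k : ℕ, k ≤ N → ‖Ring.inverse (uu Ψ x) * uu Ψ (p k) - 1‖ ≤ (1 + δ) ^ k - 1 := by
    intro k
    induction k with
    | zero =>
      intro _
      have h0 : p 0 = x := by simp [hp]
      rw [h0, Ring.inverse_mul_cancel _ (isUnit_uu h.hloc x)]
      simp
    | succ k ih =>
      intro hk
      have h1 := ih (by omega)
      have h2 := hstep (p k) (hpmem k (by omega)) (p (k + 1)) (by rw [hpd k]; exact hsmall)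
      refine (flatU_chain (isUnit_uu h.hloc (p k)) h1 h2).trans (le_of_eq ?_)
      ring
  have h0 := key N le_rfl
  have h1 : p N = x' := by
    simp [hp, hN0.ne']
  rwa [h1] at h0

end Pool.Agent.Lib.P28g
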