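import Pool.Agent.Lib.P28g.ChartApi

set_option autoImplicit false

/-!
# The affine chart and the Frobenius distance

PROOF. First part: `fd_pt_le` with `sl n x - e0 n = Lv n x`, `‖Lv n x‖ ≤ 2 ‖x‖`, `‖e0 n‖ = 1` (`n + 1 ≥ 1` coordinates). Second part: `(pt z) i j = z i * star (z j) / nsq z`. With `P = pt z`, `Q = pt (sl n x)`: `Q 0 0 = 1 / nsq (sl n x) ≥ 1 / (1 + 4 n)`
(`‖kap n x‖ ≤ 2`), every entry of `P - Q` is at most `fd P Q` in norm (`fd` is the square root of the sum of the squares). So `P 0 0 ≠ 0` if `fd P Q ≤ 1 / (2 (1 + 4 n))`, i.e. `z 0 ≠ 0`, and `z (k+1) / z 0 = P (k+1) 0 / P 0 0`,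
which differs from `Q (k+1) 0 / Q 0 0 = kap n x k` by at most `C fd P Q`; finally `‖cc z - x‖ ≤ ‖kap n (cc z - x)‖` (`norm_le_kap`).
`chm_ge`: `PB (pt (sl n x)) (r / C) ⊆ {z | z 0 ≠ 0} ∩ cc ⁻¹' closedBall x r` (for `z = 0`: `pt 0 = 0` and `fd 0 (pt w) = 1`, so `0` is not in `PB _ s` for `s ≤ 1`); `Measure.map_apply measurable_cc`, `Measure.restrict_apply`.
-/

open MeasureTheory Set Metric
open scoped ContDiff Topology ENNReal

namespace Pool.Agent.Lib.P28g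

open Pool.Agent.P28b04d Pool.Agent.Lib.P28e Pool.Agent.Lib.P28c
open Pool.Agent.Lib.P28f (V EV)

variable {n m : ℕ}

namespace ChartGeomAux

theorem norm_entry_le (P Q : Mat n) (i j : Fin (n + 1)) : ‖P i j - Q i j‖ ≤ fd P Q := by
  apply le_of_sq_le_sq' _ (fd_nonneg P Q)
  rw [FdAux.fd_sq, ← Complex.normSq_eq_norm_sq]
  calc Complex.normSq (P i j - Q i j) ≤ ∑ j, Complex.normSq (P i j - Q i j) :=
        Finset.single_le_sum (f := fun j => Complex.normSq (P i j - Q i j))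
          (fun _ _ => Complex.normSq_nonneg _) (Finset.mem_univ j)
    _ ≤ ∑ i, ∑ j, Complex.normSq (P i j - Q i j) :=
        Finset.single_le_sum (f := fun i => ∑ j, Complex.normSq (P i j - Q i j))
          (fun _ _ => Finset.sum_nonneg fun _ _ => Complex.normSq_nonneg _) (Finset.mem_univ i)
where
  le_of_sq_le_sq' {a b : ℝ} (h : a ^ 2 ≤ b ^ 2) (hb : 0 ≤ b) : a ≤ b := by
    nlinarith [abs_le_of_sq_le_sq' h hb]

theorem e0_ne (n : ℕ) : e0 n ≠ 0 := by
  intro h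
  have := congrFun h 0
  simp [e0] at this

theorem sl_ne (x : V (n * 2)) : sl n x ≠ 0 := by
  intro h
  have := congrFun h 0
  rw [sl_apply_zero] at this
  simp at this

theorem one_le_norm_e0 (n : ℕ) : 1 ≤ ‖e0 n‖ := by
  have h := norm_le_pi_norm (e0 n) 0
  simpa [e0] using h

theorem fd_sl_le (x : V (n * 2)) : fd (pt (sl n x)) (pt (e0 n)) ≤ 4 * ((n : ℝ) + 1) * ‖x‖ := by
  have h1 := fd_pt_le (sl_ne x) (e0_ne n)
  have h2 : ‖sl n x - e0 n‖ ≤ 2 * ‖x‖ := by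
    rw [sl_eq, add_sub_cancel_left]
    exact norm_Lv_le x
  have h3 := one_le_norm_e0 n
  refine h1.trans ((div_le_self (by positivity) h3).trans ?_)
  have h4 : 2 * ((n : ℝ) + 1) * ‖sl n x - e0 n‖ ≤ 2 * ((n : ℝ) + 1) * (2 * ‖x‖) :=
    mul_le_mul_of_nonneg_left h2 (by positivity)
  linarith

theorem nsq_sl_le {x : V (n * 2)} (hx : ‖x‖ ≤ 1) : nsq (sl n x) ≤ 1 + 4 * n := by
  unfold nsq
  rw [Fin.sum_univ_succ]
  have h1 : Complex.normSq (sl n x 0) = 1 := by rw [sl_apply_zero]; simp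
  have h2 : ∑ i : Fin n, Complex.normSq (sl n x i.succ) ≤ ∑ _i : Fin n, (4 : ℝ) := by
    refine Finset.sum_le_sum fun i _ => ?_
    have h3 : sl n x i.succ = kap n x i := by simp [sl]
    rw [h3, Complex.normSq_eq_norm_sq]
    have h4 : ‖kap n x i‖ ≤ 2 := (norm_le_pi_norm (kap n x) i).trans
      ((norm_kap_le n x).trans (by linarith))
    nlinarith [norm_nonneg (kap n x i)]
  rw [h1]
  simp only [Finset.sum_const, Finset.card_univ, Fintype.card_fin, nsmul_eq_mul] at h2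
  linarith

theorem nsq_sl_pos (x : V (n * 2)) : 0 < nsq (sl n x) := nsq_pos (sl_ne x)

theorem quot_bound {a b p q : ℂ} {d K : ℝ} (hp : p ≠ 0) (hq : q ≠ 0) (hab : ‖a - b‖ ≤ d)
    (hpq : ‖p - q‖ ≤ d) (hb : ‖b / q‖ ≤ K) : ‖a / p - b / q‖ ≤ d * (1 + K) / ‖p‖ := by
  have e : a / p - b / q = ((a - b) - b / q * (p - q)) / p := by
    field_simp
    ring
  have hd : 0 ≤ d := (norm_nonneg _).trans hab
  rw [e, norm_div]
  apply div_le_div_of_nonneg_right _ (norm_nonneg _)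
  calc ‖(a - b) - b / q * (p - q)‖ ≤ ‖a - b‖ + ‖b / q * (p - q)‖ := norm_sub_le _ _
    _ = ‖a - b‖ + ‖b / q‖ * ‖p - q‖ := by rw [norm_mul]
    _ ≤ d + K * d := add_le_add hab (mul_le_mul hb hpq (norm_nonneg _) ((norm_nonneg _).trans hb))
    _ = d * (1 + K) := by ring

theorem second_part {x : V (n * 2)} (hx : ‖x‖ ≤ 1) {z : W n} (hz : z ≠ 0)
    (h : (6 * (1 + 4 * n) : ℝ) * fd (pt z) (pt (sl n x)) ≤ 1) :
    z 0 ≠ 0 ∧ ‖cc z - x‖ ≤ (6 * (1 + 4 * n) : ℝ) * fd (pt z) (pt (sl n x)) := by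
  set d := fd (pt z) (pt (sl n x)) with hd
  have hd0 : 0 ≤ d := fd_nonneg _ _
  have hN : (0 : ℝ) < 1 + 4 * n := by positivity
  have hs := nsq_sl_pos x
  have hs2 := nsq_sl_le hx
  have hzs := nsq_pos hz
  have hQ : pt (sl n x) 0 0 = ((nsq (sl n x))⁻¹ : ℝ) := by
    unfold pt
    rw [sl_apply_zero]
    simp
  have hq : 1 / (1 + 4 * (n : ℝ)) ≤ ‖pt (sl n x) 0 0‖ := by
    rw [hQ, Complex.norm_real, Real.norm_eq_abs, abs_of_pos (inv_pos.2 hs), ← one_div]
    exact one_div_le_one_div_of_le hs hs2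
  have hpq := norm_entry_le (pt z) (pt (sl n x)) 0 0
  rw [← hd] at hpq
  have hd2 : d ≤ 1 / (1 + 4 * (n : ℝ)) / 2 := by
    rw [div_div, le_div_iff₀ (by positivity)]
    nlinarith
  have hp : 1 / (1 + 4 * (n : ℝ)) / 2 ≤ ‖pt z 0 0‖ := by
    have h1 : ‖pt (sl n x) 0 0‖ ≤ ‖pt z 0 0‖ + ‖pt z 0 0 - pt (sl n x) 0 0‖ := by
      have := norm_sub_le (pt z 0 0) (pt z 0 0 - pt (sl n x) 0 0)
      rwa [sub_sub_cancel] at this
    linarith
  have hp0 : pt z 0 0 ≠ 0 := by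
    intro h0
    rw [h0, norm_zero] at hp
    have : 0 < 1 / (1 + 4 * (n : ℝ)) / 2 := by positivity
    linarith
  have hq0 : pt (sl n x) 0 0 ≠ 0 := by
    intro h0
    rw [h0, norm_zero] at hq
    have : 0 < 1 / (1 + 4 * (n : ℝ)) := by positivity
    linarith
  have hz0 : z 0 ≠ 0 := by
    intro h0
    apply hp0
    unfold pt
    rw [h0]
    simp
  refine ⟨hz0, ?_⟩
  refine (norm_le_kap n _).trans ?_
  rw [pi_norm_le_iff_of_nonneg (by positivity)]
  intro k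
  have e1 : kap n (cc z - x) k = z k.succ / z 0 - kap n x k := by
    rw [map_sub]
    simp [cc]
  have hnz : (nsq z : ℂ) ≠ 0 := by exact_mod_cast hzs.ne'
  have hns : (nsq (sl n x) : ℂ) ≠ 0 := by exact_mod_cast hs.ne'
  have e2 : z k.succ / z 0 = pt z k.succ 0 / pt z 0 0 := by
    unfold pt
    have h2 : star (z 0) ≠ 0 := star_ne_zero.2 hz0
    rw [div_div_div_cancel_right₀ hnz, mul_div_mul_right _ _ h2]
  have e3 : kap n x k = pt (sl n x) k.succ 0 / pt (sl n x) 0 0 := by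
    unfold pt
    rw [div_div_div_cancel_right₀ hns, sl_apply_zero]
    simp [sl]
  have h4 : ‖kap n x k‖ ≤ 2 := (norm_le_pi_norm (kap n x) k).trans
      ((norm_kap_le n x).trans (by linarith))
  rw [e1, e2, e3]
  refine (quot_bound (K := 2) hp0 hq0 (norm_entry_le _ _ _ _) hpq (by rw [← e3]; exact h4)).trans ?_
  rw [← hd, div_le_iff₀ (by linarith [norm_pos_iff.2 hp0])]
  have h5 : d * (1 + 2) ≤ 6 * (1 + 4 * n) * d * (1 / (1 + 4 * (n : ℝ)) / 2) := by
    apply le_of_eq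
    field_simp
    ring
  refine h5.trans ?_
  exact mul_le_mul_of_nonneg_left hp (by positivity)

end ChartGeomAux

open ChartGeomAux

theorem chart_geom (n : ℕ) : ∃ C : ℝ, 1 ≤ C ∧
    (∀ x : V (n * 2), ‖x‖ ≤ 1 → fd (pt (sl n x)) (pt (e0 n)) ≤ C * ‖x‖) ∧
    ∀ x : V (n * 2), ‖x‖ ≤ 1 → ∀ z : W n, z ≠ 0 → C * fd (pt z) (pt (sl n x)) ≤ 1 →
      z 0 ≠ 0 ∧ ‖cc z - x‖ ≤ C * fd (pt z) (pt (sl n x)) := by
  have hn : (0 : ℝ) ≤ n := Nat.cast_nonneg n
  refine ⟨6 * (1 + 4 * n), by linarith, fun x _ => ?_, fun x hx z hz h => second_part hx hz h⟩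
  refine (fd_sl_le x).trans (mul_le_mul_of_nonneg_right (by linarith) (norm_nonneg _))

theorem zero_not_mem_PB {w : W n} (hw : w ≠ 0) {s : ℝ} (hs : s ≤ 1) : (0 : W n) ∉ PB (pt w) s := by
  have h1 : fd (pt (0 : W n)) (pt w) = 1 := by
    have e : pt (0 : W n) = 0 := by
      funext i j
      unfold pt
      simp
    rw [e]
    unfold fd
    have e2 : ∑ i, ∑ j, Complex.normSq ((0 : Mat n) i j - pt w i j) = 1 := by
      rw [← FdAux.sum_normSq_pt hw]
      refine Finset.sum_congr rfl fun i _ => Finset.sum_congr rfl fun j _ => ?_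
      rw [Pi.zero_apply, Pi.zero_apply, zero_sub, Complex.normSq_neg]
    rw [e2, Real.sqrt_one]
  intro h
  have h2 : fd (pt (0 : W n)) (pt w) < s := h
  linarith

theorem chm_ge (n : ℕ) : ∃ C : ℝ, 1 ≤ C ∧ ∀ ν : Measure (W n), IsFiniteMeasure ν →
    ∀ x : V (n * 2), ‖x‖ ≤ 1 → ∀ r : ℝ, 0 < r → r ≤ 1 →
      ν.real (PB (pt (sl n x)) (r / C)) ≤ (chm ν).real (closedBall x r) := by
  obtain ⟨C, hC, -, h2⟩ := chart_geom n
  refine ⟨C, hC, fun ν hν x hx r hr hr1 => ?_⟩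
  have hC0 : 0 < C := by linarith
  have e : (chm ν).real (closedBall x r) = ν.real (cc ⁻¹' closedBall x r ∩ {z | z 0 ≠ 0}) := by
    unfold Measure.real chm
    rw [Measure.map_apply measurable_cc measurableSet_closedBall,
      Measure.restrict_apply (measurable_cc measurableSet_closedBall)]
  rw [e]
  refine measureReal_mono ?_
  intro z hz
  have h3 : fd (pt z) (pt (sl n x)) < r / C := hz
  have hrC : r / C ≤ 1 := (div_le_one hC0).2 (hr1.trans hC)
  have hz0 : z ≠ 0 := by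
    intro h0
    rw [h0] at hz
    exact zero_not_mem_PB (ChartGeomAux.sl_ne x) hrC hz
  have h4 : C * fd (pt z) (pt (sl n x)) < r := by
    rw [lt_div_iff₀ hC0] at h3
    linarith
  obtain ⟨h5, h6⟩ := h2 x hx z hz0 (by linarith)
  refine ⟨?_, h5⟩
  rw [mem_preimage, mem_closedBall, dist_eq_norm]
  linarith

theorem chm_finite (ν : Measure (W n)) [IsFiniteMeasure ν] : IsFiniteMeasure (chm ν) := by
  unfold chm
  infer_instance

theorem chm_le (ν : Measure (W n)) [IsFiniteMeasure ν] (S : Set (V (n * 2))) :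
    (chm ν).real S ≤ ν.real univ := by
  have := chm_finite ν
  refine (measureReal_mono (subset_univ S)).trans ?_
  have e : (chm ν).real univ = ν.real (cc ⁻¹' univ ∩ {z | z 0 ≠ 0}) := by
    unfold Measure.real chm
    rw [Measure.map_apply measurable_cc MeasurableSet.univ,
      Measure.restrict_apply (measurable_cc MeasurableSet.univ)]
  rw [e]
  exact measureReal_mono (subset_univ _)

end Pool.Agent.Lib.P28g
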