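import Pool.Agent.Lib.P28g.AnnG

set_option autoImplicit false

/-!
# A light collar is flat

PROOF SKETCH. `ann_ctrl_g` at `a = 0` for `R = s/8, s/4, s/2, s`: `closedBall 0 (9/4 R) \ ball 0 (3/4 R) ⊆ ball 0 (4 s) \ closedBall 0 (s/16)` (`9/4 s < 4 s`, `3/32 s > s/16`). Consecutive annuli share the sphere
`‖x‖ = 2 R` (take the point `(2 R / ‖w0‖) • w0`, or `(8/3 R) • w0`, `norm_w0`), so two points of the union are joined by a chain of at most four annuli:
`(1 + 2000 δ)^4 - 1 ≤ 10000 δ` for `2000 δ ≤ 1/20` (`flatU_chain`).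
-/

open MeasureTheory Set Metric
open scoped ContDiff Topology ENNReal

namespace Pool.Agent.Lib.P28g

open Pool.Agent.P28b04d Pool.Agent.Lib.P28e Pool.Agent.Lib.P28c
open Pool.Agent.Lib.P28f (V EV ann)

variable {n m : ℕ}

namespace CollarFlatAux

theorem flat_union {A : Type} [NormedRing A] [NormOneClass A] [CompleteSpace A] {X : Type}
    {u : X → A} {S T : Set X} {α β : ℝ} (hα : 0 ≤ α) (hβ : 0 ≤ β) (h1 : FlatU α S u)
    (h2 : FlatU β T u) {p : X} (hp : p ∈ S) (hp' : p ∈ T) (hu : IsUnit (u p)) :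
    FlatU (α + β + α * β) (S ∪ T) u := by
  have hαβ : 0 ≤ α * β := mul_nonneg hα hβ
  intro x hx y hy
  rcases hx with hx | hx <;> rcases hy with hy | hy
  · exact (h1 x hx y hy).trans (by linarith)
  · exact flatU_chain hu (h1 x hx p hp) (h2 p hp' y hy)
  · have := flatU_chain hu (h2 x hx p hp') (h1 p hp y hy)
    linarith [mul_comm α β]
  · exact (h2 x hx y hy).trans (by linarith)

theorem flat_mono {A : Type} [NormedRing A] {X : Type} {u : X → A} {S T : Set X} {α β : ℝ}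
    (hST : S ⊆ T) (hαβ : α ≤ β) (h : FlatU α T u) : FlatU β S u :=
  fun x hx y hy => (h x (hST hx) y (hST hy)).trans hαβ

end CollarFlatAux

open CollarFlatAux

theorem collar_flat {A : Type} [NormedRing A] [NormOneClass A] [CompleteSpace A] (hm : 2 ≤ m)
    {δ c s : ℝ} (h0 : 0 ≤ δ) (h1 : δ ≤ 1 / 40000) {u : V m → A} {μ : Measure (V m)}
    [IsFiniteMeasure μ] (h : CtrlG δ c (ball 0 1) u μ) (hs : 0 < s) (hs1 : 4 * s ≤ 1)
    (hμ : μ.real (ball 0 (4 * s) \ closedBall 0 (s / 16)) ≤ c) :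
    FlatU (10000 * δ) {x : V m | s / 8 ≤ ‖x‖ ∧ ‖x‖ ≤ 2 * s} u := by
  have hann : ∀ R : ℝ, s / 8 ≤ R → R ≤ s → FlatU (2000 * δ) (ann (0 : V m) R) u := by
    intro R hR1 hR2
    have hR0 : 0 < R := by linarith
    refine ann_ctrl_g hm h0 (by linarith) h hR0 ?_ ?_
    · intro x hx
      rw [mem_closedBall_zero_iff] at hx
      rw [mem_ball_zero_iff]
      linarith
    · refine le_trans (measureReal_mono ?_) hμ
      intro x hx
      rw [mem_sdiff, mem_closedBall_zero_iff, mem_ball_zero_iff, not_lt] at hx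
      rw [mem_sdiff, mem_closedBall_zero_iff, mem_ball_zero_iff, not_le]
      constructor
      · linarith [hx.1]
      · linarith [hx.2]
  have hpt : ∀ ρ : ℝ, 0 ≤ ρ → ∃ p : V m, ‖p‖ = ρ := by
    intro ρ hρ
    have : Nonempty (Fin m) := ⟨⟨0, by omega⟩⟩
    refine ⟨fun _ => ρ, ?_⟩
    rw [pi_norm_const, Real.norm_of_nonneg hρ]
  have hunit : ∀ p : V m, ‖p‖ < 1 → IsUnit (u p) := fun p hp =>
    h.unit p (by rw [mem_ball_zero_iff]; exact hp)
  obtain ⟨p1, hp1⟩ := hpt (s / 4) (by linarith)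
  obtain ⟨p2, hp2⟩ := hpt (s / 2) (by linarith)
  obtain ⟨p3, hp3⟩ := hpt s hs.le
  have hmem : ∀ (p : V m) (R : ℝ), R ≤ ‖p‖ → ‖p‖ ≤ 2 * R → p ∈ ann (0 : V m) R := by
    intro p R h3 h4
    unfold ann
    rw [mem_ofPred_eq, sub_zero]
    exact ⟨h3, h4⟩
  set t : ℝ := 2000 * δ with ht
  have ht0 : 0 ≤ t := by positivity
  have ht1 : t ≤ 1 / 20 := by rw [ht]; linarith
  have f1 := flat_union ht0 ht0 (hann (s / 8) le_rfl (by linarith)) (hann (s / 4) (by linarith) (by linarith))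
    (p := p1) (hmem _ _ (by rw [hp1]; linarith) (by rw [hp1]; linarith))
    (hmem _ _ (by rw [hp1]) (by rw [hp1]; linarith)) (hunit p1 (by rw [hp1]; linarith))
  have f2 := flat_union (by positivity) ht0 f1 (hann (s / 2) (by linarith) (by linarith))
    (p := p2) (Or.inr (hmem _ _ (by rw [hp2]; linarith) (by rw [hp2]; linarith)))
    (hmem _ _ (by rw [hp2]) (by rw [hp2]; linarith)) (hunit p2 (by rw [hp2]; linarith))
  have f3 := flat_union (by positivity) ht0 f2 (hann s (by linarith) le_rfl)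
    (p := p3) (Or.inr (hmem _ _ (by rw [hp3]; linarith) (by rw [hp3]; linarith)))
    (hmem _ _ (by rw [hp3]) (by rw [hp3]; linarith)) (hunit p3 (by rw [hp3]; linarith))
  refine flat_mono ?_ ?_ f3
  · intro x hx
    obtain ⟨hx1, hx2⟩ := hx
    rcases le_or_gt ‖x‖ (s / 4) with h3 | h3
    · exact Or.inl (Or.inl (Or.inl (hmem _ _ hx1 (by linarith))))
    · rcases le_or_gt ‖x‖ (s / 2) with h4 | h4
      · exact Or.inl (Or.inl (Or.inr (hmem _ _ h3.le (by linarith))))
      · rcases le_or_gt ‖x‖ s with h5 | h5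
        · exact Or.inl (Or.inr (hmem _ _ h4.le (by linarith)))
        · exact Or.inr (hmem _ _ h5.le hx2)
  · have e : 10000 * δ = 5 * t := by rw [ht]; ring
    rw [e]
    have e2 : t * t ≤ t / 20 := by nlinarith
    have e3 : t * t * t ≤ t / 400 := by nlinarith [mul_nonneg ht0 ht0]
    have e4 : t * t * t * t ≤ t / 8000 := by nlinarith [mul_nonneg (mul_nonneg ht0 ht0) ht0]
    nlinarith [mul_nonneg ht0 ht0]

end Pool.Agent.Lib.P28g
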