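import Pool.Agent.Lib.P28g.Confine
import Pool.Agent.Lib.P28g.CollarFlat

set_option autoImplicit false

/-!
# The chart expression of a controlled lift is a controlled map

PROOF SKETCH. `δ₀`, `ε₀` from `confine`, `C` from `chart_cmp`. `δu = min (1/40000) (min (δ₀ / 10000) (min (δf / (4 C)) (1/4)))`. Given `Λ` choose `s₁ ≤ 1/4` with `sqrt (8 Λ s₁) ≤ ε₀` and `sqrt (2 Λ s₁) ≤ min (1/8) (δf / (4 C))`.
Confinement: `collar_flat` gives the flatness on `{s/8 ≤ ‖x‖ ≤ 2 s}`. At `p = (s/2) • w0` (`‖p‖ = 3/8 s`) the ball `closedBall p (s/8)` lies in the collar, mass `≤ c`, so `cond^4 * (s/8) ≤ Λ`, hence `s * cond^2 ≤ sqrt (8 Λ s) ≤ ε₀` (`cond = ‖uu H p‖ ‖(uu H p)⁻¹‖`).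
`Ctrl` on `ball 0 s`: `Imm` by `fc_imm` (`H (sl n x) 0 ≠ 0` because `‖H (sl n x)‖ ≤ 2 ‖H (sl n x) 0‖` and `H (sl n x) ≠ 0`, `HLoc.ne`). Flat: `closedBall z r ⊆ ball 0 s` of mass `≤ c` (so `r < s`; `m ≥ 1`), `x, x' ∈ closedBall z (r/8)`: `‖(uu H x)⁻¹ uu H x' - 1‖ ≤ δu`;
`closedBall x (r/2) ⊆ closedBall z r` so `cond x ^4 * (r/2) ≤ Λ`, `r cond x ^2 ≤ sqrt (2 Λ r)`. Mean value inequality on the segment from `x` to `x'` (inside `closedBall z (r/8)`, derivative of `y ↦ H (sl n y)` is `uu H y ∘ Lv n`, norm `≤ ‖uu H x‖ (1 + δu) 2`):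
`‖H (sl n x') - H (sl n x)‖ ≤ ‖uu H x‖ * (5/2) * (r/4) ≤ r ‖uu H x‖`, and `1 ≤ ‖sl n x‖ ≤ ‖(uu H x)⁻¹‖ ‖H (sl n x)‖` (`fderiv_homog`, `b = 1`), so the second hypothesis of `chart_cmp` holds with `ε = r cond^2 ≤ sqrt (2 Λ s)`:
`C (δu + ε) ≤ δf / 2`.
-/

open MeasureTheory Set Metric
open scoped ContDiff Topology ENNReal

namespace Pool.Agent.Lib.P28g

open Pool.Agent.P28b04d Pool.Agent.Lib.P28e Pool.Agent.Lib.P28c
open Pool.Agent.Lib.P28f (V EV w0 Ctrl Flat)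

variable {n m : ℕ}

/-- Both ends of a diameter: a ball contained in the ball of radius `s` has radius at most `s`. -/
theorem ChartLocAux.radius_le (hm : 1 ≤ m) {z : V m} {r s : ℝ} (hr : 0 < r)
    (h : closedBall z r ⊆ ball (0 : V m) s) : r ≤ s := by
  have hw : ‖w0 m‖ = 3 / 4 := Pool.Agent.Lib.P28f.norm_w0 hm
  have hv : ‖(r * (4 / 3)) • w0 m‖ = r := by
    rw [norm_smul, hw, Real.norm_of_nonneg (by positivity)]
    ring
  have h1 : z + (r * (4 / 3)) • w0 m ∈ closedBall z r := by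
    rw [mem_closedBall, dist_eq_norm, add_sub_cancel_left, hv]
  have h2 : z - (r * (4 / 3)) • w0 m ∈ closedBall z r := by
    rw [mem_closedBall, dist_eq_norm, sub_sub_cancel_left, norm_neg, hv]
  have h3 := h h1
  have h4 := h h2
  rw [mem_ball_zero_iff] at h3 h4
  have h5 : ‖(2 : ℝ) • ((r * (4 / 3)) • w0 m)‖ ≤ ‖z + (r * (4 / 3)) • w0 m‖ +
      ‖z - (r * (4 / 3)) • w0 m‖ := by
    have e : (2 : ℝ) • ((r * (4 / 3)) • w0 m) =
        (z + (r * (4 / 3)) • w0 m) - (z - (r * (4 / 3)) • w0 m) := by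
      rw [two_smul]; abel
    rw [e]
    exact norm_sub_le _ _
  rw [norm_smul, hv, Real.norm_of_nonneg (by norm_num)] at h5
  linarith

/-- From a fourth power bound to a square bound. -/
theorem ChartLocAux.sq_bound {k r s a Λ ε : ℝ} (_hk : 0 ≤ k) (hr : 0 < r) (hrs : r ≤ s)
    (ha : 0 < a) (hΛ : 1 ≤ Λ) (hε : 0 < ε) (h : k ^ 4 * (r / a) ≤ Λ)
    (hs : s ≤ ε ^ 2 / (a * Λ)) : r * k ^ 2 ≤ ε := by
  have hΛ0 : 0 < Λ := by linarith
  have h1 : k ^ 4 * r ≤ a * Λ := by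
    have h2 : k ^ 4 * (r / a) * a ≤ Λ * a := mul_le_mul_of_nonneg_right h ha.le
    have h3 : k ^ 4 * (r / a) * a = k ^ 4 * r := by field_simp
    rw [h3] at h2
    linarith
  have h4 : s * (a * Λ) ≤ ε ^ 2 := (le_div_iff₀ (by positivity)).1 hs
  have h5 : (r * k ^ 2) ^ 2 ≤ ε ^ 2 := by
    calc (r * k ^ 2) ^ 2 = r * (k ^ 4 * r) := by ring
      _ ≤ r * (a * Λ) := mul_le_mul_of_nonneg_left h1 hr.le
      _ ≤ s * (a * Λ) := mul_le_mul_of_nonneg_right hrs (by positivity)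
      _ ≤ ε ^ 2 := h4
  exact (sq_le_sq₀ (by positivity) hε.le).1 h5

/-- The mean value inequality for the lift on the affine slice. -/
theorem ChartLocAux.mean {H : W n → W n} (hH : HLoc H) {z x x' : V (n * 2)} {r δ : ℝ}
    (hr : 0 < r) (hδ : δ ≤ 1 / 4) (hx : x ∈ closedBall z (r / 8)) (hx' : x' ∈ closedBall z (r / 8))
    (hf : ∀ y ∈ closedBall z (r / 8), ‖Ring.inverse (uu H x) * uu H y - 1‖ ≤ δ) :
    ‖H (sl n x') - H (sl n x)‖ ≤ r * ‖uu H x‖ := by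
  have hd : ∀ y ∈ closedBall z (r / 8), HasFDerivWithinAt (fun y => H (sl n y))
      ((uu H y).comp (Lv n)) (closedBall z (r / 8)) y := by
    intro y _
    have h1 : HasFDerivAt H (uu H y) (sl n y) :=
      ((hH.contDiffAt (sl_ne y)).differentiableAt (by simp)).hasFDerivAt
    exact (h1.comp y (hasFDerivAt_sl y)).hasFDerivWithinAt
  have hb : ∀ y ∈ closedBall z (r / 8), ‖(uu H y).comp (Lv n)‖ ≤ ‖uu H x‖ * (5 / 2) := by
    intro y hy
    have h1 : ‖Lv n‖ ≤ 2 := ContinuousLinearMap.opNorm_le_bound _ (by norm_num) norm_Lv_le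
    have h2 : uu H y = uu H x * (Ring.inverse (uu H x) * uu H y) := by
      rw [← mul_assoc, Ring.mul_inverse_cancel _ (isUnit_uu hH x), one_mul]
    have h3 : ‖Ring.inverse (uu H x) * uu H y‖ ≤ 5 / 4 := by
      calc ‖Ring.inverse (uu H x) * uu H y‖ = ‖(Ring.inverse (uu H x) * uu H y - 1) + 1‖ := by
            rw [sub_add_cancel]
        _ ≤ ‖Ring.inverse (uu H x) * uu H y - 1‖ + ‖(1 : EndW n)‖ := norm_add_le _ _
        _ ≤ 1 / 4 + 1 := by
            rw [norm_one]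
            linarith [hf y hy]
        _ = 5 / 4 := by norm_num
    have h4 : ‖uu H y‖ ≤ ‖uu H x‖ * (5 / 4) := by
      calc ‖uu H y‖ = ‖uu H x * (Ring.inverse (uu H x) * uu H y)‖ := by rw [← h2]
        _ ≤ ‖uu H x‖ * ‖Ring.inverse (uu H x) * uu H y‖ := norm_mul_le _ _
        _ ≤ _ := mul_le_mul_of_nonneg_left h3 (norm_nonneg _)
    calc ‖(uu H y).comp (Lv n)‖ ≤ ‖uu H y‖ * ‖Lv n‖ := ContinuousLinearMap.opNorm_comp_le _ _
      _ ≤ (‖uu H x‖ * (5 / 4)) * 2 :=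
          mul_le_mul h4 h1 (norm_nonneg _) (by positivity)
      _ = _ := by ring
  have h5 := (convex_closedBall z (r / 8)).norm_image_sub_le_of_norm_hasFDerivWithin_le hd hb hx hx'
  have h6 : ‖x' - x‖ ≤ r / 4 := by
    rw [mem_closedBall, dist_eq_norm] at hx hx'
    calc ‖x' - x‖ = ‖(x' - z) - (x - z)‖ := by rw [sub_sub_sub_cancel_right]
      _ ≤ ‖x' - z‖ + ‖x - z‖ := norm_sub_le _ _
      _ ≤ r / 4 := by linarith
  calc ‖H (sl n x') - H (sl n x)‖ ≤ ‖uu H x‖ * (5 / 2) * ‖x' - x‖ := h5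
    _ ≤ ‖uu H x‖ * (5 / 2) * (r / 4) := mul_le_mul_of_nonneg_left h6 (by positivity)
    _ ≤ r * ‖uu H x‖ := by
        have : 0 ≤ r * ‖uu H x‖ := by positivity
        nlinarith

/-- The lift is bounded below on the slice. -/
theorem ChartLocAux.one_le {H : W n → W n} (hH : HLoc H) (x : V (n * 2)) :
    1 ≤ ‖Ring.inverse (uu H x)‖ * ‖H (sl n x)‖ := by
  have h1 : uu H x (sl n x) = H (sl n x) := by
    have := fderiv_homog hH (sl_ne x) 1
    rwa [one_smul, one_smul] at this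
  have h2 : (Ring.inverse (uu H x)) (H (sl n x)) = sl n x := by
    rw [← h1]
    have h3 := Ring.inverse_mul_cancel _ (isUnit_uu hH x)
    have h4 := congrArg (fun L : EndW n => L (sl n x)) h3
    exact h4
  calc (1 : ℝ) ≤ ‖sl n x‖ := one_le_norm_sl x
    _ = ‖(Ring.inverse (uu H x)) (H (sl n x))‖ := by rw [h2]
    _ ≤ _ := ContinuousLinearMap.le_opNorm _ _

theorem chart_loc (n : ℕ) (hn : 1 ≤ n) {δf : ℝ} (hδf : 0 < δf) : ∃ δu : ℝ, 0 < δu ∧
    ∀ Λ : ℝ, 1 ≤ Λ → ∃ s₁ : ℝ, 0 < s₁ ∧ s₁ ≤ 1 / 4 ∧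
    ∀ H : W n → W n, HLoc H → Function.Injective H → ∀ (c : ℝ) (μ : Measure (V (n * 2))),
    IsFiniteMeasure μ → 0 < c → ∀ δ : ℝ, 0 ≤ δ → δ ≤ δu → CtrlG δ c (ball 0 1) (uu H) μ →
    (∀ y ∈ closedBall (0 : V (n * 2)) (1 / 4), ∀ r : ℝ, 0 < r → r ≤ 1 / 4 →
      μ.real (closedBall y r) ≤ c → (‖uu H y‖ * ‖Ring.inverse (uu H y)‖) ^ 4 * r ≤ Λ) →
    ∀ s : ℝ, 0 < s → s ≤ s₁ → μ.real (ball 0 (4 * s) \ closedBall 0 (s / 16)) ≤ c →
    ‖H (sl n ((s / 2) • w0 (n * 2))) - e0 n‖ ≤ 1 / 16 →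
    (∀ x : V (n * 2), ‖x‖ ≤ 2 * s → ‖H (sl n x)‖ ≤ 2 * ‖H (sl n x) 0‖) ∧
      Ctrl δf c (ball 0 s) (fc H) μ := by
  obtain ⟨δ₀, ε₀, hδ₀, hε₀, hconf⟩ := confine n hn
  obtain ⟨C, hC, hcmp⟩ := chart_cmp n
  have hC0 : 0 < C := by linarith
  refine ⟨min (1 / 40000) (min (δ₀ / 10000) (min (δf / (4 * C)) (1 / 4))), by positivity,
    fun Λ hΛ => ?_⟩
  have hΛ0 : 0 < Λ := by linarith
  obtain ⟨η, hη⟩ : ∃ η : ℝ, η = min (1 / 8) (δf / (4 * C)) := ⟨_, rfl⟩
  have hη0 : 0 < η := by rw [hη]; positivity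
  refine ⟨min (1 / 4) (min (ε₀ ^ 2 / (8 * Λ)) (η ^ 2 / (2 * Λ))), by positivity, min_le_left _ _,
    ?_⟩
  intro H hH hinj c μ hμf hc δ h0 hδ hctrl hcond s hs hs1 hμ hp
  have hd1 : δ ≤ 1 / 40000 := hδ.trans (min_le_left _ _)
  have hd2 : δ ≤ δ₀ / 10000 := hδ.trans ((min_le_right _ _).trans (min_le_left _ _))
  have hd3 : δ ≤ δf / (4 * C) :=
    hδ.trans ((min_le_right _ _).trans ((min_le_right _ _).trans (min_le_left _ _)))
  have hs4 : s ≤ 1 / 4 := hs1.trans (min_le_left _ _)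
  have hse : s ≤ ε₀ ^ 2 / (8 * Λ) := hs1.trans ((min_le_right _ _).trans (min_le_left _ _))
  have hsη : s ≤ η ^ 2 / (2 * Λ) := hs1.trans ((min_le_right _ _).trans (min_le_right _ _))
  have hm : 2 ≤ n * 2 := by omega
  have hcol : FlatU δ₀ {x : V (n * 2) | s / 8 ≤ ‖x‖ ∧ ‖x‖ ≤ 2 * s} (uu H) := by
    intro x hx y hy
    have h1 := collar_flat hm h0 hd1 hctrl hs (by linarith) hμ x hx y hy
    exact h1.trans (by linarith)
  have hw : ‖w0 (n * 2)‖ = 3 / 4 := Pool.Agent.Lib.P28f.norm_w0 (by omega)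
  have hpn : ‖(s / 2) • w0 (n * 2)‖ = 3 / 8 * s := by
    rw [norm_smul, hw, Real.norm_of_nonneg (by positivity)]
    ring
  have hpm : μ.real (closedBall ((s / 2) • w0 (n * 2)) (s / 8)) ≤ c := by
    refine (measureReal_mono ?_ (measure_ne_top _ _)).trans hμ
    intro y hy
    rw [mem_closedBall, dist_eq_norm] at hy
    have h1 : ‖y‖ ≤ ‖y - (s / 2) • w0 (n * 2)‖ + ‖(s / 2) • w0 (n * 2)‖ := by
      calc ‖y‖ = ‖(y - (s / 2) • w0 (n * 2)) + (s / 2) • w0 (n * 2)‖ := by rw [sub_add_cancel]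
        _ ≤ _ := norm_add_le _ _
    have h2 : ‖(s / 2) • w0 (n * 2)‖ ≤ ‖y - (s / 2) • w0 (n * 2)‖ + ‖y‖ := by
      rw [norm_sub_rev]
      calc ‖(s / 2) • w0 (n * 2)‖ = ‖((s / 2) • w0 (n * 2) - y) + y‖ := by rw [sub_add_cancel]
        _ ≤ _ := norm_add_le _ _
    rw [hpn] at h1 h2
    refine ⟨?_, ?_⟩
    · rw [mem_ball_zero_iff]
      linarith
    · rw [mem_closedBall_zero_iff]
      intro h3
      linarith
  have hpc := hcond ((s / 2) • w0 (n * 2)) (by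
    rw [mem_closedBall_zero_iff, hpn]
    linarith) (s / 8) (by positivity) (by linarith) hpm
  have hpe : s * (‖uu H ((s / 2) • w0 (n * 2))‖ *
      ‖Ring.inverse (uu H ((s / 2) • w0 (n * 2)))‖) ^ 2 ≤ ε₀ :=
    ChartLocAux.sq_bound (by positivity) hs le_rfl (by norm_num) hΛ hε₀ hpc hse
  have hmain := hconf H hH hinj s hs hs4 hcol hp hpe
  refine ⟨hmain, ⟨?_, ?_⟩⟩
  · intro x hx
    rw [mem_ball_zero_iff] at hx
    refine fc_imm hH ?_
    intro h1
    have h2 := hmain x (by linarith)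
    rw [h1, norm_zero, mul_zero] at h2
    exact hH.ne (sl_ne x) (norm_le_zero_iff.1 h2)
  · intro z r hr hsub hμz x hx x' hx'
    have hrs : r ≤ s := ChartLocAux.radius_le (by omega) hr hsub
    have hin : closedBall z (r / 8) ⊆ closedBall z r := closedBall_subset_closedBall (by linarith)
    have hxs : ‖x‖ < s := by
      have := hsub (hin hx)
      rwa [mem_ball_zero_iff] at this
    have hxs' : ‖x'‖ < s := by
      have := hsub (hin hx')
      rwa [mem_ball_zero_iff] at this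
    have hfl := hctrl.flat z r hr (hsub.trans (ball_subset_ball (by linarith))) hμz
    have hcx := hcond x (by
      rw [mem_closedBall_zero_iff]
      linarith) (r / 2) (by positivity) (by linarith) (by
        refine (measureReal_mono ?_ (measure_ne_top _ _)).trans hμz
        intro y hy
        rw [mem_closedBall, dist_eq_norm] at hy hx ⊢
        calc ‖y - z‖ = ‖(y - x) + (x - z)‖ := by rw [sub_add_sub_cancel]
          _ ≤ ‖y - x‖ + ‖x - z‖ := norm_add_le _ _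
          _ ≤ r := by linarith)
    have hrc : r * (‖uu H x‖ * ‖Ring.inverse (uu H x)‖) ^ 2 ≤ η :=
      ChartLocAux.sq_bound (by positivity) hr hrs (by norm_num) hΛ hη0 hcx hsη
    have hmean := ChartLocAux.mean hH hr (δ := δ) (by linarith) hx hx' (fun y hy => hfl x hx y hy)
    have hone := ChartLocAux.one_le hH x
    have hsec : ‖H (sl n x') - H (sl n x)‖ * (‖uu H x‖ * ‖Ring.inverse (uu H x)‖) ≤
        η * ‖H (sl n x)‖ := by
      have hk : 0 ≤ ‖uu H x‖ * ‖Ring.inverse (uu H x)‖ := by positivity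
      calc ‖H (sl n x') - H (sl n x)‖ * (‖uu H x‖ * ‖Ring.inverse (uu H x)‖) ≤
          (r * ‖uu H x‖) * (‖uu H x‖ * ‖Ring.inverse (uu H x)‖) :=
            mul_le_mul_of_nonneg_right hmean hk
        _ = (r * ‖uu H x‖) * (‖uu H x‖ * ‖Ring.inverse (uu H x)‖) * 1 := by ring
        _ ≤ (r * ‖uu H x‖) * (‖uu H x‖ * ‖Ring.inverse (uu H x)‖) *
            (‖Ring.inverse (uu H x)‖ * ‖H (sl n x)‖) :=
            mul_le_mul_of_nonneg_left hone (by positivity)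
        _ = r * (‖uu H x‖ * ‖Ring.inverse (uu H x)‖) ^ 2 * ‖H (sl n x)‖ := by ring
        _ ≤ η * ‖H (sl n x)‖ := mul_le_mul_of_nonneg_right hrc (norm_nonneg _)
    have h2x := hmain x (by linarith)
    have hfin := (hcmp H H hH hH x x' (by linarith) (by linarith)
      (by linarith [norm_nonneg (H (sl n x) 0)]) δ η (by linarith)
      (by rw [hη]; exact min_le_left _ _) (hfl x hx x' hx') hsec).2
    have hη2 : η ≤ δf / (4 * C) := by rw [hη]; exact min_le_right _ _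
    have hsum : C * (δ + η) ≤ δf := by
      calc C * (δ + η) ≤ C * (δf / (4 * C) + δf / (4 * C)) :=
            mul_le_mul_of_nonneg_left (by linarith) hC0.le
        _ = δf / 2 := by field_simp; ring
        _ ≤ δf := by linarith
    exact hfin.trans hsum

end Pool.Agent.Lib.P28g
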