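import Pool.Agent.Lib.P28g.QMap
import Pool.Agent.Lib.P28g.ChartGeom
import Pool.Agent.Lib.P28f.Ultra

set_option autoImplicit false

/-!
# Concentration points on CP^n along the ultrafilter

PROOF SKETCH. `q`, `C` from `exists_qm`, `μ j = (ν j).map q` (finite, total mass `≤ E`). `B = Bad c μ` is finite (`P28f.bad_finite`). Every `b ∈ B` is `q a` for some `a` with `‖a‖ = 1/2`: otherwise, the set `q '' {‖a‖ = 1/2}` being compact (continuous image, `QM.smooth`), a small closed ball around `b` does not meet it; every `z ≠ 0`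
is a multiple of a vector of norm `1/2` with the same `pt`, hence the same `q` (`QM.le`, `fd_self`), so this ball has `μ j`-mass `≤ (ν j).real {0} = 0 < c`, a contradiction. Choose one `a` for each `b ∈ B`; `A` = the finite set of these; `pt a ≠ pt b` for different `a, b` because `q` differs.
Given `t > 0`: `K = q '' {z | ‖z‖ = 1/2 ∧ ∀ a ∈ A, t ≤ fd (pt z) (pt a)}` is compact and disjoint from `B` (if `q z = q a` then `fd (pt z) (pt a) ≤ C * 0`), contained in `ball 0 1`. `P28f.good_cover` gives `r`; `θ = min r 1`: `PB (pt z) θ ⊆ q ⁻¹' closedBall (q z) r` (`QM.le`), and for general `z ≠ 0` replace `z` by the multiple of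
norm `1/2`.
-/

open MeasureTheory Set Metric
open scoped ContDiff Topology ENNReal

namespace Pool.Agent.Lib.P28g

open Pool.Agent.P28b04d Pool.Agent.Lib.P28e Pool.Agent.Lib.P28c
open Pool.Agent.Lib.P28f (V EV ult Bad)

variable {n m : ℕ}

namespace ConcWAux

/-- the multiple of norm `1/2` -/
noncomputable def half (z : W n) : W n := (((1 / 2) / ‖z‖ : ℝ) : ℂ) • z

theorem half_norm {z : W n} (hz : z ≠ 0) : ‖half z‖ = 1 / 2 := by
  have h1 : 0 < ‖z‖ := norm_pos_iff.2 hz
  unfold half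
  rw [norm_smul, Complex.norm_real, Real.norm_of_nonneg (by positivity)]
  field_simp

theorem half_pt {z : W n} (hz : z ≠ 0) : pt (half z) = pt z := by
  have h1 : 0 < ‖z‖ := norm_pos_iff.2 hz
  unfold half
  apply pt_smul
  exact Complex.ofReal_ne_zero.2 (by positivity)

theorem q_eq {q : W n → V m} {C : ℝ} (hq : QM q C) {z w : W n} (h : pt z = pt w) : q z = q w := by
  have h1 := hq.le z w
  rw [h, fd_self] at h1
  have h2 : ‖q z - q w‖ = 0 := le_antisymm h1 (norm_nonneg _)
  exact sub_eq_zero.1 (norm_eq_zero.1 h2)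

theorem q_cont {q : W n → V m} {C : ℝ} (hq : QM q C) :
    ContinuousOn q (sphere (0 : W n) (1 / 2)) := by
  apply hq.smooth.continuousOn.mono
  intro z hz
  rw [mem_sphere_zero_iff_norm] at hz
  intro h
  rw [mem_singleton_iff] at h
  rw [h, norm_zero] at hz
  norm_num at hz

theorem fd_le_add {q : W n → V m} {C : ℝ} (hq : QM q C) (P : Mat n) (z w : W n) :
    fd (pt z) P ≤ fd (pt w) P + C * ‖q z - q w‖ :=
  calc fd (pt z) P ≤ fd (pt z) (pt w) + fd (pt w) P := fd_triangle _ _ _
    _ ≤ C * ‖q z - q w‖ + fd (pt w) P := by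
        have := hq.ge z w
        linarith
    _ = _ := by ring

theorem fd_cont {q : W n → V m} {C : ℝ} (hq : QM q C) (P : Mat n) :
    ContinuousOn (fun z : W n => fd (pt z) P) (sphere (0 : W n) (1 / 2)) := by
  have hC : 0 < C := lt_of_lt_of_le one_pos hq.one_le
  intro z hz
  rw [Metric.continuousWithinAt_iff]
  intro ε hε
  obtain ⟨δ, hδ, h⟩ := Metric.continuousWithinAt_iff.1 (q_cont hq z hz) (ε / C) (by positivity)
  refine ⟨δ, hδ, ?_⟩
  intro w hw hwz
  have h1 := h hw hwz
  rw [dist_eq_norm] at h1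
  have h2 : C * ‖q w - q z‖ < ε := by
    rw [lt_div_iff₀ hC] at h1
    linarith
  have h3 := fd_le_add hq P w z
  have h4 := fd_le_add hq P z w
  rw [norm_sub_rev] at h4
  rw [Real.dist_eq, abs_lt]
  constructor <;> linarith

end ConcWAux

open ConcWAux in
theorem conc_W (n : ℕ) {c E : ℝ} (hc : 0 < c) (ν : ℕ → Measure (W n))
    (hfin : ∀ j, IsFiniteMeasure (ν j)) (hE : ∀ j, (ν j).real univ ≤ E) (h0 : ∀ j, ν j {0} = 0) :
    ∃ A : Finset (W n), (∀ a ∈ A, ‖a‖ = 1 / 2) ∧ (∀ a ∈ A, ∀ b ∈ A, a ≠ b → pt a ≠ pt b) ∧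
      ∀ t : ℝ, 0 < t → ∃ θ : ℝ, 0 < θ ∧ θ ≤ 1 ∧ ∀ᶠ j in (ult : Filter ℕ), ∀ z : W n, z ≠ 0 →
        (∀ a ∈ A, t ≤ fd (pt z) (pt a)) → (ν j).real (PB (pt z) θ) ≤ c := by
  classical
  obtain ⟨M, q, C, hq⟩ := exists_qm n
  obtain ⟨μ, hμ⟩ : ∃ μ : ℕ → Measure (V M), ∀ j, μ j = (ν j).map q := ⟨fun j => (ν j).map q,
    fun _ => rfl⟩
  have hμfin : ∀ j, IsFiniteMeasure (μ j) := by
    intro j
    rw [hμ]
    haveI := hfin j
    infer_instance
  have hμreal : ∀ j (S : Set (V M)), MeasurableSet S → (μ j).real S = (ν j).real (q ⁻¹' S) := by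
    intro j S hS
    rw [hμ]
    exact map_measureReal_apply hq.meas hS
  have hμE : ∀ j, (μ j).real (ball 0 1) ≤ E := by
    intro j
    haveI := hfin j
    rw [hμreal j _ measurableSet_ball]
    exact (measureReal_mono (subset_univ _)).trans (hE j)
  have hBfin : (Bad c μ).Finite := P28f.bad_finite hc hμfin hμE
  have hSc : IsCompact (q '' sphere (0 : W n) (1 / 2)) :=
    (isCompact_sphere _ _).image_of_continuousOn (q_cont hq)
  have hBS : ∀ b ∈ Bad c μ, ∃ a : W n, ‖a‖ = 1 / 2 ∧ q a = b := by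
    intro b hb
    by_contra hcon
    have hbS : b ∉ q '' sphere (0 : W n) (1 / 2) := by
      rintro ⟨a, ha, hab⟩
      exact hcon ⟨a, mem_sphere_zero_iff_norm.1 ha, hab⟩
    obtain ⟨ρ, hρ, hρS⟩ := Metric.nhds_basis_closedBall.mem_iff.1
      (hSc.isClosed.isOpen_compl.mem_nhds hbS)
    obtain ⟨j, hj⟩ := (hb.2 ρ hρ).exists
    haveI := hfin j
    rw [hμreal j _ measurableSet_closedBall] at hj
    have h1 : q ⁻¹' closedBall b ρ ⊆ {0} := by
      intro z hz
      by_contra hz0
      have hz0' : z ≠ 0 := hz0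
      refine hρS hz ⟨half z, mem_sphere_zero_iff_norm.2 (half_norm hz0'), ?_⟩
      exact q_eq hq (half_pt hz0')
    have h2 : (ν j).real (q ⁻¹' closedBall b ρ) ≤ (ν j).real {0} := measureReal_mono h1
    rw [measureReal_def (ν j) {0}, h0 j, ENNReal.toReal_zero] at h2
    linarith
  choose! a ha1 ha2 using hBS
  refine ⟨hBfin.toFinset.image a, ?_, ?_, ?_⟩
  · intro x hx
    obtain ⟨b, hb, rfl⟩ := Finset.mem_image.1 hx
    exact ha1 b (hBfin.mem_toFinset.1 hb)
  · intro x hx y hy hxy hpt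
    obtain ⟨b, hb, rfl⟩ := Finset.mem_image.1 hx
    obtain ⟨b', hb', rfl⟩ := Finset.mem_image.1 hy
    apply hxy
    have h1 := q_eq hq hpt
    rw [ha2 b (hBfin.mem_toFinset.1 hb), ha2 b' (hBfin.mem_toFinset.1 hb')] at h1
    rw [h1]
  · intro t ht
    obtain ⟨St, hSt⟩ : ∃ St : Set (W n), St = {z | z ∈ sphere (0 : W n) (1 / 2) ∧
        ∀ x ∈ hBfin.toFinset.image a, t ≤ fd (pt z) (pt x)} := ⟨_, rfl⟩
    have hStc : IsCompact St := by
      have h1 : St = sphere (0 : W n) (1 / 2) ∩
          ⋂ x ∈ hBfin.toFinset.image a, (sphere (0 : W n) (1 / 2) ∩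
            (fun z : W n => fd (pt z) (pt x)) ⁻¹' Ici t) := by
        rw [hSt]
        ext z
        simp only [mem_ofPred_eq, mem_inter_iff, mem_iInter, mem_preimage, mem_Ici]
        constructor
        · rintro ⟨h2, h3⟩
          exact ⟨h2, fun x hx => ⟨h2, h3 x hx⟩⟩
        · rintro ⟨h2, h3⟩
          exact ⟨h2, fun x hx => (h3 x hx).2⟩
      rw [h1]
      apply (isCompact_sphere _ _).inter_right
      apply isClosed_biInter
      intro x _
      exact (fd_cont hq (pt x)).preimage_isClosed_of_isClosed isClosed_sphere isClosed_Ici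
    have hStS : St ⊆ sphere (0 : W n) (1 / 2) := by
      rw [hSt]; intro z hz; exact hz.1
    have hK : IsCompact (q '' St) := hStc.image_of_continuousOn ((q_cont hq).mono hStS)
    have hK1 : q '' St ⊆ ball 0 1 := by
      rintro _ ⟨z, _, rfl⟩
      rw [mem_ball_zero_iff]
      have := hq.small z
      linarith
    have hKB : Disjoint (q '' St) (Bad c μ) := by
      rw [Set.disjoint_left]
      rintro _ ⟨z, hz, rfl⟩ hb
      rw [hSt] at hz
      have h1 := hz.2 (a (q z)) (Finset.mem_image.2 ⟨q z, hBfin.mem_toFinset.2 hb, rfl⟩)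
      have h2 := hq.ge z (a (q z))
      rw [ha2 _ hb, sub_self, norm_zero, mul_zero] at h2
      linarith
    obtain ⟨r, hr, _, hev⟩ := P28f.good_cover hμfin hK hK1 hKB
    refine ⟨min r 1, lt_min hr one_pos, min_le_right _ _, ?_⟩
    filter_upwards [hev] with j hj
    intro z hz hzA
    haveI := hfin j
    have hzS : half z ∈ St := by
      rw [hSt]
      refine ⟨mem_sphere_zero_iff_norm.2 (half_norm hz), ?_⟩
      intro x hx
      rw [half_pt hz]
      exact hzA x hx
    have h1 := hj (q (half z)) ⟨half z, hzS, rfl⟩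
    rw [hμreal j _ measurableSet_closedBall] at h1
    refine le_trans (measureReal_mono ?_) h1
    intro w hw
    have hw' : fd (pt w) (pt z) < min r 1 := hw
    rw [mem_preimage, mem_closedBall, dist_eq_norm]
    have h2 := hq.le w (half z)
    rw [half_pt hz] at h2
    exact (h2.trans hw'.le).trans (min_le_left _ _)

end Pool.Agent.Lib.P28g
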