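import Pool.Agent.Lib.P28g.Cross
import Pool.Agent.Lib.P28f.PullLoc

set_option autoImplicit false

/-!
# Growth of a controlled function towards a light point of scale r
-/

open MeasureTheory Set Metric
open scoped ContDiff Topology ENNReal

namespace Pool.Agent.Lib.P28g

open Pool.Agent.P28b04d Pool.Agent.Lib.P28e Pool.Agent.Lib.P28c
open Pool.Agent.Lib.P28f (V EV ann w0)

variable {n m : ℕ}

namespace CondGAux

open Pool.Agent.Lib.P28f (pull pull_real pull_closedBall norm_w0)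

theorem card_bad {X : Type} [MeasurableSpace X] (μ : Measure X) [IsFiniteMeasure μ]
    {A : ℕ → Set X} {U : Set X} {c E : ℝ} (hA : ∀ k, MeasurableSet (A k)) (T : Finset ℕ)
    (hd : ∀ i j, i + 2 ≤ j → Disjoint (A i) (A j)) (hU : ∀ k ∈ T, A k ⊆ U)
    (hc : ∀ k ∈ T, c ≤ μ.real (A k)) (hE : μ.real U ≤ E) : (T.card : ℝ) * c ≤ 2 * E := by
  have key : ∀ S : Finset ℕ, S ⊆ T → (∀ i ∈ S, ∀ j ∈ S, i ≠ j → i + 2 ≤ j ∨ j + 2 ≤ i) →
      (S.card : ℝ) * c ≤ E := by
    intro S hS hsep
    have h1 : μ.real (⋃ k ∈ S, A k) = ∑ k ∈ S, μ.real (A k) := by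
      refine measureReal_biUnion_finset ?_ (fun b _ => hA b)
      intro i hi j hj hij
      rcases hsep i hi j hj hij with h | h
      · exact hd i j h
      · exact (hd j i h).symm
    have h2 : μ.real (⋃ k ∈ S, A k) ≤ μ.real U :=
      measureReal_mono (iUnion₂_subset fun k hk => hU k (hS hk))
    have h3 : (S.card : ℝ) * c ≤ ∑ k ∈ S, μ.real (A k) := by
      rw [← nsmul_eq_mul]
      exact Finset.card_nsmul_le_sum _ _ _ (fun k hk => hc k (hS hk))
    linarith
  have h1 := key (T.filter fun k => Even k) (Finset.filter_subset _ _) (by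
    intro i hi j hj hij
    rw [Finset.mem_filter] at hi hj
    obtain ⟨a, ha⟩ := hi.2
    obtain ⟨b, hb⟩ := hj.2
    omega)
  have h2 := key (T.filter fun k => ¬ Even k) (Finset.filter_subset _ _) (by
    intro i hi j hj hij
    rw [Finset.mem_filter, Nat.not_even_iff_odd] at hi hj
    obtain ⟨a, ha⟩ := hi.2
    obtain ⟨b, hb⟩ := hj.2
    omega)
  have h3 : ((T.filter fun k => Even k).card : ℝ) + (T.filter fun k => ¬ Even k).card =
      T.card := by
    exact_mod_cast Finset.card_filter_add_card_filter_not (s := T) (fun k => Even k)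
  rw [← h3, add_mul]
  linarith

variable {A : Type} [NormedRing A]

theorem N_chain {X : Type} {u : X → A} {x y z : X} (hy : IsUnit (u y)) :
    ‖Ring.inverse (u x) * u z‖ ≤
      ‖Ring.inverse (u x) * u y‖ * ‖Ring.inverse (u y) * u z‖ := by
  have e : Ring.inverse (u x) * u z =
      (Ring.inverse (u x) * u y) * (Ring.inverse (u y) * u z) := by
    rw [mul_assoc, ← mul_assoc (u y), Ring.mul_inverse_cancel _ hy, one_mul]
  rw [e]
  exact norm_mul_le _ _

theorem N_flat [NormOneClass A] {X : Type} {u : X → A} {S : Set X} {δ : ℝ} (h : FlatU δ S u)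
    {x y : X} (hx : x ∈ S) (hy : y ∈ S) : ‖Ring.inverse (u x) * u y‖ ≤ 1 + δ := by
  have h1 := h x hx y hy
  have h2 : ‖Ring.inverse (u x) * u y‖ ≤ ‖Ring.inverse (u x) * u y - 1‖ + ‖(1 : A)‖ := by
    calc ‖Ring.inverse (u x) * u y‖ = ‖(Ring.inverse (u x) * u y - 1) + 1‖ := by
          rw [sub_add_cancel]
      _ ≤ _ := norm_add_le _ _
  rw [norm_one] at h2
  linarith

theorem ctrl_pull_g {δ c : ℝ} {U : Set (V m)} {u : V m → A} {μ : Measure (V m)}
    (h : CtrlG δ c U u μ) {a : V m} {s : ℝ} (hs : 0 < s) (hb : ball a s ⊆ U) :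
    CtrlG δ c (ball 0 1) (fun v => u (a + s • v)) (pull a s μ) := by
  have hmem : ∀ v : V m, v ∈ ball (0 : V m) 1 → a + s • v ∈ ball a s := by
    intro v hv
    rw [mem_ball_zero_iff] at hv
    rw [mem_ball, dist_eq_norm, add_sub_cancel_left, norm_smul, Real.norm_of_nonneg hs.le]
    calc s * ‖v‖ < s * 1 := mul_lt_mul_of_pos_left hv hs
      _ = s := mul_one s
  constructor
  · intro v hv
    exact h.unit _ (hb (hmem v hv))
  · intro z r hr hsub hmass
    rw [pull_closedBall hs] at hmass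
    have hsub' : closedBall (a + s • z) (s * r) ⊆ U := by
      intro x hx
      have e : x = a + s • (s⁻¹ • (x - a)) := by
        rw [smul_smul, mul_inv_cancel₀ hs.ne', one_smul]
        abel
      rw [e]
      apply hb
      apply hmem
      apply hsub
      rw [mem_closedBall, dist_eq_norm] at hx ⊢
      have h2 : x - (a + s • z) = s • (s⁻¹ • (x - a) - z) := by
        rw [smul_sub, smul_smul, mul_inv_cancel₀ hs.ne', one_smul]
        abel
      rw [h2, norm_smul, Real.norm_of_nonneg hs.le] at hx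
      exact le_of_mul_le_mul_left hx hs
    have hflat := h.flat _ _ (mul_pos hs hr) hsub' hmass
    intro x hx y hy
    have hm : ∀ v ∈ closedBall z (r / 8), a + s • v ∈ closedBall (a + s • z) (s * r / 8) := by
      intro v hv
      rw [mem_closedBall, dist_eq_norm] at hv ⊢
      have e : a + s • v - (a + s • z) = s • (v - z) := by
        rw [smul_sub]
        abel
      rw [e, norm_smul, Real.norm_of_nonneg hs.le]
      have := mul_le_mul_of_nonneg_left hv hs.le
      linarith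
    exact hflat _ (hm x hx) _ (hm y hy)

theorem ctrlG_mono {δ δ' c : ℝ} {U : Set (V m)} {u : V m → A} {μ : Measure (V m)}
    (h : CtrlG δ c U u μ) (hδ : δ ≤ δ') : CtrlG δ' c U u μ :=
  ⟨h.unit, fun z r hr hs hm x hx y hy => (h.flat z r hr hs hm x hx y hy).trans hδ⟩

theorem cross_use {E c θ Λ δ : ℝ} (hcross : ∀ (u : V m → A) (μ : Measure (V m)),
      IsFiniteMeasure μ → CtrlG (1 / 2) c (ball 0 1) u μ →
      μ.real (ball 0 1) ≤ E → ∀ y ∈ closedBall (0 : V m) (1 / 2),
      ∀ y' ∈ closedBall (0 : V m) (1 / 2),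
      μ.real (closedBall y θ) ≤ c → μ.real (closedBall y' θ) ≤ c →
      ‖Ring.inverse (u y) * u y'‖ ≤ Λ)
    {u : V m → A} {μ : Measure (V m)} [IsFiniteMeasure μ] (hδ : δ ≤ 1 / 2)
    (h : CtrlG δ c (ball 0 1) u μ) (hE : μ.real (ball 0 1) ≤ E) {y : V m}
    (hy : y ∈ closedBall (0 : V m) (1 / 4)) {e : V m} (he : ‖e‖ = 1) {R ρ ρ' : ℝ} (hR : 0 < R)
    (hR8 : R ≤ 1 / 8) (h0 : 0 ≤ ρ) (h1 : ρ ≤ R) (h0' : 0 ≤ ρ') (h1' : ρ' ≤ R)
    (hm : μ.real (closedBall (y + ρ • e) (4 * R * θ)) ≤ c)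
    (hm' : μ.real (closedBall (y + ρ' • e) (4 * R * θ)) ≤ c) :
    ‖Ring.inverse (u (y + ρ • e)) * u (y + ρ' • e)‖ ≤ Λ := by
  have hs : 0 < 4 * R := by positivity
  have hball : ball y (4 * R) ⊆ ball 0 1 := by
    refine ball_subset_ball' ?_
    rw [mem_closedBall] at hy
    linarith
  have hpt : ∀ t : ℝ, y + (4 * R) • ((t / (4 * R)) • e) = y + t • e := by
    intro t
    rw [smul_smul, mul_div_cancel₀ _ hs.ne']
  have hmem : ∀ t : ℝ, 0 ≤ t → t ≤ R → (t / (4 * R)) • e ∈ closedBall (0 : V m) (1 / 2) := by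
    intro t ht0 ht
    rw [mem_closedBall_zero_iff, norm_smul, he, mul_one, Real.norm_of_nonneg (by positivity),
      div_le_iff₀ hs]
    linarith
  have hfin : IsFiniteMeasure (pull y (4 * R) μ) := by
    unfold pull
    infer_instance
  have hctrl := ctrlG_mono (ctrl_pull_g h hs hball) hδ
  have htot : (pull y (4 * R) μ).real (ball 0 1) ≤ E := by
    rw [pull_real hs]
    refine le_trans (measureReal_mono ?_) hE
    intro x hx
    apply hball
    rw [mem_ofPred_eq, mem_ball_zero_iff, norm_smul, Real.norm_of_nonneg (by positivity)] at hx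
    rw [mem_ball, dist_eq_norm]
    rw [inv_mul_lt_iff₀ hs, mul_one] at hx
    exact hx
  have key := hcross _ _ hfin hctrl htot _ (hmem ρ h0 h1) _ (hmem ρ' h0' h1')
    (by rw [pull_closedBall hs, hpt]; exact hm) (by rw [pull_closedBall hs, hpt]; exact hm')
  simp only [hpt] at key
  exact key

/-- the induction -/
theorem chain [NormOneClass A] [CompleteSpace A] (hm2 : 2 ≤ m) {E c Λ δ : ℝ} {B : ℕ} (hc : 0 < c)
    (hB : 2 * E / c < B + 1) (hΛ : 1 ≤ Λ)
    (hcross : ∀ (u : V m → A) (μ : Measure (V m)),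
      IsFiniteMeasure μ → CtrlG (1 / 2) c (ball 0 1) u μ →
      μ.real (ball 0 1) ≤ E → ∀ y ∈ closedBall (0 : V m) (1 / 2),
      ∀ y' ∈ closedBall (0 : V m) (1 / 2),
      μ.real (closedBall y ((1 / 2) ^ B / 64)) ≤ c →
      μ.real (closedBall y' ((1 / 2) ^ B / 64)) ≤ c →
      ‖Ring.inverse (u y) * u y'‖ ≤ Λ)
    {u : V m → A} {μ : Measure (V m)} [IsFiniteMeasure μ] (hδ0 : 0 ≤ δ) (hδ : δ ≤ 1 / 40000)
    (h : CtrlG δ c (ball 0 1) u μ) (hE : μ.real (ball 0 1) ≤ E) {y : V m}
    (hy : y ∈ closedBall (0 : V m) (1 / 4)) {e : V m} (he : ‖e‖ = 1) {r : ℝ} (hr : 0 < r)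
    (hμ : μ.real (closedBall y r) ≤ c) (K : ℕ) (hK : 2 ^ K * r / 16 ≤ 1 / 8) :
    ∃ k : ℕ, k ≤ K ∧ K ≤ k + B ∧
      μ.real (closedBall (y + (2 ^ k * r / 16) • e) ((2 ^ k * r / 16) / 4)) ≤ c ∧
      ‖Ring.inverse (u (y + (r / 16) • e)) * u (y + (2 ^ k * r / 16) • e)‖ ≤
        Λ ^ B * (1 + 2000 * δ) ^ k ∧
      ‖Ring.inverse (u (y + (2 ^ k * r / 16) • e)) * u (y + (r / 16) • e)‖ ≤
        Λ ^ B * (1 + 2000 * δ) ^ k := by
  classical
  obtain ⟨R, hRdef⟩ : ∃ R : ℕ → ℝ, ∀ k, R k = 2 ^ k * r / 16 := ⟨_, fun _ => rfl⟩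
  obtain ⟨good, hgood⟩ : ∃ good : ℕ → Prop, ∀ k, good k ↔
      μ.real (closedBall y (9 / 4 * R k) \ ball y (3 / 4 * R k)) ≤ c := ⟨_, fun _ => Iff.rfl⟩
  have hRpos : ∀ k, 0 < R k := fun k => by rw [hRdef]; positivity
  have hRsucc : ∀ k, R (k + 1) = 2 * R k := fun k => by rw [hRdef, hRdef, pow_succ]; ring
  have hRadd : ∀ k j, R (k + j) = 2 ^ j * R k := fun k j => by
    rw [hRdef, hRdef, pow_add]; ring
  have hRmono : ∀ k j, k ≤ j → R k ≤ R j := by
    intro k j hkj
    obtain ⟨i, rfl⟩ := Nat.exists_eq_add_of_le hkj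
    rw [hRadd]
    have h1 : (1 : ℝ) ≤ 2 ^ i := one_le_pow₀ (by norm_num)
    have h2 := hRpos k
    nlinarith
  have hRK : ∀ k, k ≤ K → R k ≤ 1 / 8 := fun k hk => (hRmono k K hk).trans (by rw [hRdef]; exact hK)
  have hyn : ‖y‖ ≤ 1 / 4 := by rwa [mem_closedBall_zero_iff] at hy
  have hin : ∀ k, k ≤ K → closedBall y (9 / 4 * R k) ⊆ ball 0 1 := by
    intro k hk x hx
    rw [mem_closedBall, dist_eq_norm] at hx
    rw [mem_ball_zero_iff]
    have h1 := hRK k hk
    have h2 : ‖x‖ ≤ ‖x - y‖ + ‖y‖ := by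
      calc ‖x‖ = ‖(x - y) + y‖ := by rw [sub_add_cancel]
        _ ≤ _ := norm_add_le _ _
    linarith
  -- the number of bad indices
  have hbad : ∀ T : Finset ℕ, (∀ k ∈ T, k ≤ K ∧ ¬ good k) → T.card ≤ B := by
    intro T hT
    have h1 := card_bad μ (A := fun k => closedBall y (9 / 4 * R k) \ ball y (3 / 4 * R k))
      (U := ball 0 1) (c := c) (E := E)
      (fun k => isClosed_closedBall.measurableSet.diff isOpen_ball.measurableSet) T ?_ ?_ ?_ hE
    · have h2 : (T.card : ℝ) ≤ 2 * E / c := by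
        rw [le_div_iff₀ hc]
        exact h1
      have h3 : (T.card : ℝ) < B + 1 := lt_of_le_of_lt h2 hB
      have h4 : T.card < B + 1 := by exact_mod_cast h3
      omega
    · intro i j hij
      obtain ⟨l, rfl⟩ := Nat.exists_eq_add_of_le hij
      rw [Set.disjoint_left]
      intro x hx hx'
      rw [mem_sdiff, mem_closedBall, mem_ball, not_lt] at hx hx'
      have h2 : R (i + 2) ≤ R (i + 2 + l) := hRmono _ _ (by omega)
      have h3 : R (i + 2) = 4 * R i := by
        rw [hRadd]; norm_num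
      have h4 := hRpos i
      linarith [hx.1, hx'.2]
    · intro k hk
      exact sdiff_subset.trans (hin k (hT k hk).1)
    · intro k hk
      have h2 := (hT k hk).2
      rw [hgood, not_le] at h2
      exact h2.le
  have hp : ∀ k, k ≤ K → y + R k • e ∈ ball (0 : V m) 1 := by
    intro k hk
    apply hin k hk
    rw [mem_closedBall, dist_eq_norm, add_sub_cancel_left, norm_smul, he, mul_one,
      Real.norm_of_nonneg (hRpos k).le]
    have := hRpos k
    linarith
  -- small balls in good annuli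
  have hsmall : ∀ k, good k → μ.real (closedBall (y + R k • e) (R k / 4)) ≤ c := by
    intro k hk
    rw [hgood] at hk
    refine le_trans (measureReal_mono ?_) hk
    intro x hx
    rw [mem_closedBall, dist_eq_norm] at hx
    have h1 : ‖R k • e‖ = R k := by
      rw [norm_smul, he, mul_one, Real.norm_of_nonneg (hRpos k).le]
    have h2 : x - y = (x - (y + R k • e)) + R k • e := by abel
    have h3 : ‖x - y‖ ≤ ‖x - (y + R k • e)‖ + ‖R k • e‖ := by
      rw [h2]; exact norm_add_le _ _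
    have h4 : ‖R k • e‖ ≤ ‖x - y‖ + ‖x - (y + R k • e)‖ := by
      have h5 : R k • e = (x - y) - (x - (y + R k • e)) := by abel
      calc ‖R k • e‖ = ‖(x - y) - (x - (y + R k • e))‖ := by rw [← h5]
        _ ≤ _ := norm_sub_le _ _
    have := hRpos k
    rw [mem_sdiff, mem_closedBall, mem_ball, not_lt, dist_eq_norm]
    constructor <;> linarith
  have hflat : ∀ k, k + 1 ≤ K → good k →
      ‖Ring.inverse (u (y + R k • e)) * u (y + R (k + 1) • e)‖ ≤ 1 + 2000 * δ ∧
      ‖Ring.inverse (u (y + R (k + 1) • e)) * u (y + R k • e)‖ ≤ 1 + 2000 * δ := by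
    intro k hk hg
    have hg' := (hgood k).1 hg
    have h1 := ann_ctrl_g hm2 hδ0 (by linarith) h (hRpos k) (hin k (by omega)) hg'
    have m1 : y + R k • e ∈ ann y (R k) := by
      unfold Pool.Agent.Lib.P28f.ann
      rw [mem_ofPred_eq, add_sub_cancel_left, norm_smul, he, mul_one,
        Real.norm_of_nonneg (hRpos k).le]
      have := hRpos k
      constructor <;> linarith
    have m2 : y + R (k + 1) • e ∈ ann y (R k) := by
      unfold Pool.Agent.Lib.P28f.ann
      rw [mem_ofPred_eq, add_sub_cancel_left, norm_smul, he, mul_one,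
        Real.norm_of_nonneg (hRpos _).le, hRsucc]
      have := hRpos k
      constructor <;> linarith
    exact ⟨N_flat h1 m1 m2, N_flat h1 m2 m1⟩
  have hjump : ∀ k' k, k' ≤ k → k ≤ k' + B → k + 1 ≤ K → good k' → good (k + 1) →
      ‖Ring.inverse (u (y + R k' • e)) * u (y + R (k + 1) • e)‖ ≤ Λ ∧
      ‖Ring.inverse (u (y + R (k + 1) • e)) * u (y + R k' • e)‖ ≤ Λ := by
    intro k' k h1 h2 h3 g1 g2
    have hpow : (0 : ℝ) < (1 / 2) ^ B := by positivity
    have hpow1 : ((1 : ℝ) / 2) ^ B ≤ 1 := pow_le_one₀ (by norm_num) (by norm_num)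
    have e1 : μ.real (closedBall (y + R (k + 1) • e) (4 * R (k + 1) * ((1 / 2) ^ B / 64))) ≤ c := by
      refine le_trans (measureReal_mono (closedBall_subset_closedBall ?_)) (hsmall _ g2)
      have := hRpos (k + 1)
      nlinarith
    have e2 : μ.real (closedBall (y + R k' • e) (4 * R (k + 1) * ((1 / 2) ^ B / 64))) ≤ c := by
      refine le_trans (measureReal_mono (closedBall_subset_closedBall ?_)) (hsmall _ g1)
      have h4 : R (k + 1) ≤ R (k' + (B + 1)) := hRmono _ _ (by omega)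
      rw [hRadd k' (B + 1)] at h4
      have h5 : (2 : ℝ) ^ (B + 1) * (1 / 2) ^ B = 2 := by
        rw [pow_succ, mul_right_comm, ← mul_pow]
        norm_num
      have h6 : R (k + 1) * (1 / 2) ^ B ≤ 2 * R k' := by
        calc R (k + 1) * (1 / 2) ^ B ≤ (2 ^ (B + 1) * R k') * (1 / 2) ^ B :=
              mul_le_mul_of_nonneg_right h4 hpow.le
          _ = (2 ^ (B + 1) * (1 / 2) ^ B) * R k' := by ring
          _ = 2 * R k' := by rw [h5]
      have := hRpos k'
      linarith
    have hk1 : R k' ≤ R (k + 1) := hRmono _ _ (by omega)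
    exact ⟨cross_use hcross (by linarith) h hE hy he (hRpos (k + 1)) (hRK _ h3) (hRpos _).le hk1
        (hRpos _).le le_rfl e2 e1,
      cross_use hcross (by linarith) h hE hy he (hRpos (k + 1)) (hRK _ h3) (hRpos _).le le_rfl
        (hRpos _).le hk1 e1 e2⟩
  obtain ⟨nb, hnb⟩ : ∃ nb : ℕ → ℕ, ∀ k, nb k =
      ((Finset.range (k + 1)).filter fun j => ¬ good j).card := ⟨_, fun _ => rfl⟩
  obtain ⟨q, hq⟩ : ∃ q : ℝ, q = 1 + 2000 * δ := ⟨_, rfl⟩
  have hq1 : 1 ≤ q := by rw [hq]; linarith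
  have main : ∀ k, k ≤ K → ∃ k', k' ≤ k ∧ good k' ∧ (∀ j, k' < j → j ≤ k → ¬ good j) ∧
      ‖Ring.inverse (u (y + R 0 • e)) * u (y + R k' • e)‖ ≤ Λ ^ nb k' * q ^ k' ∧
      ‖Ring.inverse (u (y + R k' • e)) * u (y + R 0 • e)‖ ≤ Λ ^ nb k' * q ^ k' := by
    intro k
    induction k with
    | zero =>
      intro h0
      have hg0 : good 0 := by
        rw [hgood]
        refine le_trans (measureReal_mono ?_) hμ
        refine sdiff_subset.trans (closedBall_subset_closedBall ?_)
        rw [hRdef]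
        linarith
      have h1 : Ring.inverse (u (y + R 0 • e)) * u (y + R 0 • e) = 1 :=
        Ring.inverse_mul_cancel _ (h.unit _ (hp 0 h0))
      have h2 : (1 : ℝ) ≤ Λ ^ nb 0 * q ^ 0 := by
        rw [pow_zero, mul_one]
        exact one_le_pow₀ hΛ
      refine ⟨0, le_rfl, hg0, fun j hj hj' => by omega, ?_, ?_⟩ <;>
      · rw [h1, norm_one]
        exact h2
    | succ k ih =>
      intro hk
      obtain ⟨k', h1, h2, h3, h4, h5⟩ := ih (by omega)
      by_cases hg : good (k + 1)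
      · refine ⟨k + 1, le_rfl, hg, fun j hj hj' => by omega, ?_⟩
        have hu' := h.unit _ (hp k' (by omega))
        have hΛ0 : (0 : ℝ) ≤ Λ := by linarith
        have hq0 : (0 : ℝ) ≤ q := by linarith
        rcases Nat.lt_or_ge k' k with hlt | hge
        · -- a jump
          have hcard : k - k' ≤ B := by
            have h6 := hbad (Finset.Ioc k' k) (by
              intro j hj
              rw [Finset.mem_Ioc] at hj
              exact ⟨by omega, h3 j hj.1 hj.2⟩)
            rwa [Nat.card_Ioc] at h6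
          obtain ⟨j1, j2⟩ := hjump k' k h1 (by omega) hk h2 hg
          have hnb' : nb k' + 1 ≤ nb (k + 1) := by
            rw [hnb, hnb]
            have hsub : insert k ((Finset.range (k' + 1)).filter fun j => ¬ good j) ⊆
                (Finset.range (k + 1 + 1)).filter fun j => ¬ good j := by
              intro j hj
              rw [Finset.mem_insert, Finset.mem_filter, Finset.mem_range] at hj
              rw [Finset.mem_filter, Finset.mem_range]
              rcases hj with rfl | hj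
              · exact ⟨by omega, h3 _ hlt le_rfl⟩
              · exact ⟨by omega, hj.2⟩
            have h7 := Finset.card_le_card hsub
            rw [Finset.card_insert_of_notMem (by
              rw [Finset.mem_filter, Finset.mem_range]
              omega)] at h7
            exact h7
          have hle : (Λ ^ nb k' * q ^ k') * Λ ≤ Λ ^ nb (k + 1) * q ^ (k + 1) := by
            have h8 : Λ ^ (nb k' + 1) ≤ Λ ^ nb (k + 1) := pow_le_pow_right₀ hΛ hnb'
            have h9 : q ^ k' ≤ q ^ (k + 1) := pow_le_pow_right₀ hq1 (by omega)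
            calc (Λ ^ nb k' * q ^ k') * Λ = Λ ^ (nb k' + 1) * q ^ k' := by
                  rw [pow_succ]; ring
              _ ≤ _ := mul_le_mul h8 h9 (by positivity) (by positivity)
          constructor
          · refine (N_chain hu').trans (le_trans ?_ hle)
            exact mul_le_mul h4 j1 (norm_nonneg _) (by positivity)
          · refine (N_chain hu').trans (le_trans ?_ hle)
            rw [mul_comm]
            exact mul_le_mul h5 j2 (norm_nonneg _) (by positivity)
        · have hkk : k' = k := by omega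
          subst hkk
          obtain ⟨j1, j2⟩ := hflat k' hk h2
          rw [← hq] at j1 j2
          have hnb' : nb k' ≤ nb (k' + 1) := by
            rw [hnb, hnb]
            apply Finset.card_le_card
            apply Finset.filter_subset_filter
            intro j hj
            rw [Finset.mem_range] at hj ⊢
            omega
          have hle : (Λ ^ nb k' * q ^ k') * q ≤ Λ ^ nb (k' + 1) * q ^ (k' + 1) := by
            have h8 : Λ ^ nb k' ≤ Λ ^ nb (k' + 1) := pow_le_pow_right₀ hΛ hnb'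
            calc (Λ ^ nb k' * q ^ k') * q = Λ ^ nb k' * q ^ (k' + 1) := by
                  rw [pow_succ]; ring
              _ ≤ _ := mul_le_mul_of_nonneg_right h8 (by positivity)
          constructor
          · refine (N_chain hu').trans (le_trans ?_ hle)
            exact mul_le_mul h4 j1 (norm_nonneg _) (by positivity)
          · refine (N_chain hu').trans (le_trans ?_ hle)
            rw [mul_comm]
            exact mul_le_mul h5 j2 (norm_nonneg _) (by positivity)
      · refine ⟨k', by omega, h2, ?_, h4, h5⟩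
        intro j hj hj'
        rcases Nat.lt_or_ge j (k + 1) with h6 | h6
        · exact h3 j hj (by omega)
        · have : j = k + 1 := by omega
          subst this
          exact hg
  obtain ⟨k, h1, h2, h3, h4, h5⟩ := main K le_rfl
  have hnbB : nb k ≤ B := by
    rw [hnb]
    apply hbad
    intro j hj
    rw [Finset.mem_filter, Finset.mem_range] at hj
    exact ⟨by omega, hj.2⟩
  have hKB : K - k ≤ B := by
    have h6 := hbad (Finset.Ioc k K) (by
      intro j hj
      rw [Finset.mem_Ioc] at hj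
      exact ⟨by omega, h3 j hj.1 hj.2⟩)
    rwa [Nat.card_Ioc] at h6
  have hfin : Λ ^ nb k * q ^ k ≤ Λ ^ B * (1 + 2000 * δ) ^ k := by
    rw [← hq]
    exact mul_le_mul_of_nonneg_right (pow_le_pow_right₀ hΛ hnbB) (by positivity)
  have hR0 : R 0 = r / 16 := by rw [hRdef, pow_zero, one_mul]
  rw [hR0] at h4 h5
  simp only [← hRdef]
  exact ⟨k, h1, by omega, hsmall k h2, h4.trans hfin, h5.trans hfin⟩

end CondGAux

open CondGAux

theorem cond_bound {A : Type} [NormedRing A] [NormOneClass A] [CompleteSpace A] (hm : 2 ≤ m)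
    {E c : ℝ} (hc : 0 < c) : ∃ Λ θ : ℝ, 1 ≤ Λ ∧ 0 < θ ∧ θ ≤ 1 / 4 ∧
    ∀ (u : V m → A) (μ : Measure (V m)) (δ : ℝ), IsFiniteMeasure μ → 0 ≤ δ → δ ≤ 1 / 40000 →
    CtrlG δ c (ball 0 1) u μ → μ.real (ball 0 1) ≤ E →
    ∀ y ∈ closedBall (0 : V m) (1 / 4), ∀ r : ℝ, 0 < r → r ≤ 1 / 4 →
    μ.real (closedBall y r) ≤ c → ∃ p ∈ closedBall (0 : V m) (1 / 2),
      μ.real (closedBall p θ) ≤ c ∧ ‖Ring.inverse (u y) * u p‖ ^ 8 * r ≤ Λ ∧
      ‖Ring.inverse (u p) * u y‖ ^ 8 * r ≤ Λ := by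
  obtain ⟨B, hB⟩ : ∃ B : ℕ, 2 * E / c < B + 1 := by
    obtain ⟨B, hB⟩ := exists_nat_gt (2 * E / c)
    exact ⟨B, by linarith⟩
  obtain ⟨Λ, hΛ, hcross⟩ := cross (A := A) (m := m) hm (E := E) (c := c)
    (θ := (1 / 2) ^ B / 64) hc (by positivity)
  have hpow1 : ((1 : ℝ) / 2) ^ B ≤ 1 := pow_le_one₀ (by norm_num) (by norm_num)
  have hΛB : (1 : ℝ) ≤ Λ ^ B := one_le_pow₀ hΛ
  refine ⟨(2 * Λ ^ B) ^ 8 * 2, (1 / 2) ^ B / 64, ?_, by positivity, by linarith, ?_⟩
  · have h1 : (1 : ℝ) ≤ (2 * Λ ^ B) ^ 8 := one_le_pow₀ (by linarith)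
    linarith
  intro u μ δ hfin hδ0 hδ h hE y hy r hr hr4 hμ
  have hyn : ‖y‖ ≤ 1 / 4 := by rwa [mem_closedBall_zero_iff] at hy
  -- the direction
  obtain ⟨e, he⟩ : ∃ e : V m, ‖e‖ = 1 := by
    refine ⟨(4 / 3 : ℝ) • w0 m, ?_⟩
    rw [norm_smul, Pool.Agent.Lib.P28f.norm_w0 (by omega)]
    norm_num
  obtain ⟨K, hK1, hK2⟩ := exists_nat_pow_near (x := 2 / r) (y := 2)
    (by rw [le_div_iff₀ hr]; linarith) (by norm_num)
  rw [le_div_iff₀ hr] at hK1
  rw [div_lt_iff₀ hr] at hK2
  obtain ⟨k, hk1, hk2, hk3, hk4, hk5⟩ := chain hm hc hB hΛ hcross hδ0 hδ h hE hy he hr hμ K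
    (by linarith)
  obtain ⟨q, hq⟩ : ∃ q : ℝ, q = 1 + 2000 * δ := ⟨_, rfl⟩
  rw [← hq] at hk4 hk5
  have hq1 : 1 ≤ q := by rw [hq]; linarith
  have hq2 : q ≤ 21 / 20 := by rw [hq]; linarith
  have hq8 : q ^ 8 ≤ 2 := by
    calc q ^ 8 ≤ (21 / 20) ^ 8 := pow_le_pow_left₀ (by linarith) hq2 8
      _ ≤ 2 := by norm_num
  have hpowk : (2 : ℝ) ^ k ≤ 2 ^ K := pow_le_pow_right₀ (by norm_num) hk1
  have hkr : (2 : ℝ) ^ k * r ≤ 2 := by
    have := mul_le_mul_of_nonneg_right hpowk hr.le
    linarith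
  have hqk : (q ^ k) ^ 8 * r ≤ 2 := by
    rw [← pow_mul, mul_comm k 8, pow_mul]
    calc (q ^ 8) ^ k * r ≤ 2 ^ k * r :=
          mul_le_mul_of_nonneg_right (pow_le_pow_left₀ (by positivity) hq8 k) hr.le
      _ ≤ 2 := hkr
  -- units
  have hsub : closedBall y r ⊆ ball 0 1 := by
    intro x hx
    rw [mem_closedBall, dist_eq_norm] at hx
    rw [mem_ball_zero_iff]
    have h2 : ‖x‖ ≤ ‖x - y‖ + ‖y‖ := by
      calc ‖x‖ = ‖(x - y) + y‖ := by rw [sub_add_cancel]
        _ ≤ _ := norm_add_le _ _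
    linarith
  have hp0 : y + (r / 16) • e ∈ closedBall y (r / 8) := by
    rw [mem_closedBall, dist_eq_norm, add_sub_cancel_left, norm_smul, he, mul_one,
      Real.norm_of_nonneg (by positivity)]
    linarith
  have hy0 : y ∈ closedBall y (r / 8) := mem_closedBall_self (by positivity)
  have hfl := h.flat y r hr hsub hμ
  have hu0 : IsUnit (u (y + (r / 16) • e)) :=
    h.unit _ (hsub (closedBall_subset_closedBall (by linarith) hp0))
  have n1 : ‖Ring.inverse (u y) * u (y + (r / 16) • e)‖ ≤ 2 := by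
    have := N_flat hfl hy0 hp0
    linarith
  have n2 : ‖Ring.inverse (u (y + (r / 16) • e)) * u y‖ ≤ 2 := by
    have := N_flat hfl hp0 hy0
    linarith
  have hfinal : ∀ x : ℝ, 0 ≤ x → x ≤ 2 * (Λ ^ B * q ^ k) →
      x ^ 8 * r ≤ (2 * Λ ^ B) ^ 8 * 2 := by
    intro x hx0 hx
    have e1 : 2 * (Λ ^ B * q ^ k) = (2 * Λ ^ B) * q ^ k := by ring
    rw [e1] at hx
    calc x ^ 8 * r ≤ ((2 * Λ ^ B) * q ^ k) ^ 8 * r :=
          mul_le_mul_of_nonneg_right (pow_le_pow_left₀ hx0 hx 8) hr.le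
      _ = (2 * Λ ^ B) ^ 8 * ((q ^ k) ^ 8 * r) := by rw [mul_pow]; ring
      _ ≤ (2 * Λ ^ B) ^ 8 * 2 := mul_le_mul_of_nonneg_left hqk (by positivity)
  have hRk : 2 ^ k * r / 16 ≤ 1 / 8 := by linarith
  have hRk0 : 0 ≤ 2 ^ k * r / 16 := by positivity
  refine ⟨y + (2 ^ k * r / 16) • e, ?_, ?_, ?_, ?_⟩
  · rw [mem_closedBall_zero_iff]
    calc ‖y + (2 ^ k * r / 16) • e‖ ≤ ‖y‖ + ‖(2 ^ k * r / 16) • e‖ := norm_add_le _ _
      _ = ‖y‖ + 2 ^ k * r / 16 := by
          rw [norm_smul, he, mul_one, Real.norm_of_nonneg hRk0]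
      _ ≤ _ := by linarith
  · refine le_trans (measureReal_mono (closedBall_subset_closedBall ?_)) hk3
    have h1 : (2 : ℝ) ^ K ≤ 2 ^ (k + B) := pow_le_pow_right₀ (by norm_num) hk2
    rw [pow_add] at h1
    have h2 : (2 : ℝ) < 2 ^ k * 2 ^ B * 2 * r := by
      have h3 := mul_le_mul_of_nonneg_right h1 hr.le
      rw [pow_succ] at hK2
      nlinarith
    have h3 : (2 : ℝ) ^ B * (1 / 2) ^ B = 1 := by
      rw [← mul_pow]
      norm_num
    have h4 : (0 : ℝ) < (1 / 2) ^ B := by positivity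
    have h5 : (1 / 2 : ℝ) ^ B ≤ 2 ^ k * r := by
      have h6 := mul_lt_mul_of_pos_right h2 h4
      have e2 : (2 : ℝ) ^ k * 2 ^ B * 2 * r * (1 / 2) ^ B = 2 * (2 ^ k * r) * (2 ^ B * (1 / 2) ^ B) := by
        ring
      rw [e2, h3, mul_one] at h6
      linarith
    linarith
  · refine hfinal _ (norm_nonneg _) ((N_chain hu0).trans ?_)
    exact mul_le_mul n1 hk4 (norm_nonneg _) (by norm_num)
  · refine hfinal _ (norm_nonneg _) ((N_chain hu0).trans ?_)
    rw [mul_comm]
    exact mul_le_mul n2 hk5 (norm_nonneg _) (by norm_num)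

end Pool.Agent.Lib.P28g
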