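import Pool.Agent.Lib.P28g.ChartCmp
import Pool.Agent.Lib.P28g.AnnSeg
import Pool.Agent.Lib.P28f.CoreLin
import Pool.Agent.Lib.P28f.RingNear

set_option autoImplicit false

/-!
# Confinement: an injective lift which is flat on an annulus maps the inner ball into the chart

PROOF SKETCH. Let `A = {s/8 ≤ ‖x‖ ≤ 2 s}`, `p = (s/2) • w0` (`‖p‖ = 3/8 s`), `M = uu H p`, `w = H (sl n p)` (`‖w - e0‖ ≤ 1/16`), `C` = constants of `chart_cmp`, `fc_fderiv_le`.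
(1) For `x ∈ A`, along the three segments of `ann_seg` (each of length `≤ 4 s`) the derivative of `y ↦ M⁻¹ H (sl n y)` is `M⁻¹ uu H y ∘ Lv`, norm `≤ 2 (1 + δ₀)`; so `‖H (sl n x) - w‖ ≤ 12 s * 3 * ‖M‖`; and
`1 ≤ ‖sl n p‖ ≤ ‖M⁻¹‖ ‖w‖` (`fderiv_homog` with `b = 1`), `‖w‖ ≤ 2`, so `s ‖M‖ ≤ 2 s ‖M‖ ‖M⁻¹‖ ≤ 2 ε₀` (`‖M‖ ‖M⁻¹‖ ≥ 1`) and `‖H (sl n x) - w‖ ≤ 72 ε₀ ≤ 1/100`; moreover `‖H (sl n x) - w‖ ‖M‖ ‖M⁻¹‖ ≤ 72 ε₀ ‖w‖`.
So `H (sl n x) 0 ≠ 0`, `‖H (sl n x)‖ ≤ 2 ‖H (sl n x) 0‖`, `‖fc H x‖ ≤ 1/8`, and by `chart_cmp` (`x := p`) `‖(df p)⁻¹ df x - 1‖ ≤ C (δ₀ + 72 ε₀ ·2) =: τ` for `f = fc H`, `x ∈ A`.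
(2) `g x = p + (df p)⁻¹ (f x - f p)`; `‖fderiv g x - 1‖ ≤ τ` on `A`, so by the three segments `‖g x - x‖ ≤ 12 s τ` on `A`. For `‖v‖ = 3/8 s` there is `x'` with `‖x' - v‖ ≤ s/16` and `g x' = v`: on `closedBall v (s/16) ⊆ A` the map
`x ↦ x - (g x - v)` is a contraction (Lipschitz `τ`, and moves `v` by at most `12 s τ ≤ s/32`).
(3) Let `B = closedBall 0 (s/4)`, `A' = {x ∈ B | H (sl n x) 0 ≠ 0 ∧ ‖g x‖ < 3/8 s}`. `A'` is open in `B`. It is closed in `B`: if `x_k ∈ A'` tend to `x ∈ B` then `‖g x_k‖ < 3/8 s` bounds `f x_k`, i.e. `‖H (sl n x_k)‖ ≤ C' ‖H (sl n x_k) 0‖`, in the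
limit `‖H (sl n x)‖ ≤ C' ‖H (sl n x) 0‖` and `H (sl n x) ≠ 0`, so `H (sl n x) 0 ≠ 0` and `‖g x‖ ≤ 3/8 s`; equality is impossible: `g x = v = g x'` with `‖x'‖ ≥ 5/16 s > ‖x‖` gives `f x = f x'`, so
`H (sl n x') = b • H (sl n x) = H (b • sl n x)`, by injectivity `sl n x' = b • sl n x`, coordinate `0`: `b = 1`, `x = x'` (`kap` injective). `B` is connected (convex) and `A'` contains the points of norm `s/4` (`‖g x‖ ≤ s/4 + 12 s τ`).
So `A' = B`; there `‖f x‖ ≤ ‖f p‖ + ‖df p‖ * (3/4 s) ≤ 1/8 + C ‖M‖ / ‖w‖ * s ≤ 1/4`, which gives `‖H (sl n x)‖ ≤ 2 ‖H (sl n x) 0‖` by `norm_le_of_cc`.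
-/

open MeasureTheory Set Metric
open scoped ContDiff Topology ENNReal

namespace Pool.Agent.Lib.P28g

open Pool.Agent.P28b04d Pool.Agent.Lib.P28e Pool.Agent.Lib.P28c
open Pool.Agent.Lib.P28f (V EV w0)

variable {n m : ℕ}

namespace ConfineAux

theorem seg_bound {F : Type} [NormedAddCommGroup F] [NormedSpace ℝ F] {φ : V m → F} {K : ℝ}
    {a b : V m} (h : ∀ t ∈ Icc (0 : ℝ) 1, DifferentiableAt ℝ φ (a + t • (b - a)) ∧
      ‖fderiv ℝ φ (a + t • (b - a))‖ ≤ K) : ‖φ b - φ a‖ ≤ K * ‖b - a‖ := by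
  have hS : ∀ x ∈ segment ℝ a b, DifferentiableAt ℝ φ x ∧ ‖fderiv ℝ φ x‖ ≤ K := by
    intro x hx
    rw [segment_eq_image'] at hx
    obtain ⟨t, ht, rfl⟩ := hx
    exact h t ht
  exact (convex_segment a b).norm_image_sub_le_of_norm_fderiv_le (fun x hx => (hS x hx).1)
    (fun x hx => (hS x hx).2) (left_mem_segment ℝ a b) (right_mem_segment ℝ a b)

theorem ann_bound {F : Type} [NormedAddCommGroup F] [NormedSpace ℝ F] {φ : V m → F} {K r R : ℝ}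
    (hm : 2 ≤ m) (hr : 0 < r) (hK : 0 ≤ K)
    (h : ∀ y : V m, r ≤ ‖y‖ → ‖y‖ ≤ R → DifferentiableAt ℝ φ y ∧ ‖fderiv ℝ φ y‖ ≤ K)
    {x y : V m} (hx : r ≤ ‖x‖ ∧ ‖x‖ ≤ R) (hy : r ≤ ‖y‖ ∧ ‖y‖ ≤ R) :
    ‖φ y - φ x‖ ≤ K * (6 * R) := by
  obtain ⟨p, q, h1, h2, h3⟩ := ann_seg hm hr hx hy
  have b1 := seg_bound (φ := φ) (K := K) (a := x) (b := p) fun t ht =>
    h _ (h1 t ht).1 (h1 t ht).2
  have b2 := seg_bound (φ := φ) (K := K) (a := p) (b := q) fun t ht =>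
    h _ (h2 t ht).1 (h2 t ht).2
  have b3 := seg_bound (φ := φ) (K := K) (a := q) (b := y) fun t ht =>
    h _ (h3 t ht).1 (h3 t ht).2
  have hp : ‖p‖ ≤ R := by
    have := (h2 0 ⟨le_rfl, zero_le_one⟩).2
    simpa using this
  have hq : ‖q‖ ≤ R := by
    have := (h3 0 ⟨le_rfl, zero_le_one⟩).2
    simpa using this
  have d1 : ‖p - x‖ ≤ 2 * R := (norm_sub_le _ _).trans (by linarith [hx.2])
  have d2 : ‖q - p‖ ≤ 2 * R := (norm_sub_le _ _).trans (by linarith)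
  have d3 : ‖y - q‖ ≤ 2 * R := (norm_sub_le _ _).trans (by linarith [hy.2])
  have e : φ y - φ x = (φ y - φ q) + (φ q - φ p) + (φ p - φ x) := by abel
  rw [e]
  calc ‖(φ y - φ q) + (φ q - φ p) + (φ p - φ x)‖
      ≤ ‖φ y - φ q‖ + ‖φ q - φ p‖ + ‖φ p - φ x‖ := norm_add₃_le
    _ ≤ K * ‖y - q‖ + K * ‖q - p‖ + K * ‖p - x‖ := by linarith
    _ ≤ K * (2 * R) + K * (2 * R) + K * (2 * R) := by gcongr
    _ = K * (6 * R) := by ring

theorem surj_near {g : V m → V m} {s τ : ℝ} (hm : 2 ≤ m) (hs : 0 < s) (h0 : 0 ≤ τ)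
    (hτ : τ ≤ 1 / 400)
    (hg : ∀ x : V m, s / 8 ≤ ‖x‖ → ‖x‖ ≤ 2 * s → DifferentiableAt ℝ g x ∧
      ‖(fderiv ℝ g x : EV m) - 1‖ ≤ τ) {p : V m} (hp : s / 8 ≤ ‖p‖ ∧ ‖p‖ ≤ 2 * s)
    (hgp : g p = p) :
    (∀ x : V m, s / 8 ≤ ‖x‖ → ‖x‖ ≤ 2 * s → ‖g x - x‖ ≤ 12 * s * τ) ∧
    ∀ v : V m, ‖v‖ = 3 / 8 * s → ∃ x' : V m, ‖x' - v‖ ≤ s / 16 ∧ g x' = v := by
  have hA : ∀ x : V m, s / 8 ≤ ‖x‖ → ‖x‖ ≤ 2 * s → ‖g x - x‖ ≤ 12 * s * τ := by
    intro x hx1 hx2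
    have h1 := ann_bound (φ := fun y => g y - y) (K := τ) (r := s / 8) (R := 2 * s) hm
      (by positivity) h0 (fun y hy1 hy2 => by
        obtain ⟨a1, a2⟩ := hg y hy1 hy2
        refine ⟨a1.sub differentiableAt_id, ?_⟩
        have : fderiv ℝ (fun y => g y - y) y = fderiv ℝ g y - 1 := by
          have h2 : HasFDerivAt (fun y => g y - y)
              (fderiv ℝ g y - ContinuousLinearMap.id ℝ (V m)) y :=
            a1.hasFDerivAt.sub (hasFDerivAt_id y)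
          exact h2.fderiv
        rw [this]
        exact a2) (x := p) (y := x) hp ⟨hx1, hx2⟩
    have h2 : (g x - x) - (g p - p) = g x - x := by rw [hgp]; simp
    have h3 : ‖(g x - x) - (g p - p)‖ ≤ τ * (6 * (2 * s)) := h1
    rw [h2] at h3
    linarith
  refine ⟨hA, fun v hv => ?_⟩
  have hball : ∀ x ∈ closedBall v (s / 16), s / 8 ≤ ‖x‖ ∧ ‖x‖ ≤ 2 * s := by
    intro x hx
    rw [mem_closedBall, dist_eq_norm] at hx
    have e1 : ‖v‖ ≤ ‖x‖ + ‖x - v‖ := by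
      have := norm_sub_le x (x - v)
      rwa [sub_sub_cancel] at this
    have e2 : ‖x‖ ≤ ‖v‖ + ‖x - v‖ := by
      have := norm_add_le v (x - v)
      rwa [add_sub_cancel] at this
    constructor <;> linarith
  have happ : ApproximatesLinearOn g (ContinuousLinearMap.id ℝ (V m)) (closedBall v (s / 16))
      ⟨τ, h0⟩ := by
    intro x hx y hy
    exact (convex_closedBall v (s / 16)).norm_image_sub_le_of_norm_fderiv_le'
      (φ := ContinuousLinearMap.id ℝ (V m))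
      (fun z hz => (hg z (hball z hz).1 (hball z hz).2).1)
      (fun z hz => (hg z (hball z hz).1 (hball z hz).2).2) hy hx
  let R : (ContinuousLinearMap.id ℝ (V m)).NonlinearRightInverse :=
    { toFun := fun y => y
      nnnorm := 1
      bound' := fun y => by simp
      right_inv' := fun y => rfl }
  have hsurj := happ.surjOn_closedBall_of_nonlinearRightInverse R (ε := s / 16) (b := v)
    (by positivity) subset_rfl
  have hmem : v ∈ closedBall (g v) (((R.nnnorm : ℝ)⁻¹ - (⟨τ, h0⟩ : NNReal)) * (s / 16)) := by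
    rw [mem_closedBall, dist_eq_norm, norm_sub_rev]
    have h1 := hA v (by rw [hv]; linarith) (by rw [hv]; linarith)
    refine h1.trans ?_
    show 12 * s * τ ≤ (((1 : NNReal) : ℝ)⁻¹ - τ) * (s / 16)
    rw [NNReal.coe_one, inv_one]
    nlinarith
  obtain ⟨x', hx', hgx'⟩ := hsurj hmem
  refine ⟨x', ?_, hgx'⟩
  rwa [mem_closedBall, dist_eq_norm] at hx'

theorem norm_Lv_op : ‖Lv n‖ ≤ 2 :=
  ContinuousLinearMap.opNorm_le_bound _ (by norm_num) norm_Lv_le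

theorem hasFDerivAt_Hsl {H : W n → W n} (h : HLoc H) (y : V (n * 2)) :
    HasFDerivAt (fun y => H (sl n y)) ((uu H y).comp (Lv n)) y := by
  have h1 : HasFDerivAt H (fderiv ℝ H (sl n y)) (sl n y) :=
    ((h.contDiffAt (sl_ne y)).differentiableAt (by simp)).hasFDerivAt
  exact h1.comp y (hasFDerivAt_sl y)

theorem norm_uu_le {H : W n → W n} (h : HLoc H) {p y : V (n * 2)} {δ : ℝ} (hδ : δ ≤ 1)
    (hf : ‖Ring.inverse (uu H p) * uu H y - 1‖ ≤ δ) : ‖uu H y‖ ≤ 2 * ‖uu H p‖ := by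
  have h1 : uu H y = uu H p * (Ring.inverse (uu H p) * uu H y) := by
    rw [← mul_assoc, Ring.mul_inverse_cancel _ (isUnit_uu h p), one_mul]
  have h2 : ‖Ring.inverse (uu H p) * uu H y‖ ≤ 2 := by
    calc ‖Ring.inverse (uu H p) * uu H y‖ = ‖(Ring.inverse (uu H p) * uu H y - 1) + 1‖ := by
          rw [sub_add_cancel]
      _ ≤ ‖Ring.inverse (uu H p) * uu H y - 1‖ + ‖(1 : EndW n)‖ := norm_add_le _ _
      _ ≤ 1 + 1 := by
          rw [norm_one]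
          linarith
      _ = 2 := by norm_num
  rw [h1]
  calc ‖uu H p * (Ring.inverse (uu H p) * uu H y)‖ ≤
        ‖uu H p‖ * ‖Ring.inverse (uu H p) * uu H y‖ := norm_mul_le _ _
    _ ≤ ‖uu H p‖ * 2 := by gcongr
    _ = 2 * ‖uu H p‖ := by ring

theorem norm_e0 : ‖e0 n‖ ≤ 1 := by
  rw [pi_norm_le_iff_of_nonneg zero_le_one]
  intro i
  refine Fin.cases ?_ (fun j => ?_) i
  · simp [e0]
  · simp [e0]

theorem step1 (hn : 1 ≤ n) {H : W n → W n} (h : HLoc H) {s δ ε : ℝ} (hs : 0 < s) (hδ : δ ≤ 1)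
    {p : V (n * 2)} (hp : s / 8 ≤ ‖p‖ ∧ ‖p‖ ≤ 2 * s)
    (hflat : FlatU δ {x : V (n * 2) | s / 8 ≤ ‖x‖ ∧ ‖x‖ ≤ 2 * s} (uu H))
    (hw : ‖H (sl n p) - e0 n‖ ≤ 1 / 16)
    (hκ : s * (‖uu H p‖ * ‖Ring.inverse (uu H p)‖) ^ 2 ≤ ε) :
    (∀ x : V (n * 2), s / 8 ≤ ‖x‖ → ‖x‖ ≤ 2 * s →
      ‖H (sl n x) - H (sl n p)‖ ≤ 96 * ε ∧
      ‖H (sl n x) - H (sl n p)‖ * (‖uu H p‖ * ‖Ring.inverse (uu H p)‖) ≤
        48 * ε * ‖H (sl n p)‖) ∧ s * ‖uu H p‖ ≤ 2 * ε := by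
  have hU := isUnit_uu h p
  have hw2 : ‖H (sl n p)‖ ≤ 2 := by
    have := norm_add_le (H (sl n p) - e0 n) (e0 n)
    rw [sub_add_cancel] at this
    have := norm_e0 (n := n)
    linarith
  have hM : uu H p (sl n p) = H (sl n p) := by
    have := fderiv_homog h (sl_ne p) 1
    rwa [one_smul, one_smul] at this
  have hMi : Ring.inverse (uu H p) (H (sl n p)) = sl n p := by
    have h1 : Ring.inverse (uu H p) * uu H p = 1 := Ring.inverse_mul_cancel _ hU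
    have h2 := congrArg (fun T : EndW n => T (sl n p)) h1
    have h3 : Ring.inverse (uu H p) (uu H p (sl n p)) = sl n p := h2
    rwa [hM] at h3
  have h1w : 1 ≤ ‖Ring.inverse (uu H p)‖ * ‖H (sl n p)‖ := by
    calc (1 : ℝ) ≤ ‖sl n p‖ := one_le_norm_sl p
      _ = ‖Ring.inverse (uu H p) (H (sl n p))‖ := by rw [hMi]
      _ ≤ _ := ContinuousLinearMap.le_opNorm _ _
  obtain ⟨a, ha⟩ : ∃ a, a = ‖uu H p‖ := ⟨_, rfl⟩
  obtain ⟨b, hb⟩ : ∃ b, b = ‖Ring.inverse (uu H p)‖ := ⟨_, rfl⟩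
  obtain ⟨w, hww⟩ : ∃ w, w = ‖H (sl n p)‖ := ⟨_, rfl⟩
  have ha0 : 0 ≤ a := ha ▸ norm_nonneg _
  have hb0 : 0 ≤ b := hb ▸ norm_nonneg _
  have hw0 : 0 ≤ w := hww ▸ norm_nonneg _
  have hab : 1 ≤ a * b := by
    have h1 : uu H p * Ring.inverse (uu H p) = 1 := Ring.mul_inverse_cancel _ hU
    calc (1 : ℝ) = ‖(1 : EndW n)‖ := norm_one.symm
      _ = ‖uu H p * Ring.inverse (uu H p)‖ := by rw [h1]
      _ ≤ a * b := by rw [ha, hb]; exact norm_mul_le _ _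
  rw [← hb, ← hww] at h1w
  rw [← hww] at hw2
  rw [← ha, ← hb] at hκ
  have hK : ∀ x : V (n * 2), s / 8 ≤ ‖x‖ → ‖x‖ ≤ 2 * s →
      ‖H (sl n x) - H (sl n p)‖ ≤ 48 * s * a := by
    intro x hx1 hx2
    have h1 := ann_bound (φ := fun y => H (sl n y)) (K := 4 * a) (r := s / 8) (R := 2 * s)
      (by omega) (by positivity) (by positivity) (fun y hy1 hy2 => by
        have h2 := hasFDerivAt_Hsl h y
        refine ⟨h2.differentiableAt, ?_⟩
        rw [h2.fderiv]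
        have h3 := norm_uu_le h hδ (hflat p hp y ⟨hy1, hy2⟩)
        rw [← ha] at h3
        calc ‖(uu H y).comp (Lv n)‖ ≤ ‖uu H y‖ * ‖Lv n‖ :=
              ContinuousLinearMap.opNorm_comp_le _ _
          _ ≤ (2 * a) * 2 := mul_le_mul h3 norm_Lv_op (norm_nonneg _) (by positivity)
          _ = 4 * a := by ring) (x := p) (y := x) hp ⟨hx1, hx2⟩
    have h3 : ‖H (sl n x) - H (sl n p)‖ ≤ 4 * a * (6 * (2 * s)) := h1
    linarith
  have hsa : s * a ≤ 2 * ε := by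
    have e1 : a ≤ a * (2 * b) := by
      have : 1 ≤ 2 * b := by nlinarith
      nlinarith
    have e2 : a * b ≤ (a * b) ^ 2 := by nlinarith
    nlinarith
  rw [← ha]
  refine ⟨fun x hx1 hx2 => ⟨?_, ?_⟩, hsa⟩
  · have := hK x hx1 hx2
    nlinarith
  · rw [← hb, ← hww]
    have h1 := hK x hx1 hx2
    have e1 : a ≤ (a * b) * w := by nlinarith
    calc ‖H (sl n x) - H (sl n p)‖ * (a * b) ≤ (48 * s * a) * (a * b) := by gcongr
      _ ≤ (48 * s * ((a * b) * w)) * (a * b) := by gcongr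
      _ = 48 * (s * (a * b) ^ 2) * w := by ring
      _ ≤ 48 * ε * w := by gcongr

end ConfineAux

namespace ConfineAux

/-- The normalised chart expression. -/
noncomputable def gg (H : W n → W n) (p x : V (n * 2)) : V (n * 2) :=
  p + (Ring.inverse (fderiv ℝ (fc H) p : EV (n * 2))) (fc H x - fc H p)

theorem gg_self (H : W n → W n) (p : V (n * 2)) : gg H p p = p := by
  unfold gg
  rw [sub_self, map_zero, add_zero]

theorem gg_diff {H : W n → W n} (h : HLoc H) {p x : V (n * 2)} (hx0 : H (sl n x) 0 ≠ 0) :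
    HasFDerivAt (gg H p)
      (Ring.inverse (fderiv ℝ (fc H) p : EV (n * 2)) * fderiv ℝ (fc H) x : EV (n * 2)) x := by
  have h1 : HasFDerivAt (fc H) (fderiv ℝ (fc H) x) x :=
    ((fc_imm h hx0).1.differentiableAt (by simp)).hasFDerivAt
  have h2 : HasFDerivAt (fun y => fc H y - fc H p) (fderiv ℝ (fc H) x) x := h1.sub_const _
  exact ((Ring.inverse (fderiv ℝ (fc H) p : EV (n * 2))).hasFDerivAt.comp x h2).const_add p

theorem fc_of_gg {H : W n → W n} (h : HLoc H) {p x : V (n * 2)} (hp0 : H (sl n p) 0 ≠ 0) :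
    fc H x = fc H p + (fderiv ℝ (fc H) p) (gg H p x - p) := by
  have hU := (fc_imm h hp0).2
  have h1 : (fderiv ℝ (fc H) p : EV (n * 2)) * Ring.inverse (fderiv ℝ (fc H) p : EV (n * 2)) = 1 :=
    Ring.mul_inverse_cancel _ hU
  have h2 := congrArg (fun T : EV (n * 2) => T (fc H x - fc H p)) h1
  have h3 : (fderiv ℝ (fc H) p) ((Ring.inverse (fderiv ℝ (fc H) p : EV (n * 2)))
      (fc H x - fc H p)) = fc H x - fc H p := h2
  unfold gg
  rw [add_sub_cancel_left, h3]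
  abel

theorem gg_inj {H : W n → W n} (h : HLoc H) (hinj : Function.Injective H) {p x y : V (n * 2)}
    (hp0 : H (sl n p) 0 ≠ 0) (hx0 : H (sl n x) 0 ≠ 0) (hy0 : H (sl n y) 0 ≠ 0)
    (he : gg H p x = gg H p y) : x = y := by
  have hf : fc H x = fc H y := by
    rw [fc_of_gg h (x := x) hp0, fc_of_gg h (x := y) hp0, he]
  have e1 := fc_spec hx0
  have e2 := fc_spec hy0
  rw [← hf] at e2
  have e3 : H (sl n y) = (H (sl n y) 0 / H (sl n x) 0) • H (sl n x) := by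
    conv_lhs => rw [← e2]
    conv_rhs => rw [← e1]
    rw [smul_smul]
    congr 1
    have : (H (sl n x) 0 • sl n (fc H x)) 0 = H (sl n x) 0 := by rw [e1]
    rw [this]
    exact (div_mul_cancel₀ _ hx0).symm
  rw [← h.hom] at e3
  have e4 := hinj e3
  have e5 := congrFun e4 0
  rw [Pi.smul_apply, sl_apply_zero, sl_apply_zero, smul_eq_mul, mul_one] at e5
  rw [← e5, one_smul] at e4
  rw [← cc_sl x, ← cc_sl y, e4]

theorem continuous_Hsl {H : W n → W n} (h : HLoc H) : Continuous fun y : V (n * 2) => H (sl n y) :=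
  continuous_iff_continuousAt.2 fun y => (hasFDerivAt_Hsl h y).continuousAt

theorem conf_top {H : W n → W n} (h : HLoc H) (hinj : Function.Injective H) {s : ℝ} (hs : 0 < s)
    {p : V (n * 2)} (hp0 : H (sl n p) 0 ≠ 0)
    (hA : ∀ x : V (n * 2), s / 8 ≤ ‖x‖ → ‖x‖ ≤ 2 * s → H (sl n x) 0 ≠ 0)
    (hsurj : ∀ v : V (n * 2), ‖v‖ = 3 / 8 * s → ∃ x' : V (n * 2), ‖x' - v‖ ≤ s / 16 ∧
      gg H p x' = v)
    (h0 : ∃ x : V (n * 2), ‖x‖ ≤ s / 4 ∧ H (sl n x) 0 ≠ 0 ∧ ‖gg H p x‖ < 3 / 8 * s) :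
    ∀ x : V (n * 2), ‖x‖ ≤ s / 4 → H (sl n x) 0 ≠ 0 ∧ ‖gg H p x‖ < 3 / 8 * s := by
  have hc := continuous_Hsl h
  have hc0 : Continuous fun y : V (n * 2) => H (sl n y) 0 := (continuous_apply 0).comp hc
  obtain ⟨U, hU⟩ : ∃ U : Set (V (n * 2)), U = {x | H (sl n x) 0 ≠ 0 ∧ ‖gg H p x‖ < 3 / 8 * s} :=
    ⟨_, rfl⟩
  have hmem : ∀ x, x ∈ U ↔ H (sl n x) 0 ≠ 0 ∧ ‖gg H p x‖ < 3 / 8 * s := fun x => by rw [hU]; rfl
  have hopen : IsOpen U := by
    rw [isOpen_iff_eventually]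
    intro x hx
    obtain ⟨hx1, hx2⟩ := (hmem x).1 hx
    have e1 : ∀ᶠ y in 𝓝 x, H (sl n y) 0 ≠ 0 := hc0.continuousAt.eventually_ne hx1
    have e2 : ∀ᶠ y in 𝓝 x, ‖gg H p y‖ < 3 / 8 * s :=
      ((gg_diff h hx1).continuousAt.norm).eventually_lt_const hx2
    filter_upwards [e1, e2] with y hy1 hy2
    exact (hmem y).2 ⟨hy1, hy2⟩
  have hpre : IsPreconnected (closedBall (0 : V (n * 2)) (s / 4)) :=
    (convex_closedBall _ _).isPreconnected
  have hsub : closedBall (0 : V (n * 2)) (s / 4) ⊆ U := by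
    refine hpre.subset_of_closure_inter_subset hopen ?_ ?_
    · obtain ⟨x, hx1, hx2, hx3⟩ := h0
      exact ⟨x, by rwa [mem_closedBall, dist_zero_right], (hmem x).2 ⟨hx2, hx3⟩⟩
    · rintro x ⟨hx1, hx2⟩
      rw [mem_closedBall, dist_zero_right] at hx2
      obtain ⟨R, hR⟩ : ∃ R : ℝ, R = ‖fc H p‖ + ‖(fderiv ℝ (fc H) p : EV (n * 2))‖ *
        (3 / 8 * s + ‖p‖) := ⟨_, rfl⟩
      have hUC : U ⊆ {y | ‖H (sl n y)‖ ≤ max 1 (2 * R) * ‖H (sl n y) 0‖} := by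
        intro y hy
        obtain ⟨hy1, hy2⟩ := (hmem y).1 hy
        have hfc : ‖cc (H (sl n y))‖ ≤ R := by
          show ‖fc H y‖ ≤ R
          rw [fc_of_gg h (x := y) hp0, hR]
          refine (norm_add_le _ _).trans ?_
          gcongr
          refine (ContinuousLinearMap.le_opNorm _ _).trans ?_
          gcongr
          exact (norm_sub_le _ _).trans (by linarith)
        refine (norm_le_of_cc hy1).trans ?_
        show max 1 (2 * ‖cc (H (sl n y))‖) * ‖H (sl n y) 0‖ ≤ max 1 (2 * R) * ‖H (sl n y) 0‖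
        gcongr
      have hclosed : IsClosed {y : V (n * 2) | ‖H (sl n y)‖ ≤ max 1 (2 * R) * ‖H (sl n y) 0‖} :=
        isClosed_le hc.norm (continuous_const.mul hc0.norm)
      have hxC : ‖H (sl n x)‖ ≤ max 1 (2 * R) * ‖H (sl n x) 0‖ :=
        (closure_minimal hUC hclosed) hx1
      have hx0 : H (sl n x) 0 ≠ 0 := by
        intro h00
        rw [h00, norm_zero, mul_zero] at hxC
        exact h.ne (sl_ne x) (norm_le_zero_iff.1 hxC)
      have hfr : ∃ᶠ y in 𝓝 x, y ∈ U := mem_closure_iff_frequently.1 hx1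
      have hcont := (gg_diff (p := p) h hx0).continuousAt.norm
      have hle : ‖gg H p x‖ ≤ 3 / 8 * s := by
        by_contra hlt
        push Not at hlt
        have e1 : ∀ᶠ y in 𝓝 x, 3 / 8 * s < ‖gg H p y‖ := hcont.eventually_const_lt hlt
        obtain ⟨y, hy1, hy2⟩ := (hfr.and_eventually e1).exists
        have := ((hmem y).1 hy1).2
        linarith
      refine (hmem x).2 ⟨hx0, lt_of_le_of_ne hle fun heq => ?_⟩
      obtain ⟨x', hx'1, hx'2⟩ := hsurj (gg H p x) heq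
      have d1 : ‖gg H p x‖ ≤ ‖x'‖ + ‖x' - gg H p x‖ := by
        have := norm_sub_le x' (x' - gg H p x)
        rwa [sub_sub_cancel] at this
      have d2 : ‖x'‖ ≤ ‖gg H p x‖ + ‖x' - gg H p x‖ := by
        have := norm_add_le (gg H p x) (x' - gg H p x)
        rwa [add_sub_cancel] at this
      have hx'0 := hA x' (by linarith) (by linarith)
      have := gg_inj h hinj hp0 hx0 hx'0 hx'2.symm
      rw [this] at hx2
      linarith
  intro x hx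
  exact (hmem x).1 (hsub (by rwa [mem_closedBall, dist_zero_right]))

theorem near_e0 {w : W n} {t : ℝ} (hw : ‖w - e0 n‖ ≤ t) : 1 - t ≤ ‖w 0‖ ∧ ‖w‖ ≤ 1 + t ∧
    ∀ k : Fin n, ‖w k.succ‖ ≤ t := by
  refine ⟨?_, ?_, fun k => ?_⟩
  · have h1 : ‖(w - e0 n) 0‖ ≤ t := (norm_le_pi_norm _ 0).trans hw
    have h2 : (w - e0 n) 0 = w 0 - 1 := by simp [e0]
    rw [h2] at h1
    have h3 : ‖(1 : ℂ)‖ ≤ ‖w 0‖ + ‖w 0 - 1‖ := by
      have := norm_sub_le (w 0) (w 0 - 1)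
      rwa [sub_sub_cancel] at this
    rw [norm_one] at h3
    linarith
  · have := norm_add_le (w - e0 n) (e0 n)
    rw [sub_add_cancel] at this
    have := norm_e0 (n := n)
    linarith
  · have h1 : ‖(w - e0 n) k.succ‖ ≤ t := (norm_le_pi_norm _ k.succ).trans hw
    have h2 : (w - e0 n) k.succ = w k.succ := by simp [e0]
    rwa [h2] at h1

theorem cc_bound {w : W n} (hw : ‖w - e0 n‖ ≤ 1 / 16) : ‖cc w‖ ≤ 1 / 8 := by
  obtain ⟨h1, h2, h3⟩ := near_e0 hw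
  refine (norm_le_kap n (cc w)).trans ?_
  have e : kap n (cc w) = fun k => w k.succ / w 0 := by
    unfold cc
    exact ContinuousLinearEquiv.apply_symm_apply _ _
  rw [e, pi_norm_le_iff_of_nonneg (by norm_num)]
  intro k
  rw [norm_div, div_le_iff₀ (by linarith)]
  have := h3 k
  linarith

end ConfineAux

theorem confine (n : ℕ) (hn : 1 ≤ n) : ∃ δ₀ ε₀ : ℝ, 0 < δ₀ ∧ 0 < ε₀ ∧
    ∀ H : W n → W n, HLoc H → Function.Injective H → ∀ s : ℝ, 0 < s → s ≤ 1 / 4 →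
    FlatU δ₀ {x : V (n * 2) | s / 8 ≤ ‖x‖ ∧ ‖x‖ ≤ 2 * s} (uu H) →
    ‖H (sl n ((s / 2) • w0 (n * 2))) - e0 n‖ ≤ 1 / 16 →
    s * (‖uu H ((s / 2) • w0 (n * 2))‖ * ‖Ring.inverse (uu H ((s / 2) • w0 (n * 2)))‖) ^ 2 ≤ ε₀ →
    ∀ x : V (n * 2), ‖x‖ ≤ 2 * s → ‖H (sl n x)‖ ≤ 2 * ‖H (sl n x) 0‖ := by
  obtain ⟨C1, hC1, hcmp⟩ := chart_cmp n
  obtain ⟨C2, hC2, hfd⟩ := fc_fderiv_le n
  have hm : 2 ≤ n * 2 := by omega
  obtain ⟨δ, hδdef⟩ : ∃ δ : ℝ, δ = 1 / (1000 * C1) := ⟨_, rfl⟩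
  obtain ⟨ε, hεdef⟩ : ∃ ε : ℝ, ε = 1 / (96000 * (C1 + C2)) := ⟨_, rfl⟩
  have hδ0 : 0 < δ := by rw [hδdef]; positivity
  have hε0 : 0 < ε := by rw [hεdef]; positivity
  have hδC : C1 * δ ≤ 1 / 1000 := by
    rw [hδdef]
    apply le_of_eq
    field_simp
  have hεC : (C1 + C2) * ε ≤ 1 / 96000 := by
    rw [hεdef]
    apply le_of_eq
    field_simp
  have hδ1 : δ ≤ 1 := by nlinarith
  have hε1 : ε ≤ 1 / 96000 := by nlinarith
  have hεC1 : C1 * ε ≤ 1 / 96000 := by nlinarith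
  have hεC2 : C2 * ε ≤ 1 / 96000 := by nlinarith
  refine ⟨δ, ε, hδ0, hε0, ?_⟩
  intro H h hinj s hs hs4 hflat hw hκ
  obtain ⟨p, hpdef⟩ : ∃ p : V (n * 2), p = (s / 2) • w0 (n * 2) := ⟨_, rfl⟩
  rw [← hpdef] at hw hκ
  have hpn : ‖p‖ = 3 / 8 * s := by
    rw [hpdef, norm_smul, Pool.Agent.Lib.P28f.norm_w0 (by omega), Real.norm_eq_abs,
      abs_of_pos (by positivity)]
    ring
  have hpA : s / 8 ≤ ‖p‖ ∧ ‖p‖ ≤ 2 * s := by
    rw [hpn]
    constructor <;> linarith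
  obtain ⟨hst, hsM⟩ := ConfineAux.step1 hn h hs hδ1 hpA hflat hw hκ
  obtain ⟨hw1, hw2, hw3⟩ := ConfineAux.near_e0 hw
  have hw4 : ‖H (sl n p)‖ ≤ 4 * ‖H (sl n p) 0‖ := by linarith
  have hp0 : H (sl n p) 0 ≠ 0 := by
    intro h0
    rw [h0, norm_zero] at hw1
    norm_num at hw1
  -- the comparison on the annulus
  have hcA : ∀ x : V (n * 2), s / 8 ≤ ‖x‖ → ‖x‖ ≤ 2 * s → H (sl n x) 0 ≠ 0 ∧
      ‖Ring.inverse (fderiv ℝ (fc H) p : EV (n * 2)) * fderiv ℝ (fc H) x - 1‖ ≤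
        C1 * (δ + 48 * ε) := by
    intro x hx1 hx2
    exact hcmp H H h h p x (by rw [hpn]; linarith) (by linarith) hw4 δ (48 * ε) hδ1
      (by linarith) (hflat p hpA x ⟨hx1, hx2⟩) (hst x hx1 hx2).2
  obtain ⟨τ, hτdef⟩ : ∃ τ : ℝ, τ = C1 * (δ + 48 * ε) := ⟨_, rfl⟩
  have hτ0 : 0 ≤ τ := by rw [hτdef]; positivity
  have hτ : τ ≤ 1 / 400 := by
    rw [hτdef]
    nlinarith
  obtain ⟨hgA, hsurj⟩ := ConfineAux.surj_near (g := ConfineAux.gg H p) (τ := τ) hm hs hτ0 hτ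
    (fun x hx1 hx2 => by
      obtain ⟨a1, a2⟩ := hcA x hx1 hx2
      have a3 := ConfineAux.gg_diff (p := p) h a1
      refine ⟨a3.differentiableAt, ?_⟩
      rw [a3.fderiv, hτdef]
      exact a2) hpA (ConfineAux.gg_self H p)
  have hconf := ConfineAux.conf_top h hinj hs hp0 (fun x hx1 hx2 => (hcA x hx1 hx2).1) hsurj (by
    refine ⟨(s / 3) • w0 (n * 2), ?_⟩
    have hn1 : ‖(s / 3) • w0 (n * 2)‖ = s / 4 := by
      rw [norm_smul, Pool.Agent.Lib.P28f.norm_w0 (by omega), Real.norm_eq_abs,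
        abs_of_pos (by positivity)]
      ring
    have hx1 : s / 8 ≤ ‖(s / 3) • w0 (n * 2)‖ := by rw [hn1]; linarith
    have hx2 : ‖(s / 3) • w0 (n * 2)‖ ≤ 2 * s := by rw [hn1]; linarith
    refine ⟨hn1.le, (hcA _ hx1 hx2).1, ?_⟩
    have h1 := hgA _ hx1 hx2
    have h2 : ‖ConfineAux.gg H p ((s / 3) • w0 (n * 2))‖ ≤
        ‖ConfineAux.gg H p ((s / 3) • w0 (n * 2)) - (s / 3) • w0 (n * 2)‖ +
          ‖(s / 3) • w0 (n * 2)‖ := by
      have := norm_add_le (ConfineAux.gg H p ((s / 3) • w0 (n * 2)) - (s / 3) • w0 (n * 2))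
        ((s / 3) • w0 (n * 2))
      rwa [sub_add_cancel] at this
    have h3 : s * τ ≤ s * (1 / 400) := mul_le_mul_of_nonneg_left hτ hs.le
    linarith)
  intro x hx
  rcases le_total (s / 8) ‖x‖ with hx8 | hx8
  · -- the annulus
    have h1 := (hst x hx8 hx).1
    have h2 : ‖H (sl n x) - e0 n‖ ≤ 1 / 8 := by
      have := norm_add_le (H (sl n x) - H (sl n p)) (H (sl n p) - e0 n)
      rw [sub_add_sub_cancel] at this
      linarith
    obtain ⟨a1, a2, _⟩ := ConfineAux.near_e0 h2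
    linarith
  · -- the inner ball
    obtain ⟨b1, b2⟩ := hconf x (by linarith)
    have hD := hfd H h p (by rw [hpn]; linarith) hw4
    obtain ⟨D, hDdef⟩ : ∃ D : ℝ, D = ‖(fderiv ℝ (fc H) p : EV (n * 2))‖ := ⟨_, rfl⟩
    rw [← hDdef] at hD
    have hD0 : 0 ≤ D := by rw [hDdef]; exact norm_nonneg _
    have hwl : 15 / 16 ≤ ‖H (sl n p)‖ := by
      have := norm_le_pi_norm (H (sl n p)) 0
      linarith
    have hDs : D * s ≤ 1 / 8 := by
      have e1 : D * (15 / 16) ≤ C2 * ‖uu H p‖ := by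
        refine le_trans ?_ hD
        gcongr
      have e2 : D * (15 / 16) * s ≤ C2 * (2 * ε) := by
        calc D * (15 / 16) * s ≤ C2 * ‖uu H p‖ * s := by gcongr
          _ = C2 * (s * ‖uu H p‖) := by ring
          _ ≤ C2 * (2 * ε) := by gcongr
      linarith
    have hfx : ‖fc H x‖ ≤ 1 / 4 := by
      rw [ConfineAux.fc_of_gg h (x := x) hp0]
      have c1 : ‖fc H p‖ ≤ 1 / 8 := ConfineAux.cc_bound hw
      have c2 : ‖(fderiv ℝ (fc H) p) (ConfineAux.gg H p x - p)‖ ≤ D * (3 / 4 * s) := by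
        refine (ContinuousLinearMap.le_opNorm _ _).trans ?_
        rw [← hDdef]
        gcongr
        refine (norm_sub_le _ _).trans ?_
        rw [hpn]
        linarith
      refine (norm_add_le _ _).trans ?_
      linarith
    have hfin := norm_le_of_cc b1
    have hmax : max 1 (2 * ‖cc (H (sl n x))‖) ≤ 2 := by
      apply max_le (by norm_num)
      have : ‖cc (H (sl n x))‖ ≤ 1 / 4 := hfx
      linarith
    refine hfin.trans ?_
    gcongr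

end Pool.Agent.Lib.P28g
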