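import Pool.Agent.Lib.P28g.Defs

set_option autoImplicit false

/-!
# From lifts to isotopies of CP^n

PROOF SKETCH. `fam_isotopic`: as `Fam.isotopic` in `Pool/Agent/Lib/P28b04d/Inj.lean`, with `K = ext Λ`, starting at the map induced by `Λ (0, ·)` (injectivity propagates: `Fam.injective`). `iso_fin`: `X` and `Y` are injective (`conn_inj`); `N` = inverse of `X` (`hloc_inv`), `Conn X Φ₁` (`conn_symm`), so
`Conn (X ∘ (N ∘ Y)) (Φ₁ ∘ (N ∘ Y))` (`conn_comp_right`, `HLoc.comp`), the left side is `Y`; with `Conn Φ₂ Y` and `Conn.trans`: a family from `Φ₂` to `Φ₁ ∘ N ∘ Y`, which induces `F₁`: `pt (X (N (Y z))) = pt (Y z) = pt (X z)`, so `N (Y z)` is a multiple of `z` (`eq_smul_of_pt_eq`, homogeneity and injectivity of `X`), and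
`F₁ (pt z) = pt (Φ₁ z) = pt (Φ₁ (N (Y z)))`. `Isotopic.symm`: `K (1 - t, P)`.
-/

open MeasureTheory Set Metric
open scoped ContDiff Topology ENNReal

namespace Pool.Agent.Lib.P28g

open Pool.Agent.P28b04d Pool.Agent.Lib.P28e Pool.Agent.Lib.P28c
open Pool.Agent.Lib.P28f (V EV)

variable {n m : ℕ}

theorem fam_isotopic {Λ : ℝ × W n → W n} (h : Fam Λ) (h0 : Function.Injective fun z => Λ (0, z))
    {F G : Mat n → Mat n} (hF : ∀ z : W n, z ≠ 0 → F (pt z) = pt (Λ (0, z)))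
    (hG : ∀ z : W n, z ≠ 0 → G (pt z) = pt (Λ (1, z))) : Isotopic n F G := by
  have hne : ∀ (t : ℝ) (z : Fin (n + 1) → ℂ), z ≠ 0 → Λ (t, z) ≠ 0 :=
    fun t z hz => (h.hloc t).ne hz
  have hinj : ∀ t, Function.Injective (fun z => Λ (t, z)) := fun t => h.injective (t0 := 0) h0 t
  refine ⟨ext Λ, contDiff_ext h.smooth hne, ?_, ?_, ?_, ?_⟩
  · intro t P hP
    obtain ⟨z, hz, rfl⟩ := exists_pt hP
    rw [ext_pt h.hom t hz]
    exact pt_mem (hne t z hz)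
  · intro P hP
    obtain ⟨z, hz, rfl⟩ := exists_pt hP
    rw [ext_pt h.hom 0 hz, hF z hz]
  · intro P hP
    obtain ⟨z, hz, rfl⟩ := exists_pt hP
    rw [ext_pt h.hom 1 hz, hG z hz]
  · intro t
    obtain ⟨g, hg1, hg2, hg3, hg4, hg5⟩ := (h.hloc t).exists_inverse (hinj t)
    have hsm : ContDiffOn ℝ ∞ (fun q : ℝ × (Fin (n + 1) → ℂ) => g q.2) (univ ×ˢ {0}ᶜ) := by
      rintro ⟨s, z⟩ ⟨-, hz⟩
      have : ContDiffAt ℝ ∞ g z := hg1.contDiffAt (isOpen_compl_singleton.mem_nhds hz)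
      exact (this.comp (s, z) contDiffAt_snd).contDiffWithinAt
    have hL : ContDiff ℝ ∞ (ext (fun q : ℝ × (Fin (n + 1) → ℂ) => g q.2)) :=
      contDiff_ext hsm fun _ z hz => hg3 z hz
    have hLpt : ∀ z : Fin (n + 1) → ℂ, z ≠ 0 →
        ext (fun q : ℝ × (Fin (n + 1) → ℂ) => g q.2) (0, pt z) = pt (g z) := fun z hz =>
      ext_pt (Λ := fun q : ℝ × (Fin (n + 1) → ℂ) => g q.2) (fun _ => hg2) 0 hz
    refine ⟨fun P => ext (fun q : ℝ × (Fin (n + 1) → ℂ) => g q.2) (0, P),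
      hL.comp (contDiff_prodMk_right 0), ?_⟩
    intro P hP
    obtain ⟨z, hz, rfl⟩ := exists_pt hP
    simp only
    refine ⟨?_, ?_, ?_⟩
    · rw [hLpt z hz]
      exact pt_mem (hg3 z hz)
    · rw [ext_pt h.hom t hz, hLpt _ (hne t z hz)]
      have := hg4 z
      rw [this]
    · rw [hLpt z hz, ext_pt h.hom t (hg3 z hz)]
      have := hg5 z
      rw [this]

theorem Isotopic.symm {F G : Mat n → Mat n} (h : Isotopic n F G) : Isotopic n G F := by
  obtain ⟨K, hK, hm, h0, h1, hL⟩ := h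
  refine ⟨fun q => K (1 - q.1, q.2), ?_, ?_, ?_, ?_, ?_⟩
  · have hc : ContDiff ℝ ∞ (fun q : ℝ × (Fin (n + 1) → Fin (n + 1) → ℂ) => (1 - q.1, q.2)) := by
      fun_prop
    exact hK.comp hc
  · intro t P hP
    exact hm (1 - t) P hP
  · intro P hP
    simp only [sub_zero]
    exact h1 P hP
  · intro P hP
    simp only [sub_self]
    exact h0 P hP
  · intro t
    exact hL (1 - t)

theorem hloc_of_conn {Φ Ψ : W n → W n} (h : Conn Φ Ψ) : HLoc Ψ := by
  obtain ⟨Λ, f, s, e⟩ := h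
  have h1 : (fun z => Λ (1, z)) = Ψ := funext fun z => e 1 le_rfl z
  rw [← h1]
  exact f.hloc 1

theorem iso_fin {Φ₁ Φ₂ X Y : W n → W n} (h1 : HLoc Φ₁) (h2 : HLoc Φ₂)
    (i1 : Function.Injective Φ₁) (i2 : Function.Injective Φ₂) (c1 : Conn Φ₁ X) (c2 : Conn Φ₂ Y)
    (hXY : ∀ z : W n, z ≠ 0 → pt (X z) = pt (Y z)) {F₁ F₂ : Mat n → Mat n}
    (e1 : ∀ z : W n, z ≠ 0 → F₁ (pt z) = pt (Φ₁ z))
    (e2 : ∀ z : W n, z ≠ 0 → F₂ (pt z) = pt (Φ₂ z)) : Isotopic n F₁ F₂ := by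
  have iX : Function.Injective X := conn_inj c1 i1
  have iY : Function.Injective Y := conn_inj c2 i2
  have hX : HLoc X := hloc_of_conn c1
  have hY : HLoc Y := hloc_of_conn c2
  obtain ⟨N, N1, N2, N3, N4⟩ := hloc_inv hX iX
  have d1 := conn_comp_right (conn_symm c1) (N1.comp hY)
  have e3 : (fun z => X ((N ∘ Y) z)) = Y := funext fun z => N4 (Y z)
  rw [e3] at d1
  have d2 := conn_symm (c2.trans d1)
  obtain ⟨Λ, f, s, e⟩ := d2
  have hs : (fun z => Λ (0, z)) = fun z => Φ₁ ((N ∘ Y) z) := funext fun z => s 0 le_rfl z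
  apply fam_isotopic f
  · rw [hs]
    exact i1.comp (N2.comp iY)
  · intro z hz
    rw [e1 z hz, s 0 le_rfl z]
    obtain ⟨c, hc, hc2⟩ := eq_smul_of_pt_eq (hY.ne hz) (hXY z hz)
    have h3 : (N ∘ Y) z = c • z := by
      simp only [Function.comp_apply]
      rw [hc2, ← hX.hom, N3]
    show pt (Φ₁ z) = pt (Φ₁ ((N ∘ Y) z))
    rw [h3, h1.hom, pt_smul hc]
  · intro z hz
    rw [e2 z hz, e 1 le_rfl z]

/-- A lift of an injective map of `CP^n` is injective. -/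
theorem lift_injective {Φ : W n → W n} (h : HLoc Φ) {F : Mat n → Mat n}
    (e : ∀ z : W n, z ≠ 0 → F (pt z) = pt (Φ z)) (hF : InjOn F (CP n)) : Function.Injective Φ := by
  intro z w hzw
  by_cases hz : z = 0
  · rw [hz, h.zero] at hzw
    rw [hz, (h.ne_iff w).1 hzw.symm]
  by_cases hw : w = 0
  · rw [hw, h.zero] at hzw
    exact absurd ((h.ne_iff z).1 hzw) hz
  have h1 : F (pt z) = F (pt w) := by rw [e z hz, e w hw, hzw]
  have h2 : pt z = pt w := hF (pt_mem hz) (pt_mem hw) h1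
  obtain ⟨c, hc, hc2⟩ := eq_smul_of_pt_eq hw h2
  have h3 : c • Φ z = Φ z := by
    rw [← h.hom, ← hc2, hzw]
  have h4 : (c - 1) • Φ z = 0 := by
    rw [sub_smul, one_smul, h3, sub_self]
  rcases smul_eq_zero.1 h4 with h5 | h5
  · rw [hc2, sub_eq_zero.1 h5, one_smul]
  · exact absurd h5 (h.ne hz)

end Pool.Agent.Lib.P28g
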