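import Pool.Agent.Lib.P28g.TTmap
import Pool.Agent.Lib.P28g.AnnG
import Pool.Agent.Lib.P28c.Match

set_option autoImplicit false

/-!
# Closeness of two lifts of a sequence on a compact set

PROOF SKETCH. Let `P ⊆ G` be a finite set such that `closedBall p r'`, `p ∈ P`, cover `G`, `r' = min r (η / (8 Λ + 8))` (`r ≤ 1/4`, so these balls avoid `0`). For `p ∈ P` the bounded sequences `fderiv (X j) p` and `X j p` (`‖X j p‖ = ‖fderiv (X j) p p‖ ≤ Λ`, `P28c.euler`) converge along `ult`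
in finite-dimensional spaces; `S` = the set of all `j` for which the hypothesis holds and which are within `τ` of the limits at all `p ∈ P`, `τ` tiny (depending on `Λ`, `δ`, `η`).
For `i, j ∈ S`, `z ∈ G`, `p ∈ P` with `‖z - p‖ ≤ r'`: `(dX_i z)⁻¹ dX_j z = ((dX_i z)⁻¹ dX_i p) ((dX_i p)⁻¹ dX_j p) ((dX_j p)⁻¹ dX_j z)`, factors within `δ`, `2 Λ τ`, `δ` of `1`; `(1 + δ)² (1 + 2 Λ τ) - 1 ≤ 3 δ` if `δ ≤ 1/2` and `2 Λ τ` is small. (`flat` centred at `p ∈ G`: both `z` and `p` lie in `closedBall p r`.)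
Values: on `closedBall p r` `‖dX_j‖ ≤ Λ (1 + δ) ≤ 2 Λ`, mean value inequality: `‖X_j z - X_j p‖ ≤ 2 Λ r' ≤ η / 4`.
-/

open MeasureTheory Set Metric
open scoped ContDiff Topology ENNReal

namespace Pool.Agent.Lib.P28g

open Pool.Agent.P28b04d Pool.Agent.Lib.P28e Pool.Agent.Lib.P28c
open Pool.Agent.Lib.P28f (V EV ult)

variable {n m : ℕ}

theorem NetWAux_unit {Φ : W n → W n} (h : HLoc Φ) {z : W n} (hz : z ≠ 0) :
    IsUnit (fderiv ℝ Φ z : EndW n) := by
  obtain ⟨D, hD⟩ := h.hasStrict hz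
  rw [hD.hasFDerivAt.fderiv]
  exact ⟨ContinuousLinearEquiv.toUnit D, rfl⟩

theorem net_W {G : Set (W n)} (hG : IsCompact G) (hG1 : ∀ z ∈ G, ‖z‖ = 1 / 2)
    (X : ℕ → W n → W n) (hX : ∀ j, HLoc (X j)) {Λ δ r : ℝ} (hΛ : 1 ≤ Λ) (hδ : 0 < δ)
    (hδ1 : δ ≤ 1 / 2) (hr : 0 < r) (hr1 : r ≤ 1 / 4)
    (h : ∀ᶠ j in (ult : Filter ℕ), ∀ z ∈ G, ‖(fderiv ℝ (X j) z : EndW n)‖ ≤ Λ ∧
      ‖Ring.inverse (fderiv ℝ (X j) z : EndW n)‖ ≤ Λ ∧
      FlatU δ (closedBall z r) (fderiv ℝ (X j))) {η : ℝ} (hη : 0 < η) :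
    ∃ S : Set ℕ, (∀ᶠ j in (ult : Filter ℕ), j ∈ S) ∧ ∀ i ∈ S, ∀ j ∈ S, ∀ z ∈ G,
      ‖Ring.inverse (fderiv ℝ (X i) z : EndW n) * fderiv ℝ (X j) z - 1‖ ≤ 3 * δ ∧
      ‖X i z - X j z‖ ≤ η := by
  have hr'0 : 0 < min r (η / (8 * Λ + 8)) := lt_min hr (by positivity)
  have hτ0 : 0 < min (δ / (10 * Λ)) (η / 4) := lt_min (by positivity) (by positivity)
  obtain ⟨r', hr', hr'r, hr'η⟩ : ∃ r' : ℝ, 0 < r' ∧ r' ≤ r ∧ r' ≤ η / (8 * Λ + 8) :=
    ⟨_, hr'0, min_le_left _ _, min_le_right _ _⟩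
  obtain ⟨τ, hτ, hτδ, hτη⟩ : ∃ τ : ℝ, 0 < τ ∧ τ ≤ δ / (10 * Λ) ∧ τ ≤ η / 4 :=
    ⟨_, hτ0, min_le_left _ _, min_le_right _ _⟩
  clear hr'0 hτ0
  obtain ⟨t, htG, htc⟩ := hG.elim_nhds_subcover (fun x => closedBall x r')
    (fun x _ => closedBall_mem_nhds x hr')
  have hlim : ∀ p ∈ t, ∃ L : EndW n,
      Filter.Tendsto (fun j => (fderiv ℝ (X j) p : EndW n)) (ult : Filter ℕ) (𝓝 L) := by
    intro p hp
    have h1 : ((ult.map (fun j => (fderiv ℝ (X j) p : EndW n)) : Ultrafilter (EndW n)) :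
        Filter (EndW n)) ≤ Filter.principal (closedBall 0 Λ) := by
      rw [Ultrafilter.coe_map, Filter.le_principal_iff, Filter.mem_map]
      filter_upwards [h] with j hj
      rw [mem_preimage, mem_closedBall, dist_zero_right]
      exact (hj p (htG p hp)).1
    obtain ⟨L, _, hL⟩ := (isCompact_closedBall (0 : EndW n) Λ).ultrafilter_le_nhds _ h1
    exact ⟨L, hL⟩
  choose! L hL using hlim
  refine ⟨{j | (∀ z ∈ G, ‖(fderiv ℝ (X j) z : EndW n)‖ ≤ Λ ∧
      ‖Ring.inverse (fderiv ℝ (X j) z : EndW n)‖ ≤ Λ ∧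
      FlatU δ (closedBall z r) (fderiv ℝ (X j))) ∧
      ∀ p ∈ t, dist (fderiv ℝ (X j) p : EndW n) (L p) < τ}, ?_, ?_⟩
  · refine h.and ?_
    rw [Filter.eventually_all_finset]
    intro p hp
    exact (Metric.tendsto_nhds.1 (hL p hp)) _ hτ
  · rintro i ⟨hi, hi'⟩ j ⟨hj, hj'⟩ z hz
    obtain ⟨p, hp, hzp⟩ : ∃ p ∈ t, z ∈ closedBall p r' := by
      have := htc hz
      simp only [mem_iUnion, exists_prop] at this
      exact this
    have hpG := htG p hp
    have hp0 : p ≠ 0 := by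
      intro h0
      have := hG1 p hpG
      rw [h0, norm_zero] at this
      norm_num at this
    have hball0 : ∀ y ∈ closedBall p r, y ≠ 0 := by
      rintro y hy rfl
      rw [mem_closedBall, dist_eq_norm, zero_sub, norm_neg, hG1 p hpG] at hy
      linarith
    have hzr : z ∈ closedBall p r := closedBall_subset_closedBall hr'r hzp
    have hpr : p ∈ closedBall p r := mem_closedBall_self hr.le
    have hdiff : ‖(fderiv ℝ (X j) p : EndW n) - fderiv ℝ (X i) p‖ ≤ 2 * τ := by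
      rw [← dist_eq_norm]
      calc dist (fderiv ℝ (X j) p : EndW n) (fderiv ℝ (X i) p) ≤
            dist (fderiv ℝ (X j) p : EndW n) (L p) + dist (fderiv ℝ (X i) p : EndW n) (L p) :=
            dist_triangle_right _ _ _
        _ ≤ _ := by linarith [hi' p hp, hj' p hp]
    refine ⟨?_, ?_⟩
    · have h1 : ‖Ring.inverse (fderiv ℝ (X i) z : EndW n) * fderiv ℝ (X i) p - 1‖ ≤ δ :=
        (hi p hpG).2.2 z hzr p hpr
      have h2 : ‖Ring.inverse (fderiv ℝ (X j) p : EndW n) * fderiv ℝ (X j) z - 1‖ ≤ δ :=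
        (hj p hpG).2.2 p hpr z hzr
      have hui : IsUnit (fderiv ℝ (X i) p : EndW n) := NetWAux_unit (hX i) hp0
      have huj : IsUnit (fderiv ℝ (X j) p : EndW n) := NetWAux_unit (hX j) hp0
      have h3 : ‖Ring.inverse (fderiv ℝ (X i) p : EndW n) * fderiv ℝ (X j) p - 1‖ ≤ δ / 5 := by
        have e : Ring.inverse (fderiv ℝ (X i) p : EndW n) * fderiv ℝ (X j) p - 1 =
            Ring.inverse (fderiv ℝ (X i) p : EndW n) *
              ((fderiv ℝ (X j) p : EndW n) - fderiv ℝ (X i) p) := by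
          rw [mul_sub, Ring.inverse_mul_cancel _ hui]
        rw [e]
        calc _ ≤ ‖Ring.inverse (fderiv ℝ (X i) p : EndW n)‖ *
              ‖(fderiv ℝ (X j) p : EndW n) - fderiv ℝ (X i) p‖ := norm_mul_le _ _
          _ ≤ Λ * (2 * (δ / (10 * Λ))) :=
              mul_le_mul (hi p hpG).2.1 (hdiff.trans (by linarith)) (norm_nonneg _) (by linarith)
          _ = δ / 5 := by field_simp; norm_num
      have e4 : Ring.inverse (fderiv ℝ (X i) z : EndW n) * fderiv ℝ (X j) z =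
          (Ring.inverse (fderiv ℝ (X i) z : EndW n) * fderiv ℝ (X i) p) *
          ((Ring.inverse (fderiv ℝ (X i) p : EndW n) * fderiv ℝ (X j) p) *
          (Ring.inverse (fderiv ℝ (X j) p : EndW n) * fderiv ℝ (X j) z)) := by
        rw [mul_assoc, ← mul_assoc (fderiv ℝ (X i) p : EndW n),
          ← mul_assoc (fderiv ℝ (X i) p : EndW n), Ring.mul_inverse_cancel _ hui, one_mul,
          ← mul_assoc (fderiv ℝ (X j) p : EndW n), Ring.mul_inverse_cancel _ huj, one_mul]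
      rw [e4]
      have h5 := AnnGAux.nmul h1 (AnnGAux.nmul h3 h2)
      refine h5.trans ?_
      nlinarith [mul_nonneg hδ.le hδ.le, mul_nonneg hδ.le (sub_nonneg.2 hδ1),
        mul_nonneg (mul_nonneg hδ.le hδ.le) (sub_nonneg.2 hδ1)]
    · have hlip : ∀ k : ℕ, (∀ z ∈ G, ‖(fderiv ℝ (X k) z : EndW n)‖ ≤ Λ ∧
          ‖Ring.inverse (fderiv ℝ (X k) z : EndW n)‖ ≤ Λ ∧
          FlatU δ (closedBall z r) (fderiv ℝ (X k))) → ‖X k z - X k p‖ ≤ η / 4 := by
        intro k hk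
        have hb : ∀ y ∈ closedBall p r, ‖fderiv ℝ (X k) y‖ ≤ 2 * Λ := by
          intro y hy
          have hu : IsUnit (fderiv ℝ (X k) p : EndW n) := NetWAux_unit (hX k) hp0
          have h1 : ‖Ring.inverse (fderiv ℝ (X k) p : EndW n) * fderiv ℝ (X k) y - 1‖ ≤ δ :=
            (hk p hpG).2.2 p hpr y hy
          have e : (fderiv ℝ (X k) y : EndW n) = fderiv ℝ (X k) p *
              (Ring.inverse (fderiv ℝ (X k) p : EndW n) * fderiv ℝ (X k) y - 1) +
              fderiv ℝ (X k) p := by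
            rw [mul_sub, ← mul_assoc, Ring.mul_inverse_cancel _ hu, one_mul, mul_one,
              sub_add_cancel]
          calc ‖(fderiv ℝ (X k) y : EndW n)‖ = ‖fderiv ℝ (X k) p *
              (Ring.inverse (fderiv ℝ (X k) p : EndW n) * fderiv ℝ (X k) y - 1) +
              fderiv ℝ (X k) p‖ := congrArg _ e
            _ ≤ ‖(fderiv ℝ (X k) p : EndW n)‖ *
              ‖Ring.inverse (fderiv ℝ (X k) p : EndW n) * fderiv ℝ (X k) y - 1‖ +
              ‖(fderiv ℝ (X k) p : EndW n)‖ :=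
                (norm_add_le _ _).trans (add_le_add (norm_mul_le _ _) le_rfl)
            _ ≤ Λ * δ + Λ := add_le_add (mul_le_mul (hk p hpG).1 h1 (norm_nonneg _)
                (by linarith)) (hk p hpG).1
            _ ≤ 2 * Λ := by nlinarith
        have hm := (convex_closedBall p r).norm_image_sub_le_of_norm_fderiv_le (𝕜 := ℝ)
          (f := X k) (fun y hy => ((hX k).contDiffAt (hball0 y hy)).differentiableAt (by simp))
          hb hpr hzr
        rw [mem_closedBall, dist_eq_norm] at hzp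
        calc ‖X k z - X k p‖ ≤ 2 * Λ * ‖z - p‖ := hm
          _ ≤ 2 * Λ * (η / (8 * Λ + 8)) :=
              mul_le_mul_of_nonneg_left (hzp.trans hr'η) (by linarith)
          _ ≤ η / 4 := by
              rw [← mul_div_assoc, div_le_iff₀ (by linarith)]
              nlinarith
      have hmid : ‖X i p - X j p‖ ≤ η / 4 := by
        rw [← euler (hX i) hp0, ← euler (hX j) hp0, ← sub_apply]
        calc _ ≤ ‖fderiv ℝ (X i) p - fderiv ℝ (X j) p‖ * ‖p‖ := ContinuousLinearMap.le_opNorm _ _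
          _ ≤ (2 * τ) * (1 / 2) := by
              rw [hG1 p hpG, norm_sub_rev]
              exact mul_le_mul_of_nonneg_right hdiff (by norm_num)
          _ ≤ η / 4 := by linarith
      calc ‖X i z - X j z‖ = ‖(X i z - X i p) + (X i p - X j p) - (X j z - X j p)‖ := by
            congr 1; abel
        _ ≤ ‖X i z - X i p‖ + ‖X i p - X j p‖ + ‖X j z - X j p‖ :=
            (norm_sub_le _ _).trans (add_le_add (norm_add_le _ _) le_rfl)
        _ ≤ η := by linarith [hlip i hi, hlip j hj]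

end Pool.Agent.Lib.P28g
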