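import Pool.Agent.Lib.P28g.TTmap
import Pool.Agent.Lib.P28c.Far
import Pool.Agent.Lib.P28c.Match
import Pool.Agent.Lib.P28f.Ultra

set_option autoImplicit false

/-!
# Normalisation of a sequence of lifts by complex linear maps

PROOF SKETCH. Let `A j = fderiv ℝ (Ψ j) g₀`. `far` (file `P28c/Far.lean`) with `ρ = κ θ₀ / 2` (`≤ 1 / (8 (n+1))`) and `z = z' = g₀` gives `‖Jm (A j)‖ ≤ Λ₀` for almost all `j` (`A j` as a unit from `hgood`). The bounded sequence `Jm (A j)` in the finite-dimensional space `EndW n` converges along `ult`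
(`IsCompact.ultrafilter_le_nhds`, closed ball) so there is an `i₀` with `‖Jm (A j)‖ ≤ Λ₀` and `‖Jm (A i₀) - Jm (A j)‖ ≤ 1 / Λ₀` for almost all `j`. `exists_match (A i₀) (A j)`: a complex linear `T j` with `‖(A i₀)⁻¹ T j (A j) - 1‖ ≤ 1/2`; for the other `j` `T j = 1`. So `T j (A j) = A i₀ (1 + e)`,
`‖e‖ ≤ 1/2`: norm `≤ 2 ‖A i₀‖`, inverse `≤ 2 ‖(A i₀)⁻¹‖`.
Given `θ`: let `θ' = min θ θ₀`, `Λ₁` from `far` with `ρ = κ θ' / 2`. For `z ≠ 0` with `(enW (Φ j)).real (PB (pt z) θ) ≤ c` the vector `z' = (2 ‖z‖)⁻¹ z` has norm `1/2`, the same `pt` and the same derivative (`fderiv_pos_smul`, real factor), `hgood` with `s = θ'` (monotone: `PB _ θ' ⊆ PB _ θ`) gives `M' = dΨ_j z'` with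
`Good (Φ j) z' (κ θ' / 2) (1/16) M'`, the same at `g₀`, so `far` gives `‖(A j)⁻¹ M'‖ ≤ Λ₁` and (roles exchanged) `‖M'⁻¹ A j‖ ≤ Λ₁`. Then `‖T j M'‖ ≤ ‖T j A j‖ Λ₁` and `‖(T j M')⁻¹‖ = ‖M'⁻¹ A j (T j A j)⁻¹‖ ≤ Λ₁ ‖(T j A j)⁻¹‖`.
-/

open MeasureTheory Set Metric
open scoped ContDiff Topology ENNReal

namespace Pool.Agent.Lib.P28g

open Pool.Agent.P28b04d Pool.Agent.Lib.P28e Pool.Agent.Lib.P28c
open Pool.Agent.Lib.P28f (V EV ult)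

variable {n m : ℕ}

namespace NormSeqAux

theorem enW_univ (Φ : W n → W n) : enW Φ univ = energy Φ := by
  unfold enW energy
  rw [withDensity_apply _ MeasurableSet.univ, Measure.restrict_univ]

theorem finite_enW {Φ : W n → W n} {E : ℝ} (h : energy Φ ≤ ENNReal.ofReal E) :
    IsFiniteMeasure (enW Φ) :=
  ⟨by rw [enW_univ]; exact lt_of_le_of_lt h ENNReal.ofReal_lt_top⟩

theorem PB_mono (P : Mat n) {s s' : ℝ} (h : s ≤ s') : PB P s ⊆ PB P s' := fun _ hx =>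
  lt_of_lt_of_le hx h

/-- A bounded sequence in a finite-dimensional space is eventually close to one of its terms. -/
theorem exists_close {A : Type} [NormedAddCommGroup A] [NormedSpace ℝ A] [FiniteDimensional ℝ A]
    (u : ℕ → A) {L ε : ℝ} (hε : 0 < ε) (hu : ∀ᶠ j in (ult : Filter ℕ), ‖u j‖ ≤ L) :
    ∃ i, ‖u i‖ ≤ L ∧ ∀ᶠ j in (ult : Filter ℕ), ‖u j‖ ≤ L ∧ ‖u i - u j‖ ≤ ε := by
  have : ProperSpace A := FiniteDimensional.proper_real A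
  have hK : IsCompact (closedBall (0 : A) L) := isCompact_closedBall 0 L
  have h1 : ((ult.map u : Ultrafilter A) : Filter A) ≤ Filter.principal (closedBall (0 : A) L) := by
    rw [Filter.le_principal_iff]
    show u ⁻¹' closedBall (0 : A) L ∈ ult
    filter_upwards [hu] with j hj
    rw [mem_preimage, mem_closedBall, dist_zero_right]
    exact hj
  obtain ⟨x, _, hx⟩ := hK.ultrafilter_le_nhds _ h1
  have h2 : ∀ᶠ j in (ult : Filter ℕ), dist (u j) x < ε / 2 := by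
    have h3 : ball x (ε / 2) ∈ ((ult.map u : Ultrafilter A) : Filter A) :=
      hx (ball_mem_nhds x (half_pos hε))
    exact h3
  obtain ⟨i, hi1, hi2⟩ := (hu.and h2).exists
  refine ⟨i, hi1, ?_⟩
  filter_upwards [hu, h2] with j hj1 hj2
  refine ⟨hj1, ?_⟩
  rw [← dist_eq_norm]
  have h4 := dist_triangle_right (u i) (u j) x
  linarith

/-- units close to the identity, multiplied -/
theorem norm_of_close {A : Type} [NormedRing A] [NormOneClass A] [HasSummableGeomSeries A] (a N : A)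
    (ai : A) (h1 : ai * a = 1) (h2 : a * ai = 1) (h : ‖ai * N - 1‖ ≤ 1 / 2) :
    IsUnit N ∧ ‖N‖ ≤ 2 * ‖a‖ ∧ ‖Ring.inverse N‖ ≤ 2 * ‖ai‖ := by
  obtain ⟨e, he⟩ : ∃ e, e = 1 - ai * N := ⟨_, rfl⟩
  have he1 : ‖e‖ ≤ 1 / 2 := by rw [he, norm_sub_rev]; exact h
  have he2 : ‖e‖ < 1 := by linarith
  have hN : N = a * (1 - e) := by
    rw [he, sub_sub_cancel, ← mul_assoc, h2, one_mul]
  obtain ⟨U, hU⟩ : ∃ U : Aˣ, (U : A) = 1 - e := ⟨Units.oneSub e he2, rfl⟩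
  have hUi : ‖((U⁻¹ : Aˣ) : A)‖ ≤ 2 := by
    have h3 : ((U⁻¹ : Aˣ) : A) = 1 + ((U⁻¹ : Aˣ) : A) * e := by
      have h4 : ((U⁻¹ : Aˣ) : A) * (1 - e) = 1 := by rw [← hU, Units.inv_mul]
      rw [mul_sub, mul_one] at h4
      rw [← h4]
      abel
    have h5 : ‖((U⁻¹ : Aˣ) : A)‖ ≤ 1 + ‖((U⁻¹ : Aˣ) : A)‖ * (1 / 2) := by
      calc ‖((U⁻¹ : Aˣ) : A)‖ = ‖1 + ((U⁻¹ : Aˣ) : A) * e‖ := congrArg _ h3
        _ ≤ ‖(1 : A)‖ + ‖((U⁻¹ : Aˣ) : A) * e‖ := norm_add_le _ _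
        _ ≤ 1 + ‖((U⁻¹ : Aˣ) : A)‖ * (1 / 2) := by
            rw [norm_one]
            have := (norm_mul_le ((U⁻¹ : Aˣ) : A) e).trans
              (mul_le_mul_of_nonneg_left he1 (norm_nonneg _))
            linarith
    linarith
  obtain ⟨B, hB⟩ : ∃ B : Aˣ, (B : A) = a ∧ ((B⁻¹ : Aˣ) : A) = ai := ⟨⟨a, ai, h2, h1⟩, rfl, rfl⟩
  have hNU : N = ((B * U : Aˣ) : A) := by rw [Units.val_mul, hB.1, hU, hN]
  refine ⟨⟨B * U, hNU.symm⟩, ?_, ?_⟩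
  · rw [hN]
    refine (norm_mul_le _ _).trans ?_
    have h6 : ‖1 - e‖ ≤ 2 := by
      refine (norm_sub_le _ _).trans ?_
      rw [norm_one]
      linarith
    calc ‖a‖ * ‖1 - e‖ ≤ ‖a‖ * 2 := mul_le_mul_of_nonneg_left h6 (norm_nonneg _)
      _ = 2 * ‖a‖ := mul_comm _ _
  · rw [hNU, Ring.inverse_unit, mul_inv_rev, Units.val_mul, hB.2]
    exact (norm_mul_le _ _).trans (mul_le_mul_of_nonneg_right hUi (norm_nonneg _))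

/-- a complex linear automorphism as a real one -/
theorem exists_real (T : W n ≃ₗ[ℂ] W n) : ∃ S : W n ≃L[ℝ] W n, ∀ x, S x = T x :=
  ⟨T.toContinuousLinearEquiv.restrictScalars ℝ, fun _ => rfl⟩

theorem norm_three {A : Type} [NormedRing A] {a b c : A} {K Λ : ℝ} (ha : ‖a‖ ≤ K) (hb : ‖b‖ ≤ Λ)
    (hc : ‖c‖ ≤ K) (hK : 0 ≤ K) (hΛ : 0 ≤ Λ) : ‖a * b * c‖ ≤ K * Λ * K := by
  refine (norm_mul_le _ _).trans (mul_le_mul ?_ hc (norm_nonneg _) (by positivity))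
  exact (norm_mul_le _ _).trans (mul_le_mul ha hb (norm_nonneg _) hK)

theorem prod_three {A : Type} [Monoid A] (a b c d : Aˣ) :
    (↑a⁻¹ : A) * (d : A) = ((↑a⁻¹ : A) * b) * ((↑b⁻¹ : A) * c) * ((↑c⁻¹ : A) * d) := by
  calc (↑a⁻¹ : A) * (d : A) = (↑a⁻¹ : A) * (((b : A) * (↑b⁻¹ : A)) * (((c : A) * (↑c⁻¹ : A)) * d)) := by
        rw [Units.mul_inv, Units.mul_inv, one_mul, one_mul]
    _ = _ := by simp only [mul_assoc]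

end NormSeqAux

open NormSeqAux

/-- The general form: `Good` for a matrix `M₀` which is comparable with `dΨ_z` up to `C₀ / s`. -/
theorem norm_seq' (n : ℕ) (hn : 1 ≤ n) {κ c C₀ E : ℝ} (hκ : 0 < κ)
    (hκ1 : κ ≤ 1 / (8 * ((n : ℝ) + 1)))
    (hE : 0 ≤ E) (Φ Ψ : ℕ → W n → W n) (hΦ : ∀ j, HLoc (Φ j))
    (hen : ∀ j, energy (Φ j) ≤ ENNReal.ofReal E) (hΨ : ∀ j, HLoc (Ψ j))
    (hgood : ∀ j, ∀ z : W n, z ≠ 0 → ∀ s : ℝ, 0 < s → s ≤ 1 →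
      (enW (Φ j)).real (PB (pt z) s) ≤ c →
      ∃ M M₀ : (EndW n)ˣ, (M : EndW n) = fderiv ℝ (Ψ j) z ∧
        Good (Φ j) z (κ * s * ‖z‖) (1 / 16) M₀ ∧
        ‖(↑M₀⁻¹ : EndW n) * (M : EndW n)‖ * s ≤ C₀ ∧
        ‖(↑M⁻¹ : EndW n) * (M₀ : EndW n)‖ * s ≤ C₀)
    {g₀ : W n} (hg₀ : ‖g₀‖ = 1 / 2) {θ₀ : ℝ} (hθ₀ : 0 < θ₀) (hθ₁ : θ₀ ≤ 1)
    (hl : ∀ᶠ j in (ult : Filter ℕ), (enW (Φ j)).real (PB (pt g₀) θ₀) ≤ c) :
    ∃ T : ℕ → W n ≃L[ℝ] W n, (∀ j, ∀ (c : ℂ) (x : W n), T j (c • x) = c • T j x) ∧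
      ∀ θ : ℝ, 0 < θ → θ ≤ 1 → ∃ Λ : ℝ, 1 ≤ Λ ∧ ∀ᶠ j in (ult : Filter ℕ), ∀ z : W n, z ≠ 0 →
        (enW (Φ j)).real (PB (pt z) θ) ≤ c →
          ‖(fderiv ℝ (fun w => T j (Ψ j w)) z : EndW n)‖ ≤ Λ ∧
          ‖Ring.inverse (fderiv ℝ (fun w => T j (Ψ j w)) z : EndW n)‖ ≤ Λ := by
  have hn0 : (0 : ℝ) ≤ n := Nat.cast_nonneg n
  have hg0 : g₀ ≠ 0 := by
    rintro rfl
    rw [norm_zero] at hg₀
    norm_num at hg₀
  have hfin : ∀ j, IsFiniteMeasure (enW (Φ j)) := fun j => finite_enW (hen j)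
  -- the derivatives at the base point
  obtain ⟨A, hA⟩ : ∃ A : ℕ → (EndW n)ˣ, ∀ j, (A j : EndW n) = fderiv ℝ (Ψ j) g₀ :=
    ⟨fun j => (isUnit_fderiv (hΨ j) hg0).unit, fun j => rfl⟩
  -- comparison of the derivatives at good points
  have hcmp : ∀ θ : ℝ, 0 < θ → θ ≤ 1 → ∃ Λ : ℝ, 1 ≤ Λ ∧
      ∀ᶠ j in (ult : Filter ℕ), ‖Jm (A j)‖ ≤ Λ ∧ ∀ z : W n, z ≠ 0 →
        (enW (Φ j)).real (PB (pt z) θ) ≤ c → ∀ M : (EndW n)ˣ, (M : EndW n) = fderiv ℝ (Ψ j) z →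
          ‖(↑(A j)⁻¹ : EndW n) * (M : EndW n)‖ ≤ Λ ∧ ‖(↑M⁻¹ : EndW n) * (A j : EndW n)‖ ≤ Λ := by
    intro θ hθ hθ1
    obtain ⟨θ', hθ'⟩ : ∃ θ', θ' = min θ θ₀ := ⟨_, rfl⟩
    have h0 : 0 < θ' := by rw [hθ']; exact lt_min hθ hθ₀
    have h1 : θ' ≤ 1 := by rw [hθ']; exact (min_le_left _ _).trans hθ1
    have hρ : 0 < κ * θ' / 2 := by positivity
    have hρ1 : κ * θ' / 2 ≤ 1 / (8 * ((n : ℝ) + 1)) := by
      have : κ * θ' ≤ κ * 1 := mul_le_mul_of_nonneg_left h1 hκ.le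
      linarith
    obtain ⟨Λ, hΛ, hfar⟩ := far n hn hE hρ hρ1
    obtain ⟨K, hK⟩ : ∃ K : ℝ, K = |C₀| / θ' := ⟨_, rfl⟩
    have hK0 : 0 ≤ K := by rw [hK]; positivity
    have hΛ0 : 0 ≤ Λ := by linarith
    refine ⟨max 1 (K * Λ * K), le_max_left _ _, ?_⟩
    filter_upwards [hl] with j hj
    have hgood' : ∀ z : W n, ‖z‖ = 1 / 2 → (enW (Φ j)).real (PB (pt z) θ') ≤ c →
        ∀ M : (EndW n)ˣ, (M : EndW n) = fderiv ℝ (Ψ j) z →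
        ∃ M₀ : (EndW n)ˣ, Good (Φ j) z (κ * θ' / 2) (1 / 16) M₀ ∧
          ‖(↑M₀⁻¹ : EndW n) * (M : EndW n)‖ ≤ K ∧ ‖(↑M⁻¹ : EndW n) * (M₀ : EndW n)‖ ≤ K := by
      intro z hz hzc M hM
      have hz0 : z ≠ 0 := by
        rintro rfl
        rw [norm_zero] at hz
        norm_num at hz
      obtain ⟨M', M₀, hM', hG, b1, b2⟩ := hgood j z hz0 θ' h0 h1 hzc
      have e : M' = M := Units.ext (by rw [hM', hM])
      rw [e] at b1 b2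
      rw [hz] at hG
      have e2 : κ * θ' * (1 / 2) = κ * θ' / 2 := by ring
      rw [e2] at hG
      have h3 := le_abs_self C₀
      refine ⟨M₀, hG, ?_, ?_⟩
      · rw [hK, le_div_iff₀ h0]
        linarith
      · rw [hK, le_div_iff₀ h0]
        linarith
    obtain ⟨A₀, hA1, a1, a2⟩ : ∃ A₀ : (EndW n)ˣ, Good (Φ j) g₀ (κ * θ' / 2) (1 / 16) A₀ ∧
        ‖(↑A₀⁻¹ : EndW n) * (A j : EndW n)‖ ≤ K ∧ ‖(↑(A j)⁻¹ : EndW n) * (A₀ : EndW n)‖ ≤ K := by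
      refine hgood' g₀ hg₀ ?_ (A j) (hA j)
      have := hfin j
      refine (measureReal_mono (PB_mono _ ?_)).trans hj
      rw [hθ']
      exact min_le_right _ _
    refine ⟨?_, ?_⟩
    · have hJ0 := (hfar (Φ j) (hΦ j) (hen j) g₀ g₀ hg₀ hg₀ A₀ A₀ hA1 hA1).2
      refine le_trans ?_ (le_max_right _ _)
      have e : Jm (A j) = ((↑(A j)⁻¹ : EndW n) * (A₀ : EndW n)) * Jm A₀ *
          ((↑A₀⁻¹ : EndW n) * (A j : EndW n)) := by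
        unfold Jm
        calc (↑(A j)⁻¹ : EndW n) * mulC Complex.I * (A j : EndW n)
            = (↑(A j)⁻¹ : EndW n) * (((A₀ : EndW n) * (↑A₀⁻¹ : EndW n)) * (mulC Complex.I *
              (((A₀ : EndW n) * (↑A₀⁻¹ : EndW n)) * (A j : EndW n)))) := by
              rw [Units.mul_inv, one_mul, one_mul, mul_assoc]
          _ = _ := by simp only [mul_assoc]
      rw [e]
      exact norm_three a2 hJ0 a1 hK0 hΛ0
    intro z hz hzc M hM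
    have hzn : 0 < ‖z‖ := norm_pos_iff.2 hz
    have hr : 0 < (2 * ‖z‖)⁻¹ := by positivity
    have hz' : ‖(2 * ‖z‖)⁻¹ • z‖ = 1 / 2 := by
      rw [norm_smul, Real.norm_of_nonneg hr.le]
      field_simp
    have hpt : pt ((2 * ‖z‖)⁻¹ • z) = pt z := by
      rw [Hom46.smul_real]
      exact pt_smul (by exact_mod_cast hr.ne') z
    obtain ⟨M₀, hM1, m1, m2⟩ : ∃ M₀ : (EndW n)ˣ,
        Good (Φ j) ((2 * ‖z‖)⁻¹ • z) (κ * θ' / 2) (1 / 16) M₀ ∧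
        ‖(↑M₀⁻¹ : EndW n) * (M : EndW n)‖ ≤ K ∧ ‖(↑M⁻¹ : EndW n) * (M₀ : EndW n)‖ ≤ K := by
      refine hgood' _ hz' ?_ M ?_
      · rw [hpt]
        have := hfin j
        refine (measureReal_mono (PB_mono _ ?_)).trans hzc
        rw [hθ']
        exact min_le_left _ _
      · rw [hM, fderiv_pos_smul (hΨ j) hr hz]
    have f1 := (hfar (Φ j) (hΦ j) (hen j) g₀ _ hg₀ hz' A₀ M₀ hA1 hM1).1
    have f2 := (hfar (Φ j) (hΦ j) (hen j) _ g₀ hz' hg₀ M₀ A₀ hM1 hA1).1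
    refine ⟨le_trans ?_ (le_max_right _ _), le_trans ?_ (le_max_right _ _)⟩
    · rw [prod_three (A j) A₀ M₀ M]
      exact norm_three a2 f1 m1 hK0 hΛ0
    · rw [prod_three M M₀ A₀ (A j)]
      exact norm_three m2 f2 a1 hK0 hΛ0
  obtain ⟨Λ₀, hΛ₀, hJ⟩ := hcmp θ₀ hθ₀ hθ₁
  have hJ1 : ∀ᶠ j in (ult : Filter ℕ), ‖Jm (A j)‖ ≤ Λ₀ := hJ.mono fun j hj => hj.1
  have hΛp : 0 < Λ₀ := by linarith
  obtain ⟨i, hi, hclose⟩ := exists_close (fun j => Jm (A j)) (inv_pos.2 hΛp) hJ1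
  have hprod : ∀ j, ‖Jm (A i) - Jm (A j)‖ ≤ Λ₀⁻¹ → ‖Jm (A i)‖ * ‖Jm (A i) - Jm (A j)‖ ≤ 1 := by
    intro j hj
    calc ‖Jm (A i)‖ * ‖Jm (A i) - Jm (A j)‖ ≤ Λ₀ * Λ₀⁻¹ :=
          mul_le_mul hi hj (norm_nonneg _) hΛp.le
      _ = 1 := mul_inv_cancel₀ hΛp.ne'
  -- the choice of the linear maps
  have hT : ∀ j, ∃ T : W n ≃L[ℝ] W n, (∀ (c : ℂ) (x : W n), T (c • x) = c • T x) ∧
      (‖Jm (A i) - Jm (A j)‖ ≤ Λ₀⁻¹ →
        ‖(↑(A i)⁻¹ : EndW n) * ((T : EndW n) * (A j : EndW n)) - 1‖ ≤ 1 / 2) := by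
    intro j
    by_cases h : ‖Jm (A i) - Jm (A j)‖ ≤ Λ₀⁻¹
    · obtain ⟨T, TR, hTR, hT1⟩ := exists_match (A i) (A j) (hprod j h)
      obtain ⟨S, hS⟩ := exists_real T
      refine ⟨S, fun c x => by rw [hS, hS, map_smul], fun _ => ?_⟩
      have e : (S : EndW n) = TR := by
        ext1 v
        show S v = TR v
        rw [hS, hTR]
      rw [e, ← mul_assoc]
      have := hprod j h
      linarith
    · exact ⟨ContinuousLinearEquiv.refl ℝ _, fun c x => rfl, fun h' => absurd h' h⟩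
  choose T hTh hTc using hT
  refine ⟨T, hTh, ?_⟩
  intro θ hθ hθ1
  obtain ⟨Λ, hΛ, hΛ1⟩ := hcmp θ hθ hθ1
  refine ⟨max 1 (2 * Λ * (‖(A i : EndW n)‖ + ‖(↑(A i)⁻¹ : EndW n)‖)), le_max_left _ _, ?_⟩
  filter_upwards [hΛ1, hclose] with j hj hcl z hz hzc
  obtain ⟨M, hM⟩ := isUnit_fderiv (hΨ j) hz
  obtain ⟨h1, h2⟩ := hj.2 z hz hzc M hM
  obtain ⟨hNu, hN1, hN2⟩ := norm_of_close (A i : EndW n) ((T j : EndW n) * (A j : EndW n))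
    (↑(A i)⁻¹ : EndW n) (Units.inv_mul _) (Units.mul_inv _) (hTc j hcl.2)
  obtain ⟨N, hN⟩ := hNu
  have hder : (fderiv ℝ (fun w => T j (Ψ j w)) z : EndW n) = (T j : EndW n) * (M : EndW n) := by
    rw [hM]
    exact fderiv_left (hΨ j) (T j) hz
  have e1 : (T j : EndW n) * (M : EndW n) =
      (N : EndW n) * ((↑(A j)⁻¹ : EndW n) * (M : EndW n)) := by
    rw [hN]
    calc (T j : EndW n) * (M : EndW n) =
        (T j : EndW n) * (((A j : EndW n) * (↑(A j)⁻¹ : EndW n)) * (M : EndW n)) := by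
          rw [Units.mul_inv, one_mul]
      _ = _ := by simp only [mul_assoc]
  have e2 : (T j : EndW n) * (M : EndW n) = ((N * (A j)⁻¹ * M : (EndW n)ˣ) : EndW n) := by
    rw [Units.val_mul, Units.val_mul, mul_assoc, e1]
  have e3 : Ring.inverse ((T j : EndW n) * (M : EndW n)) =
      ((↑M⁻¹ : EndW n) * (A j : EndW n)) * (↑N⁻¹ : EndW n) := by
    rw [e2, Ring.inverse_unit, mul_inv_rev, mul_inv_rev, inv_inv, Units.val_mul, Units.val_mul,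
      mul_assoc]
  rw [← hN] at hN1 hN2
  rw [Ring.inverse_unit] at hN2
  have hΛ0 : 0 ≤ Λ := by linarith
  have p1 := norm_nonneg (A i : EndW n)
  have p2 := norm_nonneg (↑(A i)⁻¹ : EndW n)
  rw [hder]
  refine ⟨?_, ?_⟩
  · rw [e1]
    calc ‖(N : EndW n) * ((↑(A j)⁻¹ : EndW n) * (M : EndW n))‖
        ≤ ‖(N : EndW n)‖ * ‖(↑(A j)⁻¹ : EndW n) * (M : EndW n)‖ := norm_mul_le _ _
      _ ≤ (2 * ‖(A i : EndW n)‖) * Λ := mul_le_mul hN1 h1 (norm_nonneg _) (by positivity)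
      _ ≤ 2 * Λ * (‖(A i : EndW n)‖ + ‖(↑(A i)⁻¹ : EndW n)‖) := by nlinarith [mul_nonneg hΛ0 p2]
      _ ≤ _ := le_max_right _ _
  · rw [e3]
    calc ‖((↑M⁻¹ : EndW n) * (A j : EndW n)) * (↑N⁻¹ : EndW n)‖
        ≤ ‖(↑M⁻¹ : EndW n) * (A j : EndW n)‖ * ‖(↑N⁻¹ : EndW n)‖ := norm_mul_le _ _
      _ ≤ Λ * (2 * ‖(↑(A i)⁻¹ : EndW n)‖) := mul_le_mul h2 hN2 (norm_nonneg _) hΛ0
      _ ≤ 2 * Λ * (‖(A i : EndW n)‖ + ‖(↑(A i)⁻¹ : EndW n)‖) := by nlinarith [mul_nonneg hΛ0 p1]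
      _ ≤ _ := le_max_right _ _

theorem norm_seq (n : ℕ) (hn : 1 ≤ n) {κ c E : ℝ} (hκ : 0 < κ) (hκ1 : κ ≤ 1 / (8 * ((n : ℝ) + 1)))
    (hE : 0 ≤ E) (Φ Ψ : ℕ → W n → W n) (hΦ : ∀ j, HLoc (Φ j))
    (hen : ∀ j, energy (Φ j) ≤ ENNReal.ofReal E) (hΨ : ∀ j, HLoc (Ψ j))
    (hgood : ∀ j, ∀ z : W n, z ≠ 0 → ∀ s : ℝ, 0 < s → s ≤ 1 →
      (enW (Φ j)).real (PB (pt z) s) ≤ c →
      ∃ M : (EndW n)ˣ, (M : EndW n) = fderiv ℝ (Ψ j) z ∧ Good (Φ j) z (κ * s * ‖z‖) (1 / 16) M)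
    {g₀ : W n} (hg₀ : ‖g₀‖ = 1 / 2) {θ₀ : ℝ} (hθ₀ : 0 < θ₀) (hθ₁ : θ₀ ≤ 1)
    (hl : ∀ᶠ j in (ult : Filter ℕ), (enW (Φ j)).real (PB (pt g₀) θ₀) ≤ c) :
    ∃ T : ℕ → W n ≃L[ℝ] W n, (∀ j, ∀ (c : ℂ) (x : W n), T j (c • x) = c • T j x) ∧
      ∀ θ : ℝ, 0 < θ → θ ≤ 1 → ∃ Λ : ℝ, 1 ≤ Λ ∧ ∀ᶠ j in (ult : Filter ℕ), ∀ z : W n, z ≠ 0 →
        (enW (Φ j)).real (PB (pt z) θ) ≤ c →
          ‖(fderiv ℝ (fun w => T j (Ψ j w)) z : EndW n)‖ ≤ Λ ∧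
          ‖Ring.inverse (fderiv ℝ (fun w => T j (Ψ j w)) z : EndW n)‖ ≤ Λ := by
  refine norm_seq' n hn (C₀ := 1) hκ hκ1 hE Φ Ψ hΦ hen hΨ ?_ hg₀ hθ₀ hθ₁ hl
  intro j z hz s hs hs1 hc
  obtain ⟨M, hM, hG⟩ := hgood j z hz s hs hs1 hc
  have h1 : ‖(↑M⁻¹ : EndW n) * (M : EndW n)‖ * s ≤ 1 := by
    rw [Units.inv_mul, FarAux.norm_one_EndW, one_mul]
    exact hs1
  exact ⟨M, M, hM, hG, h1, h1⟩

end Pool.Agent.Lib.P28g
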