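import Pool.Agent.Lib.P28g.Defs
import Pool.Agent.Lib.P28f.Ultra

set_option autoImplicit false

/-!
# A common scale with light collars

PROOF SKETCH. (Compare `P28f.good_scale` in `P28f/Ultra.lean`.) `s_k = s₀ / K^k`. If for every `k < N` it is not true that for almost all `j` all `a ∈ A` have collar mass `≤ c/4` then (ultrafilter, `Ultrafilter.eventually_not`) for almost all `j`, for all `k < N` some `a ∈ A` has
collar mass `> c/4`; take one such `j`: summing over `a ∈ A` and the disjoint collars (`k < N`) `N c / 4 < |A| E'`, `E' = max E 0`, impossible for `N > 4 |A| E' / c`.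
-/

open MeasureTheory Set Metric
open scoped ContDiff Topology ENNReal

namespace Pool.Agent.Lib.P28g

open Pool.Agent.P28b04d Pool.Agent.Lib.P28e Pool.Agent.Lib.P28c
open Pool.Agent.Lib.P28f (V EV ult)

variable {n m : ℕ}

theorem scale_fam {ι : Type} (A : Finset ι) {c E K s₀ : ℝ} (hc : 0 < c) (hK : 1 < K)
    (hs₀ : 0 < s₀) (hs₁ : s₀ ≤ 1) (μ : ι → ℕ → Measure (V m))
    (hfin : ∀ a ∈ A, ∀ j, IsFiniteMeasure (μ a j)) (hE : ∀ a ∈ A, ∀ j, (μ a j).real (ball 0 1) ≤ E) :
    ∃ s : ℝ, 0 < s ∧ s ≤ s₀ ∧ ∀ᶠ j in (ult : Filter ℕ), ∀ a ∈ A,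
      (μ a j).real (ball 0 s \ closedBall 0 (s / K)) ≤ c / 4 := by
  have hK0 : 0 < K := by linarith
  by_contra hcon
  push Not at hcon
  have h1 : ∀ k : ℕ, ∀ᶠ j in (ult : Filter ℕ), ∃ a ∈ A,
      c / 4 < (μ a j).real (ball 0 (s₀ / K ^ k) \ closedBall 0 (s₀ / K ^ k / K)) := by
    intro k
    exact hcon (s₀ / K ^ k) (by positivity)
      (div_le_self hs₀.le (one_le_pow₀ hK.le))
  obtain ⟨N, hN⟩ := exists_nat_gt ((A.card : ℝ) * E / (c / 4))
  have h4 : ∀ᶠ j in (ult : Filter ℕ), ∀ k ∈ Finset.range N, ∃ a ∈ A,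
      c / 4 < (μ a j).real (ball 0 (s₀ / K ^ k) \ closedBall 0 (s₀ / K ^ k / K)) :=
    (Filter.eventually_all_finset _).2 fun k _ => h1 k
  obtain ⟨j, hj⟩ := h4.exists
  have hdis : ∀ k l : ℕ, k < l →
      Disjoint (ball (0 : V m) (s₀ / K ^ k) \ closedBall 0 (s₀ / K ^ k / K))
        (ball 0 (s₀ / K ^ l) \ closedBall 0 (s₀ / K ^ l / K)) := by
    intro k l hkl
    rw [Set.disjoint_left]
    rintro x ⟨-, hx1⟩ ⟨hx2, -⟩
    apply hx1
    have h5 : s₀ / K ^ l ≤ s₀ / K ^ k / K := by
      rw [div_div, ← pow_succ]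
      exact div_le_div_of_nonneg_left hs₀.le (by positivity)
        (pow_le_pow_right₀ hK.le hkl)
    exact ball_subset_closedBall (ball_subset_ball h5 hx2)
  have h5 : ∀ a ∈ A, ∑ k ∈ Finset.range N,
      (μ a j).real (ball 0 (s₀ / K ^ k) \ closedBall 0 (s₀ / K ^ k / K)) ≤ E := by
    intro a ha
    have := hfin a ha j
    calc ∑ k ∈ Finset.range N,
          (μ a j).real (ball 0 (s₀ / K ^ k) \ closedBall 0 (s₀ / K ^ k / K))
        = (μ a j).real (⋃ k ∈ Finset.range N,
          ball 0 (s₀ / K ^ k) \ closedBall 0 (s₀ / K ^ k / K)) := by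
          rw [measureReal_biUnion_finset]
          · intro k _ l _ hkl
            rcases lt_or_gt_of_ne hkl with h | h
            · exact hdis k l h
            · exact (hdis l k h).symm
          · intro k _
            exact measurableSet_ball.diff measurableSet_closedBall
      _ ≤ (μ a j).real (ball 0 1) := by
          refine measureReal_mono (Set.iUnion₂_subset ?_)
          intro k _
          refine Set.sdiff_subset.trans (ball_subset_ball ?_)
          exact (div_le_self hs₀.le (one_le_pow₀ hK.le)).trans hs₁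
      _ ≤ E := hE a ha j
  have h6 : (N : ℝ) * (c / 4) ≤ (A.card : ℝ) * E := by
    calc (N : ℝ) * (c / 4) = ∑ k ∈ Finset.range N, c / 4 := by simp
      _ ≤ ∑ k ∈ Finset.range N, ∑ a ∈ A,
          (μ a j).real (ball 0 (s₀ / K ^ k) \ closedBall 0 (s₀ / K ^ k / K)) := by
          refine Finset.sum_le_sum fun k hk => ?_
          obtain ⟨a, ha, h⟩ := hj k hk
          exact h.le.trans (Finset.single_le_sum
            (f := fun a => (μ a j).real (ball 0 (s₀ / K ^ k) \ closedBall 0 (s₀ / K ^ k / K)))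
            (fun b _ => measureReal_nonneg) ha)
      _ = ∑ a ∈ A, ∑ k ∈ Finset.range N,
          (μ a j).real (ball 0 (s₀ / K ^ k) \ closedBall 0 (s₀ / K ^ k / K)) :=
          Finset.sum_comm
      _ ≤ ∑ a ∈ A, E := Finset.sum_le_sum h5
      _ = (A.card : ℝ) * E := by simp
  rw [div_lt_iff₀ (by positivity)] at hN
  linarith

end Pool.Agent.Lib.P28g
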