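import Pool.Agent.Lib.P28g.PrepA
import Pool.Agent.Lib.P28g.ChartCtrl
import Pool.Agent.Lib.P28g.ChartLoc
import Pool.Agent.Lib.P28g.CondG
import Pool.Agent.Lib.P28g.ConcW
import Pool.Agent.Lib.P28g.NormSeq
import Pool.Agent.Lib.P28g.ScaleFam

set_option autoImplicit false

/-!
# The sequence: smoothing, normalisation, charts at the concentration points
-/

open MeasureTheory Set Metric
open scoped ContDiff Topology ENNReal

namespace Pool.Agent.Lib.P28g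

open Pool.Agent.P28b04d Pool.Agent.Lib.P28e Pool.Agent.Lib.P28c
open Pool.Agent.Lib.P28f (V EV Flat ann Imm rep w0 ult Ctrl)

variable {n m : ℕ}

theorem exists_pow_small (N : ℕ) {ε : ℝ} (hε : 0 < ε) : ∃ δ : ℝ, 0 < δ ∧ (1 + 4 * δ) ^ N - 1 ≤ ε := by
  have hc : ContinuousAt (fun δ : ℝ => (1 + 4 * δ) ^ N - 1) 0 := by fun_prop
  have h0 : (fun δ : ℝ => (1 + 4 * δ) ^ N - 1) 0 < ε := by simpa using hε
  have h1 : ∀ᶠ δ in 𝓝[>] (0 : ℝ), (fun δ : ℝ => (1 + 4 * δ) ^ N - 1) δ < ε :=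
    (hc.eventually_lt_const h0).filter_mono nhdsWithin_le_nhds
  obtain ⟨δ, h2, h3⟩ := (h1.and self_mem_nhdsWithin).exists
  exact ⟨δ, h3, h2.le⟩

theorem FlatU.mono {X A : Type} [NormedRing A] {δ δ' : ℝ} {S : Set X} {u : X → A}
    (h : FlatU δ S u) (hδ : δ ≤ δ') : FlatU δ' S u :=
  fun x hx y hy => (h x hx y hy).trans hδ

theorem alg_cond {a b : EndW n} (ha : IsUnit a) (hb : IsUnit b) :
    ‖b‖ * ‖Ring.inverse b‖ ≤ (‖a‖ * ‖Ring.inverse a‖) *
      (‖Ring.inverse a * b‖ * ‖Ring.inverse b * a‖) := by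
  have h1 : ‖b‖ ≤ ‖a‖ * ‖Ring.inverse a * b‖ := by
    calc ‖b‖ = ‖a * (Ring.inverse a * b)‖ := by
          rw [← mul_assoc, Ring.mul_inverse_cancel a ha, one_mul]
      _ ≤ _ := norm_mul_le _ _
  have h2 : ‖Ring.inverse b‖ ≤ ‖Ring.inverse b * a‖ * ‖Ring.inverse a‖ := by
    calc ‖Ring.inverse b‖ = ‖(Ring.inverse b * a) * Ring.inverse a‖ := by
          rw [mul_assoc, Ring.mul_inverse_cancel a ha, mul_one]
      _ ≤ _ := norm_mul_le _ _
  calc ‖b‖ * ‖Ring.inverse b‖ ≤ (‖a‖ * ‖Ring.inverse a * b‖) *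
        (‖Ring.inverse b * a‖ * ‖Ring.inverse a‖) := mul_le_mul h1 h2 (norm_nonneg _) (by positivity)
    _ = _ := by ring

theorem cond_pow {K a b r Λ : ℝ} (hK : 0 ≤ K) (ha : 0 ≤ a) (hb : 0 ≤ b) (hr : 0 ≤ r)
    (h1 : a ^ 8 * r ≤ Λ) (h2 : b ^ 8 * r ≤ Λ) {x : ℝ} (hx0 : 0 ≤ x) (hx : x ≤ K * (a * b)) :
    x ^ 4 * r ≤ K ^ 4 * Λ := by
  have h3 : x ^ 4 ≤ (K * (a * b)) ^ 4 := pow_le_pow_left₀ hx0 hx 4
  have h4 : (a * b) ^ 4 * r ≤ Λ := by
    have h5 : a ^ 4 * b ^ 4 ≤ (a ^ 8 + b ^ 8) / 2 := by nlinarith [sq_nonneg (a ^ 4 - b ^ 4)]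
    calc (a * b) ^ 4 * r = (a ^ 4 * b ^ 4) * r := by ring
      _ ≤ ((a ^ 8 + b ^ 8) / 2) * r := by gcongr
      _ = (a ^ 8 * r + b ^ 8 * r) / 2 := by ring
      _ ≤ Λ := by linarith
  calc x ^ 4 * r ≤ (K * (a * b)) ^ 4 * r := by gcongr
    _ = K ^ 4 * ((a * b) ^ 4 * r) := by ring
    _ ≤ K ^ 4 * Λ := by gcongr

theorem exists_lim {X : Type} [NormedAddCommGroup X] [ProperSpace X] {f : ℕ → X} {C : ℝ}
    (h : ∀ᶠ j in (ult : Filter ℕ), ‖f j‖ ≤ C) :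
    ∃ P : X, Filter.Tendsto f (ult : Filter ℕ) (𝓝 P) := by
  have h1 : ((ult.map f : Ultrafilter X) : Filter X) ≤ Filter.principal (closedBall 0 C) := by
    rw [Ultrafilter.coe_map, Filter.le_principal_iff, Filter.mem_map]
    filter_upwards [h] with j hj
    rw [mem_preimage, mem_closedBall, dist_zero_right]
    exact hj
  obtain ⟨P, -, hP⟩ := (isCompact_closedBall (0 : X) C).ultrafilter_le_nhds _ h1
  refine ⟨P, ?_⟩
  rw [Ultrafilter.coe_map] at hP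
  exact hP

theorem TT_refl : TT (ContinuousLinearEquiv.refl ℝ (W n)) where
  hom := fun _ _ => rfl
  le := fun _ => le_rfl
  symm_le := fun w => by
    show ‖w‖ ≤ 4 * ‖w‖
    linarith [norm_nonneg w]

theorem exists_TA (A : Finset (W n)) (hA : ∀ a ∈ A, ‖a‖ = 1 / 2) :
    ∃ T : W n → W n ≃L[ℝ] W n, (∀ a, TT (T a)) ∧ ∀ a ∈ A, T a (e0 n) = a := by
  classical
  have h : ∀ a : W n, ∃ T : W n ≃L[ℝ] W n, TT T ∧ (a ∈ A → T (e0 n) = a) := by
    intro a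
    by_cases ha : a ∈ A
    · obtain ⟨T, h1, h2⟩ := exists_TT (hA a ha)
      exact ⟨T, h1, fun _ => h2⟩
    · exact ⟨_, TT_refl, fun h => absurd h ha⟩
  choose T h1 h2 using h
  exact ⟨T, h1, h2⟩

theorem norm_e0 : ‖e0 n‖ = 1 := by
  apply le_antisymm
  · rw [pi_norm_le_iff_of_nonneg zero_le_one]
    intro i
    refine Fin.cases ?_ (fun j => ?_) i
    · simp [e0]
    · simp [e0]
  · have h := norm_le_pi_norm (e0 n) 0
    simpa [e0] using h

theorem prep_seq (n : ℕ) (hn : 1 ≤ n) {δf δg : ℝ} (hδf : 0 < δf) (hδg : 0 < δg) {E : ℝ}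
    (hE : 0 ≤ E) (Φ : ℕ → W n → W n) (hΦ : ∀ j, HLoc (Φ j))
    (hi : ∀ j, Function.Injective (Φ j)) (hen : ∀ j, energy (Φ j) ≤ ENNReal.ofReal E) :
    ∃ (X : ℕ → W n → W n) (A : Finset (W n)) (T B : W n → W n ≃L[ℝ] W n) (s c Λ r : ℝ),
      (∀ j, HLoc (X j)) ∧ (∀ j, Conn (Φ j) (X j)) ∧ (∀ a, TT (T a)) ∧
      (∀ a, ∀ (c : ℂ) (x : W n), B a (c • x) = c • B a x) ∧
      (∀ a ∈ A, ‖(B a : EndW n)‖ * ‖((B a).symm : EndW n)‖ ≤ 4) ∧ 0 < s ∧ s ≤ 1 / 4 ∧ 0 < c ∧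
      (∀ a ∈ A, ∀ b ∈ A, a ≠ b → ∀ x y : V (n * 2), ‖x‖ < s → ‖y‖ < s →
        pt (T a (sl n x)) ≠ pt (T b (sl n y))) ∧
      (∀ᶠ j in (ult : Filter ℕ), ∀ a ∈ A,
        (∀ x : V (n * 2), ‖x‖ < s →
          ‖B a (X j (T a (sl n x)))‖ ≤ 2 * ‖(B a (X j (T a (sl n x)))) 0‖) ∧
        Ctrl δf c (ball 0 s) (fc fun z => B a (X j (T a z)))
          (chm ((enW (Φ j)).map (T a).symm)) ∧
        (chm ((enW (Φ j)).map (T a).symm)).real (ball 0 s \ closedBall 0 (s / 16)) ≤ c / 4) ∧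
      1 ≤ Λ ∧ 0 < r ∧ r ≤ 1 / 4 ∧
      ∀ᶠ j in (ult : Filter ℕ), ∀ z : W n, z ≠ 0 → Out A T (s / 8) z →
        ‖(fderiv ℝ (X j) z : EndW n)‖ ≤ Λ ∧ ‖Ring.inverse (fderiv ℝ (X j) z : EndW n)‖ ≤ Λ ∧
        FlatU δg (closedBall z (r * ‖z‖)) (fderiv ℝ (X j)) := by
  classical
  have hm : 2 ≤ n * 2 := by omega
  have hn1 : (1 : ℝ) ≤ (n : ℝ) + 1 := by have : (0 : ℝ) ≤ n := Nat.cast_nonneg n; linarith
  obtain ⟨κ, hκ, hκ1, C₀, hC₀, hsm⟩ := smooth_W n hn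
  have hκ8 : κ ≤ 1 / 8 := by
    refine hκ1.trans ?_
    rw [div_le_div_iff₀ (by positivity) (by norm_num)]
    linarith
  obtain ⟨C₁, hC₁, hright⟩ := ctrlW_right n
  have hκC0 : 0 < κ / C₁ := by positivity
  have hκC : κ / C₁ ≤ 1 / 8 := (div_le_self hκ.le hC₁).trans hκ8
  obtain ⟨N, hN⟩ := chart_ctrl n hn hκC0 (hκC.trans (by norm_num))
  obtain ⟨δu, hδu, hcl⟩ := chart_loc n hn hδf
  obtain ⟨δ₀, hδ₀, hδ₀'⟩ := exists_pow_small N (ε := min δu (1 / 40000)) (by positivity)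
  set δ : ℝ := min δ₀ δg with hδ
  have hδp : 0 < δ := by positivity
  set δ' : ℝ := (1 + 4 * δ) ^ N - 1 with hδ'
  have hδ'1 : δ' ≤ min δu (1 / 40000) := by
    refine le_trans ?_ hδ₀'
    have : δ ≤ δ₀ := min_le_left _ _
    rw [hδ']
    gcongr
  have hδ'0 : 0 ≤ δ' := by
    have : (1 : ℝ) ≤ (1 + 4 * δ) ^ N := one_le_pow₀ (by linarith)
    linarith
  obtain ⟨c, hc, hsmc⟩ := hsm δ hδp
  have htop : ∀ j, energy (Φ j) ≠ ⊤ := fun j => ne_top_of_le_ne_top ENNReal.ofReal_ne_top (hen j)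
  choose Ψ hΨ1 hΨ2 hΨ3 using fun j => hsmc (Φ j) (hΦ j) (htop j)
  have hfin : ∀ j, IsFiniteMeasure (enW (Φ j)) := fun j => enW_finite (htop j)
  have hmass : ∀ j, (enW (Φ j)).real univ ≤ E := by
    intro j
    rw [measureReal_def, enW_univ]
    exact ENNReal.toReal_le_of_le_ofReal hE (hen j)
  obtain ⟨A, hA1, hA2, hconc⟩ := conc_W n hc (fun j => enW (Φ j)) hfin hmass
    fun j => enW_zero hn (Φ j)
  obtain ⟨g₀, hg₀, t₀, ht₀, hgt⟩ := exists_g0 hn A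
  obtain ⟨θ₀, hθ₀, hθ₀1, hl₀⟩ := hconc t₀ ht₀
  have hg₀0 : g₀ ≠ 0 := by
    rintro rfl
    rw [norm_zero] at hg₀
    norm_num at hg₀
  obtain ⟨Tn, hTn, hNB⟩ := norm_seq' n hn hκ hκ1 hE Φ Ψ hΦ hen (fun j => (hΨ2 j).hloc) hΨ3 hg₀ hθ₀
    hθ₀1 (hl₀.mono fun j hj => hj g₀ hg₀0 hgt)
  set X : ℕ → W n → W n := fun j w => Tn j (Ψ j w) with hX
  have hXh : ∀ j, HLoc (X j) := fun j => hloc_left (hΨ2 j).hloc (Tn j) (hTn j)
  have hXc : ∀ j, CtrlW κ δ c (X j) (enW (Φ j)) := fun j =>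
    ctrlW_left hκ.le hκ8 (hΨ2 j) (Tn j) (hTn j)
  have hXi : ∀ j, Function.Injective (X j) := fun j =>
    (Tn j).injective.comp (conn_inj (hΨ1 j) (hi j))
  have hXconn : ∀ j, Conn (Φ j) (X j) := by
    intro j
    refine (hΨ1 j).trans ?_
    set L : (Fin (n + 1) → ℂ) ≃ₗ[ℂ] (Fin (n + 1) → ℂ) :=
      { toFun := Tn j
        invFun := (Tn j).symm
        map_add' := (Tn j).map_add
        map_smul' := fun c x => hTn j c x
        left_inv := (Tn j).symm_apply_apply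
        right_inv := (Tn j).apply_symm_apply } with hL
    have h1 := conn_linear L
    have h2 : Conn (fun z => id (Ψ j z)) (fun z => L (Ψ j z)) :=
      conn_comp_right h1 (hΨ2 j).hloc
    exact h2
  obtain ⟨T, hT, hTa⟩ := exists_TA A hA1
  obtain ⟨s₀, hs₀, hdis⟩ := exists_disj n A hA2 T hT hTa
  obtain ⟨Λ₁, θ₁, hΛ₁, hθ₁, hθ₁', hcb⟩ := cond_bound (A := EndW n) hm (E := E) hc
  obtain ⟨Cl, hCl, hlight⟩ := light_of_chart n
  have hdiv : ∀ θ : ℝ, 0 < θ → θ ≤ 1 → 0 < θ / Cl ∧ θ / Cl ≤ 1 := fun θ h1 h2 =>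
    ⟨by positivity, (div_le_self h1.le hCl).trans h2⟩
  obtain ⟨Λ₂, hΛ₂, hNB₂⟩ := hNB (θ₁ / Cl) (hdiv θ₁ hθ₁ (by linarith)).1
    (hdiv θ₁ hθ₁ (by linarith)).2
  obtain ⟨s₁, hs₁, hs₁', hcl₁⟩ := hcl ((16 * (Λ₂ * Λ₂)) ^ 4 * Λ₁) (by
    have h1 : (1 : ℝ) ≤ Λ₂ * Λ₂ := by nlinarith
    have h2 : (1 : ℝ) ≤ (16 * (Λ₂ * Λ₂)) ^ 4 := one_le_pow₀ (by linarith)
    nlinarith)
  set μ : W n → ℕ → Measure (V (n * 2)) := fun a j => chm ((enW (Φ j)).map (T a).symm) with hμ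
  have hmapfin : ∀ a j, IsFiniteMeasure ((enW (Φ j)).map (T a).symm) := fun a j => by
    haveI := hfin j
    infer_instance
  have hμfin : ∀ a j, IsFiniteMeasure (μ a j) := fun a j => by
    haveI := hmapfin a j
    exact chm_finite _
  have hmapuniv : ∀ a j, ((enW (Φ j)).map (T a).symm).real univ ≤ E := by
    intro a j
    rw [measureReal_def, Measure.map_apply (T a).symm.continuous.measurable MeasurableSet.univ,
      preimage_univ, ← measureReal_def]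
    exact hmass j
  have hμE : ∀ a j (S : Set (V (n * 2))), (μ a j).real S ≤ E := by
    intro a j S
    haveI := hmapfin a j
    exact (chm_le _ S).trans (hmapuniv a j)
  obtain ⟨s', hs', hs'1, hcol⟩ := scale_fam A hc (K := 64) (by norm_num)
    (s₀ := min 1 (min (4 * s₁) (4 * s₀))) (by positivity) (min_le_left _ _) μ
    (fun a _ j => hμfin a j) (fun a _ j => hμE a j _)
  set s : ℝ := s' / 4 with hs
  have hs0 : 0 < s := by positivity
  have hss1 : s ≤ s₁ := by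
    have : s' ≤ 4 * s₁ := hs'1.trans ((min_le_right _ _).trans (min_le_left _ _))
    rw [hs]; linarith
  have hss0 : s ≤ s₀ := by
    have : s' ≤ 4 * s₀ := hs'1.trans ((min_le_right _ _).trans (min_le_right _ _))
    rw [hs]; linarith
  have hs4 : s ≤ 1 / 4 := by
    have : s' ≤ 1 := hs'1.trans (min_le_left _ _)
    rw [hs]; linarith
  have e4s : s' = 4 * s := by rw [hs]; ring
  have e64 : s' / 64 = s / 16 := by rw [hs]; ring
  -- the base point of the collar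
  set p : V (n * 2) := (s / 2) • w0 (n * 2) with hp
  have hpn : ‖p‖ = 3 / 8 * s := by
    rw [hp, norm_smul, P28f.norm_w0 (by omega), Real.norm_of_nonneg (by positivity)]
    ring
  have hpsub : closedBall p (s / 8) ⊆ ball (0 : V (n * 2)) (4 * s) \ closedBall 0 (s / 16) := by
    intro x hx
    rw [mem_closedBall, dist_eq_norm] at hx
    have h1 : ‖x‖ ≤ ‖x - p‖ + ‖p‖ := by simpa using norm_add_le (x - p) p
    have h2 : ‖p‖ ≤ ‖x - p‖ + ‖x‖ := by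
      have := norm_sub_le x (x - p)
      simp only [sub_sub_cancel] at this
      linarith
    rw [hpn] at h1 h2
    refine ⟨?_, ?_⟩
    · rw [mem_ball_zero_iff]; linarith
    · rw [mem_closedBall_zero_iff, not_le]; linarith
  obtain ⟨Λ₄, hΛ₄, hNB₄⟩ := hNB (s / 8 / Cl) (hdiv (s / 8) (by positivity) (by linarith)).1
    (hdiv (s / 8) (by positivity) (by linarith)).2
  have hslT : ∀ a (x : V (n * 2)), T a (sl n x) ≠ 0 := fun a x h0 =>
    sl_ne x ((T a).injective (by rw [h0, map_zero]))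
  have hpE : ∀ᶠ j in (ult : Filter ℕ), ∀ a ∈ A,
      ‖(fderiv ℝ (X j) (T a (sl n p)) : EndW n)‖ ≤ Λ₄ ∧
      ‖Ring.inverse (fderiv ℝ (X j) (T a (sl n p)) : EndW n)‖ ≤ Λ₄ := by
    filter_upwards [hcol, hNB₄] with j h1 h2 a ha
    haveI := hμfin a j
    apply h2 _ (hslT a p)
    apply hlight (T a) (hT a) (enW (Φ j)) (hfin j) c p (by rw [hpn]; linarith) (s / 8)
      (by positivity) (by linarith)
    have h3 := h1 a ha
    rw [e4s] at h3
    have e64' : 4 * s / 64 = s / 16 := by ring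
    rw [e64'] at h3
    refine (measureReal_mono hpsub (by finiteness)).trans (h3.trans (by linarith))
  have hlim : ∀ a ∈ A, ∃ P : W n, P ≠ 0 ∧
      Filter.Tendsto (fun j => X j (T a (sl n p))) (ult : Filter ℕ) (𝓝 P) := by
    intro a ha
    obtain ⟨P, hP⟩ := exists_lim (f := fun j => X j (T a (sl n p)))
      (C := Λ₄ * ‖T a (sl n p)‖) (by
        filter_upwards [hpE] with j hj
        have h1 : (fderiv ℝ (X j) (T a (sl n p)) : EndW n) (T a (sl n p)) =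
            X j (T a (sl n p)) := euler (hXh j) (hslT a p)
        rw [← h1]
        exact (ContinuousLinearMap.le_opNorm _ _).trans (by
          have := (hj a ha).1
          gcongr))
    refine ⟨P, ?_, hP⟩
    have h2 : ∀ᶠ j in (ult : Filter ℕ), ‖T a (sl n p)‖ / Λ₄ ≤ ‖X j (T a (sl n p))‖ := by
      filter_upwards [hpE] with j hj
      rw [div_le_iff₀ (by linarith)]
      refine (norm_le_inv (hXh j) (hslT a p)).trans ?_
      rw [mul_comm]
      have := (hj a ha).2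
      gcongr
    have h3 := ge_of_tendsto hP.norm h2
    intro h0
    rw [h0, norm_zero] at h3
    have h4 : 0 < ‖T a (sl n p)‖ / Λ₄ := by
      have := norm_pos_iff.2 (hslT a p)
      positivity
    linarith
  choose! P hP0 hPlim using hlim
  have hBex : ∀ a : W n, ∃ B : W n ≃L[ℝ] W n, (∀ (c : ℂ) (x : W n), B (c • x) = c • B x) ∧
      (a ∈ A → B (P a) = e0 n ∧ ‖(B : EndW n)‖ * ‖(B.symm : EndW n)‖ ≤ 4 ∧
        ∀ w, ‖B w‖ ≤ 2 / ‖P a‖ * ‖w‖) := by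
    intro a
    by_cases ha : a ∈ A
    · obtain ⟨B, h1, h2, h3, h4⟩ := exists_B (hP0 a ha)
      exact ⟨B, h1, fun _ => ⟨h2, h3, h4⟩⟩
    · exact ⟨ContinuousLinearEquiv.refl ℝ (W n), fun _ _ => rfl, fun h => absurd h ha⟩
  choose B hBhom hBA using hBex
  have hbase : ∀ᶠ j in (ult : Filter ℕ), ∀ a ∈ A,
      ‖B a (X j (T a (sl n p))) - e0 n‖ ≤ 1 / 16 := by
    rw [Filter.eventually_all_finset]
    intro a ha
    obtain ⟨b1, b2, b3⟩ := hBA a ha
    have hPp : 0 < ‖P a‖ := norm_pos_iff.2 (hP0 a ha)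
    have h1 := (Metric.tendsto_nhds.1 (hPlim a ha)) (‖P a‖ / 64) (by positivity)
    filter_upwards [h1] with j hj
    rw [← b1, ← map_sub]
    refine (b3 _).trans ?_
    rw [dist_eq_norm] at hj
    calc 2 / ‖P a‖ * ‖X j (T a (sl n p)) - P a‖ ≤ 2 / ‖P a‖ * (‖P a‖ / 64) := by gcongr
      _ = 1 / 32 := by field_simp; norm_num
      _ ≤ 1 / 16 := by norm_num
  -- the good region
  obtain ⟨t, ht, haway⟩ := exists_away n A T hT hTa (r := s / 8) (by positivity)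
  obtain ⟨θ₅, hθ₅, hθ₅1, hl₅⟩ := hconc t ht
  obtain ⟨Λ₅, hΛ₅, hNB₅⟩ := hNB θ₅ hθ₅ hθ₅1
  refine ⟨X, A, T, B, s, c, Λ₅, κ * θ₅, hXh, hXconn, hT, hBhom, fun a ha => (hBA a ha).2.1, hs0,
    hs4, hc, fun a ha b hb hab x y hx hy => hdis a ha b hb hab x y (by linarith) (by linarith),
    ?_, hΛ₅, by positivity, ?_, ?_⟩
  · filter_upwards [hcol, hNB₂, hbase] with j j1 j2 j3 a ha
    have hCW : CtrlW (κ / C₁) (4 * δ) c (fun z => B a (X j (T a z)))
        ((enW (Φ j)).map (T a).symm) :=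
      ctrlW_left hκC0.le hκC
        (hright (T a) (hT a) κ δ c (X j) (enW (Φ j)) (hfin j) hκ.le hκ8 (hXc j)) (B a) (hBhom a)
    have hCG : CtrlG δ' c (ball 0 1) (uu fun z => B a (X j (T a z))) (μ a j) :=
      hN (4 * δ) c _ _ (hmapfin a j) (by positivity) hCW
    have hHh : HLoc fun z => B a (X j (T a z)) := hloc_TB (hXh j) (hT a).hom (hBhom a)
    have hHi : Function.Injective fun z => B a (X j (T a z)) :=
      (B a).injective.comp ((hXi j).comp (T a).injective)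
    have hcolj := j1 a ha
    rw [e4s] at hcolj
    have e64' : 4 * s / 64 = s / 16 := by ring
    rw [e64'] at hcolj
    have hb := j3 a ha
    obtain ⟨r1, r2⟩ := hcl₁ _ hHh hHi c (μ a j) (hμfin a j) hc δ' hδ'0
      (hδ'1.trans (min_le_left _ _)) hCG (by
        intro y hy r hr hr1 hyr
        obtain ⟨q, hq, hq1, hq2, hq3⟩ := hcb _ (μ a j) δ' (hμfin a j) hδ'0
          (hδ'1.trans (min_le_right _ _)) hCG (hμE a j _) y hy r hr hr1 hyr
        have hqn : ‖q‖ ≤ 1 := by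
          rw [mem_closedBall_zero_iff] at hq
          linarith
        have hD := j2 (T a (sl n q)) (hslT a q)
          (hlight (T a) (hT a) (enW (Φ j)) (hfin j) c q hqn θ₁ hθ₁ (by linarith) hq1)
        have hDu : IsUnit (fderiv ℝ (X j) (T a (sl n q)) : EndW n) :=
          isUnit_fderiv (hXh j) (hslT a q)
        have h1 : ‖uu (fun z => B a (X j (T a z))) q‖ *
            ‖Ring.inverse (uu (fun z => B a (X j (T a z))) q)‖ ≤ 16 * (Λ₂ * Λ₂) := by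
          rw [uu_TB (hXh j) (B a) (hT a).hom]
          refine (cond_TB (hT a) (hBA a ha).2.1 hDu).trans ?_
          have d1 := hD.1
          have d2 := hD.2
          gcongr
        have h2 := alg_cond (a := uu (fun z => B a (X j (T a z))) q)
          (b := uu (fun z => B a (X j (T a z))) y) (isUnit_uu hHh q) (isUnit_uu hHh y)
        refine cond_pow (K := 16 * (Λ₂ * Λ₂)) (by positivity) (norm_nonneg _) (norm_nonneg _)
          hr.le hq3 hq2 (by positivity) (h2.trans ?_)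
        gcongr)
      s hs0 hss1 (hcolj.trans (by linarith)) hb
    haveI := hμfin a j
    refine ⟨fun x hx => r1 x (by linarith), r2, ?_⟩
    refine (measureReal_mono ?_ (by finiteness)).trans hcolj
    exact diff_subset_diff_left (ball_subset_ball (by linarith))
  · have : κ * θ₅ ≤ 1 / 8 * 1 := mul_le_mul hκ8 hθ₅1 hθ₅.le (by norm_num)
    linarith
  · filter_upwards [hl₅, hNB₅] with j j1 j2 z hz hout
    have h1 := j1 z hz (haway z hz hout)
    obtain ⟨h2, h3⟩ := j2 z hz h1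
    exact ⟨h2, h3, ((hXc j).flat z hz θ₅ hθ₅ hθ₅1 h1).mono (min_le_right _ _)⟩

end Pool.Agent.Lib.P28g
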