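import Pool.Agent.Lib.P28g.PairB
import Pool.Agent.Lib.P28g.PrepB
import Pool.Agent.Lib.P28g.NetW
import Pool.Agent.Lib.P28g.IsoFin
import Pool.Agent.Lib.P28f.Induct
import Pool.Agent.Lib.P28f.Ultra
import Pool.Agent.Lib.P28e.Bound

set_option autoImplicit false

/-!
# Finitely many isotopy classes below every critical energy
-/

open MeasureTheory Set Metric
open scoped ContDiff Topology ENNReal

namespace Pool.Agent.Lib.P28g

open Pool.Agent.P28b04d Pool.Agent.Lib.P28e Pool.Agent.Lib.P28c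
open Pool.Agent.Lib.P28f (V EV Flat ann Imm rep w0 ult Ctrl Loc pull cls)

variable {n m : ℕ}

theorem cls_pull (f : V m → V m) (s : ℝ) : cls (fun v => f (0 + s • v)) = rep f 0 (s / 4) := by
  rw [cls, P28f.rep_comp, smul_zero, add_zero]
  congr 1
  ring

theorem seq_fin (n : ℕ) (hn : 1 ≤ n) {E : ℝ} (hE : 0 ≤ E) (Φ : ℕ → W n → W n)
    (hΦ : ∀ j, HLoc (Φ j)) (hi : ∀ j, Function.Injective (Φ j))
    (hen : ∀ j, energy (Φ j) ≤ ENNReal.ofReal E) (F : ℕ → Mat n → Mat n)
    (hF : ∀ j, ∀ z : W n, z ≠ 0 → F j (pt z) = pt (Φ j z)) :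
    ∃ i j, i ≠ j ∧ Isotopic n (F i) (F j) := by
  classical
  have hm : 2 ≤ n * 2 := by omega
  obtain ⟨δp, hδp, hδp1, hpair⟩ := pair_end n hn
  obtain ⟨δ₀, hδ₀, hfin⟩ := P28f.fin_all (n * 2) hm
  obtain ⟨δf, hδf, hδf0, hδfp, hδf1⟩ : ∃ δf : ℝ, 0 < δf ∧ δf ≤ δ₀ ∧ 2000 * δf ≤ δp ∧
      δf ≤ 1 / 2000 := by
    refine ⟨min δ₀ (min (δp / 2000) (1 / 2000)), by positivity, min_le_left _ _, ?_,
      (min_le_right _ _).trans (min_le_right _ _)⟩
    have : min δ₀ (min (δp / 2000) (1 / 2000)) ≤ δp / 2000 :=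
      (min_le_right _ _).trans (min_le_left _ _)
    linarith
  obtain ⟨X, A, T, B, s, c, Λ, r, hX, hconn, hT, hB, hBc, hs, hs1, hc, hdis, hctrl, hΛ, hr, hr1,
    hout⟩ := prep_seq n hn hδf (δg := δp / 3) (by positivity) hE Φ hΦ hi hen
  obtain ⟨η, hη, hpe⟩ := hpair A T B hT hB hBc s hs hs1 hdis Λ hΛ
  have htop : ∀ j, energy (Φ j) ≠ ⊤ := fun j => ne_top_of_le_ne_top ENNReal.ofReal_ne_top (hen j)
  have hfinW : ∀ j, IsFiniteMeasure (enW (Φ j)) := fun j => enW_finite (htop j)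
  have hmapfin : ∀ a j, IsFiniteMeasure ((enW (Φ j)).map (T a).symm) := fun a j => by
    have := hfinW j
    infer_instance
  have hμfin : ∀ a j, IsFiniteMeasure (chm ((enW (Φ j)).map (T a).symm)) := fun a j => by
    have := hmapfin a j
    exact chm_finite _
  have hμE : ∀ a j (S : Set (V (n * 2))), (chm ((enW (Φ j)).map (T a).symm)).real S ≤ E := by
    intro a j S
    have := hmapfin a j
    refine (chm_le _ S).trans ?_
    rw [measureReal_def, Measure.map_apply (T a).symm.continuous.measurable MeasurableSet.univ,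
      preimage_univ, enW_univ]
    exact ENNReal.toReal_le_of_le_ofReal hE (hen j)
  -- the local classes
  have hpick : ∀ a ∈ A, ∃ i, ∀ᶠ j in (ult : Filter ℕ),
      P28f.Iso (rep (fc fun z => B a (X i (T a z))) 0 (s / 4))
        (rep (fc fun z => B a (X j (T a z))) 0 (s / 4)) := by
    intro a ha
    have h1 : ∀ᶠ j in (ult : Filter ℕ),
        Ctrl δf c (ball 0 s) (fc fun z => B a (X j (T a z)))
          (chm ((enW (Φ j)).map (T a).symm)) ∧
        (chm ((enW (Φ j)).map (T a).symm)).real (ball 0 s \ closedBall 0 (s / 16)) ≤ c / 4 :=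
      hctrl.mono fun j hj => ⟨(hj a ha).2.1, (hj a ha).2.2⟩
    obtain ⟨i, -, hi⟩ := P28f.pick h1
      (rel := fun i j => P28f.Iso (rep (fc fun z => B a (X i (T a z))) 0 (s / 4))
        (rep (fc fun z => B a (X j (T a z))) 0 (s / 4)))
      (fun i j h => h.symm) (by
        intro q hq
        have hloc : ∀ k, Loc δf c E (fun v => fc (fun z => B a (X (q k) (T a z))) (0 + s • v))
            (pull 0 s (chm ((enW (Φ (q k))).map (T a).symm))) := by
          intro k
          exact P28f.loc_sub (hμfin a _) (fun x => chm_atom hn _ (T a) (hT a) x) (hq k).1 hs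
            subset_rfl (hμE a _ _) (hq k).2
        obtain ⟨k, l, hkl, hiso⟩ := hfin δf c hδf.le hδf0 hc E _ _ hloc
        refine ⟨k, l, hkl, ?_⟩
        rw [cls_pull, cls_pull] at hiso
        exact hiso)
    exact ⟨i, hi.mono fun j hj => hj.2⟩
  choose! i₀ hi₀ using hpick
  have hall : ∀ᶠ j in (ult : Filter ℕ), ∀ a ∈ A,
      P28f.Iso (rep (fc fun z => B a (X (i₀ a) (T a z))) 0 (s / 4))
        (rep (fc fun z => B a (X j (T a z))) 0 (s / 4)) := by
    rw [Filter.eventually_all_finset]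
    exact hi₀
  -- closeness on the good region
  obtain ⟨S, hS, hclose⟩ := net_W (isCompact_out A T hT (s / 8)) (fun z hz => hz.1) X hX hΛ
    (δ := δp / 3) (r := r / 2) (by positivity) (by linarith) (by positivity) (by linarith) (by
      filter_upwards [hout] with j hj z hz
      have hz0 : z ≠ 0 := by
        rintro rfl
        have := hz.1
        rw [norm_zero] at this
        norm_num at this
      obtain ⟨h1, h2, h3⟩ := hj z hz0 hz.2
      refine ⟨h1, h2, ?_⟩
      rw [hz.1] at h3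
      have e : r * (1 / 2) = r / 2 := by ring
      rwa [e] at h3) (η := η / 2) (by positivity)
  obtain ⟨i, j, hij, ⟨iS, iA, iC, iO⟩, jS, jA, jC, jO⟩ :=
    P28f.exists_ne_of_eventually (hS.and (hall.and (hctrl.and hout)))
  have hflat : ∀ a ∈ A, ∀ k, (∀ a ∈ A,
        (∀ x : V (n * 2), ‖x‖ < s →
          ‖B a (X k (T a (sl n x)))‖ ≤ 2 * ‖(B a (X k (T a (sl n x)))) 0‖) ∧
        Ctrl δf c (ball 0 s) (fc fun z => B a (X k (T a z)))
          (chm ((enW (Φ k)).map (T a).symm)) ∧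
        (chm ((enW (Φ k)).map (T a).symm)).real (ball 0 s \ closedBall 0 (s / 16)) ≤ c / 4) →
      Flat δp (ann 0 (s / 4)) (fc fun z => B a (X k (T a z))) := by
    intro a ha k hk
    obtain ⟨-, h1, h2⟩ := hk a ha
    have := hμfin a k
    refine (P28f.ann_ctrl hm hδf.le hδf1 h1 (by positivity : 0 < s / 4) ?_ ?_).mono hδfp
      subset_rfl
    · intro x hx
      rw [mem_closedBall_zero_iff] at hx
      rw [mem_ball_zero_iff]
      linarith
    · refine (measureReal_mono ?_ (by finiteness)).trans (h2.trans (by linarith))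
      intro x hx
      rw [mem_sdiff, mem_closedBall_zero_iff, mem_ball_zero_iff, not_lt] at hx
      rw [mem_sdiff, mem_ball_zero_iff, mem_closedBall_zero_iff, not_le]
      constructor <;> linarith [hx.1, hx.2]
  obtain ⟨Z, hZ, hYZ, hZX⟩ := hpe (X i) (X j) (hX i) (hX j) (fun a ha => (iC a ha).1)
    (fun a ha => (jC a ha).1) (fun a ha => ⟨hflat a ha i iC, hflat a ha j jC⟩)
    (fun a ha => (jA a ha).symm.trans (iA a ha)) (by
      intro z hz hzo
      obtain ⟨h1, h2, -⟩ := jO z hz hzo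
      refine ⟨h1, h2, ?_, ?_⟩
      · obtain ⟨t, ht, ht1, ht2, -⟩ := exists_half hz
        have h3 := (hclose j jS i iS (t • z) ⟨ht1, fun a ha x hx => by
          rw [ht2]; exact hzo a ha x hx⟩).1
        rw [fderiv_pos_smul (hX j) ht hz, fderiv_pos_smul (hX i) ht hz] at h3
        linarith
      · obtain ⟨t, ht, ht1, ht2, ht3⟩ := exists_half hz
        have h3 := (hclose i iS j jS (t • z) ⟨ht1, fun a ha x hx => by
          rw [ht2]; exact hzo a ha x hx⟩).2
        have e : ∀ k, X k (t • z) = t • X k z := by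
          intro k
          rw [Hom46.smul_real, (hX k).hom, ← Hom46.smul_real]
        rw [e i, e j, ← smul_sub, norm_smul, Real.norm_of_nonneg ht.le, ht3] at h3
        have hp : 0 < ‖z‖ := norm_pos_iff.2 hz
        rw [div_mul_eq_mul_div, one_mul, div_le_iff₀ (by positivity)] at h3
        linarith)
  refine ⟨i, j, hij, ?_⟩
  exact iso_fin (hΦ i) (hΦ j) (hi i) (hi j) (hconn i) ((hconn j).trans hYZ)
    (fun z hz => (hZX z hz).symm) (hF i) (hF j)

/-- The maps of `CP^n`, injective, which have a lift of critical energy at most `E`. -/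
theorem finite_classes (n : ℕ) (hn : 1 ≤ n) (E : ℝ) :
    ∃ S : Set (Mat n → Mat n), S.Finite ∧
      (∀ G ∈ S, InjOn G (CP n) ∧ ∃ Φ : W n → W n, HLoc Φ ∧ energy Φ ≤ ENNReal.ofReal E ∧
        ∀ z : W n, z ≠ 0 → G (pt z) = pt (Φ z)) ∧
      ∀ F : Mat n → Mat n, InjOn F (CP n) →
        (∃ Φ : W n → W n, HLoc Φ ∧ energy Φ ≤ ENNReal.ofReal E ∧
          ∀ z : W n, z ≠ 0 → F (pt z) = pt (Φ z)) → ∃ G ∈ S, Isotopic n F G := by
  classical
  by_contra hcon
  obtain ⟨f, hf1, hf2⟩ := exists_seq_of_forall_finset_exists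
    (fun F : Mat n → Mat n => InjOn F (CP n) ∧ ∃ Φ : W n → W n, HLoc Φ ∧
      energy Φ ≤ ENNReal.ofReal E ∧ ∀ z : W n, z ≠ 0 → F (pt z) = pt (Φ z))
    (fun G F => ¬ Isotopic n F G) (by
      intro t ht
      by_contra hno
      apply hcon
      refine ⟨t, t.finite_toSet, fun G hG => ht G hG, fun F hF1 hF2 => ?_⟩
      by_contra hno2
      exact hno ⟨F, ⟨hF1, hF2⟩, fun G hG hiso => hno2 ⟨G, hG, hiso⟩⟩)
  choose hinj Φ hΦ hen hF using hf1
  have hen' : ∀ j, energy (Φ j) ≤ ENNReal.ofReal (max E 0) := fun j =>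
    (hen j).trans (ENNReal.ofReal_le_ofReal (le_max_left _ _))
  obtain ⟨i, j, hij, hiso⟩ := seq_fin n hn (le_max_right E 0) Φ hΦ
    (fun j => lift_injective (hΦ j) (hF j) (hinj j)) hen' f hF
  rcases lt_or_gt_of_ne hij with h | h
  · exact hf2 i j h hiso.symm
  · exact hf2 j i h hiso

theorem finite_classes_bound (n : ℕ) (hn : 1 ≤ n) (E : ℝ) :
    ∃ S : Set (Mat n → Mat n), S.Finite ∧ ∀ F : Mat n → Mat n, InjOn F (CP n) →
      (∃ (Φ : W n → W n) (a : W n → ℝ), HLoc Φ ∧ ConnLe Φ a ∧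
        ∫⁻ x in ball (0 : W n) 1, ENNReal.ofReal (a x) ^ (2 * n) ≤ ENNReal.ofReal E ∧
        ∀ z : W n, z ≠ 0 → F (pt z) = pt (Φ z)) → ∃ G ∈ S, Isotopic n F G := by
  obtain ⟨S, h1, -, h2⟩ := finite_classes n hn E
  refine ⟨S, h1, fun F hF => ?_⟩
  rintro ⟨Φ, a, hΦ, ha, he, hFΦ⟩
  refine h2 F hF ⟨Φ, hΦ, le_trans ?_ he, hFΦ⟩
  unfold energy
  refine lintegral_mono_ae ?_
  have h0 : ∀ᵐ x : W n ∂(volume.restrict (ball (0 : W n) 1)), x ≠ 0 := by
    refine ae_restrict_of_ae ?_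
    exact Measure.ae_ne volume (0 : W n)
  filter_upwards [h0] with x hx
  gcongr
  rw [← ofReal_norm]
  exact ENNReal.ofReal_le_ofReal (norm_conn_le hΦ ha hx)

end Pool.Agent.Lib.P28g
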