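import Pool.Agent.Lib.P28g.LiftEx
import Pool.Agent.Lib.P28g.Main

set_option autoImplicit false

/-!
# The critical energy of a diffeomorphism of `CP^n` and its properness
-/

open MeasureTheory Set Metric Filter
open scoped ContDiff Topology ENNReal

namespace Pool.Agent.Lib.P28g

open Pool.Agent.P28b04d Pool.Agent.Lib.P28c Pool.Agent.Lib.P28e

variable {n : ℕ}

/-- The critical energy of a self-map of `CP^n`: the infimum over all homogeneous lifts `Φ` and all pointwise bounds `a`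
of the norm of `(dΦ_x)⁻¹ ∘ D²Φ_x` of the integral of `a^(2n)` over the unit ball of `ℂ^(n+1)`. -/
noncomputable def critE (n : ℕ)
    (F : (Fin (n + 1) → Fin (n + 1) → ℂ) → (Fin (n + 1) → Fin (n + 1) → ℂ)) : ℝ≥0∞ :=
  ⨅ (Φ : W n → W n) (a : W n → ℝ) (_ : HLoc Φ) (_ : ConnLe Φ a)
    (_ : ∀ z : W n, z ≠ 0 → F (pt z) = pt (Φ z)),
    ∫⁻ x in ball (0 : W n) 1, ENNReal.ofReal (a x) ^ (2 * n)

theorem conn_bound {Φ : W n → W n} (h : HLoc Φ) : ∃ C : ℝ, 0 ≤ C ∧
    ∀ x : W n, x ≠ 0 → ‖conn Φ x‖ ≤ C * ‖x‖⁻¹ := by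
  have hsub : sphere (0 : W n) 1 ⊆ {0}ᶜ := fun x hx h0 => by
    rw [mem_singleton_iff] at h0
    rw [h0, mem_sphere_zero_iff_norm, norm_zero] at hx
    norm_num at hx
  have hc : ContinuousOn (conn Φ) (sphere (0 : W n) 1) := (continuousOn_conn h).mono hsub
  obtain ⟨C, hC⟩ : ∃ C, ∀ x ∈ sphere (0 : W n) 1, ‖conn Φ x‖ ≤ C :=
    IsCompact.exists_bound_of_continuousOn (f := conn Φ) (isCompact_sphere (0 : W n) 1) hc
  refine ⟨max C 0, le_max_right _ _, fun x hx => ?_⟩
  have hx0 : 0 < ‖x‖ := norm_pos_iff.2 hx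
  have hxc : ((‖x‖ : ℝ) : ℂ) ≠ 0 := by exact_mod_cast hx0.ne'
  set y : W n := ‖x‖⁻¹ • x with hy
  have hy1 : ‖y‖ = 1 := by
    rw [hy, norm_smul, norm_inv, norm_norm, inv_mul_cancel₀ hx0.ne']
  have hy0 : y ≠ 0 := by
    rw [← norm_pos_iff, hy1]
    exact one_pos
  have e : x = ((‖x‖ : ℝ) : ℂ) • y := by
    rw [← Hom46.smul_real, hy, smul_smul, mul_inv_cancel₀ hx0.ne', one_smul]
  have h1 : ‖conn Φ x‖ = ‖x‖⁻¹ * ‖conn Φ y‖ := by
    conv_lhs => rw [e]
    rw [conn_smul h hxc hy0, Complex.norm_real, norm_norm]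
  have h2 := hC y (by rw [mem_sphere_zero_iff_norm]; exact hy1)
  rw [h1, mul_comm]
  gcongr
  exact h2.trans (le_max_left _ _)

theorem energy_lt_top {Φ : W n → W n} (h : HLoc Φ) : energy Φ < ⊤ := by
  obtain ⟨C, hC, hb⟩ := conn_bound h
  set f : ℝ → ℝ := fun y => if y < 1 then (y ^ (2 * n))⁻¹ else 0 with hf
  have hint : Integrable (fun x : W n => f ‖x‖) volume := by
    rw [integrable_fun_norm_addHaar]
    have hdim : Module.finrank ℝ (W n) = 2 * n + 2 := by
      have : Module.finrank ℝ (Fin (n + 1) → ℂ) = 2 * n + 2 := by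
        rw [Module.finrank_pi_fintype]
        simp only [Complex.finrank_real_complex, Finset.sum_const, Finset.card_univ,
          Fintype.card_fin, smul_eq_mul]
        ring
      exact this
    rw [hdim]
    have h1 : IntegrableOn (fun y : ℝ => y) (Iio 1 ∩ Ioi 0) := by
      have : IntegrableOn (fun y : ℝ => y) (Icc 0 1) := continuous_id.integrableOn_Icc
      exact this.mono_set fun y hy => ⟨le_of_lt hy.2, le_of_lt hy.1⟩
    have h2 : IntegrableOn (indicator (Iio (1 : ℝ)) fun y : ℝ => y) (Ioi 0) := by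
      unfold IntegrableOn
      rw [integrable_indicator_iff measurableSet_Iio]
      unfold IntegrableOn
      rw [Measure.restrict_restrict measurableSet_Iio]
      exact h1
    refine h2.congr_fun ?_ measurableSet_Ioi
    intro y hy
    have hy' : (0 : ℝ) < y := hy
    simp only [hf, indicator, mem_Iio, smul_eq_mul]
    have e : 2 * n + 2 - 1 = 2 * n + 1 := by omega
    rw [e]
    split_ifs
    · rw [pow_succ]
      field_simp
    · rw [mul_zero]
  have h1 := hint.lintegral_lt_top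
  have h2 : energy Φ ≤ ENNReal.ofReal (C ^ (2 * n)) * ∫⁻ x : W n, ENNReal.ofReal (f ‖x‖) := by
    unfold energy
    rw [← lintegral_const_mul' _ _ ENNReal.ofReal_ne_top]
    calc ∫⁻ x in ball (0 : W n) 1, ‖conn Φ x‖ₑ ^ (2 * n)
        ≤ ∫⁻ x in ball (0 : W n) 1, ENNReal.ofReal (C ^ (2 * n)) * ENNReal.ofReal (f ‖x‖) := by
          refine lintegral_mono_ae ?_
          have h0 : ∀ᵐ x : W n ∂(volume.restrict (ball (0 : W n) 1)), x ≠ 0 := by
            refine ae_restrict_of_ae ?_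
            exact Measure.ae_ne volume (0 : W n)
          filter_upwards [h0, ae_restrict_mem measurableSet_ball] with x hx hx1
          rw [mem_ball_zero_iff] at hx1
          have hx0 : 0 < ‖x‖ := norm_pos_iff.2 hx
          rw [← ofReal_norm, ← ENNReal.ofReal_pow (norm_nonneg _), ← ENNReal.ofReal_mul (by positivity)]
          apply ENNReal.ofReal_le_ofReal
          simp only [hf, if_pos hx1]
          rw [← inv_pow, ← mul_pow]
          exact pow_le_pow_left₀ (norm_nonneg _) (hb x hx) _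
      _ ≤ _ := lintegral_mono' Measure.restrict_le_self le_rfl
  exact h2.trans_lt (ENNReal.mul_lt_top ENNReal.ofReal_lt_top h1)

theorem connLe_conn {Φ : W n → W n} (h : HLoc Φ) : ConnLe Φ fun x => ‖conn Φ x‖ := by
  intro x hx u v w hu
  have h1 := fderiv_conn h hx v w
  have h2 : fderiv ℝ Φ x (u - conn Φ x w v) = 0 := by
    rw [map_sub, hu, h1, sub_self]
  have h3 := h.inj x hx _ h2
  rw [sub_eq_zero.1 h3]
  calc ‖conn Φ x w v‖ ≤ ‖conn Φ x‖ * ‖w‖ * ‖v‖ := ContinuousLinearMap.le_opNorm₂ _ _ _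
    _ = ‖conn Φ x‖ * ‖v‖ * ‖w‖ := by ring

theorem critE_lt_top {F : Mat n → Mat n} (h : Diffh n F) : critE n F < ⊤ := by
  obtain ⟨Φ, hΦ, hF⟩ := exists_lift h
  refine lt_of_le_of_lt ?_ (energy_lt_top hΦ)
  unfold critE
  refine iInf_le_of_le Φ (iInf_le_of_le (fun x => ‖conn Φ x‖) (iInf_le_of_le hΦ
    (iInf_le_of_le (connLe_conn hΦ) (iInf_le_of_le hF ?_))))
  unfold energy
  refine lintegral_mono fun x => ?_
  rw [← ofReal_norm]

theorem exists_of_critE {F : Mat n → Mat n} {E : ℝ≥0∞} (h : critE n F < E) :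
    ∃ Φ : W n → W n, HLoc Φ ∧ energy Φ ≤ E ∧ ∀ z : W n, z ≠ 0 → F (pt z) = pt (Φ z) := by
  unfold critE at h
  simp only [iInf_lt_iff] at h
  obtain ⟨Φ, a, hΦ, ha, hF, he⟩ := h
  refine ⟨Φ, hΦ, le_trans ?_ he.le, hF⟩
  unfold energy
  refine lintegral_mono_ae ?_
  have h0 : ∀ᵐ x : W n ∂(volume.restrict (ball (0 : W n) 1)), x ≠ 0 := by
    refine ae_restrict_of_ae ?_
    exact Measure.ae_ne volume (0 : W n)
  filter_upwards [h0] with x hx
  gcongr
  rw [← ofReal_norm]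
  exact ENNReal.ofReal_le_ofReal (norm_conn_le hΦ ha hx)

/-- The critical energy is finite and proper on the isotopy classes. -/
theorem critE_proper (n : ℕ) (hn : 1 ≤ n) {E : ℝ≥0∞} (hE : E < ⊤) :
    ∃ S : Set (Mat n → Mat n), S.Finite ∧ (∀ G ∈ S, Diffh n G) ∧
      ∀ F : Mat n → Mat n, Diffh n F → critE n F ≤ E → ∃ G ∈ S, Isotopic n F G := by
  classical
  by_contra hcon
  obtain ⟨f, hf1, hf2⟩ := exists_seq_of_forall_finset_exists
    (fun F : Mat n → Mat n => Diffh n F ∧ critE n F ≤ E)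
    (fun G F => ¬ Isotopic n F G) (by
      intro t ht
      by_contra hno
      apply hcon
      refine ⟨t, t.finite_toSet, fun G hG => (ht G hG).1, fun F hF1 hF2 => ?_⟩
      by_contra hno2
      exact hno ⟨F, ⟨hF1, hF2⟩, fun G hG hiso => hno2 ⟨G, hG, hiso⟩⟩)
  have hE1 : E + 1 ≠ ⊤ := by simp [hE.ne]
  have hlift : ∀ j, ∃ Φ : W n → W n, HLoc Φ ∧ energy Φ ≤ E + 1 ∧
      ∀ z : W n, z ≠ 0 → f j (pt z) = pt (Φ z) := fun j =>
    exists_of_critE (lt_of_le_of_lt (hf1 j).2 (ENNReal.lt_add_right hE.ne one_ne_zero))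
  choose Φ hΦ hen hF using hlift
  have hen' : ∀ j, energy (Φ j) ≤ ENNReal.ofReal (E + 1).toReal := fun j => by
    rw [ENNReal.ofReal_toReal hE1]
    exact hen j
  obtain ⟨i, j, hij, hiso⟩ := seq_fin n hn ENNReal.toReal_nonneg Φ hΦ
    (fun j => lift_injective (hΦ j) (hF j) (hf1 j).1.injOn) hen' f hF
  rcases lt_or_gt_of_ne hij with h | h
  · exact hf2 i j h hiso.symm
  · exact hf2 j i h hiso

end Pool.Agent.Lib.P28g
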