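import Pool.Agent.Lib.P28g.BddG
import Pool.Agent.Lib.P28f.Ultra
import Pool.Agent.Lib.P28f.ConnBall

set_option autoImplicit false

/-!
# Two light points of the unit ball are comparable

PROOF. By contradiction and choice: for every `j : ℕ` there are `u j`, `μ j`, `y j`, `y' j` satisfying everything with `‖(u j (y j))⁻¹ u j (y' j)‖ > j`. W.l.o.g. replace `θ` by `θ' = min θ (1/4)`. Let `y∞`, `y'∞` be the limits along `ult` in the compact ball
`closedBall 0 (1/2)` (`IsCompact.ultrafilter_le_nhds` for `ult.map y`). `B = Bad c μ` is finite (`P28f.bad_finite`), `Ω = ball 0 1 \ B` is open and preconnected (`P28f.isPreconnected_ball_diff`). `y∞ ∉ B`: eventually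
`closedBall y∞ (θ'/2) ⊆ closedBall (y j) θ'`, mass `≤ c`. `bdd_g` with `x₀ = y∞`, `K = {y'∞}`: `‖(u_j y∞)⁻¹ u_j y'∞‖ ≤ C` eventually. Flatness on `closedBall y∞ (θ'/16)` and `closedBall y'∞ (θ'/16)` gives
`‖(u_j (y j))⁻¹ u_j (y' j)‖ ≤ (3/2) C (3/2)`, contradicting `> j` for large `j`.
-/

open MeasureTheory Set Metric
open scoped ContDiff Topology ENNReal

namespace Pool.Agent.Lib.P28g

open Pool.Agent.P28b04d Pool.Agent.Lib.P28e Pool.Agent.Lib.P28c
open Pool.Agent.Lib.P28f (V EV ult Bad)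

variable {n m : ℕ}

namespace CrossAux

theorem exists_lim {z : ℕ → V m} (hz : ∀ j, z j ∈ closedBall (0 : V m) (1 / 2)) :
    ∃ L ∈ closedBall (0 : V m) (1 / 2), Filter.Tendsto z (ult : Filter ℕ) (𝓝 L) := by
  have h1 : ((ult.map z : Ultrafilter (V m)) : Filter (V m)) ≤
      Filter.principal (closedBall 0 (1 / 2)) := by
    rw [Ultrafilter.coe_map, Filter.le_principal_iff, Filter.mem_map]
    exact Filter.Eventually.of_forall hz
  obtain ⟨L, hL, hL'⟩ := (isCompact_closedBall (0 : V m) (1 / 2)).ultrafilter_le_nhds _ h1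
  exact ⟨L, hL, hL'⟩

theorem norm_le_of_near {A : Type} [NormedRing A] [NormOneClass A] {a : A}
    (h : ‖a - 1‖ ≤ 1 / 2) : ‖a‖ ≤ 3 / 2 := by
  calc ‖a‖ = ‖(a - 1) + 1‖ := by rw [sub_add_cancel]
    _ ≤ ‖a - 1‖ + ‖(1 : A)‖ := norm_add_le _ _
    _ ≤ 1 / 2 + 1 := by rw [norm_one]; linarith
    _ = 3 / 2 := by norm_num

theorem lim_facts {A : Type} [NormedRing A] {c θ : ℝ} (hθ : 0 < θ) (hθ' : θ ≤ 1 / 4)
    {u : ℕ → V m → A} {μ : ℕ → Measure (V m)} (hfin : ∀ j, IsFiniteMeasure (μ j))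
    (hctrl : ∀ j, CtrlG (1 / 2) c (ball 0 1) (u j) (μ j)) {z : ℕ → V m} {L : V m}
    (hL : L ∈ closedBall (0 : V m) (1 / 2)) (hzL : Filter.Tendsto z (ult : Filter ℕ) (𝓝 L))
    (hμ : ∀ j, (μ j).real (closedBall (z j) θ) ≤ c) :
    L ∉ Bad c μ ∧ ∀ᶠ j in (ult : Filter ℕ),
      ‖Ring.inverse (u j (z j)) * u j L - 1‖ ≤ 1 / 2 ∧
      ‖Ring.inverse (u j L) * u j (z j) - 1‖ ≤ 1 / 2 := by
  have hsub : closedBall L (θ / 2) ⊆ ball (0 : V m) 1 := by
    intro x hx
    rw [mem_closedBall] at hx hL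
    rw [mem_ball]
    calc dist x 0 ≤ dist x L + dist L 0 := dist_triangle _ _ _
      _ < 1 := by linarith
  have hmass : ∀ᶠ j in (ult : Filter ℕ), (μ j).real (closedBall L (θ / 2)) ≤ c := by
    have h1 := Metric.tendsto_nhds.1 hzL (θ / 2) (by positivity)
    filter_upwards [h1] with j hj
    have := hfin j
    refine (measureReal_mono ?_).trans (hμ j)
    apply closedBall_subset_closedBall'
    rw [dist_comm] at hj
    linarith
  constructor
  · intro hB
    obtain ⟨j, hj1, hj2⟩ := (hmass.and (hB.2 (θ / 2) (by positivity))).exists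
    linarith
  · have h1 := Metric.tendsto_nhds.1 hzL (θ / 16) (by positivity)
    filter_upwards [hmass, h1] with j hj1 hj2
    have h3 := (hctrl j).flat L (θ / 2) (by positivity) hsub hj1
    have e : θ / 2 / 8 = θ / 16 := by ring
    rw [e] at h3
    have h4 : L ∈ closedBall L (θ / 16) := mem_closedBall_self (by positivity)
    have h5 : z j ∈ closedBall L (θ / 16) := hj2.le
    exact ⟨h3 _ h5 _ h4, h3 _ h4 _ h5⟩

end CrossAux

open CrossAux

theorem cross {A : Type} [NormedRing A] [NormOneClass A] [CompleteSpace A] (hm : 2 ≤ m)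
    {E c θ : ℝ} (hc : 0 < c) (hθ : 0 < θ) : ∃ Λ : ℝ, 1 ≤ Λ ∧
    ∀ (u : V m → A) (μ : Measure (V m)), IsFiniteMeasure μ → CtrlG (1 / 2) c (ball 0 1) u μ →
    μ.real (ball 0 1) ≤ E → ∀ y ∈ closedBall (0 : V m) (1 / 2), ∀ y' ∈ closedBall (0 : V m) (1 / 2),
    μ.real (closedBall y θ) ≤ c → μ.real (closedBall y' θ) ≤ c →
      ‖Ring.inverse (u y) * u y'‖ ≤ Λ := by
  by_contra hcon
  push Not at hcon
  have h1 : ∀ j : ℕ, ∃ (u : V m → A) (μ : Measure (V m)), IsFiniteMeasure μ ∧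
      CtrlG (1 / 2) c (ball 0 1) u μ ∧ μ.real (ball 0 1) ≤ E ∧
      ∃ y ∈ closedBall (0 : V m) (1 / 2), ∃ y' ∈ closedBall (0 : V m) (1 / 2),
      μ.real (closedBall y θ) ≤ c ∧ μ.real (closedBall y' θ) ≤ c ∧
      (j : ℝ) + 1 < ‖Ring.inverse (u y) * u y'‖ := by
    intro j
    obtain ⟨u, μ, h1, h2, h3, y, hy, y', hy', h4, h5, h6⟩ := hcon ((j : ℝ) + 1)
      (by have : (0 : ℝ) ≤ j := Nat.cast_nonneg j
          linarith)
    exact ⟨u, μ, h1, h2, h3, y, hy, y', hy', h4, h5, h6⟩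
  choose u μ hfin hctrl hE y hy y' hy' hμ hμ' hbig using h1
  obtain ⟨L, hL, hyL⟩ := exists_lim hy
  obtain ⟨L', hL', hyL'⟩ := exists_lim hy'
  have hθ1 : 0 < min θ (1 / 4) := lt_min hθ (by norm_num)
  have hθ2 : min θ (1 / 4) ≤ 1 / 4 := min_le_right _ _
  have hmono : ∀ (j : ℕ) (z : V m), (μ j).real (closedBall z θ) ≤ c →
      (μ j).real (closedBall z (min θ (1 / 4))) ≤ c := by
    intro j z h
    have := hfin j
    exact (measureReal_mono (closedBall_subset_closedBall (min_le_left _ _))).trans h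
  obtain ⟨hLB, hLf⟩ := lim_facts hθ1 hθ2 hfin hctrl hL hyL fun j => hmono j _ (hμ j)
  obtain ⟨hLB', hLf'⟩ := lim_facts hθ1 hθ2 hfin hctrl hL' hyL' fun j => hmono j _ (hμ' j)
  have hBfin : (Bad c μ).Finite := P28f.bad_finite hc hfin hE
  have hΩo : IsOpen (ball (0 : V m) 1 \ Bad c μ) := isOpen_ball.sdiff hBfin.isClosed
  have hin : ∀ x ∈ closedBall (0 : V m) (1 / 2), x ∈ ball (0 : V m) 1 := fun x hx =>
    closedBall_subset_ball (by norm_num) hx
  obtain ⟨C, hC, hbd⟩ := bdd_g hΩo (P28f.isPreconnected_ball_diff hm hBfin) ⟨hin L hL, hLB⟩ u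
    (Filter.Eventually.of_forall fun j x hx => (hctrl j).unit x hx.1) (by
      intro x hx
      obtain ⟨r, hr, hr1, hr2⟩ := P28f.good_cover hfin (isCompact_singleton (x := x))
        (singleton_subset_iff.2 hx.1) (Set.disjoint_singleton_left.2 hx.2)
      obtain ⟨ρ, hρ, hρΩ⟩ := nhds_basis_closedBall.mem_iff.1 (hΩo.mem_nhds hx)
      refine ⟨min (r / 8) ρ, lt_min (by positivity) hρ,
        (closedBall_subset_closedBall (min_le_right _ _)).trans hρΩ, ?_⟩
      filter_upwards [hr2] with j hj w hw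
      exact (hctrl j).flat x r hr (hr1 x rfl) (hj x rfl) x (mem_closedBall_self (by positivity)) w
        (closedBall_subset_closedBall (min_le_left _ _) hw))
    (isCompact_singleton (x := L')) (singleton_subset_iff.2 ⟨hin L' hL', hLB'⟩)
  obtain ⟨N, hN⟩ := exists_nat_gt (3 / 2 * C * (3 / 2))
  have hlarge : ∀ᶠ j in (ult : Filter ℕ), N ≤ j := by
    have h2 : {j : ℕ | N ≤ j} ∈ (Filter.cofinite : Filter ℕ) := by
      rw [Nat.cofinite_eq_atTop]
      exact Filter.eventually_ge_atTop N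
    exact Filter.hyperfilter_le_cofinite h2
  obtain ⟨j, ⟨⟨hj1, hj2⟩, hj3⟩, hj4⟩ := (((hLf.and hLf').and hbd).and hlarge).exists
  have hu1 : IsUnit (u j L) := (hctrl j).unit _ (hin L hL)
  have hu2 : IsUnit (u j L') := (hctrl j).unit _ (hin L' hL')
  have e : Ring.inverse (u j (y j)) * u j (y' j) =
      Ring.inverse (u j (y j)) * u j L * (Ring.inverse (u j L) * u j L') *
        (Ring.inverse (u j L') * u j (y' j)) := by
    calc Ring.inverse (u j (y j)) * u j (y' j)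
        = Ring.inverse (u j (y j)) * ((u j L * Ring.inverse (u j L)) *
          ((u j L' * Ring.inverse (u j L')) * u j (y' j))) := by
          rw [Ring.mul_inverse_cancel _ hu1, Ring.mul_inverse_cancel _ hu2, one_mul, one_mul]
      _ = _ := by simp only [mul_assoc]
  have h2 := norm_le_of_near hj1.1
  have h3 := norm_le_of_near hj2.2
  have h4 := (hj3 L' rfl).1
  have h5 : ‖Ring.inverse (u j (y j)) * u j (y' j)‖ ≤ 3 / 2 * C * (3 / 2) := by
    rw [e]
    refine (norm_mul_le _ _).trans (mul_le_mul ((norm_mul_le _ _).trans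
      (mul_le_mul h2 h4 (norm_nonneg _) (by norm_num))) h3 (norm_nonneg _) (by positivity))
  have h6 := hbig j
  have h7 : (N : ℝ) ≤ j := by exact_mod_cast hj4
  linarith

end Pool.Agent.Lib.P28g
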