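import Pool.Agent.Lib.P28g.Defs

set_option autoImplicit false

/-!
# Complex linear changes of coordinates

PROOF SKETCH. `fd_lower`: with `c = hip z w / nsq z` (orthogonal projection of `w` to `ℂ z`), `nsq (w - c z) = nsq w - |hip z w|² / nsq z = nsq w * fd² / 2` (the formula for `fd (pt z) (pt w) ^ 2` is in the proof of `fd_pt_le` in `P28c/Fd.lean`), `‖·‖ ≤ rad ≤ (n+1) ‖·‖`; `c ≠ 0` because `fd² < 2`.
`fd_TT`: if `fd (pt z) (pt w) < 1` use `fd_lower` and `fd_pt_le` for `T (c z)`, `T w` (`‖T w‖ ≥ ‖w‖ / 4`); otherwise `fd ≤ 2` always (`fd_triangle` through `0`, or the formula). The second inequality is the first for `T.symm` up to the scalar factor `4` (`pt` does not change).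
`ctrlW_right`: the measure of `PB (pt z) s` under `ν.map T.symm` is the `ν`-measure of `{w | fd (pt (T.symm w)) (pt z) < s} ⊇ PB (pt (T z)) (s / C₀) \ {0}`; for `w = 0` use `fd (pt 0) (pt z') = 1 ≥ s`. `fderiv (Ψ ∘ T) x = fderiv Ψ (T x) ∘ T` (`x ≠ 0`), so `(·)⁻¹ (·) - 1` is conjugated by `T`: factor
`‖T.symm‖ ‖T‖ ≤ 4`. `closedBall z ((κ / C) s ‖z‖)` is mapped into `closedBall (T z) (κ (s / C₀) ‖T z‖)` if `C = 4 C₀` (`‖z‖ ≤ 4 ‖T z‖`). `ctrlW_left`: the factor `B` cancels. `exists_TT` is `GoodAllAux.exists_T`.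
-/

open MeasureTheory Set Metric
open scoped ContDiff Topology ENNReal

namespace Pool.Agent.Lib.P28g

open Pool.Agent.P28b04d Pool.Agent.Lib.P28e Pool.Agent.Lib.P28c
open Pool.Agent.Lib.P28f (V EV)

variable {n m : ℕ}

namespace TTAux

theorem hip_smul_left (c : ℂ) (z w : W n) : hip (c • z) w = (starRingEnd ℂ) c * hip z w := by
  unfold hip
  rw [Finset.mul_sum]
  refine Finset.sum_congr rfl fun k _ => ?_
  rw [Pi.smul_apply, smul_eq_mul, star_mul']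
  have : star c = (starRingEnd ℂ) c := rfl
  rw [this]
  ring

theorem nsq_proj {z w : W n} (hz : z ≠ 0) (hw : w ≠ 0) :
    nsq (w - (hip z w / (nsq z : ℂ)) • z) = nsq w * (fd (pt z) (pt w) ^ 2 / 2) := by
  have hN := nsq_pos hz
  have hM := nsq_pos hw
  rw [FdAux.fd_pt_sq hz hw, FdAux.nsq_sub, hip_smul_left, Pool.Agent.P28b04d.nsq_smul]
  have h1 : (starRingEnd ℂ) (hip z w / (nsq z : ℂ)) * hip z w =
      ((Complex.normSq (hip z w) / nsq z : ℝ) : ℂ) := by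
    rw [map_div₀, Complex.conj_ofReal]
    push_cast
    rw [Complex.normSq_eq_conj_mul_self]
    ring
  rw [h1, Complex.ofReal_re, Complex.normSq_div, Complex.normSq_ofReal]
  field_simp
  ring

theorem fd_le_two {z w : W n} (hz : z ≠ 0) (hw : w ≠ 0) : fd (pt z) (pt w) ≤ 2 := by
  have hN := nsq_pos hz
  have hM := nsq_pos hw
  have h := FdAux.fd_pt_sq hz hw
  have h1 : 0 ≤ Complex.normSq (hip z w) / (nsq z * nsq w) :=
    div_nonneg (Complex.normSq_nonneg _) (by positivity)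
  have h2 := fd_nonneg (pt z) (pt w)
  nlinarith

end TTAux

open TTAux

theorem fd_lower {z w : W n} (hz : z ≠ 0) (hw : w ≠ 0) (h : fd (pt z) (pt w) < 1) :
    ∃ c : ℂ, c ≠ 0 ∧ ‖c • z - w‖ ≤ ((n : ℝ) + 1) * fd (pt z) (pt w) * ‖w‖ := by
  have hN := nsq_pos hz
  have hM := nsq_pos hw
  have hf := fd_nonneg (pt z) (pt w)
  refine ⟨hip z w / (nsq z : ℂ), ?_, ?_⟩
  · intro hc
    have h1 : hip z w = 0 := by
      rcases div_eq_zero_iff.1 hc with h1 | h1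
      · exact h1
      · exact absurd h1 (by exact_mod_cast hN.ne')
    have h2 := FdAux.fd_pt_sq hz hw
    rw [h1, map_zero, zero_div] at h2
    nlinarith
  · set c : ℂ := hip z w / (nsq z : ℂ) with hc
    have h1 : rad (c • z - w) ≤ fd (pt z) (pt w) * rad w := by
      have h2 : rad (c • z - w) ^ 2 ≤ (fd (pt z) (pt w) * rad w) ^ 2 := by
        rw [mul_pow, FdAux.rad_sq, FdAux.rad_sq]
        have h3 : nsq (c • z - w) = nsq (w - c • z) := by
          rw [← neg_sub]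
          unfold nsq
          refine Finset.sum_congr rfl fun k _ => ?_
          rw [Pi.neg_apply, Complex.normSq_neg]
        rw [h3, hc, nsq_proj hz hw]
        have : 0 ≤ nsq w * fd (pt z) (pt w) ^ 2 := by positivity
        linarith
      have h4 : 0 ≤ rad w := Real.sqrt_nonneg _
      exact le_of_sq_le_sq h2 (by positivity)
    calc ‖c • z - w‖ ≤ rad (c • z - w) := norm_le_rad _
      _ ≤ fd (pt z) (pt w) * rad w := h1
      _ ≤ fd (pt z) (pt w) * (((n : ℝ) + 1) * ‖w‖) := mul_le_mul_of_nonneg_left (rad_le w) hf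
      _ = ((n : ℝ) + 1) * fd (pt z) (pt w) * ‖w‖ := by ring

namespace TTAux

theorem fd_lin {T : W n ≃L[ℝ] W n} {a b : ℝ} (ha0 : 0 ≤ a)
    (ha : ∀ x, ‖T x‖ ≤ a * ‖x‖) (hb : ∀ x, ‖x‖ ≤ b * ‖T x‖) (hT : ∀ (c : ℂ) (x : W n), T (c • x) = c • T x)
    (hab : a * b ≤ 4) {z w : W n} (hz : z ≠ 0) (hw : w ≠ 0) :
    fd (pt (T z)) (pt (T w)) ≤ 8 * ((n : ℝ) + 1) ^ 2 * fd (pt z) (pt w) := by
  have hTz : T z ≠ 0 := fun h0 => hz (T.injective (by rw [h0, map_zero]))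
  have hTw : T w ≠ 0 := fun h0 => hw (T.injective (by rw [h0, map_zero]))
  have hf := fd_nonneg (pt z) (pt w)
  have hn : (1 : ℝ) ≤ ((n : ℝ) + 1) ^ 2 := by
    have : (0 : ℝ) ≤ n := Nat.cast_nonneg n
    nlinarith
  rcases lt_or_ge (fd (pt z) (pt w)) 1 with h | h
  · obtain ⟨c, hc, h1⟩ := fd_lower hz hw h
    have e : pt (T z) = pt (T (c • z)) := by rw [hT, pt_smul hc]
    have hcz : T (c • z) ≠ 0 := by
      rw [hT]
      exact smul_ne_zero hc hTz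
    rw [e]
    have hTw0 : 0 < ‖T w‖ := norm_pos_iff.2 hTw
    refine (fd_pt_le hcz hTw).trans ?_
    rw [div_le_iff₀ hTw0, ← map_sub]
    have h2 : ‖T (c • z - w)‖ ≤ a * (((n : ℝ) + 1) * fd (pt z) (pt w) * (b * ‖T w‖)) := by
      refine (ha _).trans (mul_le_mul_of_nonneg_left (h1.trans ?_) ha0)
      exact mul_le_mul_of_nonneg_left (hb w) (by positivity)
    calc 2 * ((n : ℝ) + 1) * ‖T (c • z - w)‖
        ≤ 2 * ((n : ℝ) + 1) * (a * (((n : ℝ) + 1) * fd (pt z) (pt w) * (b * ‖T w‖))) :=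
          mul_le_mul_of_nonneg_left h2 (by positivity)
      _ = (a * b) * (2 * ((n : ℝ) + 1) ^ 2 * fd (pt z) (pt w) * ‖T w‖) := by ring
      _ ≤ 4 * (2 * ((n : ℝ) + 1) ^ 2 * fd (pt z) (pt w) * ‖T w‖) :=
          mul_le_mul_of_nonneg_right hab (by positivity)
      _ = 8 * ((n : ℝ) + 1) ^ 2 * fd (pt z) (pt w) * ‖T w‖ := by ring
  · refine (fd_le_two hTz hTw).trans ?_
    nlinarith

theorem TT.ne {T : W n ≃L[ℝ] W n} {x : W n} (hx : x ≠ 0) : T x ≠ 0 :=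
  fun h0 => hx (T.injective (by rw [h0, map_zero]))

theorem le_four {T : W n ≃L[ℝ] W n} (h : TT T) (x : W n) : ‖x‖ ≤ 4 * ‖T x‖ := by
  have := h.symm_le (T x)
  rwa [T.symm_apply_apply] at this

theorem symm_hom {T : W n ≃L[ℝ] W n} (hT : ∀ (c : ℂ) (x : W n), T (c • x) = c • T x) (c : ℂ)
    (x : W n) : T.symm (c • x) = c • T.symm x := by
  apply T.injective
  rw [T.apply_symm_apply, hT, T.apply_symm_apply]

end TTAux

theorem fd_TT (n : ℕ) : ∃ C : ℝ, 1 ≤ C ∧ ∀ T : W n ≃L[ℝ] W n, TT T → ∀ z w : W n, z ≠ 0 → w ≠ 0 →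
    fd (pt (T z)) (pt (T w)) ≤ C * fd (pt z) (pt w) ∧
      fd (pt z) (pt w) ≤ C * fd (pt (T z)) (pt (T w)) := by
  have hn : (1 : ℝ) ≤ ((n : ℝ) + 1) ^ 2 := by
    have : (0 : ℝ) ≤ n := Nat.cast_nonneg n
    nlinarith
  refine ⟨8 * ((n : ℝ) + 1) ^ 2, by linarith, fun T hT z w hz hw => ⟨?_, ?_⟩⟩
  · exact fd_lin (a := 1) (b := 4) zero_le_one (fun x => by rw [one_mul]; exact hT.le x)
      (le_four hT) hT.hom (by norm_num) hz hw
  · have h := fd_lin (T := T.symm) (a := 4) (b := 1) (by norm_num) hT.symm_le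
      (fun x => by
        have := hT.le (T.symm x)
        rw [T.apply_symm_apply] at this
        rwa [one_mul]) (symm_hom hT.hom) (by norm_num) (z := T z) (w := T w) (TT.ne hz) (TT.ne hw)
    rwa [T.symm_apply_apply, T.symm_apply_apply] at h

theorem exists_TT {z' : W n} (hz' : ‖z'‖ = 1 / 2) : ∃ T : W n ≃L[ℝ] W n, TT T ∧ T (e0 n) = z' := by
  obtain ⟨T, h1, h2, h3, h4⟩ := GoodAllAux.exists_T hz'
  exact ⟨T, ⟨h1, h3, h4⟩, h2⟩

theorem hloc_right {Ψ : W n → W n} (h : HLoc Ψ) (T : W n ≃L[ℝ] W n)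
    (hT : ∀ (c : ℂ) (x : W n), T (c • x) = c • T x) : HLoc fun x => Ψ (T x) :=
  HLoc.comp h (GoodAllAux.hloc_T T hT)

theorem hloc_left {Ψ : W n → W n} (h : HLoc Ψ) (B : W n ≃L[ℝ] W n)
    (hB : ∀ (c : ℂ) (x : W n), B (c • x) = c • B x) : HLoc fun x => B (Ψ x) :=
  HLoc.comp (GoodAllAux.hloc_T B hB) h

theorem fderiv_right {Ψ : W n → W n} (h : HLoc Ψ) (T : W n ≃L[ℝ] W n)
    {x : W n} (hx : x ≠ 0) : (fderiv ℝ (fun x => Ψ (T x)) x : EndW n) =
      (fderiv ℝ Ψ (T x) : EndW n) * (T : EndW n) :=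
  GoodAllAux.fderiv_comp_T h T hx

theorem fderiv_left {Ψ : W n → W n} (h : HLoc Ψ) (B : W n ≃L[ℝ] W n)
    {x : W n} (hx : x ≠ 0) : (fderiv ℝ (fun x => B (Ψ x)) x : EndW n) =
      (B : EndW n) * fderiv ℝ Ψ x := by
  have h1 : HasFDerivAt Ψ (fderiv ℝ Ψ x) x := Hom46.hasFDerivAt h hx
  have h2 : HasFDerivAt (fun x => B (Ψ x)) ((B : W n →L[ℝ] W n).comp (fderiv ℝ Ψ x)) x :=
    B.hasFDerivAt.comp x h1
  rw [h2.fderiv]
  rfl

namespace TTAux

theorem ne_of_near {z x : W n} (hz : z ≠ 0) {t : ℝ} (ht : t < 1)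
    (hx : x ∈ closedBall z (t * ‖z‖)) : x ≠ 0 := by
  rintro rfl
  rw [mem_closedBall, dist_eq_norm, zero_sub, norm_neg] at hx
  have := norm_pos_iff.2 hz
  nlinarith

theorem fd_zero_pt {z : W n} (hz : z ≠ 0) : fd (pt (0 : W n)) (pt z) = 1 := by
  have h : fd (pt (0 : W n)) (pt z) ^ 2 = 1 := by
    rw [FdAux.fd_sq, ← FdAux.sum_normSq_pt hz]
    refine Finset.sum_congr rfl fun i _ => Finset.sum_congr rfl fun j _ => ?_
    have : pt (0 : W n) i j = 0 := by simp [pt]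
    rw [this, zero_sub, Complex.normSq_neg]
  have h0 := fd_nonneg (pt (0 : W n)) (pt z)
  nlinarith

end TTAux

theorem ctrlW_right (n : ℕ) : ∃ C : ℝ, 1 ≤ C ∧ ∀ T : W n ≃L[ℝ] W n, TT T →
    ∀ (κ δ c : ℝ) (Ψ : W n → W n) (ν : Measure (W n)), IsFiniteMeasure ν → 0 ≤ κ → κ ≤ 1 / 8 →
    CtrlW κ δ c Ψ ν → CtrlW (κ / C) (4 * δ) c (fun x => Ψ (T x)) (ν.map T.symm) := by
  obtain ⟨C₀, hC1, hC⟩ := fd_TT n
  refine ⟨4 * C₀, by linarith, ?_⟩
  intro T hT κ δ c Ψ ν hν hκ0 hκ h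
  refine ⟨hloc_right h.hloc T hT.hom, ?_⟩
  intro z hz s hs0 hs1 hm
  have hTz : T z ≠ 0 := TT.ne hz
  have hC0 : 0 < C₀ := by linarith
  have hs0' : 0 < s / C₀ := by positivity
  have hs1' : s / C₀ ≤ s := div_le_self hs0.le hC1
  -- the mass
  have hmass : ν.real (PB (pt (T z)) (s / C₀)) ≤ c := by
    refine le_trans ?_ hm
    rw [map_measureReal_apply T.symm.continuous.measurable (measurableSet_PB _ _)]
    refine measureReal_mono ?_ (measure_ne_top _ _)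
    intro w hw
    have hw' : fd (pt w) (pt (T z)) < s / C₀ := hw
    rcases eq_or_ne w 0 with rfl | hw0
    · rw [fd_zero_pt hTz] at hw'
      linarith
    · show fd (pt (T.symm w)) (pt z) < s
      have hw1 : T.symm w ≠ 0 := TT.ne (T := T.symm) hw0
      have h1 := (hC T hT (T.symm w) z hw1 hz).2
      rw [T.apply_symm_apply] at h1
      calc fd (pt (T.symm w)) (pt z) ≤ C₀ * fd (pt w) (pt (T z)) := h1
        _ < C₀ * (s / C₀) := mul_lt_mul_of_pos_left hw' hC0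
        _ = s := by field_simp
  have hflat := h.flat (T z) hTz (s / C₀) hs0' (hs1'.trans hs1) hmass
  have hz0 : 0 < ‖z‖ := norm_pos_iff.2 hz
  have hk : κ / (4 * C₀) * s < 1 := by
    have h1 : κ / (4 * C₀) ≤ κ := div_le_self hκ0 (by linarith)
    have h2 : κ / (4 * C₀) * s ≤ κ * 1 := mul_le_mul h1 hs1 hs0.le hκ0
    linarith
  have hmem : ∀ x ∈ closedBall z (κ / (4 * C₀) * s * ‖z‖),
      T x ∈ closedBall (T z) (κ * (s / C₀) * ‖T z‖) := by
    intro x hx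
    rw [mem_closedBall, dist_eq_norm] at hx ⊢
    rw [← map_sub]
    refine (hT.le _).trans (hx.trans ?_)
    have h1 := le_four hT z
    calc κ / (4 * C₀) * s * ‖z‖ ≤ κ / (4 * C₀) * s * (4 * ‖T z‖) :=
          mul_le_mul_of_nonneg_left h1 (by positivity)
      _ = κ * (s / C₀) * ‖T z‖ := by field_simp
  intro x hx y hy
  have hx0 := ne_of_near hz hk hx
  have hy0 := ne_of_near hz hk hy
  obtain ⟨A, hA⟩ := isUnit_fderiv h.hloc (TT.ne (T := T) hx0)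
  have hf := hflat (T x) (hmem x hx) (T y) (hmem y hy)
  rw [← hA, Ring.inverse_unit] at hf
  rw [fderiv_right h.hloc T hx0, fderiv_right h.hloc T hy0]
  have e1 : (fderiv ℝ Ψ (T x) : EndW n) * (T : EndW n) =
      ((A * T.toUnit : (EndW n)ˣ) : EndW n) := by
    rw [← hA]; rfl
  have e2 : ((T.toUnit⁻¹ : (EndW n)ˣ) : EndW n) = (T.symm : EndW n) := rfl
  have e3 : (T.symm : EndW n) * (T : EndW n) = 1 := by
    ext v
    simp
  rw [e1, Ring.inverse_unit, mul_inv_rev, Units.val_mul, e2]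
  have e4 : (T.symm : EndW n) * ((A⁻¹ : (EndW n)ˣ) : EndW n) *
      ((fderiv ℝ Ψ (T y) : EndW n) * (T : EndW n)) - 1 =
      (T.symm : EndW n) * (((A⁻¹ : (EndW n)ˣ) : EndW n) * (fderiv ℝ Ψ (T y) : EndW n) - 1) *
        (T : EndW n) := by
    rw [mul_sub, sub_mul, mul_one, e3]
    simp only [mul_assoc]
  rw [e4]
  have n1 := GoodAllAux.norm_T_le hT.le
  have n2 := GoodAllAux.norm_Tsymm_le hT.symm_le
  calc ‖(T.symm : EndW n) * (((A⁻¹ : (EndW n)ˣ) : EndW n) * (fderiv ℝ Ψ (T y) : EndW n) - 1) *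
        (T : EndW n)‖ ≤ ‖(T.symm : EndW n) * (((A⁻¹ : (EndW n)ˣ) : EndW n) *
          (fderiv ℝ Ψ (T y) : EndW n) - 1)‖ * ‖(T : EndW n)‖ := norm_mul_le _ _
    _ ≤ ‖(T.symm : EndW n) * (((A⁻¹ : (EndW n)ˣ) : EndW n) *
          (fderiv ℝ Ψ (T y) : EndW n) - 1)‖ * 1 :=
        mul_le_mul_of_nonneg_left n1 (norm_nonneg _)
    _ = ‖(T.symm : EndW n) * (((A⁻¹ : (EndW n)ˣ) : EndW n) *
          (fderiv ℝ Ψ (T y) : EndW n) - 1)‖ := mul_one _
    _ ≤ ‖(T.symm : EndW n)‖ * ‖((A⁻¹ : (EndW n)ˣ) : EndW n) *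
          (fderiv ℝ Ψ (T y) : EndW n) - 1‖ := norm_mul_le _ _
    _ ≤ 4 * δ := mul_le_mul n2 hf (norm_nonneg _) (by norm_num)

theorem ctrlW_left {κ δ c : ℝ} (hκ0 : 0 ≤ κ) (hκ : κ ≤ 1 / 8) {Ψ : W n → W n} {ν : Measure (W n)}
    (h : CtrlW κ δ c Ψ ν) (B : W n ≃L[ℝ] W n) (hB : ∀ (c : ℂ) (x : W n), B (c • x) = c • B x) :
    CtrlW κ δ c (fun x => B (Ψ x)) ν := by
  refine ⟨hloc_left h.hloc B hB, ?_⟩
  intro z hz s hs0 hs1 hm x hx y hy
  have hk : κ * s < 1 := by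
    have h2 : κ * s ≤ κ * 1 := mul_le_mul_of_nonneg_left hs1 hκ0
    linarith
  have hx0 := ne_of_near hz hk hx
  have hy0 := ne_of_near hz hk hy
  obtain ⟨A, hA⟩ := isUnit_fderiv h.hloc hx0
  have hf := h.flat z hz s hs0 hs1 hm x hx y hy
  rw [← hA, Ring.inverse_unit] at hf
  rw [fderiv_left h.hloc B hx0, fderiv_left h.hloc B hy0]
  have e1 : (B : EndW n) * (fderiv ℝ Ψ x : EndW n) =
      ((B.toUnit * A : (EndW n)ˣ) : EndW n) := by
    rw [← hA]; rfl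
  have e2 : ((B.toUnit⁻¹ : (EndW n)ˣ) : EndW n) = (B.symm : EndW n) := rfl
  have e3 : (B.symm : EndW n) * (B : EndW n) = 1 := by
    ext v
    simp
  rw [e1, Ring.inverse_unit, mul_inv_rev, Units.val_mul, e2]
  have e4 : ((A⁻¹ : (EndW n)ˣ) : EndW n) * (B.symm : EndW n) * ((B : EndW n) * fderiv ℝ Ψ y) =
      ((A⁻¹ : (EndW n)ˣ) : EndW n) * fderiv ℝ Ψ y := by
    rw [mul_assoc, ← mul_assoc (B.symm : EndW n), e3, one_mul]
  rw [e4]
  exact hf

end Pool.Agent.Lib.P28g
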