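import Pool.Agent.Lib.P28g.ChartApi
import Pool.Agent.Lib.P28g.TTmap
import Pool.Agent.Lib.P28c.CutF

set_option autoImplicit false

/-!
# A cut-off function which vanishes near the concentration points

PROOF SKETCH. `b : ContDiffBump (0 : V (n * 2))` with radii `s/8`, `s/4` (as `cut` in `P28f/Defs.lean`). For `a ∈ A` let `β a z = b (cc ((T a).symm z))` if `((T a).symm z) 0 ≠ 0`, else `0`. It is smooth off `0`: where the coordinate `0` of `y = (T a).symm z` is not zero by `contDiffAt_cc`; near a `z ≠ 0` with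
`y 0 = 0` it vanishes identically (`‖y'‖ / |y_0| → ∞`: `‖cc y'‖ ≥ ‖kap (cc y')‖ / 2`, and `‖y'‖ ≥ ‖y‖ / 2` nearby while `|y' 0|` is small, so `‖cc‖ > s/4`). Homogeneous (`cc_smul`). `χ = 1 - ∑ a ∈ A, β a z`; the supports are disjoint (`hdis`: if `β a z ≠ 0` then `z` is a multiple of `T a (sl n x)` with
`‖x‖ < s/4`, so at most one `β a z` is not zero), hence `0 ≤ χ ≤ 1`. The bound `L`: `‖fderiv χ z‖ * ‖z‖` is invariant under real positive scaling and bounded on the unit sphere (as in `P28c/CutF.lean`, `exists_cut`).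
-/

open MeasureTheory Set Metric
open scoped ContDiff Topology ENNReal

namespace Pool.Agent.Lib.P28g

open Pool.Agent.P28b04d Pool.Agent.Lib.P28e Pool.Agent.Lib.P28c
open Pool.Agent.Lib.P28f (V EV)

variable {n m : ℕ}

namespace CutChartAux

/-- the bump function in the affine chart, extended by zero -/
noncomputable def gb (b : ContDiffBump (0 : V (n * 2))) (y : W n) : ℝ :=
  if y 0 = 0 then 0 else b (cc y)

theorem gb_smul (b : ContDiffBump (0 : V (n * 2))) {c : ℂ} (hc : c ≠ 0) (y : W n) :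
    gb b (c • y) = gb b y := by
  unfold gb
  rw [cc_smul hc, Pi.smul_apply, smul_eq_mul]
  by_cases h : y 0 = 0
  · rw [if_pos h, if_pos (by rw [h, mul_zero])]
  · rw [if_neg h, if_neg (mul_ne_zero hc h)]

theorem gb_nonneg (b : ContDiffBump (0 : V (n * 2))) (y : W n) : 0 ≤ gb b y := by
  unfold gb
  split_ifs
  · exact le_rfl
  · exact b.nonneg

theorem gb_le_one (b : ContDiffBump (0 : V (n * 2))) (y : W n) : gb b y ≤ 1 := by
  unfold gb
  split_ifs
  · exact zero_le_one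
  · exact b.le_one

theorem gb_ne (b : ContDiffBump (0 : V (n * 2))) {y : W n} (h : gb b y ≠ 0) :
    y 0 ≠ 0 ∧ ‖cc y‖ < b.rOut := by
  unfold gb at h
  split_ifs at h with h0
  · exact absurd rfl h
  · refine ⟨h0, ?_⟩
    by_contra hcon
    push Not at hcon
    exact h (b.zero_of_le_dist (by rw [dist_zero_right]; exact hcon))

theorem gb_smooth (b : ContDiffBump (0 : V (n * 2))) {y : W n} (hy : y ≠ 0) :
    ContDiffAt ℝ ∞ (gb b) y := by
  by_cases h : y 0 = 0
  · obtain ⟨K, hK⟩ : ∃ K : ℝ, K = max 1 (2 * b.rOut) := ⟨_, rfl⟩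
    have hU : IsOpen {y' : W n | K * ‖y' 0‖ < ‖y'‖} :=
      isOpen_lt (continuous_const.mul (continuous_apply 0).norm) continuous_norm
    have hmem : y ∈ {y' : W n | K * ‖y' 0‖ < ‖y'‖} := by
      rw [mem_setOf_eq, h, norm_zero, mul_zero]
      exact norm_pos_iff.2 hy
    have hev : gb b =ᶠ[nhds y] fun _ => (0 : ℝ) := by
      filter_upwards [hU.mem_nhds hmem] with y' hy'
      by_contra hne
      obtain ⟨h0, h1⟩ := gb_ne b hne
      have h2 := norm_le_of_cc h0
      have h3 : max 1 (2 * ‖cc y'‖) ≤ K := by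
        rw [hK]
        exact max_le_max le_rfl (by linarith)
      have h4 : max 1 (2 * ‖cc y'‖) * ‖y' 0‖ ≤ K * ‖y' 0‖ :=
        mul_le_mul_of_nonneg_right h3 (norm_nonneg _)
      have h5 : K * ‖y' 0‖ < ‖y'‖ := hy'
      linarith
    exact contDiffAt_const.congr_of_eventuallyEq hev
  · have hU : IsOpen {y' : W n | y' 0 ≠ 0} := isOpen_ne_fun (continuous_apply 0) continuous_const
    have hev : gb b =ᶠ[nhds y] fun y' => b (cc y') := by
      filter_upwards [hU.mem_nhds h] with y' hy'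
      unfold gb
      rw [if_neg hy']
    exact (b.contDiffAt.comp y (contDiffAt_cc h)).congr_of_eventuallyEq hev

theorem symm_hom {T : W n ≃L[ℝ] W n} (hT : TT T) (c : ℂ) (z : W n) :
    T.symm (c • z) = c • T.symm z := by
  apply T.injective
  rw [T.apply_symm_apply, hT.hom, T.apply_symm_apply]

theorem pt_of_ne (b : ContDiffBump (0 : V (n * 2))) {T : W n ≃L[ℝ] W n} (hT : TT T) {z : W n}
    (h : gb b (T.symm z) ≠ 0) : ∃ x : V (n * 2), ‖x‖ < b.rOut ∧ pt z = pt (T (sl n x)) := by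
  obtain ⟨h0, h1⟩ := gb_ne b h
  refine ⟨cc (T.symm z), h1, ?_⟩
  have e : z = T.symm z 0 • T (sl n (cc (T.symm z))) := by
    rw [← hT.hom, smul_sl_cc h0, T.apply_symm_apply]
  conv_lhs => rw [e]
  exact pt_smul h0 _

end CutChartAux

open CutChartAux

theorem cut_chart (A : Finset (W n)) (T : W n → W n ≃L[ℝ] W n) (hT : ∀ a, TT (T a)) {s : ℝ}
    (hs : 0 < s) (hdis : ∀ a ∈ A, ∀ b ∈ A, a ≠ b → ∀ x y : V (n * 2), ‖x‖ < s → ‖y‖ < s →
      pt (T a (sl n x)) ≠ pt (T b (sl n y))) :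
    ∃ (χ : W n → ℝ) (L : ℝ), 0 ≤ L ∧ Cut χ L ∧
      (∀ a ∈ A, ∀ x : V (n * 2), ‖x‖ ≤ s / 8 → χ (T a (sl n x)) = 0) ∧
      ∀ z : W n, z ≠ 0 → (∀ a ∈ A, ∀ x : V (n * 2), ‖x‖ < s / 4 → pt z ≠ pt (T a (sl n x))) →
        χ z = 1 := by
  obtain ⟨b, hb1, hb2⟩ : ∃ b : ContDiffBump (0 : V (n * 2)), b.rIn = s / 8 ∧ b.rOut = s / 4 :=
    ⟨⟨s / 8, s / 4, by positivity, by linarith⟩, rfl, rfl⟩
  -- at most one summand is not zero
  have hone : ∀ z : W n, ∀ a ∈ A, ∀ a' ∈ A, a' ≠ a → gb b ((T a).symm z) ≠ 0 →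
      gb b ((T a').symm z) = 0 := by
    intro z a ha a' ha' hne h
    by_contra h'
    obtain ⟨x, hx, e⟩ := pt_of_ne b (hT a) h
    obtain ⟨y, hy, e'⟩ := pt_of_ne b (hT a') h'
    rw [hb2] at hx hy
    exact hdis a' ha' a ha hne y x (by linarith) (by linarith) (e'.symm.trans e)
  have hsum : ∀ z : W n, ∀ a ∈ A, gb b ((T a).symm z) ≠ 0 →
      ∑ a ∈ A, gb b ((T a).symm z) = gb b ((T a).symm z) := by
    intro z a ha h
    exact Finset.sum_eq_single_of_mem a ha fun a' ha' hne => hone z a ha a' ha' hne h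
  have hle : ∀ z : W n, ∑ a ∈ A, gb b ((T a).symm z) ≤ 1 := by
    intro z
    by_cases h : ∃ a ∈ A, gb b ((T a).symm z) ≠ 0
    · obtain ⟨a, ha, h⟩ := h
      rw [hsum z a ha h]
      exact gb_le_one b _
    · push Not at h
      rw [Finset.sum_eq_zero h]
      exact zero_le_one
  have hsm : ContDiffOn ℝ ∞ (fun z : W n => 1 - ∑ a ∈ A, gb b ((T a).symm z)) {0}ᶜ := by
    refine contDiffOn_const.sub (ContDiffOn.sum fun a _ => ?_)
    intro z hz
    have hz0 : z ≠ 0 := hz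
    have h1 : (T a).symm z ≠ 0 := fun h => hz0 ((T a).symm.injective (by rw [h, map_zero]))
    exact ((gb_smooth b h1).comp z (T a).symm.contDiff.contDiffAt).contDiffWithinAt
  have hhom : ∀ (c : ℂ) (z : W n), c ≠ 0 →
      1 - ∑ a ∈ A, gb b ((T a).symm (c • z)) = 1 - ∑ a ∈ A, gb b ((T a).symm z) := by
    intro c z hc
    congr 1
    exact Finset.sum_congr rfl fun a _ => by rw [symm_hom (hT a), gb_smul b hc]
  obtain ⟨L, hL0, hL⟩ := CutFAux.der_bound _ hsm hhom
  refine ⟨fun z => 1 - ∑ a ∈ A, gb b ((T a).symm z), L, hL0, ⟨hsm, hhom, ?_, ?_, hL⟩, ?_, ?_⟩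
  · intro z
    have := hle z
    show 0 ≤ 1 - ∑ a ∈ A, gb b ((T a).symm z)
    linarith
  · intro z
    have h : 0 ≤ ∑ a ∈ A, gb b ((T a).symm z) := Finset.sum_nonneg fun a _ => gb_nonneg b _
    show 1 - ∑ a ∈ A, gb b ((T a).symm z) ≤ 1
    linarith
  · intro a ha x hx
    have h1 : gb b ((T a).symm (T a (sl n x))) = 1 := by
      rw [(T a).symm_apply_apply]
      unfold gb
      rw [sl_apply_zero, if_neg one_ne_zero, cc_sl]
      exact b.one_of_mem_closedBall (by rw [mem_closedBall, dist_zero_right, hb1]; exact hx)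
    show 1 - ∑ a' ∈ A, gb b ((T a').symm (T a (sl n x))) = 0
    rw [hsum _ a ha (by rw [h1]; exact one_ne_zero), h1, sub_self]
  · intro z _ h
    have h1 : ∀ a ∈ A, gb b ((T a).symm z) = 0 := by
      intro a ha
      by_contra hne
      obtain ⟨x, hx, e⟩ := pt_of_ne b (hT a) hne
      rw [hb2] at hx
      exact h a ha x hx e
    show 1 - ∑ a ∈ A, gb b ((T a).symm z) = 1
    rw [Finset.sum_eq_zero h1, sub_zero]

end Pool.Agent.Lib.P28g
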