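import Pool.Agent.Lib.P28c.TopC
import Pool.Agent.Lib.P28c.Fd
import Pool.Agent.Lib.P28f.EDefs

set_option autoImplicit false

/-!
# Critical finiteness on `CP^n`: definitions

`W n = ℂ^(n+1)`, `V m = ℝ^m` (maximum norms). `sl n x = (1, x)` is the affine slice, `cc z` the affine coordinate
of `z` in `V (n * 2)`, `uu Φ x = dΦ_(sl n x)`. `enW Φ` is the energy measure of a lift, `chm ν` the push-forward of a
measure on `W n` to the affine chart. `FlatU δ S u`: the function `u` (with values in the units of a normed ring) is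
multiplicatively constant up to `δ` on `S`.
-/

open MeasureTheory Set Metric
open scoped ContDiff Topology ENNReal

namespace Pool.Agent.Lib.P28g

open Pool.Agent.P28b04d Pool.Agent.Lib.P28e Pool.Agent.Lib.P28c
open Pool.Agent.Lib.P28f (V EV)

variable {n m : ℕ}

/-- `u` is multiplicatively constant up to `δ` on `S`. -/
def FlatU {X A : Type} [NormedRing A] (δ : ℝ) (S : Set X) (u : X → A) : Prop :=
  ∀ x ∈ S, ∀ y ∈ S, ‖Ring.inverse (u x) * u y - 1‖ ≤ δ

/-- `u` is flat on `B(z, r/8)` whenever the ball `B(z, r) ⊆ U` has mass at most `c`. -/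
structure CtrlG {A : Type} [NormedRing A] (δ c : ℝ) (U : Set (V m)) (u : V m → A)
    (μ : Measure (V m)) : Prop where
  unit : ∀ x ∈ U, IsUnit (u x)
  flat : ∀ (z : V m) (r : ℝ), 0 < r → closedBall z r ⊆ U → μ.real (closedBall z r) ≤ c →
    FlatU δ (closedBall z (r / 8)) u

/-- The energy measure of a lift. -/
noncomputable def enW (Φ : W n → W n) : Measure (W n) :=
  (volume.restrict (ball 0 1)).withDensity fun x => ‖conn Φ x‖ₑ ^ (2 * n)

/-- A lift which is flat on `B(z, κ s |z|)` whenever the ball of radius `s` about the point `[z]` of `CP^n` has mass at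
most `c`. -/
structure CtrlW (κ δ c : ℝ) (Ψ : W n → W n) (ν : Measure (W n)) : Prop where
  hloc : HLoc Ψ
  flat : ∀ z : W n, z ≠ 0 → ∀ s : ℝ, 0 < s → s ≤ 1 → ν.real (PB (pt z) s) ≤ c →
    FlatU δ (closedBall z (κ * s * ‖z‖)) (fderiv ℝ Ψ)

/-- The affine coordinate of `z`. -/
noncomputable def cc (z : W n) : V (n * 2) := (kap n).symm fun k => z k.succ / z 0

/-- The measure in the affine chart. -/
noncomputable def chm (ν : Measure (W n)) : Measure (V (n * 2)) :=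
  (ν.restrict {z | z 0 ≠ 0}).map cc

/-- The chart expression of a lift. -/
noncomputable def fc (H : W n → W n) (x : V (n * 2)) : V (n * 2) := cc (H (sl n x))

/-- A path of immersions of the ball of radius `s`, constant for `‖x‖ ≥ s/2`. -/
def LStep (s : ℝ) (f g : V m → V m) : Prop :=
  ∃ K : ℝ × V m → V m,
    (∀ t x, ‖x‖ < s → ContDiffAt ℝ ∞ K (t, x) ∧ IsUnit (fderiv ℝ (fun y => K (t, y)) x : EV m)) ∧
    (∀ t x, s / 2 ≤ ‖x‖ → ‖x‖ < s → K (t, x) = f x) ∧ (∀ x, ‖x‖ < s → K (0, x) = f x) ∧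
    ∀ x, ‖x‖ < s → K (1, x) = g x

/-- A complex linear automorphism of norm at most `1` whose inverse has norm at most `4`. -/
structure TT (T : W n ≃L[ℝ] W n) : Prop where
  hom : ∀ (c : ℂ) (x : W n), T (c • x) = c • T x
  le : ∀ x, ‖T x‖ ≤ ‖x‖
  symm_le : ∀ w, ‖T.symm w‖ ≤ 4 * ‖w‖

/-- Smooth isotopy of self-maps of `CP^n` through diffeomorphisms. -/
def Isotopic (n : ℕ)
    (F G : (Fin (n + 1) → Fin (n + 1) → ℂ) → (Fin (n + 1) → Fin (n + 1) → ℂ)) : Prop :=
  ∃ K : ℝ × (Fin (n + 1) → Fin (n + 1) → ℂ) → (Fin (n + 1) → Fin (n + 1) → ℂ),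
    ContDiff ℝ (⊤ : ℕ∞) K ∧
    (∀ t : ℝ, ∀ P ∈ CP n, K (t, P) ∈ CP n) ∧
    (∀ P ∈ CP n, K (0, P) = F P) ∧
    (∀ P ∈ CP n, K (1, P) = G P) ∧
    ∀ t : ℝ, ∃ L : (Fin (n + 1) → Fin (n + 1) → ℂ) → (Fin (n + 1) → Fin (n + 1) → ℂ),
      ContDiff ℝ (⊤ : ℕ∞) L ∧
      ∀ P ∈ CP n, L P ∈ CP n ∧ L (K (t, P)) = P ∧ K (t, L P) = P

end Pool.Agent.Lib.P28g
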