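import Pool.Agent.Lib.P28g.Surg

set_option autoImplicit false

/-!
# Gluing at finitely many points

PROOF SKETCH. Induction on `S ⊆ A` (`Finset.induction_on`, for `S ⊆ A`): there is `Φ_S` with `HLoc`, `Conn Φ Φ_S`, `pt (Φ_S z) = pt (X z)` for `z` in the chart ball of some `a ∈ S` (`pt z = pt (T a (sl n x))`, `‖x‖ < s`), and `Φ_S z = Φ z` for `z` outside all chart balls of `S`. Step: apply `surg_TB` three times at `a` (the chart expression of `Φ_S`
at `a` is that of `Φ` on the ball, because the chart balls are disjoint; `LStep` only involves the values on the ball: if `f = f'` on `‖x‖ < s` then `LStep s f g` gives `LStep s f' g`, redefine `K` outside or note that all clauses concern `‖x‖ < s`). The result has chart expression `fc (B X T)` on the ball, so `pt_eq_of_fc` gives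
`pt (B (Φ' (T (sl n x)))) = pt (B (X (T (sl n x))))`, hence `pt (Φ' z) = pt (X z)` (`eq_smul_of_pt_eq`, `B` is complex linear and injective, `pt_smul`; a `z ≠ 0` with `pt z = pt (T a (sl n x))` is a multiple of `T a (sl n x)`). `Conn.trans`.
-/

open MeasureTheory Set Metric
open scoped ContDiff Topology ENNReal

namespace Pool.Agent.Lib.P28g

open Pool.Agent.P28b04d Pool.Agent.Lib.P28e Pool.Agent.Lib.P28c
open Pool.Agent.Lib.P28f (V EV)

variable {n m : ℕ}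

theorem LStep.congr {s : ℝ} {f f' g : V m → V m} (h : LStep s f g)
    (he : ∀ x, ‖x‖ < s → f x = f' x) : LStep s f' g := by
  obtain ⟨K, h1, h2, h3, h4⟩ := h
  exact ⟨K, h1, fun t x hx hx' => (h2 t x hx hx').trans (he x hx'),
    fun x hx => (h3 x hx).trans (he x hx), h4⟩

private theorem sl_ne (x : V (n * 2)) : sl n x ≠ 0 := by
  intro h
  have := congrFun h 0
  rw [sl_apply_zero] at this
  exact one_ne_zero this

private theorem pt_eq_of_B {B : W n ≃L[ℝ] W n} (hB : ∀ (c : ℂ) (x : W n), B (c • x) = c • B x)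
    {u v : W n} (hv : v ≠ 0) (h : pt (B u) = pt (B v)) : pt u = pt v := by
  have hBv : B v ≠ 0 := fun h0 => hv (by simpa using h0)
  obtain ⟨c, hc, he⟩ := eq_smul_of_pt_eq hBv h
  rw [← hB] at he
  have h2 : v = c • u := B.injective he
  rw [h2, pt_smul hc]

/-- Three steps at one point. -/
private theorem glue_one (T B : W n ≃L[ℝ] W n)
    (hT : ∀ (c : ℂ) (x : W n), T (c • x) = c • T x)
    (hB : ∀ (c : ℂ) (x : W n), B (c • x) = c • B x) {s : ℝ} (hs : 0 < s)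
    {Φ X : W n → W n} (hΦ : HLoc Φ) (hX : HLoc X)
    (h0 : ∀ x : V (n * 2), ‖x‖ < s → (B (Φ (T (sl n x)))) 0 ≠ 0)
    (h0' : ∀ x : V (n * 2), ‖x‖ < s → (B (X (T (sl n x)))) 0 ≠ 0)
    (hpath : ∃ f1 f2 : V (n * 2) → V (n * 2),
      LStep s (fc fun z => B (Φ (T z))) f1 ∧ LStep s f1 f2 ∧
      LStep s f2 (fc fun z => B (X (T z)))) :
    ∃ Φ' : W n → W n, HLoc Φ' ∧ Conn Φ Φ' ∧
      (∀ z : W n, (∀ x : V (n * 2), ‖x‖ < s → pt z ≠ pt (T (sl n x))) → Φ' z = Φ z) ∧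
      ∀ x : V (n * 2), ‖x‖ < s → pt (Φ' (T (sl n x))) = pt (X (T (sl n x))) := by
  obtain ⟨f1, f2, p1, p2, p3⟩ := hpath
  obtain ⟨Φ1, a1, b1, c1, d1⟩ := surg_TB hΦ T B hT hB hs h0 p1
  have p2' : LStep s (fc fun z => B (Φ1 (T z))) f2 := p2.congr fun x hx => ((d1 x hx).2).symm
  obtain ⟨Φ2, a2, b2, c2, d2⟩ := surg_TB a1 T B hT hB hs (fun x hx => (d1 x hx).1) p2'
  have p3' : LStep s (fc fun z => B (Φ2 (T z))) (fc fun z => B (X (T z))) :=
    p3.congr fun x hx => ((d2 x hx).2).symm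
  obtain ⟨Φ3, a3, b3, c3, d3⟩ := surg_TB a2 T B hT hB hs (fun x hx => (d2 x hx).1) p3'
  refine ⟨Φ3, a3, (b1.trans b2).trans b3, fun z hz => ?_, fun x hx => ?_⟩
  · rw [c3 z hz, c2 z hz, c1 z hz]
  · apply pt_eq_of_B hB
    · apply hX.ne
      intro h
      exact sl_ne x (by simpa using h)
    · exact pt_eq_of_fc (H := fun z => B (Φ3 (T z))) (H' := fun z => B (X (T z)))
        (d3 x hx).1 (h0' x hx) (d3 x hx).2

theorem glue (A : Finset (W n)) (T B : W n → W n ≃L[ℝ] W n)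
    (hT : ∀ a, ∀ (c : ℂ) (x : W n), T a (c • x) = c • T a x)
    (hB : ∀ a, ∀ (c : ℂ) (x : W n), B a (c • x) = c • B a x) {s : ℝ} (hs : 0 < s)
    (hdis : ∀ a ∈ A, ∀ b ∈ A, a ≠ b → ∀ x y : V (n * 2), ‖x‖ < s → ‖y‖ < s →
      pt (T a (sl n x)) ≠ pt (T b (sl n y))) {Φ X : W n → W n} (hΦ : HLoc Φ) (hX : HLoc X)
    (h0 : ∀ a ∈ A, ∀ x : V (n * 2), ‖x‖ < s → (B a (Φ (T a (sl n x)))) 0 ≠ 0)
    (h0' : ∀ a ∈ A, ∀ x : V (n * 2), ‖x‖ < s → (B a (X (T a (sl n x)))) 0 ≠ 0)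
    (hout : ∀ z : W n, z ≠ 0 → (∀ a ∈ A, ∀ x : V (n * 2), ‖x‖ < s → pt z ≠ pt (T a (sl n x))) →
      Φ z = X z)
    (hpath : ∀ a ∈ A, ∃ f1 f2 : V (n * 2) → V (n * 2),
      LStep s (fc fun z => B a (Φ (T a z))) f1 ∧ LStep s f1 f2 ∧
      LStep s f2 (fc fun z => B a (X (T a z)))) :
    ∃ Φ' : W n → W n, HLoc Φ' ∧ Conn Φ Φ' ∧ ∀ z : W n, z ≠ 0 → pt (Φ' z) = pt (X z) := by
  classical
  have key : ∀ S : Finset (W n), S ⊆ A → ∃ Φ' : W n → W n, HLoc Φ' ∧ Conn Φ Φ' ∧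
      (∀ a ∈ S, ∀ x : V (n * 2), ‖x‖ < s → pt (Φ' (T a (sl n x))) = pt (X (T a (sl n x)))) ∧
      ∀ z : W n, (∀ a ∈ S, ∀ x : V (n * 2), ‖x‖ < s → pt z ≠ pt (T a (sl n x))) →
        Φ' z = Φ z := by
    intro S
    induction S using Finset.induction_on with
    | empty =>
      intro _
      exact ⟨Φ, hΦ, Conn.refl hΦ, by simp, fun _ _ => rfl⟩
    | insert a S haS ih =>
      intro hSA
      have haA : a ∈ A := hSA (Finset.mem_insert_self a S)
      have hSA' : S ⊆ A := fun b hb => hSA (Finset.mem_insert_of_mem hb)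
      obtain ⟨Φ0, a0, b0, c0, d0⟩ := ih hSA'
      have hne : ∀ b ∈ S, a ≠ b := fun b hb h => haS (h ▸ hb)
      have heq : ∀ x : V (n * 2), ‖x‖ < s → Φ0 (T a (sl n x)) = Φ (T a (sl n x)) := by
        intro x hx
        exact d0 _ fun b hb y hy => hdis a haA b (hSA' hb) (hne b hb) x y hx hy
      obtain ⟨f1, f2, p1, p2, p3⟩ := hpath a haA
      have p1' : LStep s (fc fun z => B a (Φ0 (T a z))) f1 := p1.congr fun x hx => by
        simp only [fc]
        rw [heq x hx]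
      obtain ⟨Φ1, a1, b1, c1, d1⟩ := glue_one (T a) (B a) (hT a) (hB a) hs a0 hX
        (fun x hx => by rw [heq x hx]; exact h0 a haA x hx) (h0' a haA) ⟨f1, f2, p1', p2, p3⟩
      refine ⟨Φ1, a1, b0.trans b1, ?_, ?_⟩
      · intro b hb x hx
        rcases Finset.mem_insert.1 hb with rfl | hb
        · exact d1 x hx
        · rw [c1 _ fun y hy => (hdis a haA b (hSA' hb) (hne b hb) y x hy hx).symm]
          exact c0 b hb x hx
      · intro z hz
        rw [c1 z (hz a (Finset.mem_insert_self a S)),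
          d0 z fun b hb => hz b (Finset.mem_insert_of_mem hb)]
  obtain ⟨Φ', a1, b1, c1, d1⟩ := key A subset_rfl
  refine ⟨Φ', a1, b1, fun z hz => ?_⟩
  by_cases h : ∃ a ∈ A, ∃ x : V (n * 2), ‖x‖ < s ∧ pt z = pt (T a (sl n x))
  · obtain ⟨a, ha, x, hx, he⟩ := h
    have hne : T a (sl n x) ≠ 0 := fun h0 => sl_ne x (by simpa using h0)
    obtain ⟨c, hc, hcz⟩ := eq_smul_of_pt_eq hne he
    have h1 := c1 a ha x hx
    rw [hcz, a1.hom, hX.hom, pt_smul hc, pt_smul hc] at h1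
    exact h1
  · have h' : ∀ a ∈ A, ∀ x : V (n * 2), ‖x‖ < s → pt z ≠ pt (T a (sl n x)) :=
      fun a ha x hx he => h ⟨a, ha, x, hx, he⟩
    rw [d1 z h', hout z hz h']

end Pool.Agent.Lib.P28g
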