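import Pool.Agent.Lib.P28b04d.Conv
import Pool.Agent.Lib.P28g.Defs
import Mathlib.Geometry.Manifold.PartitionOfUnity

set_option autoImplicit false

/-!
# Every diffeomorphism of `CP^n` homotopic to the identity has a homogeneous lift
-/

open Set Metric Filter
open scoped ContDiff Topology

namespace Pool.Agent.Lib.P28g

open Pool.Agent.P28b04d Pool.Agent.Lib.P28c Pool.Agent.Lib.P28e

variable {n : ℕ}

/-- Diffeomorphisms of `CP^n` which are homotopic to the identity. -/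
def Diffh (n : ℕ) (F : (Fin (n + 1) → Fin (n + 1) → ℂ) → (Fin (n + 1) → Fin (n + 1) → ℂ)) : Prop :=
  ContDiff ℝ (⊤ : ℕ∞) F ∧ (∀ P ∈ CP n, F P ∈ CP n) ∧
    (∃ G : (Fin (n + 1) → Fin (n + 1) → ℂ) → (Fin (n + 1) → Fin (n + 1) → ℂ),
      ContDiff ℝ (⊤ : ℕ∞) G ∧ (∀ P ∈ CP n, G P ∈ CP n) ∧
      (∀ P ∈ CP n, G (F P) = P) ∧ (∀ P ∈ CP n, F (G P) = P)) ∧
    ∃ H : ℝ × (Fin (n + 1) → Fin (n + 1) → ℂ) → (Fin (n + 1) → Fin (n + 1) → ℂ),
      ContinuousOn H (Set.Icc (0 : ℝ) 1 ×ˢ CP n) ∧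
      (∀ t ∈ Set.Icc (0 : ℝ) 1, ∀ P ∈ CP n, H (t, P) ∈ CP n) ∧
      (∀ P ∈ CP n, H (0, P) = P) ∧ (∀ P ∈ CP n, H (1, P) = F P)

namespace LiftEx

theorem isClosed_CP : IsClosed (CP n) := by
  have e : CP n = (⋂ i, ⋂ j, {P : Mat n | P j i = star (P i j)}) ∩
      ((⋂ i, ⋂ j, {P : Mat n | ∑ k, P i k * P k j = P i j}) ∩
        {P : Mat n | ∑ i, P i i = 1}) := by
    ext P
    simp only [CP, mem_ofPred_eq, mem_inter_iff, mem_iInter]
  rw [e]
  have hc : ∀ i j, Continuous fun P : Mat n => P i j := fun i j =>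
    (continuous_apply j).comp (continuous_apply i)
  refine IsClosed.inter ?_ (IsClosed.inter ?_ ?_)
  · exact isClosed_iInter fun i => isClosed_iInter fun j => isClosed_eq (hc j i) (hc i j).star
  · exact isClosed_iInter fun i => isClosed_iInter fun j =>
      isClosed_eq (continuous_finsetSum _ fun k _ => (hc i k).mul (hc k j)) (hc i j)
  · exact isClosed_eq (continuous_finsetSum _ fun i _ => hc i i) continuous_const

theorem norm_CP {P : Mat n} (hP : P ∈ CP n) : ‖P‖ ≤ 1 := by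
  obtain ⟨z, hz, rfl⟩ := exists_pt hP
  have hN := nsq_pos hz
  rw [pi_norm_le_iff_of_nonneg zero_le_one]
  intro i
  rw [pi_norm_le_iff_of_nonneg zero_le_one]
  intro j
  have h1 : ∀ k, ‖z k‖ ^ 2 ≤ nsq z := by
    intro k
    rw [← Complex.normSq_eq_norm_sq]
    exact Finset.single_le_sum (f := fun k => Complex.normSq (z k))
      (fun _ _ => Complex.normSq_nonneg _) (Finset.mem_univ k)
  simp only [pt]
  rw [norm_div, norm_mul, norm_star, Complex.norm_real, Real.norm_of_nonneg hN.le,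
    div_le_one hN]
  nlinarith [h1 i, h1 j, sq_nonneg (‖z i‖ - ‖z j‖)]

theorem isCompact_CP : IsCompact (CP n) :=
  (isCompact_closedBall (0 : Mat n) 1).of_isClosed_subset isClosed_CP fun P hP => by
    rw [mem_closedBall_zero_iff]
    exact norm_CP hP

theorem norm_act_le (A : Mat n) (v : W n) : ‖act A v‖ ≤ (n + 1) * ‖A‖ * ‖v‖ := by
  rw [pi_norm_le_iff_of_nonneg (by positivity)]
  intro i
  unfold act
  calc ‖∑ k, A i k * v k‖ ≤ ∑ k : Fin (n + 1), ‖A‖ * ‖v‖ := by
        refine norm_sum_le_of_le _ fun k _ => ?_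
        rw [norm_mul]
        gcongr
        · exact (norm_le_pi_norm (A i) k).trans (norm_le_pi_norm A i)
        · exact norm_le_pi_norm v k
    _ = (n + 1) * ‖A‖ * ‖v‖ := by
        rw [Finset.sum_const, Finset.card_univ, Fintype.card_fin, nsmul_eq_mul]
        push_cast
        ring

/-- the product of matrices -/
def mm (A B : Mat n) : Mat n := fun i j => ∑ k, A i k * B k j

theorem act_mm (A B : Mat n) (v : W n) : act (mm A B) v = act A (act B v) := by
  funext i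
  simp only [act, mm, Finset.sum_mul, Finset.mul_sum]
  rw [Finset.sum_comm]
  exact Finset.sum_congr rfl fun k _ => Finset.sum_congr rfl fun j _ => by ring

theorem act_sub_left (A B : Mat n) (v : W n) : act (A - B) v = act A v - act B v := by
  funext i
  simp only [act, Pi.sub_apply, sub_mul, Finset.sum_sub_distrib]

theorem act_sub (A : Mat n) (u v : W n) : act A (u - v) = act A u - act A v := by
  funext i
  simp only [act, Pi.sub_apply, mul_sub, Finset.sum_sub_distrib]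

theorem continuousOn_mm {X : Type} [TopologicalSpace X] {s : Set X} {f g : X → Mat n}
    (hf : ContinuousOn f s) (hg : ContinuousOn g s) : ContinuousOn (fun x => mm (f x) (g x)) s := by
  have hc : ∀ (h : X → Mat n), ContinuousOn h s → ∀ i j, ContinuousOn (fun x => h x i j) s :=
    fun h hh i j => continuousOn_pi.1 (continuousOn_pi.1 hh i) j
  refine continuousOn_pi.2 fun i => continuousOn_pi.2 fun j => ?_
  exact continuousOn_finsetSum _ fun k _ => (hc f hf i k).mul (hc g hg k j)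

theorem act_idem {P : Mat n} (hP : P ∈ CP n) (v : W n) : act P (act P v) = act P v := by
  rw [← act_mm]
  congr 1
  funext i j
  exact hP.2.1 i j

/-- the composite of the projections along a chain -/
noncomputable def chain (H : ℝ × Mat n → Mat n) (N : ℕ) : ℕ → Mat n → Mat n
  | 0, P => H (0, P)
  | i + 1, P => mm (H (((i : ℝ) + 1) / N, P)) (chain H N i P)

theorem exists_smooth_approx {M : Mat n → Mat n} (hM : ContinuousOn M (CP n)) {ε : ℝ}
    (hε : 0 < ε) : ∃ M' : Mat n → Mat n, ContDiff ℝ ∞ M' ∧ ∀ P ∈ CP n, ‖M' P - M P‖ < ε := by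
  classical
  obtain ⟨g, hg⟩ := exists_contMDiffMap_forall_mem_convex_of_local_const (n := (⊤ : ℕ∞))
    (modelWithCornersSelf ℝ (Mat n)) (M := Mat n) (F := Mat n)
    (t := fun P => if P ∈ CP n then ball (M P) ε else univ) (by
      intro P
      show Convex ℝ (if P ∈ CP n then ball (M P) ε else univ)
      split_ifs
      · exact convex_ball _ _
      · exact convex_univ) (by
      intro P
      by_cases hP : P ∈ CP n
      · refine ⟨M P, ?_⟩
        have h1 := (hM P hP).eventually (ball_mem_nhds (M P) hε)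
        rw [eventually_nhdsWithin_iff] at h1
        filter_upwards [h1] with Q hQ
        split_ifs with hQ'
        · rw [mem_ball_comm]
          exact hQ hQ'
        · exact mem_univ _
      · refine ⟨0, ?_⟩
        filter_upwards [isClosed_CP.isOpen_compl.mem_nhds hP] with Q hQ
        rw [if_neg hQ]
        exact mem_univ _)
  refine ⟨g, contMDiff_iff_contDiff.1 g.contMDiff, fun P hP => ?_⟩
  have h1 := hg P
  simp only [if_pos hP] at h1
  rwa [mem_ball, dist_eq_norm] at h1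

theorem chain_cont {H : ℝ × Mat n → Mat n} (hH : ContinuousOn H (Icc (0 : ℝ) 1 ×ˢ CP n)) {N : ℕ}
    (hN : 0 < N) : ∀ i, i ≤ N → ContinuousOn (chain H N i) (CP n) := by
  have hs : ∀ t ∈ Icc (0 : ℝ) 1, ContinuousOn (fun P => H (t, P)) (CP n) := fun t ht =>
    hH.comp (by fun_prop) fun P hP => ⟨ht, hP⟩
  intro i
  induction i with
  | zero =>
    intro _
    exact hs 0 ⟨le_rfl, zero_le_one⟩
  | succ i ih =>
    intro hi
    have h1 : ((i : ℝ) + 1) / N ∈ Icc (0 : ℝ) 1 := by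
      have hN' : (0 : ℝ) < N := by exact_mod_cast hN
      refine ⟨by positivity, ?_⟩
      rw [div_le_one hN']
      exact_mod_cast hi
    exact continuousOn_mm (hs _ h1) (ih (by omega))

theorem chain_spec {H : ℝ × Mat n → Mat n}
    (hm : ∀ t ∈ Icc (0 : ℝ) 1, ∀ P ∈ CP n, H (t, P) ∈ CP n) (h0 : ∀ P ∈ CP n, H (0, P) = P) {N : ℕ}
    (hN : 0 < N) (hclose : ∀ P ∈ CP n, ∀ i : ℕ, i < N →
      ‖H (((i : ℝ) + 1) / N, P) - H ((i : ℝ) / N, P)‖ ≤ 1 / (2 * (n + 1))) {z : W n} (hz : z ≠ 0) :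
    ∀ i : ℕ, i ≤ N → act (H ((i : ℝ) / N, pt z)) (act (chain H N i (pt z)) z) =
      act (chain H N i (pt z)) z ∧ (1 / 2) ^ i * ‖z‖ ≤ ‖act (chain H N i (pt z)) z‖ := by
  have hN' : (0 : ℝ) < N := by exact_mod_cast hN
  have hP := pt_mem hz
  have hmem : ∀ i : ℕ, i ≤ N → H ((i : ℝ) / N, pt z) ∈ CP n := by
    intro i hi
    apply hm _ _ _ hP
    refine ⟨by positivity, ?_⟩
    rw [div_le_one hN']
    exact_mod_cast hi
  intro i
  induction i with
  | zero =>
    intro _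
    simp only [chain, Nat.cast_zero, zero_div, pow_zero, one_mul]
    rw [h0 _ hP, act_pt_self hz, act_pt_self hz]
    exact ⟨rfl, le_rfl⟩
  | succ i ih =>
    intro hi
    obtain ⟨i1, i2⟩ := ih (by omega)
    have hi' : H (((i : ℝ) + 1) / N, pt z) ∈ CP n := by
      have := hmem (i + 1) hi
      push_cast at this
      exact this
    have e : act (chain H N (i + 1) (pt z)) z =
        act (H (((i : ℝ) + 1) / N, pt z)) (act (chain H N i (pt z)) z) := by
      simp only [chain]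
      rw [act_mm]
    set u := act (chain H N i (pt z)) z with hu
    rw [e]
    push_cast
    refine ⟨act_idem hi' _, ?_⟩
    have e2 : act (H (((i : ℝ) + 1) / N, pt z)) u = u +
        act (H (((i : ℝ) + 1) / N, pt z) - H ((i : ℝ) / N, pt z)) u := by
      rw [act_sub_left, i1]
      abel
    have h1 : ‖act (H (((i : ℝ) + 1) / N, pt z) - H ((i : ℝ) / N, pt z)) u‖ ≤ 1 / 2 * ‖u‖ := by
      refine (norm_act_le _ _).trans ?_
      have h2 := hclose _ hP i (by omega)
      have hn : (0 : ℝ) < (n : ℝ) + 1 := by positivity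
      calc ((n : ℝ) + 1) * ‖H (((i : ℝ) + 1) / N, pt z) - H ((i : ℝ) / N, pt z)‖ * ‖u‖
          ≤ ((n : ℝ) + 1) * (1 / (2 * (n + 1))) * ‖u‖ := by gcongr
        _ = 1 / 2 * ‖u‖ := by field_simp
    rw [e2]
    have h3 : ‖u‖ ≤ ‖u + act (H (((i : ℝ) + 1) / N, pt z) - H ((i : ℝ) / N, pt z)) u‖ +
        ‖act (H (((i : ℝ) + 1) / N, pt z) - H ((i : ℝ) / N, pt z)) u‖ := by
      have := norm_sub_le (u + act (H (((i : ℝ) + 1) / N, pt z) - H ((i : ℝ) / N, pt z)) u)
        (act (H (((i : ℝ) + 1) / N, pt z) - H ((i : ℝ) / N, pt z)) u)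
      rwa [add_sub_cancel_right] at this
    rw [pow_succ]
    linarith

theorem exists_chain {H : ℝ × Mat n → Mat n} (hH : ContinuousOn H (Icc (0 : ℝ) 1 ×ˢ CP n)) :
    ∃ N : ℕ, 0 < N ∧ ∀ P ∈ CP n, ∀ i : ℕ, i < N →
      ‖H (((i : ℝ) + 1) / N, P) - H ((i : ℝ) / N, P)‖ ≤ 1 / (2 * (n + 1)) := by
  have hu := (isCompact_Icc.prod (isCompact_CP (n := n))).uniformContinuousOn_of_continuous hH
  rw [Metric.uniformContinuousOn_iff] at hu
  obtain ⟨δ, hδ, h⟩ := hu (1 / (2 * (n + 1))) (by positivity)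
  obtain ⟨N, hN⟩ := exists_nat_gt (1 / δ)
  have hN' : (0 : ℝ) < N := lt_trans (by positivity) hN
  refine ⟨N, by exact_mod_cast hN', ?_⟩
  intro P hP i hi
  have hi' : (i : ℝ) + 1 ≤ N := by exact_mod_cast hi
  have m1 : ((i : ℝ) + 1) / N ∈ Icc (0 : ℝ) 1 := ⟨by positivity, by rw [div_le_one hN']; exact hi'⟩
  have m2 : (i : ℝ) / N ∈ Icc (0 : ℝ) 1 := ⟨by positivity, by rw [div_le_one hN']; linarith⟩
  have h1 := h (((i : ℝ) + 1) / N, P) ⟨m1, hP⟩ ((i : ℝ) / N, P) ⟨m2, hP⟩ (by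
    rw [Prod.dist_eq, dist_self, max_eq_left dist_nonneg, Real.dist_eq]
    have e : ((i : ℝ) + 1) / N - (i : ℝ) / N = 1 / N := by ring
    rw [e, abs_of_nonneg (by positivity), div_lt_comm₀ hN' hδ]
    exact hN)
  rw [dist_eq_norm] at h1
  exact h1.le

theorem lift_inj {F : Mat n → Mat n} {G : Mat n → Mat n} (hG : ContDiff ℝ ∞ G)
    (hGF : ∀ P ∈ CP n, G (F P) = P) {Φ : W n → W n} (hΦ : ContDiffOn ℝ ∞ Φ {0}ᶜ)
    (hom : ∀ (c : ℂ) (z : W n), Φ (c • z) = c • Φ z) (hne : ∀ z, z ≠ 0 → Φ z ≠ 0)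
    (hF : ∀ z : W n, z ≠ 0 → F (pt z) = pt (Φ z)) {z : W n} (hz : z ≠ 0) {v : W n}
    (hv : fderiv ℝ Φ z v = 0) : v = 0 := by
  have hd : HasFDerivAt Φ (fderiv ℝ Φ z) z :=
    (((hΦ z hz).contDiffAt (isOpen_compl_singleton.mem_nhds hz)).differentiableAt
      (by simp)).hasFDerivAt
  have hc : HasDerivAt (fun r : ℝ => z + r • v) v 0 := by
    simpa using ((hasDerivAt_id (0 : ℝ)).smul_const v).const_add z
  have hc0 : z + (0 : ℝ) • v = z := by simp
  have hne' : ∀ᶠ r in 𝓝 (0 : ℝ), z + r • v ≠ 0 :=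
    eventually_ne hc.continuousAt (by simpa using hz)
  have h1 : HasDerivAt (fun r : ℝ => Φ (z + r • v)) 0 0 := by
    have h2 : HasFDerivAt Φ (fderiv ℝ Φ z) (z + (0 : ℝ) • v) := by rw [hc0]; exact hd
    have h3 := h2.comp_hasDerivAt (0 : ℝ) hc
    rw [hv] at h3
    exact h3
  have h2 : HasDerivAt (fun r : ℝ => pt (Φ (z + r • v))) 0 0 := by
    have h3 : HasFDerivAt pt (fderiv ℝ pt (Φ (z + (0 : ℝ) • v))) (Φ (z + (0 : ℝ) • v)) := by
      have : Φ (z + (0 : ℝ) • v) ≠ 0 := by rw [hc0]; exact hne z hz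
      exact ((contDiffAt_pt this).differentiableAt (by simp)).hasFDerivAt
    have h4 := h3.comp_hasDerivAt (0 : ℝ) h1
    rw [map_zero] at h4
    exact h4
  have h3 : HasDerivAt (fun r : ℝ => G (pt (Φ (z + r • v)))) 0 0 := by
    have h4 : HasFDerivAt G (fderiv ℝ G (pt (Φ (z + (0 : ℝ) • v)))) (pt (Φ (z + (0 : ℝ) • v))) :=
      (hG.contDiffAt.differentiableAt (by simp)).hasFDerivAt
    have h5 := h4.comp_hasDerivAt (0 : ℝ) h2
    rw [map_zero] at h5
    exact h5
  have h4 : HasDerivAt (fun r : ℝ => pt (z + r • v)) 0 0 := by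
    apply h3.congr_of_eventuallyEq
    filter_upwards [hne'] with r hr
    show pt (z + r • v) = G (pt (Φ (z + r • v)))
    rw [← hF _ hr, hGF _ (pt_mem hr)]
  have h5 := hasDerivAt_act h4 hc
  have h6 : HasDerivAt (fun r : ℝ => z + r • v)
      (act 0 ((fun r : ℝ => z + r • v) 0) + act ((fun r : ℝ => pt (z + r • v)) 0) v) 0 := by
    apply h5.congr_of_eventuallyEq
    filter_upwards [hne'] with r hr
    exact (act_pt_self hr).symm
  have h7 := hc.unique h6
  have e0 : act (0 : Mat n) ((fun r : ℝ => z + r • v) 0) = 0 := by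
    funext i
    simp [act]
  have e1 : (fun r : ℝ => pt (z + r • v)) 0 = pt z := by simp
  rw [e0, zero_add, e1, act_pt] at h7
  set a : ℂ := hip z v / (nsq z : ℂ) with ha
  have h8 : HasDerivAt (fun r : ℝ => Φ (z + r • v)) (a • Φ z) 0 := by
    have e2 : (fun r : ℝ => Φ (z + r • v)) = fun r : ℝ => (1 + (r : ℂ) * a) • Φ z := by
      funext r
      rw [← hom, h7]
      congr 1
      rw [add_smul, one_smul, mul_smul, Hom46.smul_real]
    rw [e2]
    have h9 : HasDerivAt (fun r : ℝ => (1 + (r : ℂ) * a)) a 0 := by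
      have := (((hasDerivAt_id (0 : ℝ)).ofReal_comp).mul_const a).const_add 1
      simpa using this
    exact h9.smul_const (Φ z)
  have h9 := h8.unique h1
  rcases smul_eq_zero.1 h9 with h10 | h10
  · rw [h7, h10, zero_smul]
  · exact absurd h10 (hne z hz)

end LiftEx

open LiftEx

theorem exists_lift {F : Mat n → Mat n} (h : Diffh n F) : ∃ Φ : W n → W n, HLoc Φ ∧
    ∀ z : W n, z ≠ 0 → F (pt z) = pt (Φ z) := by
  obtain ⟨hF, hFm, ⟨G, hG, hGm, hGF, hFG⟩, H, hH, hHm, hH0, hH1⟩ := h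
  obtain ⟨N, hN, hclose⟩ := exists_chain hH
  have hN' : (0 : ℝ) < N := by exact_mod_cast hN
  set M := chain H N N with hM
  have hMc : ContinuousOn M (CP n) := chain_cont hH hN N le_rfl
  set ε : ℝ := (1 / 2) ^ N / (2 * ((n : ℝ) + 1) ^ 2) with hε
  have hε0 : 0 < ε := by positivity
  obtain ⟨M', hM', hM1⟩ := exists_smooth_approx hMc hε0
  have hlow : ∀ z : W n, z ≠ 0 → act (F (pt z)) (act (M' (pt z)) z) ≠ 0 := by
    intro z hz h0
    have hz0 : 0 < ‖z‖ := norm_pos_iff.2 hz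
    have hP := pt_mem hz
    obtain ⟨h1, h2⟩ := chain_spec hHm hH0 hN hclose hz N le_rfl
    rw [div_self hN'.ne', hH1 _ hP] at h1
    have e : act (M (pt z)) z = -act (F (pt z)) (act (M' (pt z) - M (pt z)) z) := by
      rw [act_sub_left, act_sub, h0, h1, zero_sub, neg_neg]
    have h3 : ‖act (F (pt z)) (act (M' (pt z) - M (pt z)) z)‖ ≤
        ((n : ℝ) + 1) ^ 2 * ε * ‖z‖ := by
      refine (norm_act_le _ _).trans ?_
      have h4 := norm_act_le (M' (pt z) - M (pt z)) z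
      have h5 := hM1 _ hP
      have h6 := norm_CP (hFm _ hP)
      calc ((n : ℝ) + 1) * ‖F (pt z)‖ * ‖act (M' (pt z) - M (pt z)) z‖
          ≤ ((n : ℝ) + 1) * 1 * (((n : ℝ) + 1) * ε * ‖z‖) := by
            gcongr
            refine h4.trans ?_
            gcongr
        _ = ((n : ℝ) + 1) ^ 2 * ε * ‖z‖ := by ring
    have h4 : ‖act (M (pt z)) z‖ ≤ (1 / 2) ^ N / 2 * ‖z‖ := by
      rw [e, norm_neg]
      refine h3.trans (le_of_eq ?_)
      rw [hε]
      field_simp
    have h5 : (0 : ℝ) < (1 / 2) ^ N := by positivity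
    nlinarith
  refine ⟨fun z => act (F (pt z)) (act (M' (pt z)) z), ?_, ?_⟩
  · have hpt : ContDiffOn ℝ ∞ (pt (n := n)) {0}ᶜ := fun z hz =>
      (contDiffAt_pt hz).contDiffWithinAt
    have hs : ContDiffOn ℝ ∞ (fun z => act (F (pt z)) (act (M' (pt z)) z)) {0}ᶜ :=
      contDiffOn_act (hF.comp_contDiffOn hpt)
        (contDiffOn_act (hM'.comp_contDiffOn hpt) contDiffOn_id)
    have hh : ∀ (c : ℂ) (z : W n), act (F (pt (c • z))) (act (M' (pt (c • z))) (c • z)) =
        c • act (F (pt z)) (act (M' (pt z)) z) := by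
      intro c z
      by_cases hc : c = 0
      · rw [hc, zero_smul, zero_smul, act_zero, act_zero]
      · rw [pt_smul hc, act_smul, act_smul]
    exact ⟨hs, hh, fun z hz v hv => lift_inj hG hGF hs hh hlow
      (fun w hw => eq_pt_act (hFm _ (pt_mem hw)) (hlow w hw)) hz hv⟩
  · intro z hz
    exact eq_pt_act (hFm _ (pt_mem hz)) (hlow z hz)

theorem Diffh.injOn {F : Mat n → Mat n} (h : Diffh n F) : InjOn F (CP n) := by
  obtain ⟨-, -, ⟨G, -, -, hGF, -⟩, -⟩ := h
  intro P hP Q hQ he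
  rw [← hGF P hP, ← hGF Q hQ, he]

end Pool.Agent.Lib.P28g
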