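import Pool.Agent.Lib.P28f.InsIso
import Pool.Agent.Lib.P28f.CoreDif
import Pool.Agent.Lib.P28f.IsoRel
import Pool.Agent.Lib.P28g.Defs

set_option autoImplicit false

/-!
# Maps with isotopic local representatives and the same collar are joined by three steps

PROOF SKETCH. `R = s/4`, `2 R = s/2`. `f1 = ins f 0 R (rep f 0 R)`, `f2 = ins f 0 R (rep g 0 R)`. Since `f = g` for `R ≤ ‖x‖ < s` the base point `(2 R) • w0` (norm `3/2 R`) has the same first order data: `aff f 0 R = aff g 0 R`, and `ins g 0 R k = ins f 0 R k` on `‖x‖ < s` for every `k ∈ Dif`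
(for `‖x‖ < 3/2 R` only `aff` and `k` enter, `cut2 = 1`; for `‖x‖ ≥ 3/2 R` `f = g`). Step 1: `K (t, x) = f x + τ t • (ins f 0 R (rep f 0 R) x - f x)`, `τ = smoothTransition`; step 2: `K (t, x) = ins f 0 R (k_t) x`, `k` the path of `Iso (rep f) (rep g)`; step 3: step 1 for `g`, reversed in time (`τ (1 - t)`).
All facts (the formula `ins (rep) = mix kap`, derivative of `ins` inside, smallness on the annulus `mix_near`, a unit everywhere) are proved in `Pool/Agent/Lib/P28f/InsIso.lean` for `H ∈ Dif`; only the values of `H` on `closedBall a (2 R)` are used, copy these lemmas with `Imm (ball 0 s) H` instead of `Dif H`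
(smoothness statements become `ContDiffAt` at points of norm `< s`). `rep f 0 R ∈ Dif` by `core_dif` applied to `v ↦ f ((2 R) • v)` (`flat_comp`). For `‖x‖ ≥ 7/4 R = 7/16 s` nothing changes.
-/

namespace Pool.Agent.Lib.P28g.LocPathAux

open MeasureTheory Set Metric
open scoped ContDiff Topology
open Pool.Agent.Lib.P28f (V EV ann Flat Imm rep ins aff w0 Dif cut cut2 nrm core norm_w0 flat_comp
  nrm_near isUnit_of_near')

variable {m : ℕ}

lemma hasFDerivAt_scale (a : V m) (s : ℝ) (x : V m) :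
    HasFDerivAt (fun y : V m => s⁻¹ • (y - a)) (s⁻¹ • (1 : EV m)) x :=
  ((hasFDerivAt_id x).sub_const a).const_smul s⁻¹

lemma hasFDerivAt_hat {H : V m → V m} {a : V m} {s : ℝ} {v : V m}
    (hH : DifferentiableAt ℝ H (a + s • v)) :
    HasFDerivAt (fun v => H (a + s • v)) (s • fderiv ℝ H (a + s • v) : EV m) v := by
  have h1 : HasFDerivAt (fun v : V m => a + s • v) (s • (1 : EV m)) v :=
    ((hasFDerivAt_id v).const_smul s).const_add a
  have h2 : HasFDerivAt H (fderiv ℝ H (a + s • v)) (a + s • v) := hH.hasFDerivAt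
  have h3 := h2.comp v h1
  have h4 : (s • fderiv ℝ H (a + s • v) : EV m) =
      (fderiv ℝ H (a + s • v) : EV m).comp (s • (1 : EV m)) := by
    ext w
    simp
  rw [h4]
  exact h3

lemma isUnit_smul {s : ℝ} (hs : s ≠ 0) {L : EV m} (hL : IsUnit L) : IsUnit (s • L) := by
  obtain ⟨u, rfl⟩ := hL
  exact ((Units.mk0 s hs) • u).isUnit

lemma inverse_smul {s : ℝ} (hs : s ≠ 0) {L : EV m} (hL : IsUnit L) :
    Ring.inverse (s • L) = s⁻¹ • Ring.inverse L := by
  have h1 := Ring.inverse_mul_cancel _ (isUnit_smul hs hL)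
  have h2 : (s • L) * (s⁻¹ • Ring.inverse L) = 1 := by
    rw [smul_mul_smul_comm, Ring.mul_inverse_cancel _ hL, mul_inv_cancel₀ hs, one_smul]
  calc Ring.inverse (s • L) = Ring.inverse (s • L) * ((s • L) * (s⁻¹ • Ring.inverse L)) := by
        rw [h2, mul_one]
    _ = s⁻¹ • Ring.inverse L := by rw [← mul_assoc, h1, one_mul]

lemma inv_app {L : EV m} (hL : IsUnit L) (w : V m) : Ring.inverse L (L w) = w := by
  have h := congrArg (fun T : EV m => T w) (Ring.inverse_mul_cancel _ hL)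
  simpa using h

lemma app_inv {L : EV m} (hL : IsUnit L) (w : V m) : L (Ring.inverse L w) = w := by
  have h := congrArg (fun T : EV m => T w) (Ring.mul_inverse_cancel _ hL)
  simpa using h

lemma nrm_hat {H : V m → V m} {a : V m} {s : ℝ} (hs : s ≠ 0)
    (hd : DifferentiableAt ℝ H (a + s • w0 m))
    (hu : IsUnit (fderiv ℝ H (a + s • w0 m) : EV m)) (v : V m) :
    nrm (fun v => H (a + s • v)) v = w0 m + s⁻¹ • Ring.inverse (fderiv ℝ H (a + s • w0 m) : EV m)
      (H (a + s • v) - H (a + s • w0 m)) := by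
  unfold nrm
  rw [(hasFDerivAt_hat hd).fderiv, inverse_smul hs hu]
  rfl

lemma norm_scale {a x : V m} {R : ℝ} (hR : 0 < R) :
    ‖(2 * R)⁻¹ • (x - a)‖ = ‖x - a‖ / (2 * R) := by
  rw [norm_smul, norm_inv, Real.norm_of_nonneg (by positivity)]
  field_simp

lemma unscale {a x : V m} {R : ℝ} (hR : 0 < R) :
    a + (2 * R) • ((2 * R)⁻¹ • (x - a)) = x := by
  rw [smul_smul, mul_inv_cancel₀ (by positivity), one_smul, add_sub_cancel]

lemma aff_sub {H : V m → V m} {a : V m} {R : ℝ} (hR : 0 < R)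
    (hd : DifferentiableAt ℝ H (a + (2 * R) • w0 m))
    (hu : IsUnit (fderiv ℝ H (a + (2 * R) • w0 m) : EV m)) (x : V m) :
    (2 * R)⁻¹ • Ring.inverse (fderiv ℝ H (a + (2 * R) • w0 m) : EV m) (aff H a R x - H x) =
      (2 * R)⁻¹ • (x - a) - nrm (fun v => H (a + (2 * R) • v)) ((2 * R)⁻¹ • (x - a)) := by
  have hs : (2 * R) ≠ 0 := by positivity
  rw [nrm_hat hs hd hu, unscale hR]
  unfold aff
  have h1 : H (a + (2 * R) • w0 m) + fderiv ℝ H (a + (2 * R) • w0 m) (x - (a + (2 * R) • w0 m))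
      - H x = fderiv ℝ H (a + (2 * R) • w0 m) (x - (a + (2 * R) • w0 m)) -
        (H x - H (a + (2 * R) • w0 m)) := by abel
  rw [h1, map_sub, inv_app hu, smul_sub]
  have h2 : (2 * R)⁻¹ • (x - (a + (2 * R) • w0 m)) = (2 * R)⁻¹ • (x - a) - w0 m := by
    rw [← sub_sub, smul_sub, smul_smul, inv_mul_cancel₀ hs, one_smul]
  rw [h2]
  abel

lemma hasFDerivAt_aff (H : V m → V m) (a : V m) (R : ℝ) (x : V m) :
    HasFDerivAt (aff H a R) (fderiv ℝ H (a + (2 * R) • w0 m) : EV m) x := by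
  unfold aff
  have h1 := (fderiv ℝ H (a + (2 * R) • w0 m) : EV m).hasFDerivAt
    (x := x - (a + (2 * R) • w0 m))
  have h2 : HasFDerivAt (fun y : V m => y - (a + (2 * R) • w0 m)) (1 : EV m) x :=
    (hasFDerivAt_id x).sub_const _
  exact (h1.comp x h2).const_add _

lemma contDiff_aff (H : V m → V m) (a : V m) (R : ℝ) : ContDiff ℝ ∞ (aff H a R) := by
  unfold aff
  exact contDiff_const.add ((ContinuousLinearMap.contDiff _).comp (contDiff_id.sub contDiff_const))

/-- interpolation between `H` and its affine approximation -/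
noncomputable def mix (H : V m → V m) (a : V m) (R : ℝ) (χ : V m → ℝ) (y : V m) : V m :=
  H y + χ ((2 * R)⁻¹ • (y - a)) • (aff H a R y - H y)

lemma hasFDerivAt_mix {H : V m → V m} (a : V m) (R : ℝ) {χ : V m → ℝ}
    (hχ : ContDiff ℝ ∞ χ) {x : V m} (hd : DifferentiableAt ℝ H x) :
    HasFDerivAt (mix H a R χ) ((fderiv ℝ H x : EV m) +
      (χ ((2 * R)⁻¹ • (x - a)) • ((fderiv ℝ H (a + (2 * R) • w0 m) : EV m) - fderiv ℝ H x) +
        ((fderiv ℝ χ ((2 * R)⁻¹ • (x - a))).comp ((2 * R)⁻¹ • (1 : EV m))).smulRight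
          (aff H a R x - H x))) x := by
  have h1 : HasFDerivAt H (fderiv ℝ H x) x := hd.hasFDerivAt
  have h2 := hasFDerivAt_aff H a R x
  have h3 : HasFDerivAt χ (fderiv ℝ χ ((2 * R)⁻¹ • (x - a))) ((2 * R)⁻¹ • (x - a)) :=
    (hχ.differentiable (by simp) _).hasFDerivAt
  have h4 := h3.comp x (hasFDerivAt_scale a (2 * R) x)
  exact h1.add (h4.smul (h2.sub h1))

lemma w0_mem_ann (hm : 2 ≤ m) {a : V m} {R : ℝ} (hR : 0 < R) :
    a + (2 * R) • w0 m ∈ ann a R := by
  have hw0 : ‖w0 m‖ = 3 / 4 := norm_w0 (by omega)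
  have h2 : ‖a + (2 * R) • w0 m - a‖ = 2 * R * (3 / 4) := by
    rw [add_sub_cancel_left, norm_smul, Real.norm_of_nonneg (by positivity), hw0]
  constructor <;> rw [h2] <;> linarith

lemma mix_near (hm : 2 ≤ m) {H : V m → V m} {a : V m} {R δ B : ℝ}
    (hH : Imm (ann a R) H)
    (hR : 0 < R) (hδ : 0 ≤ δ) (hF : Flat δ (ann a R) H) {χ : V m → ℝ} (hχ : ContDiff ℝ ∞ χ)
    (hB : ∀ v, ‖fderiv ℝ χ v‖ ≤ B) (h0 : ∀ v, 0 ≤ χ v) (h1 : ∀ v, χ v ≤ 1) {x : V m}
    (hx : x ∈ ann a R) :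
    ‖Ring.inverse (fderiv ℝ H (a + (2 * R) • w0 m) : EV m) * fderiv ℝ (mix H a R χ) x - 1‖ ≤
      δ * (1 + 6 * B) := by
  have hs : (2 * R) ≠ 0 := by positivity
  have hB0 : 0 ≤ B := (norm_nonneg _).trans (hB 0)
  set v : V m := (2 * R)⁻¹ • (x - a) with hv
  set L : EV m := fderiv ℝ H (a + (2 * R) • w0 m) with hL
  have hw0ann : a + (2 * R) • w0 m ∈ ann a R := w0_mem_ann hm hR
  have hLu : IsUnit L := (hH _ hw0ann).2
  have hLd : DifferentiableAt ℝ H (a + (2 * R) • w0 m) :=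
    (hH _ hw0ann).1.differentiableAt (by simp)
  have hw0 : ‖w0 m‖ = 3 / 4 := norm_w0 (by omega)
  have hvn : ‖v‖ = ‖x - a‖ / (2 * R) := norm_scale hR
  have hvann : v ∈ ann (0 : V m) (1 / 2) := by
    constructor
    · rw [sub_zero, hvn, le_div_iff₀ (by positivity)]
      linarith [hx.1]
    · rw [sub_zero, hvn, div_le_iff₀ (by positivity)]
      linarith [hx.2]
  have hann : ∀ u ∈ ann (0 : V m) (1 / 2), a + (2 * R) • u ∈ ann a R := by
    intro u hu
    have h2 : ‖a + (2 * R) • u - a‖ = 2 * R * ‖u‖ := by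
      rw [add_sub_cancel_left, norm_smul, Real.norm_of_nonneg (by positivity)]
    obtain ⟨hu1, hu2⟩ := hu
    rw [sub_zero] at hu1 hu2
    constructor
    · rw [h2]; nlinarith
    · rw [h2]; nlinarith
  have hImm : Imm (ann (0 : V m) (1 / 2)) (fun v => H (a + (2 * R) • v)) := by
    intro u hu
    obtain ⟨h3, h4⟩ := hH _ (hann u hu)
    constructor
    · have h2 : ContDiff ℝ ∞ (fun v : V m => a + (2 * R) • v) := by fun_prop
      exact ContDiffAt.comp u h3 h2.contDiffAt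
    · rw [(hasFDerivAt_hat (h3.differentiableAt (by simp))).fderiv]
      exact isUnit_smul hs h4
  have hFl : Flat δ (ann (0 : V m) (1 / 2)) (fun v => H (a + (2 * R) • v)) := by
    apply flat_comp hs
    · intro u hu
      exact ⟨(hH _ (hann u hu)).1.differentiableAt (by simp), (hH _ (hann u hu)).2⟩
    · intro y hy z hz
      obtain ⟨y, hy, rfl⟩ := hy
      obtain ⟨z, hz, rfl⟩ := hz
      exact hF _ (hann y hy) _ (hann z hz)
  have hnear := (nrm_near hm hδ hImm hFl hvann).2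
  have hflat : ‖Ring.inverse L * fderiv ℝ H x - 1‖ ≤ δ := hF _ hw0ann _ hx
  have hd := (hasFDerivAt_mix a R hχ ((hH x hx).1.differentiableAt (by simp))).fderiv
  have hval := aff_sub (a := a) hR hLd hLu x
  rw [← hv, ← hL] at hval hd
  apply ContinuousLinearMap.opNorm_le_bound _ (by positivity)
  intro w
  have hexp : (Ring.inverse L * fderiv ℝ (mix H a R χ) x - 1 : EV m) w =
      (1 - χ v) • ((Ring.inverse L * fderiv ℝ H x - 1 : EV m) w) +
        (fderiv ℝ χ v w) • (v - nrm (fun v => H (a + (2 * R) • v)) v) := by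
    have e1 : (Ring.inverse L * fderiv ℝ (mix H a R χ) x - 1 : EV m) w =
        Ring.inverse L (fderiv ℝ (mix H a R χ) x w) - w := rfl
    have e2 : (Ring.inverse L * fderiv ℝ H x - 1 : EV m) w =
        Ring.inverse L (fderiv ℝ H x w) - w := rfl
    have e3 : fderiv ℝ (mix H a R χ) x w = fderiv ℝ H x w +
        (χ v • (L w - fderiv ℝ H x w) +
          (fderiv ℝ χ v ((2 * R)⁻¹ • w)) • (aff H a R x - H x)) := by
      rw [hd]
      rfl
    rw [e1, e2, e3, ← hval, map_add, map_add, map_smul, map_smul, map_smul, map_sub,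
      inv_app hLu, smul_eq_mul, smul_smul]
    module
  rw [hexp]
  have hχ1 : ‖(1 - χ v)‖ ≤ 1 := by
    rw [Real.norm_eq_abs, abs_le]
    constructor <;> linarith [h0 v, h1 v]
  calc ‖(1 - χ v) • ((Ring.inverse L * fderiv ℝ H x - 1 : EV m) w) +
        (fderiv ℝ χ v w) • (v - nrm (fun v => H (a + (2 * R) • v)) v)‖
      ≤ ‖(1 - χ v)‖ * ‖(Ring.inverse L * fderiv ℝ H x - 1 : EV m) w‖ +
        ‖fderiv ℝ χ v w‖ * ‖v - nrm (fun v => H (a + (2 * R) • v)) v‖ := by
        refine (norm_add_le _ _).trans ?_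
        rw [norm_smul, norm_smul]
    _ ≤ 1 * (δ * ‖w‖) + (B * ‖w‖) * (6 * δ) := by
        apply add_le_add
        · apply mul_le_mul hχ1 _ (norm_nonneg _) zero_le_one
          exact (ContinuousLinearMap.le_opNorm _ w).trans
            (mul_le_mul_of_nonneg_right hflat (norm_nonneg _))
        · apply mul_le_mul _ _ (norm_nonneg _) (by positivity)
          · exact (ContinuousLinearMap.le_opNorm _ w).trans
              (mul_le_mul_of_nonneg_right (hB v) (norm_nonneg _))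
          · rw [norm_sub_rev]
            exact hnear
    _ = δ * (1 + 6 * B) * ‖w‖ := by ring

lemma exists_fderiv_bound {χ : V m → ℝ} (hχ : ContDiff ℝ ∞ χ)
    (hc : HasCompactSupport χ) : ∃ B : ℝ, 0 ≤ B ∧ ∀ v, ‖fderiv ℝ χ v‖ ≤ B := by
  obtain ⟨B, hB⟩ := (hχ.continuous_fderiv (by simp)).bounded_above_of_compact_support
    (hc.fderiv ℝ)
  exact ⟨max B 0, le_max_right _ _, fun v => (hB v).trans (le_max_left _ _)⟩

/-- the product of the cut-off functions -/
noncomputable def kapp (m : ℕ) (v : V m) : ℝ := cut2 m v * (1 - cut m v)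

lemma contDiff_kapp (m : ℕ) : ContDiff ℝ ∞ (kapp m) := by
  unfold kapp
  exact (cut2 m).contDiff.mul (contDiff_const.sub (cut m).contDiff)

lemma compact_kapp (m : ℕ) : HasCompactSupport (kapp m) := by
  unfold kapp
  exact (cut2 m).hasCompactSupport.mul_right

lemma cut2_one {v : V m} (hv : ‖v‖ ≤ 3 / 4) : cut2 m v = 1 := by
  apply (cut2 m).one_of_mem_closedBall
  rw [mem_closedBall_zero_iff]
  exact hv

lemma cut2_zero {v : V m} (hv : 7 / 8 ≤ ‖v‖) : cut2 m v = 0 := by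
  apply (cut2 m).zero_of_le_dist
  rw [dist_zero_right]
  exact hv

lemma cut_one {v : V m} (hv : ‖v‖ ≤ 1 / 2) : cut m v = 1 := by
  apply (cut m).one_of_mem_closedBall
  rw [mem_closedBall_zero_iff]
  exact hv

lemma kapp_nonneg (v : V m) : 0 ≤ kapp m v := by
  unfold kapp
  exact mul_nonneg (cut2 m).nonneg (by linarith [(cut m).le_one (x := v)])

lemma kapp_le_one (v : V m) : kapp m v ≤ 1 := by
  unfold kapp
  exact mul_le_one₀ (cut2 m).le_one (by linarith [(cut m).le_one (x := v)])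
    (by linarith [(cut m).nonneg (x := v)])

lemma kapp_inner {v : V m} (hv : ‖v‖ ≤ 1 / 2) : kapp m v = 0 := by
  unfold kapp
  rw [cut_one hv, sub_self, mul_zero]

lemma kapp_outer {v : V m} (hv : 7 / 8 ≤ ‖v‖) : kapp m v = 0 := by
  unfold kapp
  rw [cut2_zero hv, zero_mul]

/-- an interpolation that changes nothing off the annulus is an immersion -/
lemma mix_unit (hm : 2 ≤ m) {H : V m → V m} {U : Set (V m)} {a : V m} {R δ B : ℝ}
    (hH : Imm U H) (hU : ann a R ⊆ U)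
    (hR : 0 < R) (hδ : 0 ≤ δ) (hF : Flat δ (ann a R) H) {χ : V m → ℝ} (hχ : ContDiff ℝ ∞ χ)
    (hB : ∀ v, ‖fderiv ℝ χ v‖ ≤ B) (h0 : ∀ v, 0 ≤ χ v) (h1 : ∀ v, χ v ≤ 1)
    (hsmall : δ * (1 + 6 * B) ≤ 1 / 8) (hz : ∀ v, ‖v‖ ≤ 1 / 2 → χ v = 0)
    (hz' : ∀ v, 7 / 8 ≤ ‖v‖ → χ v = 0) {x : V m} (hx : x ∈ U) :
    IsUnit (fderiv ℝ (mix H a R χ) x : EV m) := by
  by_cases hxa : x ∈ ann a R
  · apply isUnit_of_near' (hH _ (hU (w0_mem_ann hm hR))).2
    exact ((mix_near hm (fun y hy => hH y (hU hy)) hR hδ hF hχ hB h0 h1 hxa).trans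
      hsmall).trans_lt (by norm_num)
  · have h1 : mix H a R χ =ᶠ[𝓝 x] H := by
      have hcont : Continuous fun y : V m => ‖y - a‖ := by fun_prop
      have hx' : ‖x - a‖ < R ∨ 2 * R < ‖x - a‖ := by
        by_contra hcon
        push Not at hcon
        exact hxa hcon
      rcases hx' with hx' | hx'
      · have h3 : ∀ᶠ y in 𝓝 x, ‖y - a‖ < R :=
          Filter.Tendsto.eventually_lt_const hx' hcont.continuousAt
        filter_upwards [h3] with y hy
        have h4 : ‖(2 * R)⁻¹ • (y - a)‖ ≤ 1 / 2 := by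
          rw [norm_scale hR, div_le_iff₀ (by positivity)]
          linarith
        unfold mix
        rw [hz _ h4, zero_smul, add_zero]
      · have h3 : ∀ᶠ y in 𝓝 x, 2 * R < ‖y - a‖ :=
          Filter.Tendsto.eventually_const_lt hx' hcont.continuousAt
        filter_upwards [h3] with y hy
        have h4 : 7 / 8 ≤ ‖(2 * R)⁻¹ • (y - a)‖ := by
          rw [norm_scale hR, le_div_iff₀ (by positivity)]
          linarith
        unfold mix
        rw [hz' _ h4, zero_smul, add_zero]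
    rw [h1.fderiv_eq]
    exact (hH x hx).2

lemma ins_rep_eq {H : V m → V m} {a : V m} {R : ℝ} (hR : 0 < R)
    (hd : DifferentiableAt ℝ H (a + (2 * R) • w0 m))
    (hu : IsUnit (fderiv ℝ H (a + (2 * R) • w0 m) : EV m)) :
    ins H a R (rep H a R) = mix H a R (kapp m) := by
  funext x
  have hs : (2 * R) ≠ 0 := by positivity
  have hval := aff_sub (a := a) hR hd hu x
  unfold ins mix kapp rep core
  set v : V m := (2 * R)⁻¹ • (x - a) with hv
  set N : V m := nrm (fun v => H (a + (2 * R) • v)) v with hN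
  have h1 : a + (2 * R) • v = x := unscale hR
  have h2 : fderiv ℝ H (a + (2 * R) • w0 m) ((2 * R) • (N - v)) = H x - aff H a R x := by
    have h3 : N - v = (2 * R)⁻¹ • Ring.inverse (fderiv ℝ H (a + (2 * R) • w0 m) : EV m)
        (H x - aff H a R x) := by
      have h4 : H x - aff H a R x = - (aff H a R x - H x) := by abel
      rw [h4, map_neg, smul_neg, hval]
      abel
    rw [h3, smul_smul, mul_inv_cancel₀ hs, one_smul, app_inv hu]
  have h5 : aff H a R (a + (2 * R) • (v + cut m v • (N - v))) =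
      aff H a R x + cut m v • (H x - aff H a R x) := by
    rw [← h2]
    have h6 : a + (2 * R) • (v + cut m v • (N - v)) = x + cut m v • ((2 * R) • (N - v)) := by
      rw [smul_add, ← add_assoc, h1, smul_comm]
    rw [h6]
    unfold aff
    rw [add_sub_right_comm, map_add, map_smul]
    abel
  rw [h5]
  module

lemma contDiffAt_ins {H : V m → V m} (a : V m) (R : ℝ) {K : ℝ × V m → V m}
    (hK : ContDiff ℝ ∞ K) {t : ℝ} {x : V m} (hx : ContDiffAt ℝ ∞ H x) :
    ContDiffAt ℝ ∞ (fun q : ℝ × V m => ins H a R (fun v => K (q.1, v)) q.2) (t, x) := by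
  unfold ins
  have h1 : ContDiff ℝ ∞ (fun q : ℝ × V m => (2 * R)⁻¹ • (q.2 - a)) := by fun_prop
  have h2 : ContDiff ℝ ∞ (fun q : ℝ × V m => K (q.1, (2 * R)⁻¹ • (q.2 - a))) :=
    hK.comp (contDiff_fst.prodMk h1)
  have h3 : ContDiff ℝ ∞ (fun q : ℝ × V m => cut2 m ((2 * R)⁻¹ • (q.2 - a))) :=
    (cut2 m).contDiff.comp h1
  have h4 : ContDiffAt ℝ ∞ (fun q : ℝ × V m => H q.2) (t, x) :=
    ContDiffAt.comp (t, x) hx contDiffAt_snd
  have h5 : ContDiff ℝ ∞ (fun q : ℝ × V m =>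
      aff H a R (a + (2 * R) • K (q.1, (2 * R)⁻¹ • (q.2 - a)))) :=
    (contDiff_aff H a R).comp (contDiff_const.add (h2.const_smul _))
  exact h4.add (h3.contDiffAt.smul (h5.contDiffAt.sub h4))

lemma ins_outer {H : V m → V m} {a : V m} {R : ℝ} (hR : 0 < R) (k : V m → V m) {x : V m}
    (hx : 7 / 4 * R ≤ ‖x - a‖) : ins H a R k x = H x := by
  have h1 : 7 / 8 ≤ ‖(2 * R)⁻¹ • (x - a)‖ := by
    rw [norm_scale hR, le_div_iff₀ (by positivity)]
    linarith
  unfold ins
  rw [cut2_zero h1, zero_smul, add_zero]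

lemma ins_inner {H : V m → V m} {a : V m} {R : ℝ} (hR : 0 < R)
    {k : V m → V m} (hk : Dif k) {x : V m} (hx : ‖x - a‖ < 3 / 2 * R) :
    (fderiv ℝ (ins H a R k) x : EV m) =
        fderiv ℝ H (a + (2 * R) • w0 m) * fderiv ℝ k ((2 * R)⁻¹ • (x - a)) := by
  have hs : (2 * R) ≠ 0 := by positivity
  have h1 : ins H a R k =ᶠ[𝓝 x] fun y => aff H a R (a + (2 * R) • k ((2 * R)⁻¹ • (y - a))) := by
    have h2 : ∀ᶠ y in 𝓝 x, ‖y - a‖ < 3 / 2 * R := by
      apply Filter.Tendsto.eventually_lt_const hx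
      have : Continuous fun y : V m => ‖y - a‖ := by fun_prop
      exact this.continuousAt
    filter_upwards [h2] with y hy
    have h3 : ‖(2 * R)⁻¹ • (y - a)‖ ≤ 3 / 4 := by
      rw [norm_scale hR, div_le_iff₀ (by positivity)]
      linarith
    unfold ins
    rw [cut2_one h3, one_smul, add_sub_cancel]
  rw [h1.fderiv_eq]
  have h4 : HasFDerivAt k (fderiv ℝ k ((2 * R)⁻¹ • (x - a))) ((2 * R)⁻¹ • (x - a)) :=
    (hk.smooth.differentiable (by simp) _).hasFDerivAt
  have h5 := ((h4.comp x (hasFDerivAt_scale a (2 * R) x)).const_smul (2 * R)).const_add a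
  have h6 := (hasFDerivAt_aff H a R _).comp x h5
  have h7 := h6.fderiv
  refine h7.trans ?_
  ext1 w
  change fderiv ℝ H (a + (2 * R) • w0 m) ((2 * R) • (fderiv ℝ k ((2 * R)⁻¹ • (x - a))
    ((2 * R)⁻¹ • w))) = fderiv ℝ H (a + (2 * R) • w0 m) (fderiv ℝ k ((2 * R)⁻¹ • (x - a)) w)
  rw [map_smul, map_smul, map_smul, smul_smul, mul_inv_cancel₀ hs, one_smul]

/-- the derivative of a core is the identity outside the open ball of radius `3/4` -/
lemma dif_fderiv_one {k : V m → V m} (hk : Dif k) {v : V m} (hv : 3 / 4 ≤ ‖v‖) :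
    (fderiv ℝ k v : EV m) = 1 := by
  have hcl : IsClosed {y : V m | (fderiv ℝ k y : EV m) = 1} :=
    isClosed_eq (hk.smooth.continuous_fderiv (by simp)) continuous_const
  have hsub : (closedBall (0 : V m) (3 / 4))ᶜ ⊆ {y : V m | (fderiv ℝ k y : EV m) = 1} := by
    intro y hy
    have h1 : k =ᶠ[𝓝 y] fun z => z := by
      filter_upwards [isClosed_closedBall.isOpen_compl.mem_nhds hy] with z hz
      apply hk.supp
      rw [mem_compl_iff, mem_closedBall_zero_iff, not_le] at hz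
      exact hz.le
    show (fderiv ℝ k y : EV m) = 1
    rw [h1.fderiv_eq]
    exact fderiv_id'
  have h2 := hcl.closure_subset_iff.2 hsub
  apply h2
  rw [closure_compl, interior_closedBall (0 : V m) (by norm_num), mem_compl_iff,
    mem_ball_zero_iff, not_lt]
  exact hv

lemma ins_fderiv_mix {H : V m → V m} {a : V m} {R : ℝ} (hR : 0 < R)
    {k : V m → V m} (hk : Dif k) {x : V m} (hd : DifferentiableAt ℝ H x)
    (hx : 3 / 2 * R ≤ ‖x - a‖) :
    fderiv ℝ (ins H a R k) x = fderiv ℝ (mix H a R (cut2 m)) x := by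
  have hs : (2 * R) ≠ 0 := by positivity
  have hv : 3 / 4 ≤ ‖(2 * R)⁻¹ • (x - a)‖ := by
    rw [norm_scale hR, le_div_iff₀ (by positivity)]
    linarith
  rw [(hasFDerivAt_mix a R (cut2 m).contDiff hd).fderiv]
  have h1 : HasFDerivAt H (fderiv ℝ H x) x := hd.hasFDerivAt
  have h4 : HasFDerivAt k (fderiv ℝ k ((2 * R)⁻¹ • (x - a))) ((2 * R)⁻¹ • (x - a)) :=
    (hk.smooth.differentiable (by simp) _).hasFDerivAt
  have h5 := ((h4.comp x (hasFDerivAt_scale a (2 * R) x)).const_smul (2 * R)).const_add a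
  have h6 := (hasFDerivAt_aff H a R _).comp x h5
  have h7 : HasFDerivAt (cut2 m) (fderiv ℝ (cut2 m) ((2 * R)⁻¹ • (x - a)))
      ((2 * R)⁻¹ • (x - a)) := ((cut2 m).contDiff.differentiable (n := ∞) (by simp) _).hasFDerivAt
  have h8 := h7.comp x (hasFDerivAt_scale a (2 * R) x)
  have h9 := h1.add (h8.smul (h6.sub h1))
  have h10 : HasFDerivAt (ins H a R k) _ x := h9
  rw [h10.fderiv]
  rw [dif_fderiv_one hk hv]
  ext1 w
  have e1 : k ((2 * R)⁻¹ • (x - a)) = (2 * R)⁻¹ • (x - a) := hk.supp _ hv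
  have e2 : a + (2 * R) • ((2 * R)⁻¹ • (x - a)) = x := unscale hR
  have e3 : (2 * R) • ((2 * R)⁻¹ • w) = w := by
    rw [smul_smul, mul_inv_cancel₀ hs, one_smul]
  have e4 : aff H a R ((fun x => a + (2 * R) • (k ∘ fun y => (2 * R)⁻¹ • (y - a)) x) x) =
      aff H a R x := by
    show aff H a R (a + (2 * R) • k ((2 * R)⁻¹ • (x - a))) = _
    rw [e1, e2]
  change fderiv ℝ H x w + (cut2 m ((2 * R)⁻¹ • (x - a)) •
      (fderiv ℝ H (a + (2 * R) • w0 m) ((2 * R) • ((2 * R)⁻¹ • w)) - fderiv ℝ H x w) +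
      (fderiv ℝ (cut2 m) ((2 * R)⁻¹ • (x - a)) ((2 * R)⁻¹ • w)) •
        (aff H a R (a + (2 * R) • k ((2 * R)⁻¹ • (x - a))) - H x)) =
    fderiv ℝ H x w + (cut2 m ((2 * R)⁻¹ • (x - a)) •
      (fderiv ℝ H (a + (2 * R) • w0 m) w - fderiv ℝ H x w) +
      (fderiv ℝ (cut2 m) ((2 * R)⁻¹ • (x - a)) ((2 * R)⁻¹ • w)) • (aff H a R x - H x))
  rw [e1, e2, e3]

lemma ins_unit (hm : 2 ≤ m) {H : V m → V m} {U : Set (V m)} {a : V m} {R δ B : ℝ}
    (hH : Imm U H) (hU : ann a R ⊆ U)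
    (hR : 0 < R) (hδ : 0 ≤ δ) (hF : Flat δ (ann a R) H)
    (hB : ∀ v, ‖fderiv ℝ (cut2 m) v‖ ≤ B) (hsmall : δ * (1 + 6 * B) ≤ 1 / 8) {k : V m → V m}
    (hk : Dif k) {x : V m} (hx : x ∈ U) : IsUnit (fderiv ℝ (ins H a R k) x : EV m) := by
  rcases lt_or_ge ‖x - a‖ (3 / 2 * R) with hxr | hxr
  · rw [ins_inner hR hk hxr]
    exact (hH _ (hU (w0_mem_ann hm hR))).2.mul (hk.unit _)
  · rcases le_or_gt ‖x - a‖ (2 * R) with hx2 | hx2
    · apply isUnit_of_near' (hH _ (hU (w0_mem_ann hm hR))).2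
      rw [ins_fderiv_mix hR hk ((hH x hx).1.differentiableAt (by simp)) hxr]
      exact ((mix_near hm (fun y hy => hH y (hU hy)) hR hδ hF (cut2 m).contDiff hB
        (fun v => (cut2 m).nonneg) (fun v => (cut2 m).le_one)
        ⟨by linarith, hx2⟩).trans hsmall).trans_lt (by norm_num)
    · have h2 : ins H a R k =ᶠ[𝓝 x] H := by
        have h3 : ∀ᶠ y in 𝓝 x, 2 * R < ‖y - a‖ := by
          apply Filter.Tendsto.eventually_const_lt hx2
          have : Continuous fun y : V m => ‖y - a‖ := by fun_prop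
          exact this.continuousAt
        filter_upwards [h3] with y hy
        exact ins_outer hR k (by linarith)
      rw [h2.fderiv_eq]
      exact (hH x hx).2

/-- the path between `H` and `mix H a R kapp` with a time function `σ` -/
lemma mix_path (hm : 2 ≤ m) {H : V m → V m} {U : Set (V m)} {a : V m} {R δ B : ℝ}
    (hH : Imm U H) (hU : ann a R ⊆ U)
    (hR : 0 < R) (hδ : 0 ≤ δ) (hF : Flat δ (ann a R) H)
    (hB0 : 0 ≤ B) (hB : ∀ v, ‖fderiv ℝ (kapp m) v‖ ≤ B) (hsmall : δ * (1 + 6 * B) ≤ 1 / 8)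
    {σ : ℝ → ℝ} (hσ : ContDiff ℝ ∞ σ) (h0 : ∀ t, 0 ≤ σ t) (h1 : ∀ t, σ t ≤ 1) (t : ℝ) {x : V m}
    (hx : x ∈ U) :
    ContDiffAt ℝ ∞ (fun q : ℝ × V m => mix H a R (fun v => σ q.1 * kapp m v) q.2) (t, x) ∧
      IsUnit (fderiv ℝ (fun y => mix H a R (fun v => σ t * kapp m v) y) x : EV m) := by
  constructor
  · unfold mix
    have e1 : ContDiff ℝ ∞ (fun q : ℝ × V m => (2 * R)⁻¹ • (q.2 - a)) := by fun_prop
    have e3 : ContDiff ℝ ∞ (fun q : ℝ × V m => σ q.1 * kapp m ((2 * R)⁻¹ • (q.2 - a))) :=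
      (hσ.comp contDiff_fst).mul ((contDiff_kapp m).comp e1)
    have e4 : ContDiffAt ℝ ∞ (fun q : ℝ × V m => H q.2) (t, x) :=
      ContDiffAt.comp (t, x) (hH x hx).1 contDiffAt_snd
    have e5 : ContDiff ℝ ∞ (fun q : ℝ × V m => aff H a R q.2) :=
      (contDiff_aff H a R).comp contDiff_snd
    exact e4.add (e3.contDiffAt.smul (e5.contDiffAt.sub e4))
  · refine mix_unit hm hH hU hR hδ hF (χ := fun v => σ t * kapp m v)
      (contDiff_const.mul (contDiff_kapp m)) (B := B) ?_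
      (fun v => mul_nonneg (h0 t) (kapp_nonneg v))
      (fun v => mul_le_one₀ (h1 t) (kapp_nonneg v) (kapp_le_one v)) hsmall
      (fun v hv => by rw [kapp_inner hv, mul_zero]) (fun v hv => by rw [kapp_outer hv, mul_zero])
      hx
    intro v
    have h2 : HasFDerivAt (fun v => σ t * kapp m v) (σ t • fderiv ℝ (kapp m) v) v :=
      (((contDiff_kapp m).differentiable (by simp) v).hasFDerivAt).const_mul (σ t)
    rw [h2.fderiv, norm_smul, Real.norm_of_nonneg (h0 t)]
    calc σ t * ‖fderiv ℝ (kapp m) v‖ ≤ 1 * B :=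
          mul_le_mul (h1 t) (hB v) (norm_nonneg _) zero_le_one
      _ = B := one_mul B

end Pool.Agent.Lib.P28g.LocPathAux

open MeasureTheory Set Metric
open scoped ContDiff Topology ENNReal

namespace Pool.Agent.Lib.P28g

open Pool.Agent.P28b04d Pool.Agent.Lib.P28e Pool.Agent.Lib.P28c
open Pool.Agent.Lib.P28f (V EV ann Flat Imm rep ins aff w0 Dif cut2)

variable {n m : ℕ}

theorem loc_path (m : ℕ) (hm : 2 ≤ m) : ∃ δ₀ : ℝ, 0 < δ₀ ∧ ∀ (f g : V m → V m) (s : ℝ), 0 < s →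
    Imm (ball 0 s) f → Imm (ball 0 s) g → (∀ x, s / 4 ≤ ‖x‖ → ‖x‖ < s → f x = g x) →
    Flat δ₀ (ann 0 (s / 4)) f → Flat δ₀ (ann 0 (s / 4)) g →
    P28f.Iso (rep f 0 (s / 4)) (rep g 0 (s / 4)) →
    ∃ f1 f2 : V m → V m, LStep s f f1 ∧ LStep s f1 f2 ∧ LStep s f2 g := by
  classical
  obtain ⟨B1, hB1, hB1'⟩ := LocPathAux.exists_fderiv_bound (cut2 m).contDiff
    (cut2 m).hasCompactSupport
  obtain ⟨B2, hB2, hB2'⟩ := LocPathAux.exists_fderiv_bound (LocPathAux.contDiff_kapp m)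
    (LocPathAux.compact_kapp m)
  obtain ⟨B, hBdef⟩ : ∃ B, B = max B1 B2 := ⟨_, rfl⟩
  have hB : 0 ≤ B := by rw [hBdef]; exact hB1.trans (le_max_left _ _)
  refine ⟨1 / (8 * (1 + 6 * B)), by positivity, ?_⟩
  intro f g s hs hf hg hfg hFf hFg hiso
  obtain ⟨δ, hδdef⟩ : ∃ δ : ℝ, δ = 1 / (8 * (1 + 6 * B)) := ⟨_, rfl⟩
  rw [← hδdef] at hFf hFg
  have hδ : 0 < δ := by rw [hδdef]; positivity
  have hsm : δ * (1 + 6 * B) ≤ 1 / 8 := by
    rw [hδdef]
    field_simp
    exact le_refl _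
  have hcut2 : ∀ v, ‖fderiv ℝ (cut2 m) v‖ ≤ B := fun v =>
    (hB1' v).trans (by rw [hBdef]; exact le_max_left _ _)
  have hkap : ∀ v, ‖fderiv ℝ (LocPathAux.kapp m) v‖ ≤ B := fun v =>
    (hB2' v).trans (by rw [hBdef]; exact le_max_right _ _)
  have hR : 0 < s / 4 := by positivity
  have hU : ann (0 : V m) (s / 4) ⊆ ball 0 s := by
    intro x hx
    rw [mem_ball_zero_iff]
    have := hx.2
    rw [sub_zero] at this
    linarith
  have hw := hU (LocPathAux.w0_mem_ann hm (a := (0 : V m)) hR)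
  have hball : ∀ x : V m, ‖x‖ < s → x ∈ ball (0 : V m) s := fun x hx => by
    rw [mem_ball_zero_iff]; exact hx
  have hfw := hf _ hw
  have hgw := hg _ hw
  have hfi := LocPathAux.ins_rep_eq hR (hfw.1.differentiableAt (by simp)) hfw.2
  have hgi := LocPathAux.ins_rep_eq hR (hgw.1.differentiableAt (by simp)) hgw.2
  -- the affine approximations agree
  have hw0 : ‖(0 : V m) + (2 * (s / 4)) • w0 m‖ = 3 / 8 * s := by
    rw [zero_add, norm_smul, Real.norm_of_nonneg (by positivity), P28f.norm_w0 (by omega)]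
    ring
  have hval : f ((0 : V m) + (2 * (s / 4)) • w0 m) = g ((0 : V m) + (2 * (s / 4)) • w0 m) :=
    hfg _ (by rw [hw0]; linarith) (by rw [hw0]; linarith)
  have hev : f =ᶠ[𝓝 ((0 : V m) + (2 * (s / 4)) • w0 m)] g := by
    have h1 : ∀ᶠ y in 𝓝 ((0 : V m) + (2 * (s / 4)) • w0 m), s / 4 < ‖y‖ :=
      Filter.Tendsto.eventually_const_lt (by
        show s / 4 < ‖(0 : V m) + (2 * (s / 4)) • w0 m‖
        rw [hw0]; linarith) continuous_norm.continuousAt
    have h2 : ∀ᶠ y in 𝓝 ((0 : V m) + (2 * (s / 4)) • w0 m), ‖y‖ < s :=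
      Filter.Tendsto.eventually_lt_const (by
        show ‖(0 : V m) + (2 * (s / 4)) • w0 m‖ < s
        rw [hw0]; linarith) continuous_norm.continuousAt
    filter_upwards [h1, h2] with y hy1 hy2
    exact hfg y hy1.le hy2
  have haff : aff f 0 (s / 4) = aff g 0 (s / 4) := by
    funext y
    unfold P28f.aff
    rw [hval, hev.fderiv_eq]
  have hins : ∀ k : V m → V m, Dif k → ∀ x, ‖x‖ < s →
      ins f 0 (s / 4) k x = ins g 0 (s / 4) k x := by
    intro k hk x hx
    rcases le_or_gt ‖x‖ (3 / 8 * s) with h | h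
    · have h3 : ‖(2 * (s / 4))⁻¹ • (x - 0)‖ ≤ 3 / 4 := by
        rw [LocPathAux.norm_scale hR, sub_zero, div_le_iff₀ (by positivity)]
        linarith
      unfold P28f.ins
      rw [LocPathAux.cut2_one h3, haff]
      simp
    · unfold P28f.ins
      rw [haff, hfg x (by linarith) hx]
  refine ⟨ins f 0 (s / 4) (rep f 0 (s / 4)), ins f 0 (s / 4) (rep g 0 (s / 4)), ?_, ?_, ?_⟩
  · refine ⟨fun q => LocPathAux.mix f 0 (s / 4)
      (fun v => Real.smoothTransition q.1 * LocPathAux.kapp m v) q.2, ?_, ?_, ?_, ?_⟩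
    · intro t x hx
      exact LocPathAux.mix_path hm hf hU hR hδ.le hFf hB hkap hsm
        Real.smoothTransition.contDiff Real.smoothTransition.nonneg
        Real.smoothTransition.le_one t (hball x hx)
    · intro t x hx1 hx2
      have h4 : 7 / 8 ≤ ‖(2 * (s / 4))⁻¹ • (x - 0)‖ := by
        rw [LocPathAux.norm_scale hR, sub_zero, le_div_iff₀ (by positivity)]
        linarith
      show f x + (Real.smoothTransition t * LocPathAux.kapp m ((2 * (s / 4))⁻¹ • (x - 0))) •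
        (aff f 0 (s / 4) x - f x) = f x
      rw [LocPathAux.kapp_outer h4, mul_zero, zero_smul, add_zero]
    · intro x hx
      show f x + (Real.smoothTransition 0 * LocPathAux.kapp m ((2 * (s / 4))⁻¹ • (x - 0))) •
        (aff f 0 (s / 4) x - f x) = f x
      rw [Real.smoothTransition.zero, zero_mul, zero_smul, add_zero]
    · intro x hx
      rw [hfi]
      show f x + (Real.smoothTransition 1 * LocPathAux.kapp m ((2 * (s / 4))⁻¹ • (x - 0))) •
        (aff f 0 (s / 4) x - f x) = f x + LocPathAux.kapp m ((2 * (s / 4))⁻¹ • (x - 0)) •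
        (aff f 0 (s / 4) x - f x)
      rw [Real.smoothTransition.one, one_mul]
  · obtain ⟨K, hK, hKD, hK0, hK1⟩ := hiso
    refine ⟨fun q => ins f 0 (s / 4) (fun v => K (q.1, v)) q.2, ?_, ?_, ?_, ?_⟩
    · intro t x hx
      exact ⟨LocPathAux.contDiffAt_ins 0 (s / 4) hK (hf x (hball x hx)).1,
        LocPathAux.ins_unit hm hf hU hR hδ.le hFf hcut2 hsm (hKD t) (hball x hx)⟩
    · intro t x hx1 hx2
      have h4 : 7 / 4 * (s / 4) ≤ ‖x - 0‖ := by
        rw [sub_zero]; linarith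
      show ins f 0 (s / 4) (fun v => K (t, v)) x = ins f 0 (s / 4) (rep f 0 (s / 4)) x
      rw [LocPathAux.ins_outer hR _ h4, LocPathAux.ins_outer hR _ h4]
    · intro x hx
      have : (fun v => K (0, v)) = rep f 0 (s / 4) := funext hK0
      simp only [this]
    · intro x hx
      have : (fun v => K (1, v)) = rep g 0 (s / 4) := funext hK1
      simp only [this]
  · have hDg : Dif (rep g 0 (s / 4)) := hiso.right
    have hσ : ContDiff ℝ ∞ (fun t : ℝ => Real.smoothTransition (1 - t)) :=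
      Real.smoothTransition.contDiff.comp (contDiff_const.sub contDiff_id)
    refine ⟨fun q => LocPathAux.mix g 0 (s / 4)
      (fun v => Real.smoothTransition (1 - q.1) * LocPathAux.kapp m v) q.2, ?_, ?_, ?_, ?_⟩
    · intro t x hx
      exact LocPathAux.mix_path hm hg hU hR hδ.le hFg hB hkap hsm hσ
        (fun t => Real.smoothTransition.nonneg _) (fun t => Real.smoothTransition.le_one _) t
        (hball x hx)
    · intro t x hx1 hx2
      have h4 : 7 / 8 ≤ ‖(2 * (s / 4))⁻¹ • (x - 0)‖ := by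
        rw [LocPathAux.norm_scale hR, sub_zero, le_div_iff₀ (by positivity)]
        linarith
      have h5 : 7 / 4 * (s / 4) ≤ ‖x - 0‖ := by
        rw [sub_zero]; linarith
      rw [hins _ hDg x hx2, LocPathAux.ins_outer hR _ h5]
      show g x + (Real.smoothTransition (1 - t) * LocPathAux.kapp m ((2 * (s / 4))⁻¹ • (x - 0))) •
        (aff g 0 (s / 4) x - g x) = g x
      rw [LocPathAux.kapp_outer h4, mul_zero, zero_smul, add_zero]
    · intro x hx
      rw [hins _ hDg x hx, hgi]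
      show g x + (Real.smoothTransition (1 - 0) * LocPathAux.kapp m ((2 * (s / 4))⁻¹ • (x - 0))) •
        (aff g 0 (s / 4) x - g x) = g x + LocPathAux.kapp m ((2 * (s / 4))⁻¹ • (x - 0)) •
        (aff g 0 (s / 4) x - g x)
      rw [sub_zero (1 : ℝ), Real.smoothTransition.one, one_mul]
    · intro x hx
      show g x + (Real.smoothTransition (1 - 1) * LocPathAux.kapp m ((2 * (s / 4))⁻¹ • (x - 0))) •
        (aff g 0 (s / 4) x - g x) = g x
      rw [sub_self (1 : ℝ), Real.smoothTransition.zero, zero_mul, zero_smul, add_zero]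

end Pool.Agent.Lib.P28g
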