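import Pool.Agent.Lib.P28f.CorePath
import Pool.Agent.Lib.P28f.RingNear
import Pool.Agent.Lib.P28g.Defs

set_option autoImplicit false

/-!
# Close maps have isotopic local representatives

PROOF SKETCH. `core_path` for `F (t, v) = (1 - t) • f (a + (2 R) • v) + t • g (a + (2 R) • v)` (as in `rep_move`; `rep f a R = core fun v => f (a + (2 R) • v)`). Derivative in `v` at `x = a + (2 R) v`: `(2 R) • ((1-t) df x + t dg x)`, a unit (`isUnit_seg`, `δ₀ < 1`). With `h_t = (1-t) f + t g`, `h_t' x = df x (1 + t e_x)`,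
`e_x = (df x)⁻¹ dg x - 1`, `‖e_x‖ ≤ δ₀`: `(h_t' x)⁻¹ h_t' y = (1 + t e_x)⁻¹ ((df x)⁻¹ df y) (1 + t e_y)`, within `4 δ₀` of `1` on `ann a R` for small `δ₀`. The scaling cancels (`flat_comp`).
-/

open MeasureTheory Set Metric
open scoped ContDiff Topology ENNReal

namespace Pool.Agent.Lib.P28g

open Pool.Agent.P28b04d Pool.Agent.Lib.P28e Pool.Agent.Lib.P28c
open Pool.Agent.Lib.P28f (V EV ann Flat Imm rep)

variable {n m : ℕ}

namespace RepCloseAux

/-- the segment between two maps -/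
noncomputable def hseg (f g : V m → V m) (t : ℝ) (y : V m) : V m := (1 - t) • f y + t • g y

theorem hseg_fderiv {f g : V m → V m} {x : V m} (hf : DifferentiableAt ℝ f x)
    (hg : DifferentiableAt ℝ g x) (t : ℝ) :
    fderiv ℝ (hseg f g t) x = (1 - t) • (fderiv ℝ f x : EV m) + t • (fderiv ℝ g x : EV m) := by
  have h1 := (hf.hasFDerivAt.const_smul (1 - t)).add (hg.hasFDerivAt.const_smul t)
  exact h1.fderiv

theorem seg_near {A B : EV m} {δ : ℝ} (hA : IsUnit A) (h : ‖Ring.inverse A * B - 1‖ ≤ δ) {t : ℝ}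
    (ht : t ∈ Icc (0 : ℝ) 1) : ‖Ring.inverse A * ((1 - t) • A + t • B) - 1‖ ≤ δ := by
  have e : Ring.inverse A * ((1 - t) • A + t • B) - 1 = t • (Ring.inverse A * B - 1) := by
    rw [mul_add, mul_smul_comm, mul_smul_comm, Ring.inverse_mul_cancel A hA]
    module
  rw [e, norm_smul, Real.norm_eq_abs, abs_of_nonneg ht.1]
  calc t * ‖Ring.inverse A * B - 1‖ ≤ 1 * ‖Ring.inverse A * B - 1‖ :=
        mul_le_mul_of_nonneg_right ht.2 (norm_nonneg _)
    _ ≤ δ := by rwa [one_mul]

theorem seg_flat {A B A' B' : EV m} {δ : ℝ} (hδ : δ ≤ 1 / 2) (hA : IsUnit A) (hA' : IsUnit A')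
    (h : ‖Ring.inverse A * B - 1‖ ≤ δ) (h' : ‖Ring.inverse A' * B' - 1‖ ≤ δ)
    (hAA : ‖Ring.inverse A * A' - 1‖ ≤ δ) {t : ℝ} (ht : t ∈ Icc (0 : ℝ) 1) :
    ‖Ring.inverse ((1 - t) • A + t • B) * ((1 - t) • A' + t • B') - 1‖ ≤ 7 * δ := by
  have hδ0 : 0 ≤ δ := (norm_nonneg _).trans h
  have hU : IsUnit ((1 - t) • A + t • B) := P28f.isUnit_seg hA (by linarith) ht
  have h1 : ‖Ring.inverse ((1 - t) • A + t • B) * A - 1‖ ≤ 2 * δ := by
    refine (P28f.near_swap hA hU (seg_near hA h ht) (by linarith)).trans ?_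
    rw [div_le_iff₀ (by linarith)]
    nlinarith
  have h2 := P28f.near_chain hA h1 hAA
  have h3 := P28f.near_chain hA' h2 (seg_near hA' h' ht)
  refine h3.trans ?_
  have e1 : δ * δ ≤ δ / 2 := by nlinarith
  have e2 : δ * δ * δ ≤ δ / 4 := by nlinarith
  have e3 : 2 * δ + δ + 2 * δ * δ + δ + (2 * δ + δ + 2 * δ * δ) * δ =
      4 * δ + 5 * (δ * δ) + 2 * (δ * δ * δ) := by ring
  rw [e3]
  linarith

end RepCloseAux

open RepCloseAux

theorem rep_close (m : ℕ) (hm : 2 ≤ m) : ∃ δ₀ : ℝ, 0 < δ₀ ∧ ∀ (f g : V m → V m) (a : V m) (R : ℝ),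
    0 < R → Imm (closedBall a (2 * R)) f → Imm (closedBall a (2 * R)) g → Flat δ₀ (ann a R) f →
    (∀ x ∈ closedBall a (2 * R),
      ‖Ring.inverse (fderiv ℝ f x : EV m) * fderiv ℝ g x - 1‖ ≤ δ₀) →
    P28f.Iso (rep f a R) (rep g a R) := by
  obtain ⟨δc, hδc, hcp⟩ := P28f.core_path m hm
  refine ⟨min (1 / 2) (δc / 7), by positivity, fun f g a R hR hf hg hF hfg => ?_⟩
  set δ : ℝ := min (1 / 2) (δc / 7) with hδ
  have hδ2 : δ ≤ 1 / 2 := min_le_left _ _
  have hδ7 : 7 * δ ≤ δc := by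
    have := min_le_right (1 / 2 : ℝ) (δc / 7)
    linarith
  have hR2 : (2 * R) ≠ 0 := by positivity
  have hmem : ∀ v ∈ closedBall (0 : V m) 1, a + (2 * R) • v ∈ closedBall a (2 * R) := by
    intro v hv
    rw [mem_closedBall, dist_zero_right] at hv
    rw [mem_closedBall, dist_eq_norm, add_sub_cancel_left, norm_smul, Real.norm_eq_abs,
      abs_of_pos (by linarith)]
    nlinarith
  have hdf : ∀ x ∈ closedBall a (2 * R), DifferentiableAt ℝ f x := fun x hx =>
    (hf x hx).1.differentiableAt (by simp)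
  have hdg : ∀ x ∈ closedBall a (2 * R), DifferentiableAt ℝ g x := fun x hx =>
    (hg x hx).1.differentiableAt (by simp)
  have hann : ∀ x ∈ ann a R, x ∈ closedBall a (2 * R) := by
    intro x hx
    rw [mem_closedBall, dist_eq_norm]
    exact hx.2
  have hunit : ∀ t ∈ Icc (0 : ℝ) 1, ∀ x ∈ closedBall a (2 * R),
      IsUnit (fderiv ℝ (hseg f g t) x : EV m) := by
    intro t ht x hx
    rw [hseg_fderiv (hdf x hx) (hdg x hx)]
    exact P28f.isUnit_seg (hf x hx).2 (lt_of_le_of_lt (hfg x hx) (by linarith)) ht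
  have hdh : ∀ (t : ℝ), ∀ x ∈ closedBall a (2 * R), DifferentiableAt ℝ (hseg f g t) x := by
    intro t x hx
    exact ((hdf x hx).const_smul (1 - t)).add ((hdg x hx).const_smul t)
  have hflat : ∀ t ∈ Icc (0 : ℝ) 1, Flat δc (ann a R) (hseg f g t) := by
    intro t ht x hx y hy
    rw [hseg_fderiv (hdf x (hann x hx)) (hdg x (hann x hx)),
      hseg_fderiv (hdf y (hann y hy)) (hdg y (hann y hy))]
    exact (seg_flat hδ2 (hf x (hann x hx)).2 (hf y (hann y hy)).2 (hfg x (hann x hx))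
      (hfg y (hann y hy)) (hF x hx y hy) ht).trans hδ7
  have key := hcp (fun p => hseg f g p.1 (a + (2 * R) • p.2)) ?_ ?_
  · have h0 : (P28f.core fun y => (fun p : ℝ × V m => hseg f g p.1 (a + (2 * R) • p.2)) (0, y)) =
        rep f a R := by
      unfold rep
      congr 1
      funext y
      simp [hseg]
    have h1 : (P28f.core fun y => (fun p : ℝ × V m => hseg f g p.1 (a + (2 * R) • p.2)) (1, y)) =
        rep g a R := by
      unfold rep
      congr 1
      funext y
      simp [hseg]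
    rw [h0, h1] at key
    exact key
  · intro t ht v hv
    have hx := hmem v hv
    constructor
    · have h1 : ContDiffAt ℝ ∞ (fun p : ℝ × V m => a + (2 * R) • p.2) (t, v) :=
        contDiffAt_const.add (contDiffAt_snd.const_smul _)
      have h2 : ContDiffAt ℝ ∞ (fun p : ℝ × V m => f (a + (2 * R) • p.2)) (t, v) :=
        ContDiffAt.comp (t, v) (f := fun p : ℝ × V m => a + (2 * R) • p.2) (g := f)
          (hf _ hx).1 h1
      have h3 : ContDiffAt ℝ ∞ (fun p : ℝ × V m => g (a + (2 * R) • p.2)) (t, v) :=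
        ContDiffAt.comp (t, v) (f := fun p : ℝ × V m => a + (2 * R) • p.2) (g := g)
          (hg _ hx).1 h1
      exact ((contDiffAt_const.sub contDiffAt_fst).smul h2).add (contDiffAt_fst.smul h3)
    · change IsUnit (fderiv ℝ (fun y : V m => hseg f g t (a + (2 * R) • y)) v : EV m)
      have h1 : HasFDerivAt (fun y : V m => (2 * R) • y)
          ((2 * R) • (ContinuousLinearMap.id ℝ (V m))) v := (hasFDerivAt_id v).const_smul (2 * R)
      have h2 : HasFDerivAt (fun y : V m => a + (2 * R) • y)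
          ((2 * R) • (ContinuousLinearMap.id ℝ (V m))) v := h1.const_add a
      have h3 := HasFDerivAt.comp v (hdh t _ hx).hasFDerivAt h2
      rw [ContinuousLinearMap.comp_smul, ContinuousLinearMap.comp_id] at h3
      have h4 : fderiv ℝ (fun y : V m => hseg f g t (a + (2 * R) • y)) v =
          (2 * R) • (fderiv ℝ (hseg f g t) (a + (2 * R) • v) : EV m) := h3.fderiv
      rw [h4]
      have h5 : IsUnit (algebraMap ℝ (EV m) (2 * R)) :=
        (isUnit_iff_ne_zero.mpr hR2).map (algebraMap ℝ (EV m))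
      rw [Algebra.smul_def]
      exact h5.mul (hunit t ht _ hx)
  · intro t ht
    change Flat δc (ann 0 (1 / 2)) fun y : V m => hseg f g t (a + (2 * R) • y)
    refine P28f.flat_comp hR2 ?_ ?_
    · intro v hv
      have hv1 : v ∈ closedBall (0 : V m) 1 := by
        have := hv.2
        rw [sub_zero] at this
        rw [mem_closedBall, dist_zero_right]; linarith
      exact ⟨hdh t _ (hmem v hv1), hunit t ht _ (hmem v hv1)⟩
    · refine P28f.Flat.mono (hflat t ht) le_rfl ?_
      rintro _ ⟨v, hv, rfl⟩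
      obtain ⟨hv1, hv2⟩ := hv
      rw [sub_zero] at hv1 hv2
      have e : ‖(a + (2 * R) • v) - a‖ = (2 * R) * ‖v‖ := by
        rw [add_sub_cancel_left, norm_smul, Real.norm_eq_abs, abs_of_pos (by linarith)]
      constructor
      · change R ≤ ‖(a + (2 * R) • v) - a‖
        rw [e]; nlinarith
      · change ‖(a + (2 * R) • v) - a‖ ≤ 2 * R
        rw [e]; nlinarith

end Pool.Agent.Lib.P28g
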