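import Pool.Agent.Lib.P28g.Glue
import Pool.Agent.Lib.P28g.ChartCmp
import Pool.Agent.Lib.P28g.CutChart
import Pool.Agent.Lib.P28g.InterpF
import Pool.Agent.Lib.P28g.RepClose
import Pool.Agent.Lib.P28g.LocPath
import Pool.Agent.Lib.P28f.RingNear
import Pool.Agent.Lib.P28c.Match

set_option autoImplicit false

/-!
# Comparison of two lifts with the same local classes: preparations
-/

open MeasureTheory Set Metric
open scoped ContDiff Topology ENNReal

namespace Pool.Agent.Lib.P28g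

open Pool.Agent.P28b04d Pool.Agent.Lib.P28e Pool.Agent.Lib.P28c
open Pool.Agent.Lib.P28f (V EV Flat ann Imm rep w0)

variable {n m : ℕ}

/-- `z` is outside the chart balls of radius `r`. -/
def Out (A : Finset (W n)) (T : W n → W n ≃L[ℝ] W n) (r : ℝ) (z : W n) : Prop :=
  ∀ a ∈ A, ∀ x : V (n * 2), ‖x‖ < r → pt z ≠ pt (T a (sl n x))

theorem Out.mono {A : Finset (W n)} {T : W n → W n ≃L[ℝ] W n} {r r' : ℝ} {z : W n}
    (h : Out A T r z) (hr : r' ≤ r) : Out A T r' z :=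
  fun a ha x hx => h a ha x (hx.trans_le hr)

theorem pt_T_inj {T : W n ≃L[ℝ] W n} (hT : ∀ (c : ℂ) (x : W n), T (c • x) = c • T x) {u v : W n}
    (hv : v ≠ 0) (h : pt (T u) = pt (T v)) : pt u = pt v := by
  have hTv : T v ≠ 0 := fun h0 => hv (T.injective (by rw [h0, map_zero]))
  obtain ⟨c, hc, h1⟩ := eq_smul_of_pt_eq hTv h
  have : v = c • u := T.injective (by rw [h1, hT])
  rw [this, pt_smul hc]

/-- The unit of an equivalence. -/
noncomputable def eqU (B : W n ≃L[ℝ] W n) : (EndW n)ˣ where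
  val := (B : EndW n)
  inv := (B.symm : EndW n)
  val_inv := by ext1 v; exact B.apply_symm_apply v
  inv_val := by ext1 v; exact B.symm_apply_apply v

theorem inverse_TB (T B : W n ≃L[ℝ] W n) {D : EndW n} (hD : IsUnit D) :
    Ring.inverse ((B : EndW n) * (D * (T : EndW n))) =
      (T.symm : EndW n) * Ring.inverse D * (B.symm : EndW n) := by
  obtain ⟨d, rfl⟩ := hD
  have e : ((B : EndW n) * ((d : EndW n) * (T : EndW n))) =
      ((eqU B * (d * eqU T) : (EndW n)ˣ) : EndW n) := rfl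
  rw [e, Ring.inverse_unit, Ring.inverse_unit, mul_inv_rev, mul_inv_rev]
  rfl

theorem norm_T_le {T : W n ≃L[ℝ] W n} (hT : TT T) : ‖(T : EndW n)‖ ≤ 1 :=
  ContinuousLinearMap.opNorm_le_bound _ zero_le_one fun x => by simpa using hT.le x

theorem norm_Tsymm_le {T : W n ≃L[ℝ] W n} (hT : TT T) : ‖(T.symm : EndW n)‖ ≤ 4 :=
  ContinuousLinearMap.opNorm_le_bound _ (by norm_num) fun x => by simpa using hT.symm_le x

theorem near_TB {T : W n ≃L[ℝ] W n} (hT : TT T) (B : W n ≃L[ℝ] W n) {D D' : EndW n}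
    (hD : IsUnit D) :
    ‖Ring.inverse ((B : EndW n) * (D * (T : EndW n))) * ((B : EndW n) * (D' * (T : EndW n))) - 1‖ ≤
      4 * ‖Ring.inverse D * D' - 1‖ := by
  rw [inverse_TB T B hD]
  have hB : (B.symm : EndW n) * (B : EndW n) = 1 := (eqU B).inv_mul
  have hTT : (T.symm : EndW n) * (T : EndW n) = 1 := (eqU T).inv_mul
  have e : (T.symm : EndW n) * Ring.inverse D * (B.symm : EndW n) *
      ((B : EndW n) * (D' * (T : EndW n))) - 1 =
      (T.symm : EndW n) * (Ring.inverse D * D' - 1) * (T : EndW n) := by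
    calc (T.symm : EndW n) * Ring.inverse D * (B.symm : EndW n) *
          ((B : EndW n) * (D' * (T : EndW n))) - 1
        = (T.symm : EndW n) * Ring.inverse D * ((B.symm : EndW n) * (B : EndW n)) *
          (D' * (T : EndW n)) - 1 := by simp only [mul_assoc]
      _ = (T.symm : EndW n) * (Ring.inverse D * D') * (T : EndW n) -
          (T.symm : EndW n) * (T : EndW n) := by rw [hB, mul_one, hTT]; simp only [mul_assoc]
      _ = _ := by rw [mul_sub, sub_mul, mul_one]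
  rw [e]
  calc ‖(T.symm : EndW n) * (Ring.inverse D * D' - 1) * (T : EndW n)‖
      ≤ ‖(T.symm : EndW n)‖ * ‖Ring.inverse D * D' - 1‖ * ‖(T : EndW n)‖ :=
        (norm_mul_le _ _).trans (mul_le_mul_of_nonneg_right (norm_mul_le _ _) (norm_nonneg _))
    _ ≤ 4 * ‖Ring.inverse D * D' - 1‖ * 1 := by
        gcongr
        · exact norm_Tsymm_le hT
        · exact norm_T_le hT
    _ = _ := mul_one _

theorem cond_TB {T : W n ≃L[ℝ] W n} (hT : TT T) {B : W n ≃L[ℝ] W n}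
    (hB : ‖(B : EndW n)‖ * ‖(B.symm : EndW n)‖ ≤ 4) {D : EndW n} (hD : IsUnit D) :
    ‖(B : EndW n) * (D * (T : EndW n))‖ *
      ‖Ring.inverse ((B : EndW n) * (D * (T : EndW n)))‖ ≤ 16 * (‖D‖ * ‖Ring.inverse D‖) := by
  rw [inverse_TB T B hD]
  have h1 : ‖(B : EndW n) * (D * (T : EndW n))‖ ≤ ‖(B : EndW n)‖ * ‖D‖ := by
    calc _ ≤ ‖(B : EndW n)‖ * (‖D‖ * ‖(T : EndW n)‖) :=
          (norm_mul_le _ _).trans (mul_le_mul_of_nonneg_left (norm_mul_le _ _) (norm_nonneg _))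
      _ ≤ ‖(B : EndW n)‖ * (‖D‖ * 1) := by
          gcongr
          exact norm_T_le hT
      _ = _ := by rw [mul_one]
  have h2 : ‖(T.symm : EndW n) * Ring.inverse D * (B.symm : EndW n)‖ ≤
      4 * ‖Ring.inverse D‖ * ‖(B.symm : EndW n)‖ := by
    calc _ ≤ ‖(T.symm : EndW n)‖ * ‖Ring.inverse D‖ * ‖(B.symm : EndW n)‖ :=
          (norm_mul_le _ _).trans (mul_le_mul_of_nonneg_right (norm_mul_le _ _) (norm_nonneg _))
      _ ≤ _ := by
          gcongr
          exact norm_Tsymm_le hT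
  calc _ ≤ (‖(B : EndW n)‖ * ‖D‖) * (4 * ‖Ring.inverse D‖ * ‖(B.symm : EndW n)‖) :=
        mul_le_mul h1 h2 (norm_nonneg _) (by positivity)
    _ = (‖(B : EndW n)‖ * ‖(B.symm : EndW n)‖) * (4 * (‖D‖ * ‖Ring.inverse D‖)) := by ring
    _ ≤ 4 * (4 * (‖D‖ * ‖Ring.inverse D‖)) := by gcongr
    _ = _ := by ring

theorem hloc_TB {Ψ : W n → W n} (h : HLoc Ψ) {T B : W n ≃L[ℝ] W n}
    (hT : ∀ (c : ℂ) (x : W n), T (c • x) = c • T x)
    (hB : ∀ (c : ℂ) (x : W n), B (c • x) = c • B x) : HLoc fun z => B (Ψ (T z)) :=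
  hloc_left (hloc_right h T hT) B hB

theorem uu_TB {Ψ : W n → W n} (h : HLoc Ψ) {T : W n ≃L[ℝ] W n} (B : W n ≃L[ℝ] W n)
    (hT : ∀ (c : ℂ) (x : W n), T (c • x) = c • T x) (x : V (n * 2)) :
    uu (fun z => B (Ψ (T z))) x =
      (B : EndW n) * (fderiv ℝ Ψ (T (sl n x)) * (T : EndW n)) := by
  unfold uu
  rw [fderiv_left (hloc_right h T hT) B (sl_ne x), fderiv_right h T (sl_ne x)]

/-- Lower bound of a lift by the inverse of its derivative. -/
theorem norm_le_inv {Ψ : W n → W n} (h : HLoc Ψ) {z : W n} (hz : z ≠ 0) :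
    ‖z‖ ≤ ‖Ring.inverse (fderiv ℝ Ψ z : EndW n)‖ * ‖Ψ z‖ := by
  have hu : IsUnit (fderiv ℝ Ψ z : EndW n) := isUnit_fderiv h hz
  have e : Ring.inverse (fderiv ℝ Ψ z : EndW n) (Ψ z) = z := by
    have h1 := congrArg (fun D : EndW n => D z) (Ring.inverse_mul_cancel _ hu)
    have h2 : (fderiv ℝ Ψ z : EndW n) z = Ψ z := euler h hz
    simpa [h2] using h1
  calc ‖z‖ = ‖Ring.inverse (fderiv ℝ Ψ z : EndW n) (Ψ z)‖ := by rw [e]
    _ ≤ _ := ContinuousLinearMap.le_opNorm _ _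

theorem fd_interp {X Y : W n → W n} (hX : HLoc X) (hY : HLoc Y) {χ : W n → ℝ} {L : ℝ}
    (hχ : Cut χ L) {z : W n} (hz : z ≠ 0) :
    (fderiv ℝ (fun z => (1 - χ z) • Y z + χ z • X z) z : EndW n) =
      fderiv ℝ Y z + (χ z • ((fderiv ℝ X z : EndW n) - fderiv ℝ Y z) +
        (fderiv ℝ χ z).smulRight (X z - Y z)) := by
  have hχd : HasFDerivAt χ (fderiv ℝ χ z) z :=
    ((hχ.smooth.contDiffAt (isOpen_compl_singleton.mem_nhds hz)).differentiableAt
      (by simp)).hasFDerivAt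
  have hYd := Hom46.hasFDerivAt hY hz
  have hXd := Hom46.hasFDerivAt hX hz
  have h1 := ((hχd.const_sub 1).smul hYd).add (hχd.smul hXd)
  have h2 := h1.fderiv
  refine Eq.trans h2 ?_
  ext1 v
  simp only [add_apply, smul_apply, sub_apply, ContinuousLinearMap.smulRight_apply, neg_apply]
  module

theorem near_interp {X Y : W n → W n} (hX : HLoc X) (hY : HLoc Y) {χ : W n → ℝ} {L : ℝ}
    (hχ : Cut χ L) {z : W n} (hz : z ≠ 0) {Λ δ η : ℝ}
    (h1 : ‖Ring.inverse (fderiv ℝ Y z : EndW n)‖ ≤ Λ)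
    (h2 : ‖Ring.inverse (fderiv ℝ Y z : EndW n) * fderiv ℝ X z - 1‖ ≤ δ)
    (h3 : ‖X z - Y z‖ ≤ η * ‖z‖) (hη : 0 ≤ η) (hL : 0 ≤ L) :
    ‖Ring.inverse (fderiv ℝ Y z : EndW n) *
      fderiv ℝ (fun z => (1 - χ z) • Y z + χ z • X z) z - 1‖ ≤ δ + Λ * L * η := by
  have hu : IsUnit (fderiv ℝ Y z : EndW n) := isUnit_fderiv hY hz
  have hΛ : 0 ≤ Λ := (norm_nonneg _).trans h1
  rw [fd_interp hX hY hχ hz]
  set D : EndW n := Ring.inverse (fderiv ℝ Y z : EndW n) with hD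
  have hD1 : D * (fderiv ℝ Y z : EndW n) = 1 := Ring.inverse_mul_cancel _ hu
  have e : D * ((fderiv ℝ Y z : EndW n) + (χ z • ((fderiv ℝ X z : EndW n) - fderiv ℝ Y z) +
      (fderiv ℝ χ z).smulRight (X z - Y z))) - 1 =
      χ z • (D * fderiv ℝ X z - 1) + D * (fderiv ℝ χ z).smulRight (X z - Y z) := by
    ext1 v
    have hv : D ((fderiv ℝ Y z : EndW n) v) = v := by
      have := congrArg (fun D' : EndW n => D' v) hD1
      exact this
    show D ((fderiv ℝ Y z : EndW n) v + (χ z • ((fderiv ℝ X z : EndW n) v -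
      (fderiv ℝ Y z : EndW n) v) + (fderiv ℝ χ z v) • (X z - Y z))) - v =
      χ z • (D ((fderiv ℝ X z : EndW n) v) - v) + D ((fderiv ℝ χ z v) • (X z - Y z))
    rw [map_add, map_add, map_smul, map_sub, hv]
    abel
  rw [e]
  have hp : 0 < ‖z‖ := norm_pos_iff.2 hz
  have h4 : ‖(fderiv ℝ χ z).smulRight (X z - Y z)‖ ≤ L * η := by
    rw [ContinuousLinearMap.norm_smulRight_apply]
    have h5 := hχ.der z hz
    calc ‖fderiv ℝ χ z‖ * ‖X z - Y z‖ ≤ ‖fderiv ℝ χ z‖ * (η * ‖z‖) := by gcongr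
      _ = (‖fderiv ℝ χ z‖ * ‖z‖) * η := by ring
      _ ≤ L * η := by gcongr
  calc ‖χ z • (D * fderiv ℝ X z - 1) + D * (fderiv ℝ χ z).smulRight (X z - Y z)‖
      ≤ ‖χ z • (D * fderiv ℝ X z - 1)‖ + ‖D * (fderiv ℝ χ z).smulRight (X z - Y z)‖ :=
        norm_add_le _ _
    _ ≤ 1 * δ + Λ * (L * η) := by
        refine add_le_add ?_ ?_
        · rw [norm_smul, Real.norm_of_nonneg (hχ.nonneg z)]
          have := hχ.le_one z
          gcongr
        · refine (norm_mul_le _ _).trans ?_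
          gcongr
    _ = _ := by ring

end Pool.Agent.Lib.P28g
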