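import Pool.Agent.Lib.P28g.PairA

set_option autoImplicit false

/-!
# Comparison of two lifts with the same local classes
-/

open MeasureTheory Set Metric
open scoped ContDiff Topology ENNReal

namespace Pool.Agent.Lib.P28g

open Pool.Agent.P28b04d Pool.Agent.Lib.P28e Pool.Agent.Lib.P28c
open Pool.Agent.Lib.P28f (V EV Flat ann Imm rep w0)

variable {n m : ℕ}

theorem sl_out {A : Finset (W n)} {T : W n → W n ≃L[ℝ] W n} (hT : ∀ a, TT (T a)) {s r : ℝ}
    (hdis : ∀ a ∈ A, ∀ b ∈ A, a ≠ b → ∀ x y : V (n * 2), ‖x‖ < s → ‖y‖ < s →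
      pt (T a (sl n x)) ≠ pt (T b (sl n y))) (hr : r ≤ s) {a : W n} (ha : a ∈ A)
    {x : V (n * 2)} (hx : ‖x‖ < s) (hx' : r ≤ ‖x‖) : Out A T r (T a (sl n x)) := by
  classical
  intro b hb y hy h
  by_cases hab : a = b
  · subst hab
    have h1 := pt_sl_inj (pt_T_inj (hT a).hom (sl_ne y) h)
    subst h1
    linarith
  · exact hdis a ha b hb hab x y hx (hy.trans_le hr) h

/-- `z` in a chart ball is a multiple of a point of the slice. -/
theorem eq_smul_T {T : W n ≃L[ℝ] W n} {z : W n} {x : V (n * 2)} (h : pt z = pt (T (sl n x))) :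
    ∃ c : ℂ, c ≠ 0 ∧ T (sl n x) = c • z := by
  have hne : T (sl n x) ≠ 0 := fun h0 => sl_ne x (T.injective (by rw [h0, map_zero]))
  exact eq_smul_of_pt_eq hne h

theorem out_of_cut {A : Finset (W n)} {T : W n → W n ≃L[ℝ] W n} {s L : ℝ} {χ : W n → ℝ}
    (hχ : Cut χ L) (h0 : ∀ a ∈ A, ∀ x : V (n * 2), ‖x‖ ≤ s / 8 → χ (T a (sl n x)) = 0) {z : W n}
    (hχz : χ z ≠ 0) : Out A T (s / 8) z := by
  intro a ha x hx h
  obtain ⟨c, hc, h1⟩ := eq_smul_T h
  apply hχz
  rw [← hχ.hom c z hc, ← h1]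
  exact h0 a ha x hx.le

theorem flat_of_close {S : Set (V m)} {f g : V m → V m} {δ e : ℝ} (hδ0 : 0 ≤ δ) (hδ1 : δ ≤ 1)
    (he : e ≤ 1 / 8) (hf : ∀ x ∈ S, IsUnit (fderiv ℝ f x : EV m))
    (hg : ∀ x ∈ S, IsUnit (fderiv ℝ g x : EV m)) (h : Flat δ S f)
    (hc : ∀ x ∈ S, ‖Ring.inverse (fderiv ℝ f x : EV m) * fderiv ℝ g x - 1‖ ≤ e) :
    Flat (2 * δ + 6 * e) S g := by
  intro x hx y hy
  have he0 : 0 ≤ e := (norm_nonneg _).trans (hc x hx)
  have h1 := P28f.near_swap (hf x hx) (hg x hx) (hc x hx) (by linarith)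
  have h1' : ‖Ring.inverse (fderiv ℝ g x : EV m) * fderiv ℝ f x - 1‖ ≤ 2 * e := by
    refine h1.trans ?_
    rw [div_le_iff₀ (by linarith)]
    nlinarith
  have h2 := P28f.near_chain (hf x hx) h1' (h x hx y hy)
  have h3 := P28f.near_chain (hf y hy) h2 (hc y hy)
  refine h3.trans ?_
  have a1 : 0 ≤ e * δ := mul_nonneg he0 hδ0
  have a2 : e * e ≤ e * (1 / 8) := mul_le_mul_of_nonneg_left he he0
  have a3 : e * δ ≤ e * 1 := mul_le_mul_of_nonneg_left hδ1 he0
  have a4 : e * δ ≤ (1 / 8) * δ := mul_le_mul_of_nonneg_right he hδ0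
  have a5 : e * e * δ ≤ e * (1 / 8) * δ := mul_le_mul_of_nonneg_right a2 hδ0
  nlinarith

theorem pair_end (n : ℕ) (hn : 1 ≤ n) : ∃ δp : ℝ, 0 < δp ∧ δp ≤ 1 / 100 ∧
    ∀ (A : Finset (W n)) (T B : W n → W n ≃L[ℝ] W n), (∀ a, TT (T a)) →
    (∀ a, ∀ (c : ℂ) (x : W n), B a (c • x) = c • B a x) →
    (∀ a ∈ A, ‖(B a : EndW n)‖ * ‖((B a).symm : EndW n)‖ ≤ 4) → ∀ s : ℝ, 0 < s → s ≤ 1 / 4 →
    (∀ a ∈ A, ∀ b ∈ A, a ≠ b → ∀ x y : V (n * 2), ‖x‖ < s → ‖y‖ < s →
      pt (T a (sl n x)) ≠ pt (T b (sl n y))) →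
    ∀ Λ : ℝ, 1 ≤ Λ → ∃ η : ℝ, 0 < η ∧ ∀ X Y : W n → W n, HLoc X → HLoc Y →
    (∀ a ∈ A, ∀ x : V (n * 2), ‖x‖ < s →
      ‖B a (X (T a (sl n x)))‖ ≤ 2 * ‖(B a (X (T a (sl n x)))) 0‖) →
    (∀ a ∈ A, ∀ x : V (n * 2), ‖x‖ < s →
      ‖B a (Y (T a (sl n x)))‖ ≤ 2 * ‖(B a (Y (T a (sl n x)))) 0‖) →
    (∀ a ∈ A, Flat δp (ann 0 (s / 4)) (fc fun z => B a (X (T a z))) ∧
      Flat δp (ann 0 (s / 4)) (fc fun z => B a (Y (T a z)))) →
    (∀ a ∈ A, P28f.Iso (rep (fc fun z => B a (Y (T a z))) 0 (s / 4))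
      (rep (fc fun z => B a (X (T a z))) 0 (s / 4))) →
    (∀ z : W n, z ≠ 0 → Out A T (s / 8) z → ‖(fderiv ℝ Y z : EndW n)‖ ≤ Λ ∧
      ‖Ring.inverse (fderiv ℝ Y z : EndW n)‖ ≤ Λ ∧
      ‖Ring.inverse (fderiv ℝ Y z : EndW n) * fderiv ℝ X z - 1‖ ≤ δp ∧
      ‖X z - Y z‖ ≤ η * ‖z‖) →
    ∃ Z : W n → W n, HLoc Z ∧ Conn Y Z ∧ ∀ z : W n, z ≠ 0 → pt (Z z) = pt (X z) := by
  classical
  have hm : 2 ≤ n * 2 := by omega
  obtain ⟨C, hC, hcmp⟩ := chart_cmp n
  obtain ⟨δr, hδr, hrep⟩ := rep_close (n * 2) hm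
  obtain ⟨δl, hδl, hpath⟩ := loc_path (n * 2) hm
  have hC0 : 0 < C := by linarith
  set δp : ℝ := min (1 / (100 * C)) (min (δr / (60 * C)) (δl / (60 * C))) with hδp
  have hδp0 : 0 < δp := by positivity
  have hp1 : C * δp ≤ 1 / 100 := by
    have : δp ≤ 1 / (100 * C) := min_le_left _ _
    calc C * δp ≤ C * (1 / (100 * C)) := by gcongr
      _ = 1 / 100 := by field_simp
  have hp2 : C * δp ≤ δr / 60 := by
    have : δp ≤ δr / (60 * C) := (min_le_right _ _).trans (min_le_left _ _)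
    calc C * δp ≤ C * (δr / (60 * C)) := by gcongr
      _ = δr / 60 := by field_simp
  have hp3 : C * δp ≤ δl / 60 := by
    have : δp ≤ δl / (60 * C) := (min_le_right _ _).trans (min_le_right _ _)
    calc C * δp ≤ C * (δl / (60 * C)) := by gcongr
      _ = δl / 60 := by field_simp
  have hp4 : δp ≤ C * δp := by nlinarith
  have hp5 : δp ≤ 1 / 100 := hp4.trans hp1
  refine ⟨δp, hδp0, hp5, ?_⟩
  intro A T B hT hB hBc s hs hs1 hdis Λ hΛ
  obtain ⟨χ, L, hL, hχ, hχ0, hχ1⟩ := cut_chart A T hT hs hdis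
  set η : ℝ := δp / (64 * Λ ^ 3 * (L + 1)) with hη
  have hη0 : 0 < η := by positivity
  have hη1 : Λ * L * η ≤ δp := by
    rw [hη, mul_div_assoc', div_le_iff₀ (by positivity)]
    have h1 : 1 ≤ Λ ^ 2 := one_le_pow₀ hΛ
    have h2 : Λ * L ≤ 64 * Λ ^ 3 * (L + 1) := by
      have : Λ * L ≤ Λ * (L + 1) := by nlinarith
      calc Λ * L ≤ Λ * (L + 1) := this
        _ ≤ (64 * Λ ^ 2) * (Λ * (L + 1)) := by
            have h3 : 0 ≤ Λ * (L + 1) := by positivity
            nlinarith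
        _ = _ := by ring
    calc Λ * L * δp ≤ (64 * Λ ^ 3 * (L + 1)) * δp := by gcongr
      _ = _ := by ring
  have hη2 : 64 * Λ ^ 3 * η ≤ δp := by
    rw [hη, mul_div_assoc', div_le_iff₀ (by positivity)]
    have : 64 * Λ ^ 3 * δp ≤ 64 * Λ ^ 3 * δp * (L + 1) := by
      have h3 : 0 ≤ 64 * Λ ^ 3 * δp := by positivity
      nlinarith
    calc 64 * Λ ^ 3 * δp ≤ 64 * Λ ^ 3 * δp * (L + 1) := this
      _ = _ := by ring
  refine ⟨η, hη0, ?_⟩
  intro X Y hX hY hcX hcY hfl hiso hgood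
  -- the interpolation
  have hoc : ∀ z, χ z ≠ 0 → Out A T (s / 8) z := fun z hz => out_of_cut hχ hχ0 hz
  obtain ⟨hZ, hZc⟩ := interp_f hX hY hχ (by
    intro z hz hχz
    obtain ⟨g1, g2, g3, g4⟩ := hgood z hz (hoc z hχz)
    obtain ⟨U, hU⟩ := isUnit_fderiv hY hz
    have hUi : Ring.inverse (fderiv ℝ Y z : EndW n) = (↑U⁻¹ : EndW n) := by
      rw [← hU, Ring.inverse_unit]
    refine ⟨1, one_ne_zero, U, ?_, ?_, ?_⟩
    · rw [one_smul, ← hUi]
      linarith
    · rw [one_smul, ← hU, Units.inv_mul, sub_self, norm_zero]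
      norm_num
    · rw [one_smul, ← hUi]
      have h1 := hχ.der z hz
      have h2 : ‖Ring.inverse (fderiv ℝ Y z : EndW n) (X z - Y z)‖ ≤ Λ * (η * ‖z‖) :=
        (ContinuousLinearMap.le_opNorm _ _).trans (by gcongr)
      calc ‖fderiv ℝ χ z‖ * ‖Ring.inverse (fderiv ℝ Y z : EndW n) (X z - Y z)‖
          ≤ ‖fderiv ℝ χ z‖ * (Λ * (η * ‖z‖)) := by gcongr
        _ = (‖fderiv ℝ χ z‖ * ‖z‖) * (Λ * η) := by ring
        _ ≤ L * (Λ * η) := by gcongr
        _ = Λ * L * η := by ring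
        _ ≤ 1 / 4 := by linarith)
  set Z : W n → W n := fun z => (1 - χ z) • Y z + χ z • X z with hZdef
  have hZ0 : ∀ z, χ z = 0 → Z z = Y z := by
    intro z hz
    simp only [hZdef, hz, sub_zero, one_smul, zero_smul, add_zero]
  have hZ1 : ∀ z, χ z = 1 → Z z = X z := by
    intro z hz
    simp only [hZdef, hz, sub_self, one_smul, zero_smul, zero_add]
  -- the chart expressions
  have hslT : ∀ a (x : V (n * 2)), T a (sl n x) ≠ 0 := fun a x h0 =>
    sl_ne x ((T a).injective (by rw [h0, map_zero]))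
  have hne0 : ∀ {H : W n → W n}, HLoc H → ∀ x : V (n * 2),
      ‖H (sl n x)‖ ≤ 2 * ‖H (sl n x) 0‖ → H (sl n x) 0 ≠ 0 := by
    intro H hH x h h0
    rw [h0, norm_zero, mul_zero] at h
    exact hH.ne (sl_ne x) (norm_le_zero_iff.1 h)
  have hHX : ∀ a, HLoc fun z => B a (X (T a z)) := fun a => hloc_TB hX (hT a).hom (hB a)
  have hHY : ∀ a, HLoc fun z => B a (Y (T a z)) := fun a => hloc_TB hY (hT a).hom (hB a)
  have hHZ : ∀ a, HLoc fun z => B a (Z (T a z)) := fun a => hloc_TB hZ (hT a).hom (hB a)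
  have h0X : ∀ a ∈ A, ∀ x : V (n * 2), ‖x‖ < s → (B a (X (T a (sl n x)))) 0 ≠ 0 :=
    fun a ha x hx => hne0 (hHX a) x (hcX a ha x hx)
  have h0Y : ∀ a ∈ A, ∀ x : V (n * 2), ‖x‖ < s → (B a (Y (T a (sl n x)))) 0 ≠ 0 :=
    fun a ha x hx => hne0 (hHY a) x (hcY a ha x hx)
  -- closeness of the chart expressions of `Y` and `Z`
  have hclose : ∀ a ∈ A, ∀ x : V (n * 2), ‖x‖ < s → (B a (Z (T a (sl n x)))) 0 ≠ 0 ∧
      ‖Ring.inverse (fderiv ℝ (fc fun z => B a (Y (T a z))) x : EV (n * 2)) *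
        fderiv ℝ (fc fun z => B a (Z (T a z))) x - 1‖ ≤ 9 * (C * δp) := by
    intro a ha x hx
    by_cases hx8 : ‖x‖ < s / 8
    · have hev : (fc fun z => B a (Z (T a z))) =ᶠ[𝓝 x] fc fun z => B a (Y (T a z)) := by
        have : ∀ᶠ y in 𝓝 x, ‖y‖ < s / 8 :=
          (continuous_norm.continuousAt (x := x)).eventually_lt_const hx8
        filter_upwards [this] with y hy
        show cc (B a (Z (T a (sl n y)))) = cc (B a (Y (T a (sl n y))))
        rw [hZ0 _ (hχ0 a ha y hy.le)]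
      rw [hZ0 _ (hχ0 a ha x hx8.le), hev.fderiv_eq]
      refine ⟨h0Y a ha x hx, ?_⟩
      rw [Ring.inverse_mul_cancel _ (fc_imm (hHY a) (h0Y a ha x hx)).2, sub_self, norm_zero]
      positivity
    · rw [not_lt] at hx8
      have hout : Out A T (s / 8) (T a (sl n x)) := sl_out hT hdis (by linarith) ha hx hx8
      obtain ⟨g1, g2, g3, g4⟩ := hgood _ (hslT a x) hout
      have hYu : IsUnit (fderiv ℝ Y (T a (sl n x)) : EndW n) := isUnit_fderiv hY (hslT a x)
      have h1 := near_interp hX hY hχ (hslT a x) g2 g3 g4 hη0.le hL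
      have h2 : ‖Ring.inverse (uu (fun z => B a (Y (T a z))) x) *
          uu (fun z => B a (Z (T a z))) x - 1‖ ≤ 8 * δp := by
        rw [uu_TB hY (B a) (hT a).hom, uu_TB hZ (B a) (hT a).hom]
        refine (near_TB (hT a) (B a) hYu).trans ?_
        linarith
      have h3 : ‖uu (fun z => B a (Y (T a z))) x‖ *
          ‖Ring.inverse (uu (fun z => B a (Y (T a z))) x)‖ ≤ 16 * (Λ * Λ) := by
        rw [uu_TB hY (B a) (hT a).hom]
        refine (cond_TB (hT a) (hBc a ha) hYu).trans ?_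
        gcongr
      have hxs : ‖x‖ ≤ 1 := by linarith
      have h4 : ‖B a (Z (T a (sl n x))) - B a (Y (T a (sl n x)))‖ ≤
          ‖(B a : EndW n)‖ * (η * ‖T a (sl n x)‖) := by
        rw [← map_sub]
        have e : Z (T a (sl n x)) - Y (T a (sl n x)) =
            χ (T a (sl n x)) • (X (T a (sl n x)) - Y (T a (sl n x))) := by
          simp only [hZdef]
          module
        have h5 : ‖Z (T a (sl n x)) - Y (T a (sl n x))‖ ≤ η * ‖T a (sl n x)‖ := by
          rw [e, norm_smul, Real.norm_of_nonneg (hχ.nonneg _)]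
          calc χ (T a (sl n x)) * ‖X (T a (sl n x)) - Y (T a (sl n x))‖
              ≤ 1 * ‖X (T a (sl n x)) - Y (T a (sl n x))‖ := by
                gcongr
                exact hχ.le_one _
            _ ≤ _ := by rw [one_mul]; exact g4
        exact ((B a : EndW n).le_opNorm _).trans (by gcongr)
      have h6 : ‖T a (sl n x)‖ ≤ Λ * (‖((B a).symm : EndW n)‖ * ‖B a (Y (T a (sl n x)))‖) := by
        refine (norm_le_inv hY (hslT a x)).trans ?_
        have h7 : ‖Y (T a (sl n x))‖ ≤ ‖((B a).symm : EndW n)‖ * ‖B a (Y (T a (sl n x)))‖ := by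
          have := ((B a).symm : EndW n).le_opNorm (B a (Y (T a (sl n x))))
          simpa using this
        gcongr
      have h8 : ‖B a (Z (T a (sl n x))) - B a (Y (T a (sl n x)))‖ *
          (‖uu (fun z => B a (Y (T a z))) x‖ *
            ‖Ring.inverse (uu (fun z => B a (Y (T a z))) x)‖) ≤
          δp * ‖B a (Y (T a (sl n x)))‖ := by
        calc _ ≤ (‖(B a : EndW n)‖ * (η * (Λ * (‖((B a).symm : EndW n)‖ *
              ‖B a (Y (T a (sl n x)))‖)))) * (16 * (Λ * Λ)) := by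
                refine mul_le_mul (h4.trans ?_) h3 (by positivity) (by positivity)
                gcongr
          _ = (‖(B a : EndW n)‖ * ‖((B a).symm : EndW n)‖) *
              (16 * Λ ^ 3 * η * ‖B a (Y (T a (sl n x)))‖) := by ring
          _ ≤ 4 * (16 * Λ ^ 3 * η * ‖B a (Y (T a (sl n x)))‖) := by
                gcongr
                exact hBc a ha
          _ = (64 * Λ ^ 3 * η) * ‖B a (Y (T a (sl n x)))‖ := by ring
          _ ≤ _ := by gcongr
      have h9 : ‖B a (Y (T a (sl n x)))‖ ≤ 4 * ‖(B a (Y (T a (sl n x)))) 0‖ := by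
        have := hcY a ha x hx
        have := norm_nonneg ((B a (Y (T a (sl n x)))) 0)
        linarith
      obtain ⟨r1, r2⟩ := hcmp _ _ (hHY a) (hHZ a) x x hxs hxs h9 (8 * δp) δp (by linarith)
        (by linarith) h2 h8
      refine ⟨r1, r2.trans (le_of_eq (by ring))⟩
  have h0Z : ∀ a ∈ A, ∀ x : V (n * 2), ‖x‖ < s → (B a (Z (T a (sl n x)))) 0 ≠ 0 :=
    fun a ha x hx => (hclose a ha x hx).1
  have heq : ∀ a ∈ A, ∀ x : V (n * 2), s / 4 ≤ ‖x‖ → ‖x‖ < s →
      χ (T a (sl n x)) = 1 := by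
    intro a ha x hx hxs
    exact hχ1 _ (hslT a x) (sl_out hT hdis (by linarith) ha hxs hx)
  obtain ⟨Φ', h1, h2, h3⟩ := glue A T B (fun a => (hT a).hom) hB hs hdis hZ hX h0Z h0X
    (by
      intro z hz hout
      exact hZ1 z (hχ1 z hz fun a ha x hx => hout a ha x (by linarith)))
    (by
      intro a ha
      have hsub : closedBall (0 : V (n * 2)) (2 * (s / 4)) ⊆ ball 0 s :=
        closedBall_subset_ball (by linarith)
      have hsub' : ann (0 : V (n * 2)) (s / 4) ⊆ ball 0 s := by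
        intro x hx
        rw [mem_ball_zero_iff]
        have := hx.2
        rw [sub_zero] at this
        linarith
      have iX : Imm (ball 0 s) (fc fun z => B a (X (T a z))) := fun x hx =>
        fc_imm (hHX a) (h0X a ha x (by simpa using hx))
      have iY : Imm (ball 0 s) (fc fun z => B a (Y (T a z))) := fun x hx =>
        fc_imm (hHY a) (h0Y a ha x (by simpa using hx))
      have iZ : Imm (ball 0 s) (fc fun z => B a (Z (T a z))) := fun x hx =>
        fc_imm (hHZ a) (h0Z a ha x (by simpa using hx))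
      have hiso1 : P28f.Iso (rep (fc fun z => B a (Y (T a z))) 0 (s / 4))
          (rep (fc fun z => B a (Z (T a z))) 0 (s / 4)) := by
        apply hrep _ _ 0 (s / 4) (by positivity) (fun x hx => iY x (hsub hx))
          (fun x hx => iZ x (hsub hx))
        · intro x hx y hy
          exact ((hfl a ha).2 x hx y hy).trans (by linarith)
        · intro x hx
          have := hsub hx
          rw [mem_ball_zero_iff] at this
          exact (hclose a ha x this).2.trans (by linarith)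
      have hflZ : Flat δl (ann 0 (s / 4)) (fc fun z => B a (Z (T a z))) := by
        have := flat_of_close (S := ann 0 (s / 4)) hδp0.le (by linarith) (e := 9 * (C * δp))
          (by linarith) (fun x hx => (iY x (hsub' hx)).2) (fun x hx => (iZ x (hsub' hx)).2)
          (hfl a ha).2 (fun x hx => (hclose a ha x (by simpa using hsub' hx)).2)
        intro x hx y hy
        exact (this x hx y hy).trans (by linarith)
      apply hpath _ _ s hs iZ iX _ hflZ _ ((P28f.Iso.symm hiso1).trans (hiso a ha))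
      · intro x hx hxs
        show cc (B a (Z (T a (sl n x)))) = cc (B a (X (T a (sl n x))))
        rw [hZ1 _ (heq a ha x hx hxs)]
      · intro x hx y hy
        exact ((hfl a ha).1 x hx y hy).trans (by linarith))
  exact ⟨Φ', h1, hZc.trans h2, h3⟩

end Pool.Agent.Lib.P28g
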