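import Pool.Agent.Lib.P28g.QMap
import Pool.Agent.Lib.P28g.ChartGeom
import Pool.Agent.Lib.P28c.LocB
import Pool.Agent.Lib.P28c.VConn
import Pool.Agent.Lib.P28c.CutF
import Pool.Agent.Lib.P28c.Near
import Pool.Agent.Lib.P28f.Radius
import Pool.Agent.Lib.P28c.Vol

set_option autoImplicit false

/-!
# Smoothing at variable scale on CP^n

`q`, `C` from `exists_qm`; `μ = (enW Φ).map q`; `σ`, `s` from `exists_radius` (`P = 1`, `ε = 1/2`); `τ z = s (q z) * rad z / (96 (n+1)²)`;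
`Ψ = VAvg Φ τ`. FLAT: one matrix `M`, from `local_good` at the centre `z` and the scale `(3/160) σ ‖z‖ / (n+1)`, controls `Ψ` on
`closedBall z (κ t ‖z‖)`. GOOD: the matrices of the scales between `σ ‖z‖` and `κ s ‖z‖` are compared with `near`, factor `2` at each step.
-/

open MeasureTheory Set Metric
open scoped ContDiff Topology ENNReal

namespace Pool.Agent.Lib.P28g

open Pool.Agent.P28b04d Pool.Agent.Lib.P28e Pool.Agent.Lib.P28c
open Pool.Agent.Lib.P28f (V EV)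

variable {n m : ℕ}

theorem enW_univ (Φ : W n → W n) : enW Φ univ = energy Φ := by
  unfold enW energy
  rw [withDensity_apply _ MeasurableSet.univ, Measure.restrict_univ]

theorem enW_finite {Φ : W n → W n} (h : energy Φ ≠ ⊤) : IsFiniteMeasure (enW Φ) := by
  refine ⟨?_⟩
  rw [enW_univ]
  exact lt_top_iff_ne_top.2 h

namespace SmoothWAux

theorem enW_ac (Φ : W n → W n) : enW Φ ≪ volume := by
  unfold enW
  exact (withDensity_absolutelyContinuous _ _).trans Measure.absolutelyContinuous_restrict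

theorem enW_null (hn : 1 ≤ n) (Φ : W n → W n) {w : W n} (hw : w ≠ 0) :
    enW Φ {z : W n | fd (pt z) (pt w) ≤ 0} = 0 := by
  apply enW_ac Φ
  have h1 : {z : W n | fd (pt z) (pt w) ≤ 0} ⊆
      {0} ∪ {x : W n | x ≠ 0 ∧ fd (pt x) (pt w) = 0} := by
    intro z hz
    by_cases h0 : z = 0
    · exact Or.inl h0
    · exact Or.inr ⟨h0, le_antisymm hz (fd_nonneg _ _)⟩
  refine measure_mono_null h1 (measure_union_null (measure_singleton (0 : W n)) ?_)
  exact line_null hn hw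

theorem enW_PB (Φ : W n → W n) (P : Mat n) (s : ℝ) : enW Φ (PB P s) = eOn Φ P s := by
  unfold enW eOn
  rw [withDensity_apply _ (measurableSet_PB P s), Measure.restrict_restrict (measurableSet_PB P s),
    inter_comm]

end SmoothWAux

open SmoothWAux

/-- No complex line has positive energy. -/
theorem enW_line (hn : 1 ≤ n) (Φ : W n → W n) {w : W n} (hw : w ≠ 0) :
    enW Φ {z : W n | pt z = pt w} = 0 := by
  refine measure_mono_null ?_ (enW_null hn Φ hw)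
  intro z hz
  have hz' : pt z = pt w := hz
  show fd (pt z) (pt w) ≤ 0
  rw [hz', fd_self]

theorem enW_zero (_hn : 1 ≤ n) (Φ : W n → W n) : enW Φ {0} = 0 :=
  enW_ac Φ (measure_singleton (0 : W n))

namespace SmoothWAux

/-! ### Elementary estimates in a normed ring -/

theorem inv_bound {A : Type} [NormedRing A] (h1 : ‖(1 : A)‖ ≤ 1) (X : Aˣ) {k : ℝ} (hk : k ≤ 1 / 6)
    (h : ‖(X : A) - 1‖ ≤ k) : ‖((X⁻¹ : Aˣ) : A)‖ ≤ 6 / 5 := by
  have e : ((X⁻¹ : Aˣ) : A) = 1 - ((X⁻¹ : Aˣ) : A) * ((X : A) - 1) := by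
    rw [mul_sub, Units.inv_mul, mul_one, sub_sub_cancel]
  have h2 : ‖((X⁻¹ : Aˣ) : A)‖ ≤ 1 + ‖((X⁻¹ : Aˣ) : A)‖ * (1 / 6) := by
    calc ‖((X⁻¹ : Aˣ) : A)‖ = ‖1 - ((X⁻¹ : Aˣ) : A) * ((X : A) - 1)‖ := congrArg _ e
      _ ≤ ‖(1 : A)‖ + ‖((X⁻¹ : Aˣ) : A) * ((X : A) - 1)‖ := norm_sub_le _ _
      _ ≤ 1 + ‖((X⁻¹ : Aˣ) : A)‖ * (1 / 6) := by
          refine add_le_add h1 ((norm_mul_le _ _).trans ?_)
          exact mul_le_mul_of_nonneg_left (h.trans hk) (norm_nonneg _)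
  linarith

theorem flat_aux {A : Type} [NormedRing A] (h1 : ‖(1 : A)‖ ≤ 1) (M U : Aˣ) (b : A) {k : ℝ}
    (hk : k ≤ 1 / 6) (hU : ‖(↑M⁻¹ : A) * (U : A) - 1‖ ≤ k) (hb : ‖(↑M⁻¹ : A) * b - 1‖ ≤ k) :
    ‖(↑U⁻¹ : A) * b - 1‖ ≤ 3 * k := by
  have hk0 : 0 ≤ k := (norm_nonneg _).trans hU
  obtain ⟨X, hX⟩ : ∃ X : Aˣ, X = M⁻¹ * U := ⟨_, rfl⟩
  have hXv : (X : A) = (↑M⁻¹ : A) * (U : A) := by rw [hX, Units.val_mul]
  have hXi := inv_bound h1 X hk (by rw [hXv]; exact hU)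
  have e : (↑U⁻¹ : A) * b - 1 = ((X⁻¹ : Aˣ) : A) *
      (((↑M⁻¹ : A) * b - 1) - ((↑M⁻¹ : A) * (U : A) - 1)) := by
    have e1 : ((X⁻¹ : Aˣ) : A) * ((↑M⁻¹ : A) * b) = (↑U⁻¹ : A) * b := by
      rw [hX, mul_inv_rev, inv_inv, Units.val_mul, ← mul_assoc, mul_assoc _ (M : A),
        Units.mul_inv, mul_one]
    have e2 : ((X⁻¹ : Aˣ) : A) * ((↑M⁻¹ : A) * (U : A)) = 1 := by
      rw [← hXv, Units.inv_mul]
    rw [sub_sub_sub_cancel_right, mul_sub, e1, e2]
  rw [e]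
  refine (norm_mul_le _ _).trans ?_
  have h3 : ‖((↑M⁻¹ : A) * b - 1) - ((↑M⁻¹ : A) * (U : A) - 1)‖ ≤ 2 * k :=
    (norm_sub_le _ _).trans (by linarith)
  calc ‖((X⁻¹ : Aˣ) : A)‖ * ‖((↑M⁻¹ : A) * b - 1) - ((↑M⁻¹ : A) * (U : A) - 1)‖
      ≤ 6 / 5 * (2 * k) := mul_le_mul hXi h3 (norm_nonneg _) (by norm_num)
    _ ≤ 3 * k := by linarith

theorem step_bound {A : Type} [NormedRing A] (h1 : ‖(1 : A)‖ ≤ 1) {x : A} (h : ‖x - 1‖ ≤ 1 / 4) :
    ‖x‖ ≤ 2 := by
  have e : x = (x - 1) + 1 := by abel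
  calc ‖x‖ = ‖(x - 1) + 1‖ := congrArg _ e
    _ ≤ ‖x - 1‖ + ‖(1 : A)‖ := norm_add_le _ _
    _ ≤ 2 := by linarith

theorem chain_up {A : Type} [NormedRing A] (h1 : ‖(1 : A)‖ ≤ 1) (M : ℕ → Aˣ)
    (h : ∀ i, ‖(↑(M i)⁻¹ : A) * (M (i + 1) : A) - 1‖ ≤ 1 / 4) (k : ℕ) :
    ‖(↑(M 0)⁻¹ : A) * (M k : A)‖ ≤ 2 ^ k := by
  induction k with
  | zero => rw [Units.inv_mul, pow_zero]; exact h1
  | succ k ih =>
    have e : (↑(M 0)⁻¹ : A) * (M (k + 1) : A) =
        ((↑(M 0)⁻¹ : A) * (M k : A)) * ((↑(M k)⁻¹ : A) * (M (k + 1) : A)) := by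
      rw [mul_assoc, ← mul_assoc (M k : A), Units.mul_inv, one_mul]
    rw [e, pow_succ]
    exact (norm_mul_le _ _).trans (mul_le_mul ih (step_bound h1 (h k)) (norm_nonneg _)
      (by positivity))

theorem chain_down {A : Type} [NormedRing A] (h1 : ‖(1 : A)‖ ≤ 1) (M : ℕ → Aˣ)
    (h : ∀ i, ‖(↑(M (i + 1))⁻¹ : A) * (M i : A) - 1‖ ≤ 1 / 4) (k : ℕ) :
    ‖(↑(M k)⁻¹ : A) * (M 0 : A)‖ ≤ 2 ^ k := by
  induction k with
  | zero => rw [Units.inv_mul, pow_zero]; exact h1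
  | succ k ih =>
    have e : (↑(M (k + 1))⁻¹ : A) * (M 0 : A) =
        ((↑(M (k + 1))⁻¹ : A) * (M k : A)) * ((↑(M k)⁻¹ : A) * (M 0 : A)) := by
      rw [mul_assoc, ← mul_assoc (M k : A), Units.mul_inv, one_mul]
    rw [e, pow_succ, mul_comm ((2 : ℝ) ^ k)]
    exact (norm_mul_le _ _).trans (mul_le_mul (step_bound h1 (h k)) ih (norm_nonneg _)
      (by positivity))

/-! ### `Good` on other balls -/

theorem good_weaken {Φ : W n → W n} {z : W n} {ρ ε ε' : ℝ} (h : ε ≤ ε') {M : (EndW n)ˣ}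
    (hM : Good Φ z ρ ε M) : Good Φ z ρ ε' M := by
  unfold Good at hM ⊢
  refine hM.trans ?_
  gcongr

theorem good_move {Φ : W n → W n} {z w : W n} {ρ ρ' ε K : ℝ} (hρ0 : 0 < ρ) (hρ' : 0 < ρ')
    (hsub : closedBall w ρ' ⊆ closedBall z ρ) (hε : 0 ≤ ε) (hK : ρ ≤ K * ρ') {M : (EndW n)ˣ}
    (hM : Good Φ z ρ ε M) : Good Φ w ρ' (ε * K ^ (2 * n + 2)) M := by
  have hK0 : 0 < K := by
    by_contra h
    push Not at h
    have := mul_nonpos_of_nonpos_of_nonneg h hρ'.le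
    linarith
  have hvol : volume (closedBall z ρ) ≤ ENNReal.ofReal (K ^ (2 * n + 2)) *
      volume (closedBall w ρ') := by
    have e1 : volume (closedBall z ρ) = ENNReal.ofReal (ρ ^ (2 * n + 2)) *
        volume (closedBall (0 : W n) 1) := by
      rw [Measure.addHaar_closedBall' _ _ hρ0.le, finrank_W]
    have e2 : volume (closedBall w ρ') = ENNReal.ofReal (ρ' ^ (2 * n + 2)) *
        volume (closedBall (0 : W n) 1) := by
      rw [Measure.addHaar_closedBall' _ _ hρ'.le, finrank_W]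
    rw [e1, e2, ← mul_assoc, ← ENNReal.ofReal_mul (by positivity), ← mul_pow]
    gcongr
  unfold Good at hM ⊢
  calc ∫⁻ x in closedBall w ρ', ‖(↑M⁻¹ : EndW n) * fderiv ℝ Φ x - 1‖ₑ
      ≤ ∫⁻ x in closedBall z ρ, ‖(↑M⁻¹ : EndW n) * fderiv ℝ Φ x - 1‖ₑ :=
        lintegral_mono_set hsub
    _ ≤ ENNReal.ofReal ε * volume (closedBall z ρ) := hM
    _ ≤ ENNReal.ofReal ε * (ENNReal.ofReal (K ^ (2 * n + 2)) * volume (closedBall w ρ')) := by
        gcongr
    _ = ENNReal.ofReal (ε * K ^ (2 * n + 2)) * volume (closedBall w ρ') := by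
        rw [← mul_assoc, ← ENNReal.ofReal_mul hε]

/-! ### The push-forward of the energy -/

theorem map_le {q : W n → V m} {C : ℝ} (hq : QM q C) (ν : Measure (W n)) [IsFiniteMeasure ν]
    (z : W n) {r : ℝ} (hr : 0 < r) :
    (ν.map q).real (closedBall (q z) r) ≤ ν.real (PB (pt z) (2 * C * r)) := by
  rw [map_measureReal_apply hq.meas isClosed_closedBall.measurableSet]
  refine measureReal_mono ?_
  intro x hx
  have h1 : ‖q x - q z‖ ≤ r := by
    rw [mem_preimage, mem_closedBall, dist_eq_norm] at hx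
    exact hx
  have h2 := hq.ge x z
  have hC := hq.one_le
  show fd (pt x) (pt z) < 2 * C * r
  have h3 : C * ‖q x - q z‖ ≤ C * r := mul_le_mul_of_nonneg_left h1 (by linarith)
  have h4 : 0 < C * r := by positivity
  linarith

theorem map_ge {q : W n → V m} {C : ℝ} (hq : QM q C) (ν : Measure (W n)) [IsFiniteMeasure ν]
    (z : W n) (r : ℝ) :
    ν.real (PB (pt z) r) ≤ (ν.map q).real (closedBall (q z) r) := by
  rw [map_measureReal_apply hq.meas isClosed_closedBall.measurableSet]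
  refine measureReal_mono ?_
  intro x hx
  have h1 : fd (pt x) (pt z) < r := hx
  rw [mem_preimage, mem_closedBall, dist_eq_norm]
  exact (hq.le x z).trans h1.le

theorem map_atom (hn : 1 ≤ n) {q : W n → V m} {C : ℝ} (hq : QM q C) (Φ : W n → W n) (P : V m) :
    (enW Φ).map q {P} = 0 := by
  rw [Measure.map_apply hq.meas (measurableSet_singleton P)]
  by_cases h : ∃ w : W n, w ≠ 0 ∧ q w = P
  · obtain ⟨w, hw, hwP⟩ := h
    refine measure_mono_null ?_ (enW_null hn Φ hw)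
    intro x hx
    have hx' : q x = P := hx
    have h1 := hq.ge x w
    rw [hx', hwP, sub_self, norm_zero, mul_zero] at h1
    exact h1
  · refine measure_mono_null ?_ (enW_zero hn Φ)
    intro x hx
    by_contra h0
    exact h ⟨x, h0, hx⟩

theorem map_supp {q : W n → V m} {C : ℝ} (hq : QM q C) (ν : Measure (W n)) :
    ν.map q (closedBall 0 (1 / 4))ᶜ = 0 := by
  rw [Measure.map_apply hq.meas isClosed_closedBall.measurableSet.compl]
  have e : q ⁻¹' (closedBall 0 (1 / 4))ᶜ = ∅ := by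
    rw [eq_empty_iff_forall_notMem]
    intro x hx
    apply hx
    rw [mem_closedBall_zero_iff]
    exact hq.small x
  rw [e, measure_empty]

theorem q_hom {q : W n → V m} {C : ℝ} (hq : QM q C) {c : ℂ} (hc : c ≠ 0) (z : W n) :
    q (c • z) = q z := by
  have h1 := hq.le (c • z) z
  rw [pt_smul hc, fd_self] at h1
  exact sub_eq_zero.1 (norm_le_zero_iff.1 h1)

theorem q_lip {q : W n → V m} {C : ℝ} (hq : QM q C) {z w : W n} (hz : z ≠ 0) (hw : w ≠ 0) :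
    ‖q w - q z‖ ≤ 2 * ((n : ℝ) + 1) * ‖w - z‖ / ‖z‖ :=
  (hq.le w z).trans (fd_pt_le hw hz)

theorem cut_of {q : W n → V m} {C : ℝ} (hq : QM q C) {σ s : V m → ℝ}
    (hσ : ∀ z, 0 < σ z ∧ σ z ≤ 1) (hs : ContDiff ℝ ∞ s)
    (hsσ : ∀ z, 1 / 2 / 2 * σ z ≤ s z ∧ s z ≤ 2 * (1 / 2) * σ z)
    (hds : ∀ z, ‖fderiv ℝ s z‖ ≤ 1 / 2) : Cut (fun z => s (q z)) ((n : ℝ) + 1) := by
  have hslip : ∀ x y, ‖s x - s y‖ ≤ 1 / 2 * ‖x - y‖ := by
    intro x y
    exact Convex.norm_image_sub_le_of_norm_fderiv_le (𝕜 := ℝ) (s := univ)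
      (fun w _ => (hs.differentiable (by simp)) w) (fun w _ => hds w) convex_univ
      (mem_univ y) (mem_univ x)
  refine ⟨hs.comp_contDiffOn hq.smooth, ?_, ?_, ?_, ?_⟩
  · intro c z hc
    show s (q (c • z)) = s (q z)
    rw [q_hom hq hc]
  · intro z
    have h1 := (hσ (q z)).1
    have h2 := (hsσ (q z)).1
    show 0 ≤ s (q z)
    linarith
  · intro z
    have h1 := (hσ (q z)).2
    have h2 := (hsσ (q z)).2
    show s (q z) ≤ 1
    linarith
  · intro z hz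
    have hz0 : 0 < ‖z‖ := norm_pos_iff.2 hz
    have hmem : ({0}ᶜ : Set (W n)) ∈ 𝓝 z := isOpen_compl_singleton.mem_nhds hz
    have hd : HasFDerivAt (fun z => s (q z)) (fderiv ℝ (fun z => s (q z)) z) z := by
      have h1 : ContDiffOn ℝ ∞ (fun z => s (q z)) {0}ᶜ := hs.comp_contDiffOn hq.smooth
      exact ((h1.contDiffAt hmem).differentiableAt (by simp)).hasFDerivAt
    have h2 : ‖fderiv ℝ (fun z => s (q z)) z‖ ≤ ((n : ℝ) + 1) / ‖z‖ := by
      refine hd.le_of_lip' (by positivity) ?_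
      filter_upwards [hmem] with w hw
      calc ‖s (q w) - s (q z)‖ ≤ 1 / 2 * ‖q w - q z‖ := hslip _ _
        _ ≤ 1 / 2 * (2 * ((n : ℝ) + 1) * ‖w - z‖ / ‖z‖) :=
            mul_le_mul_of_nonneg_left (q_lip hq hz hw) (by norm_num)
        _ = ((n : ℝ) + 1) / ‖z‖ * ‖w - z‖ := by ring
    calc ‖fderiv ℝ (fun z => s (q z)) z‖ * ‖z‖ ≤ ((n : ℝ) + 1) / ‖z‖ * ‖z‖ :=
          mul_le_mul_of_nonneg_right h2 hz0.le
      _ = (n : ℝ) + 1 := div_mul_cancel₀ _ hz0.ne'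

/-! ### Numerical estimates -/

theorem num_flat {N S a b T d τ : ℝ} (hN : 1 ≤ N) (hS0 : 0 < S) (hS1 : S ≤ 1) (ha : 0 < a)
    (hd : d ≤ S * a / (200 * N)) (hb1 : b ≤ a + d) (hb2 : a - d ≤ b) (hT1 : T ≤ 101 / 100 * S)
    (hT2 : 99 / 100 * S ≤ T) (hτ1 : τ ≤ T * b / (96 * N)) (hτ2 : T * b / (384 * N ^ 2) ≤ τ) :
    d + τ ≤ 3 / 160 * S * a / N ∧ 3 / 160 * S * a / N ≤ 8 * N * τ := by
  have hN0 : 0 < N := by linarith
  obtain ⟨y, hy⟩ : ∃ y, y = S * a / N := ⟨_, rfl⟩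
  have hy0 : 0 < y := by rw [hy]; positivity
  have hSa : S * a = y * N := by rw [hy, div_mul_cancel₀ _ hN0.ne']
  have hd' : d ≤ a / 200 := by
    refine hd.trans ?_
    rw [div_le_div_iff₀ (by positivity) (by norm_num)]
    have : S * a ≤ N * a := mul_le_mul_of_nonneg_right (hS1.trans hN) ha.le
    linarith
  have hdy : d ≤ y / 200 := by
    refine hd.trans (le_of_eq ?_)
    rw [hy]
    field_simp
  have hT0 : 0 < T := by linarith
  have hb0 : 0 < b := by linarith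
  have hTb1 : T * b ≤ 10151 / 10000 * (S * a) := by
    calc T * b ≤ (101 / 100 * S) * (201 / 200 * a) :=
          mul_le_mul hT1 (by linarith) hb0.le (by positivity)
      _ ≤ 10151 / 10000 * (S * a) := by
          have : 0 < S * a := by positivity
          linarith
  have hTb2 : 98 / 100 * (S * a) ≤ T * b := by
    calc 98 / 100 * (S * a) ≤ (99 / 100 * S) * (199 / 200 * a) := by
          have : 0 < S * a := by positivity
          linarith
      _ ≤ T * b := mul_le_mul hT2 (by linarith) (by positivity) hT0.le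
  have e1 : 3 / 160 * S * a / N = 3 / 160 * y := by rw [hy]; ring
  rw [e1]
  constructor
  · have h1 : τ ≤ 10151 / 960000 * y := by
      refine hτ1.trans ?_
      rw [div_le_iff₀ (by positivity)]
      rw [hSa] at hTb1
      linarith
    linarith
  · have h2 : 98 / 38400 * y ≤ N * τ := by
      have h3 : N * (T * b / (384 * N ^ 2)) ≤ N * τ := mul_le_mul_of_nonneg_left hτ2 hN0.le
      refine le_trans ?_ h3
      have e3 : N * (T * b / (384 * N ^ 2)) = T * b / (384 * N) := by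
        field_simp
      rw [e3, le_div_iff₀ (by positivity)]
      rw [hSa] at hTb2
      linarith
    linarith

/-- Everything that is needed about the radius function and the average. -/
structure Dat (Φ Ψ : W n → W n) (N C c ε : ℝ) (S : W n → ℝ) : Prop where
  pos : ∀ z : W n, 0 < S z
  le_one : ∀ z : W n, S z ≤ 1
  light : ∀ z : W n, z ≠ 0 → ∀ t : ℝ, 0 < t → t ≤ 1 → (enW Φ).real (PB (pt z) t) ≤ c →
    t ≤ 2 * C * S z
  good : ∀ z : W n, z ≠ 0 → ∀ ρ : ℝ, 0 < ρ → ρ ≤ 3 / 160 * S z * ‖z‖ / N →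
    ∃ M : (EndW n)ˣ, Good Φ z ρ ε M
  close : ∀ z : W n, z ≠ 0 → ∀ w : W n, ‖w - z‖ ≤ S z * ‖z‖ / (200 * N) → ∀ M : (EndW n)ˣ,
    Good Φ z (3 / 160 * S z * ‖z‖ / N) ε M →
    ‖(↑M⁻¹ : EndW n) * fderiv ℝ Ψ w - 1‖ ≤ 2 * (ε * (8 * N) ^ (2 * n + 2))

theorem exists_dat (n : ℕ) (hn : 1 ≤ n) {q : W n → V m} {C : ℝ} (hq : QM q C) {ε : ℝ}
    (hε : 0 < ε) (hε1 : ε ≤ 1 / 8) : ∃ c : ℝ, 0 < c ∧ ∀ Φ : W n → W n, HLoc Φ → energy Φ ≠ ⊤ →
    ∃ (Ψ : W n → W n) (S : W n → ℝ), Conn Φ Ψ ∧ HLoc Ψ ∧ Dat Φ Ψ ((n : ℝ) + 1) C c ε S := by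
  obtain ⟨c, hc, hgood⟩ := local_good n hn ε hε
  refine ⟨c, hc, ?_⟩
  intro Φ hΦ hE
  have hfin : IsFiniteMeasure (enW Φ) := enW_finite hE
  have hC := hq.one_le
  have hn0 : (1 : ℝ) ≤ n := by exact_mod_cast hn
  obtain ⟨N, hN⟩ : ∃ N : ℝ, N = (n : ℝ) + 1 := ⟨_, rfl⟩
  have hN1 : 1 ≤ N := by linarith
  have hN0 : 0 < N := by linarith
  obtain ⟨σ, s, hσ, hσc, hσmax, hσlip, hs, hsσ, hds⟩ :=
    Pool.Agent.Lib.P28f.exists_radius (μ := (enW Φ).map q) (map_atom hn hq Φ)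
      (map_supp hq (enW Φ)) (c := c) (P := 1) (ε := 1 / 2) hc one_pos (by norm_num)
  have hcut := cut_of hq hσ hs hsσ hds
  have hr0 : 0 < 1 / (96 * N ^ 2) := by positivity
  have hτ : Tau (fun z => 1 / (96 * N ^ 2) * s (q z) * rad z) := by
    refine tau_cut (L := (n : ℝ) + 1) (by positivity) hcut hr0 ?_
    rw [← hN, div_mul_eq_mul_div, one_mul, div_le_one (by positivity)]
    nlinarith
  obtain ⟨τ, hτdef⟩ : ∃ τ : W n → ℝ, τ = fun z => 1 / (96 * N ^ 2) * s (q z) * rad z := ⟨_, rfl⟩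
  rw [← hτdef] at hτ
  have hσq : ∀ z, 0 < σ (q z) := fun z => (hσ (q z)).1
  have hτv : ∀ z, τ z = 1 / (96 * N ^ 2) * s (q z) * rad z := fun z => by rw [hτdef]
  have hτ1 : ∀ z, τ z ≤ σ (q z) * ‖z‖ / (96 * N) := by
    intro z
    have h1 : s (q z) ≤ σ (q z) := by
      have := (hsσ (q z)).2
      linarith
    have h2 := rad_le z
    rw [hτv]
    calc 1 / (96 * N ^ 2) * s (q z) * rad z
        ≤ 1 / (96 * N ^ 2) * σ (q z) * (((n : ℝ) + 1) * ‖z‖) := by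
          apply mul_le_mul (mul_le_mul_of_nonneg_left h1 hr0.le) h2 (Real.sqrt_nonneg _)
          have := hσq z
          positivity
      _ = σ (q z) * ‖z‖ / (96 * N) := by
          rw [← hN]
          field_simp
  have hτ2 : ∀ z, σ (q z) * ‖z‖ / (384 * N ^ 2) ≤ τ z := by
    intro z
    have h1 : 1 / 4 * σ (q z) ≤ s (q z) := by
      have := (hsσ (q z)).1
      linarith
    have h2 := norm_le_rad z
    have h3 := hσq z
    rw [hτv]
    calc σ (q z) * ‖z‖ / (384 * N ^ 2) = 1 / (96 * N ^ 2) * (1 / 4 * σ (q z)) * ‖z‖ := by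
          field_simp
          ring
      _ ≤ 1 / (96 * N ^ 2) * s (q z) * rad z := by
          apply mul_le_mul (mul_le_mul_of_nonneg_left h1 hr0.le) h2 (norm_nonneg _)
          have : 0 < s (q z) := by linarith
          positivity
  have hτpos : ∀ z, z ≠ 0 → 0 < τ z := by
    intro z hz
    have h1 := norm_pos_iff.2 hz
    have h2 := hσq z
    exact lt_of_lt_of_le (by positivity) (hτ2 z)
  have hgoodz : ∀ z : W n, z ≠ 0 → ∀ ρ : ℝ, 0 < ρ → ρ ≤ 3 / 160 * σ (q z) * ‖z‖ / N →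
      ∃ M : (EndW n)ˣ, Good Φ z ρ ε M := by
    intro z hz ρ hρ hρ1
    have h1 := hσ (q z)
    refine hgood Φ hΦ z hz (9 / 10 * σ (q z)) (by linarith) (by linarith) ?_ ρ hρ ?_
    · rw [← enW_PB, ← ofReal_measureReal]
      apply ENNReal.ofReal_le_ofReal
      exact (map_ge hq (enW Φ) z _).trans (hσc (q z))
    · refine hρ1.trans (le_of_eq ?_)
      unfold kap1
      rw [← hN]
      field_simp
      ring
  have hsmall : ∀ z : W n, z ≠ 0 → τ z ≤ 3 / 160 * σ (q z) * ‖z‖ / N := by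
    intro z hz
    have h1 := norm_pos_iff.2 hz
    have h2 := hσq z
    refine (hτ1 z).trans ?_
    have h3 : 0 < σ (q z) * ‖z‖ / N := by positivity
    have e1 : σ (q z) * ‖z‖ / (96 * N) = 1 / 96 * (σ (q z) * ‖z‖ / N) := by
      field_simp
    have e2 : 3 / 160 * σ (q z) * ‖z‖ / N = 3 / 160 * (σ (q z) * ‖z‖ / N) := by ring
    rw [e1, e2]
    linarith
  have hg8 : ∀ z : W n, z ≠ 0 → τ z = 0 ∨
      ∀ ρ : ℝ, 0 < ρ → ρ ≤ τ z → ∃ M : (EndW n)ˣ, Good Φ z ρ (1 / 8) M := by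
    intro z hz
    right
    intro ρ hρ hρ1
    obtain ⟨M, hM⟩ := hgoodz z hz ρ hρ (hρ1.trans (hsmall z hz))
    exact ⟨M, good_weaken hε1 hM⟩
  refine ⟨VAvg Φ τ, fun z => σ (q z), vavg_conn hΦ hτ hg8, vavg_hloc hΦ hτ hg8, ?_⟩
  rw [← hN]
  refine ⟨hσq, fun z => (hσ (q z)).2, ?_, hgoodz, ?_⟩
  · intro z hz t ht ht1 hl
    have h1 : t / (2 * C) ≤ σ (q z) := by
      refine hσmax (q z) (t / (2 * C)) (by positivity) ?_ ?_
      · rw [div_le_one (by positivity)]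
        linarith
      · refine (map_le hq (enW Φ) z (r := t / (2 * C)) (by positivity)).trans ?_
        rw [mul_div_cancel₀ t (by positivity : (2 * C) ≠ 0)]
        exact hl
    rw [div_le_iff₀ (by positivity)] at h1
    linarith
  · intro z hz w hw M hM
    have ha := norm_pos_iff.2 hz
    have hS := hσ (q z)
    have hS' : 0 < σ (q z) * ‖z‖ := mul_pos hS.1 ha
    have hw' : ‖w - z‖ ≤ ‖z‖ / 200 := by
      refine hw.trans ?_
      rw [div_le_div_iff₀ (by positivity) (by norm_num)]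
      have : σ (q z) * ‖z‖ ≤ N * ‖z‖ := mul_le_mul_of_nonneg_right (hS.2.trans hN1) ha.le
      linarith
    have hb1 : ‖w‖ ≤ ‖z‖ + ‖w - z‖ := by
      calc ‖w‖ = ‖z + (w - z)‖ := by rw [add_sub_cancel]
        _ ≤ ‖z‖ + ‖w - z‖ := norm_add_le _ _
    have hb2 : ‖z‖ - ‖w - z‖ ≤ ‖w‖ := by
      have : ‖z‖ = ‖w - (w - z)‖ := by rw [sub_sub_cancel]
      have h2 := norm_sub_le w (w - z)
      rw [← this] at h2
      linarith
    have hw0 : w ≠ 0 := by
      intro h0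
      rw [h0, norm_zero] at hb2
      rw [h0] at hw'
      linarith
    have hqq : ‖q w - q z‖ ≤ σ (q z) / 100 := by
      refine (q_lip hq hz hw0).trans ?_
      rw [← hN, div_le_iff₀ ha]
      calc 2 * N * ‖w - z‖ ≤ 2 * N * (σ (q z) * ‖z‖ / (200 * N)) :=
            mul_le_mul_of_nonneg_left hw (by positivity)
        _ = σ (q z) / 100 * ‖z‖ := by
            field_simp
            ring
    have hT1 : σ (q w) ≤ 101 / 100 * σ (q z) := by
      have := hσlip (q w) (q z)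
      linarith
    have hT2 : 99 / 100 * σ (q z) ≤ σ (q w) := by
      have := hσlip (q z) (q w)
      rw [norm_sub_rev] at this
      linarith
    obtain ⟨h1, h2⟩ := num_flat hN1 hS.1 hS.2 ha hw hb1 hb2 hT1 hT2 (hτ1 w) (hτ2 w)
    have hτw := hτpos w hw0
    have h3 : Good Φ w (τ w) (ε * (8 * N) ^ (2 * n + 2)) M := by
      have hS0 := hS.1
      refine good_move (by positivity) hτw ?_ hε.le h2 hM
      apply closedBall_subset_closedBall'
      rw [dist_eq_norm]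
      linarith
    have h4 := vavg_close hΦ hτ one_pos le_rfl hw0 hτw (ε := ε * (8 * N) ^ (2 * n + 2))
      (by positivity) (M := M) (by rw [one_mul]; exact h3)
    simp only [one_mul] at h4
    exact h4

end SmoothWAux

theorem smooth_W (n : ℕ) (hn : 1 ≤ n) : ∃ κ : ℝ, 0 < κ ∧ κ ≤ 1 / (8 * ((n : ℝ) + 1)) ∧
    ∃ C₀ : ℝ, 1 ≤ C₀ ∧ ∀ δ : ℝ, 0 < δ → ∃ c : ℝ, 0 < c ∧ ∀ Φ : W n → W n, HLoc Φ →
    energy Φ ≠ ⊤ → ∃ Ψ : W n → W n, Conn Φ Ψ ∧ CtrlW κ δ c Ψ (enW Φ) ∧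
      ∀ z : W n, z ≠ 0 → ∀ s : ℝ, 0 < s → s ≤ 1 → (enW Φ).real (PB (pt z) s) ≤ c →
        ∃ M M0 : (EndW n)ˣ, (M : EndW n) = fderiv ℝ Ψ z ∧
          Good Φ z (κ * s * ‖z‖) (1 / 16) M0 ∧
          ‖(↑M0⁻¹ : EndW n) * (M : EndW n)‖ * s ≤ C₀ ∧
          ‖(↑M⁻¹ : EndW n) * (M0 : EndW n)‖ * s ≤ C₀ := by
  obtain ⟨m, q, C, hq⟩ := exists_qm n
  have hC := hq.one_le
  have hC0 : 0 < C := by linarith
  obtain ⟨N, hN⟩ : ∃ N : ℝ, N = (n : ℝ) + 1 := ⟨_, rfl⟩
  have hn0 : (1 : ℝ) ≤ n := by exact_mod_cast hn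
  have hN1 : 1 ≤ N := by linarith
  have hN0 : 0 < N := by linarith
  have h1A : ‖(1 : EndW n)‖ ≤ 1 := ContinuousLinearMap.norm_id_le
  rw [← hN]
  refine ⟨1 / (400 * N * C), by positivity, ?_, 18 * C, by linarith, ?_⟩
  · apply one_div_le_one_div_of_le (by positivity)
    have : N * 1 ≤ N * C := mul_le_mul_of_nonneg_left hC hN0.le
    linarith
  intro δ hδ
  obtain ⟨K, hK⟩ : ∃ K : ℝ, K = (8 * N) ^ (2 * n + 2) := ⟨_, rfl⟩
  have hK1 : 1 ≤ K := by rw [hK]; exact one_le_pow₀ (by linarith)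
  have hK0 : 0 < K := by linarith
  obtain ⟨δ₁, hδ₁, hnear⟩ := near n (K := 2) (τ := 1 / 16) (by norm_num) (by norm_num)
    (by norm_num)
  have hmin : 0 < min δ (1 / 2) := lt_min hδ (by norm_num)
  obtain ⟨ε, hεdef⟩ : ∃ ε : ℝ, ε = min (min δ (1 / 2) / (6 * K)) (min δ₁ (1 / 16)) := ⟨_, rfl⟩
  have hε0 : 0 < ε := by
    rw [hεdef]
    exact lt_min (by positivity) (lt_min hδ₁ (by norm_num))
  have hε1 : ε * K ≤ min δ (1 / 2) / 6 := by
    have : ε ≤ min δ (1 / 2) / (6 * K) := by rw [hεdef]; exact min_le_left _ _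
    calc ε * K ≤ min δ (1 / 2) / (6 * K) * K := mul_le_mul_of_nonneg_right this hK0.le
      _ = min δ (1 / 2) / 6 := by field_simp
  have hε2 : ε ≤ δ₁ := by rw [hεdef]; exact (min_le_right _ _).trans (min_le_left _ _)
  have hε3 : ε ≤ 1 / 16 := by rw [hεdef]; exact (min_le_right _ _).trans (min_le_right _ _)
  obtain ⟨c, hc, hdat⟩ := exists_dat n hn hq hε0 (by linarith)
  refine ⟨c, hc, ?_⟩
  intro Φ hΦ hE
  obtain ⟨Ψ, S, hconn, hloc, hD⟩ := hdat Φ hΦ hE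
  rw [← hN] at hD
  obtain ⟨k, hk⟩ : ∃ k : ℝ, k = 2 * (ε * K) := ⟨_, rfl⟩
  have hmd : min δ (1 / 2) ≤ δ := min_le_left _ _
  have hmh : min δ (1 / 2) ≤ 1 / 2 := min_le_right _ _
  have hk6 : k ≤ 1 / 6 := by linarith
  have hkδ : 3 * k ≤ δ := by linarith
  -- scales
  have hsc : ∀ z : W n, z ≠ 0 → ∀ s : ℝ, 0 < s → s ≤ 1 → (enW Φ).real (PB (pt z) s) ≤ c →
      1 / (400 * N * C) * s * ‖z‖ ≤ S z * ‖z‖ / (200 * N) := by
    intro z hz s hs hs1 hl
    have h1 := hD.light z hz s hs hs1 hl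
    have ha := norm_pos_iff.2 hz
    calc 1 / (400 * N * C) * s * ‖z‖ ≤ 1 / (400 * N * C) * (2 * C * S z) * ‖z‖ :=
          mul_le_mul_of_nonneg_right (mul_le_mul_of_nonneg_left h1 (by positivity)) ha.le
      _ = S z * ‖z‖ / (200 * N) := by
          field_simp
          ring
  refine ⟨Ψ, hconn, ⟨hloc, ?_⟩, ?_⟩
  · intro z hz s hs hs1 hl x hx y hy
    rw [mem_closedBall, dist_eq_norm] at hx hy
    have h1 := hsc z hz s hs hs1 hl
    have ha := norm_pos_iff.2 hz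
    have hSz := hD.pos z
    obtain ⟨M, hM⟩ := hD.good z hz _ (by positivity) le_rfl
    have hX := hD.close z hz x (hx.trans h1) M hM
    have hY := hD.close z hz y (hy.trans h1) M hM
    rw [← hK, ← hk] at hX hY
    have hx0 : x ≠ 0 := by
      intro h0
      rw [h0, zero_sub, norm_neg] at hx
      have h2 : S z * ‖z‖ / (200 * N) ≤ ‖z‖ / 200 := by
        rw [div_le_div_iff₀ (by positivity) (by norm_num)]
        have : S z * ‖z‖ ≤ N * ‖z‖ :=
          mul_le_mul_of_nonneg_right ((hD.le_one z).trans hN1) ha.le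
        linarith
      linarith
    obtain ⟨U, hU⟩ : ∃ U : (EndW n)ˣ, (U : EndW n) = fderiv ℝ Ψ x := isUnit_fderiv hloc hx0
    have h3 := flat_aux h1A M U (fderiv ℝ Ψ y) hk6 (by rw [hU]; exact hX) hY
    have e : Ring.inverse (fderiv ℝ Ψ x : EndW n) = (↑U⁻¹ : EndW n) := by
      rw [← hU, Ring.inverse_unit]
    rw [e]
    exact h3.trans hkδ
  · intro z hz s hs hs1 hl
    have h1 := hsc z hz s hs hs1 hl
    have hlt := hD.light z hz s hs hs1 hl
    have ha := norm_pos_iff.2 hz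
    have hSz := hD.pos z
    have hS1 := hD.le_one z
    obtain ⟨ρ, hρ⟩ : ∃ ρ : ℝ, ρ = 3 / 160 * S z * ‖z‖ / N := ⟨_, rfl⟩
    obtain ⟨ρ₁, hρ₁⟩ : ∃ ρ₁ : ℝ, ρ₁ = 1 / (400 * N * C) * s * ‖z‖ := ⟨_, rfl⟩
    have hρ0 : 0 < ρ := by rw [hρ]; positivity
    have hρ₁0 : 0 < ρ₁ := by rw [hρ₁]; positivity
    have hρρ : ρ₁ ≤ ρ := by
      rw [hρ, hρ₁]
      refine h1.trans ?_
      have h2 : 0 < S z * ‖z‖ / N := by positivity
      have e1 : S z * ‖z‖ / (200 * N) = 1 / 200 * (S z * ‖z‖ / N) := by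
        field_simp
      have e2 : 3 / 160 * S z * ‖z‖ / N = 3 / 160 * (S z * ‖z‖ / N) := by ring
      rw [e1, e2]
      linarith
    have hr : ∀ i : ℕ, 0 < max (ρ / 2 ^ i) ρ₁ ∧ max (ρ / 2 ^ i) ρ₁ ≤ ρ := by
      intro i
      refine ⟨lt_max_of_lt_right hρ₁0, max_le ?_ hρρ⟩
      exact div_le_self hρ0.le (one_le_pow₀ (by norm_num))
    have hex : ∀ i : ℕ, ∃ M : (EndW n)ˣ, Good Φ z (max (ρ / 2 ^ i) ρ₁) ε M := by
      intro i
      exact hD.good z hz _ (hr i).1 (by rw [← hρ]; exact (hr i).2)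
    choose M hM using hex
    have hr1 : ∀ i : ℕ, max (ρ / 2 ^ (i + 1)) ρ₁ ≤ 2 * max (ρ / 2 ^ i) ρ₁ := by
      intro i
      have h2 : ρ / 2 ^ (i + 1) ≤ ρ / 2 ^ i := by
        apply div_le_div_of_nonneg_left hρ0.le (by positivity)
        exact pow_le_pow_right₀ (by norm_num) (by omega)
      have h3 : max (ρ / 2 ^ (i + 1)) ρ₁ ≤ max (ρ / 2 ^ i) ρ₁ := max_le_max h2 le_rfl
      linarith [(hr i).1]
    have hr2 : ∀ i : ℕ, max (ρ / 2 ^ i) ρ₁ ≤ 2 * max (ρ / 2 ^ (i + 1)) ρ₁ := by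
      intro i
      apply max_le
      · have h2 : ρ / 2 ^ i = 2 * (ρ / 2 ^ (i + 1)) := by
          rw [pow_succ]
          field_simp
        rw [h2]
        exact mul_le_mul_of_nonneg_left (le_max_left _ _) (by norm_num)
      · have h3 : ρ₁ ≤ max (ρ / 2 ^ (i + 1)) ρ₁ := le_max_right _ _
        linarith
    have hup := chain_up h1A M (fun i => by
      have h5 := hnear Φ hΦ z z _ _ (hr i).1 (hr (i + 1)).1 (hr2 i) (hr1 i)
        (by rw [sub_self, norm_zero, mul_zero]; exact (hr i).1.le)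
        (by rw [sub_self, norm_zero, mul_zero]; exact (hr (i + 1)).1.le) (M i) (M (i + 1))
        (good_weaken hε2 (hM i)) (good_weaken hε2 (hM (i + 1)))
      exact h5.trans (by norm_num))
    have hdown := chain_down h1A M (fun i => by
      have h5 := hnear Φ hΦ z z _ _ (hr (i + 1)).1 (hr i).1 (hr1 i) (hr2 i)
        (by rw [sub_self, norm_zero, mul_zero]; exact (hr (i + 1)).1.le)
        (by rw [sub_self, norm_zero, mul_zero]; exact (hr i).1.le) (M (i + 1)) (M i)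
        (good_weaken hε2 (hM (i + 1))) (good_weaken hε2 (hM i))
      exact h5.trans (by norm_num))
    -- the number of steps
    obtain ⟨x, hx⟩ : ∃ x : ℝ, x = ρ / ρ₁ := ⟨_, rfl⟩
    have hx1 : 1 ≤ x := by
      rw [hx, le_div_iff₀ hρ₁0, one_mul]
      exact hρρ
    have hxs : x * s ≤ 15 / 2 * C := by
      have e1 : x * s = 15 / 2 * C * S z := by
        rw [hx, hρ, hρ₁]
        field_simp
        norm_num
      rw [e1]
      have : 15 / 2 * C * S z ≤ 15 / 2 * C * 1 := mul_le_mul_of_nonneg_left hS1 (by positivity)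
      linarith
    obtain ⟨j, hj1, hj2⟩ := exists_nat_pow_near hx1 (by norm_num : (1 : ℝ) < 2)
    have h2j : (2 : ℝ) ^ (j + 1) * s ≤ 15 * C := by
      have h6 : (2 : ℝ) ^ (j + 1) ≤ 2 * x := by
        rw [pow_succ]
        linarith
      have h7 : (2 : ℝ) ^ (j + 1) * s ≤ 2 * x * s := mul_le_mul_of_nonneg_right h6 hs.le
      linarith
    have hlast : max (ρ / 2 ^ (j + 1)) ρ₁ = ρ₁ := by
      apply max_eq_right
      rw [div_le_iff₀ (by positivity)]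
      rw [hx, div_lt_iff₀ hρ₁0] at hj2
      linarith
    -- the derivative of the average
    obtain ⟨U, hU⟩ : ∃ U : (EndW n)ˣ, (U : EndW n) = fderiv ℝ Ψ z := isUnit_fderiv hloc hz
    have hM0 : Good Φ z (3 / 160 * S z * ‖z‖ / N) ε (M 0) := by
      have h8 := hM 0
      rw [pow_zero, div_one, max_eq_left hρρ, hρ] at h8
      exact h8
    have hcl := hD.close z hz z (by rw [sub_self, norm_zero]; positivity) (M 0) hM0
    rw [← hK, ← hk, ← hU] at hcl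
    have hA1 : ‖(↑(M 0)⁻¹ : EndW n) * (U : EndW n)‖ ≤ 6 / 5 := by
      have e : (↑(M 0)⁻¹ : EndW n) * (U : EndW n) =
          ((↑(M 0)⁻¹ : EndW n) * (U : EndW n) - 1) + 1 := by abel
      have h9 := norm_add_le ((↑(M 0)⁻¹ : EndW n) * (U : EndW n) - 1) 1
      rw [← e] at h9
      linarith
    have hA2 : ‖(↑U⁻¹ : EndW n) * (M 0 : EndW n)‖ ≤ 6 / 5 := by
      have h9 := inv_bound h1A ((M 0)⁻¹ * U) hk6 (by rw [Units.val_mul]; exact hcl)
      rw [mul_inv_rev, inv_inv, Units.val_mul] at h9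
      exact h9
    refine ⟨U, M (j + 1), hU, ?_, ?_, ?_⟩
    · have h10 := hM (j + 1)
      rw [hlast, hρ₁] at h10
      exact good_weaken hε3 h10
    · have e : (↑(M (j + 1))⁻¹ : EndW n) * (U : EndW n) =
          ((↑(M (j + 1))⁻¹ : EndW n) * (M 0 : EndW n)) *
            ((↑(M 0)⁻¹ : EndW n) * (U : EndW n)) := by
        rw [mul_assoc, ← mul_assoc (M 0 : EndW n), Units.mul_inv, one_mul]
      have h11 : ‖(↑(M (j + 1))⁻¹ : EndW n) * (U : EndW n)‖ ≤ 2 ^ (j + 1) * (6 / 5) := by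
        rw [e]
        exact (norm_mul_le _ _).trans (mul_le_mul (hdown (j + 1)) hA1 (norm_nonneg _)
          (by positivity))
      calc ‖(↑(M (j + 1))⁻¹ : EndW n) * (U : EndW n)‖ * s ≤ 2 ^ (j + 1) * (6 / 5) * s :=
            mul_le_mul_of_nonneg_right h11 hs.le
        _ = 6 / 5 * (2 ^ (j + 1) * s) := by ring
        _ ≤ 6 / 5 * (15 * C) := mul_le_mul_of_nonneg_left h2j (by norm_num)
        _ = 18 * C := by ring
    · have e : (↑U⁻¹ : EndW n) * (M (j + 1) : EndW n) =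
          ((↑U⁻¹ : EndW n) * (M 0 : EndW n)) *
            ((↑(M 0)⁻¹ : EndW n) * (M (j + 1) : EndW n)) := by
        rw [mul_assoc, ← mul_assoc (M 0 : EndW n), Units.mul_inv, one_mul]
      have h11 : ‖(↑U⁻¹ : EndW n) * (M (j + 1) : EndW n)‖ ≤ 6 / 5 * 2 ^ (j + 1) := by
        rw [e]
        exact (norm_mul_le _ _).trans (mul_le_mul hA2 (hup (j + 1)) (norm_nonneg _)
          (by norm_num))
      calc ‖(↑U⁻¹ : EndW n) * (M (j + 1) : EndW n)‖ * s ≤ 6 / 5 * 2 ^ (j + 1) * s :=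
            mul_le_mul_of_nonneg_right h11 hs.le
        _ = 6 / 5 * (2 ^ (j + 1) * s) := by ring
        _ ≤ 6 / 5 * (15 * C) := mul_le_mul_of_nonneg_left h2j (by norm_num)
        _ = 18 * C := by ring

end Pool.Agent.Lib.P28g
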