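import Pool.Agent.Lib.P28g.PairA
import Pool.Agent.Lib.P28g.ChartGeom
import Pool.Agent.Lib.P28g.SmoothW

set_option autoImplicit false

/-!
# Preparations for the sequence argument
-/

open MeasureTheory Set Metric
open scoped ContDiff Topology ENNReal

namespace Pool.Agent.Lib.P28g

open Pool.Agent.P28b04d Pool.Agent.Lib.P28e Pool.Agent.Lib.P28c
open Pool.Agent.Lib.P28f (V EV Flat ann Imm rep w0)

variable {n m : ℕ}

theorem fd_pos {P Q : Mat n} (h : P ≠ Q) : 0 < fd P Q := by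
  rcases (fd_nonneg P Q).lt_or_eq with h1 | h1
  · exact h1
  · exfalso
    apply h
    unfold fd at h1
    have h2 : ∑ i, ∑ j, Complex.normSq (P i j - Q i j) = 0 :=
      (Real.sqrt_eq_zero (Finset.sum_nonneg fun i _ => Finset.sum_nonneg fun j _ =>
        Complex.normSq_nonneg _)).1 h1.symm
    funext i j
    have h3 := (Finset.sum_eq_zero_iff_of_nonneg (fun i _ => Finset.sum_nonneg fun j _ =>
      Complex.normSq_nonneg _)).1 h2 i (Finset.mem_univ _)
    have h4 := (Finset.sum_eq_zero_iff_of_nonneg (fun j _ =>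
      Complex.normSq_nonneg _)).1 h3 j (Finset.mem_univ _)
    exact sub_eq_zero.1 (Complex.normSq_eq_zero.1 h4)

/-- normalisation to norm `1/2` -/
theorem exists_half {z : W n} (hz : z ≠ 0) : ∃ r : ℝ, 0 < r ∧ ‖r • z‖ = 1 / 2 ∧
    pt (r • z) = pt z ∧ r = 1 / (2 * ‖z‖) := by
  have hp : 0 < ‖z‖ := norm_pos_iff.2 hz
  refine ⟨1 / (2 * ‖z‖), by positivity, ?_, ?_, rfl⟩
  · rw [norm_smul, Real.norm_of_nonneg (by positivity)]
    field_simp
  · have e : (1 / (2 * ‖z‖)) • z = ((1 / (2 * ‖z‖) : ℝ) : ℂ) • z := Hom46.smul_real _ _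
    rw [e, pt_smul]
    exact_mod_cast (by positivity : (1 / (2 * ‖z‖) : ℝ) ≠ 0)

theorem finset_lower {ι : Type} (A : Finset ι) (f : ι → ℝ) (h : ∀ a ∈ A, 0 < f a) :
    ∃ t : ℝ, 0 < t ∧ t ≤ 1 ∧ ∀ a ∈ A, t ≤ f a := by
  classical
  induction A using Finset.induction_on with
  | empty => exact ⟨1, one_pos, le_rfl, fun a ha => absurd ha (Finset.notMem_empty a)⟩
  | insert a s ha ih =>
    obtain ⟨t, ht, ht1, h1⟩ := ih fun b hb => h b (Finset.mem_insert_of_mem hb)
    have h2 := h a (Finset.mem_insert_self a s)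
    refine ⟨min t (f a), lt_min ht h2, (min_le_left _ _).trans ht1, ?_⟩
    intro b hb
    rcases Finset.mem_insert.1 hb with rfl | hb
    · exact min_le_right _ _
    · exact (min_le_left _ _).trans (h1 b hb)

/-- A base point away from finitely many points. -/
theorem exists_g0 (hn : 1 ≤ n) (A : Finset (W n)) : ∃ g : W n, ‖g‖ = 1 / 2 ∧
    ∃ t : ℝ, 0 < t ∧ ∀ a ∈ A, t ≤ fd (pt g) (pt a) := by
  classical
  have hinf : Set.Infinite (Set.range fun x : V (n * 2) => pt (sl n x)) := by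
    haveI : NeZero (n * 2) := ⟨by omega⟩
    haveI : Nontrivial (V (n * 2)) := inferInstance
    haveI : Infinite (V (n * 2)) := Module.Free.infinite ℝ (V (n * 2))
    exact Set.infinite_range_of_injective fun x y h => pt_sl_inj h
  obtain ⟨P, ⟨x, rfl⟩, hP⟩ := hinf.exists_notMem_finset (A.image fun a => pt a)
  obtain ⟨r, -, h1, h2, -⟩ := exists_half (sl_ne x)
  refine ⟨r • sl n x, h1, ?_⟩
  rw [h2]
  obtain ⟨t, ht, -, h3⟩ := finset_lower A (fun a => fd (pt (sl n x)) (pt a)) (by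
    intro a ha
    apply fd_pos
    intro h
    exact hP (Finset.mem_image.2 ⟨a, ha, h.symm⟩))
  exact ⟨t, ht, h3⟩

/-- Disjoint chart balls. -/
theorem exists_disj (n : ℕ) (A : Finset (W n)) (hA : ∀ a ∈ A, ∀ b ∈ A, a ≠ b → pt a ≠ pt b)
    (T : W n → W n ≃L[ℝ] W n) (hT : ∀ a, TT (T a)) (hTa : ∀ a ∈ A, T a (e0 n) = a) :
    ∃ s₀ : ℝ, 0 < s₀ ∧ ∀ a ∈ A, ∀ b ∈ A, a ≠ b → ∀ x y : V (n * 2), ‖x‖ < s₀ → ‖y‖ < s₀ →
      pt (T a (sl n x)) ≠ pt (T b (sl n y)) := by
  classical
  obtain ⟨C, hC, hC1, -⟩ := chart_geom n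
  obtain ⟨C', hC', hT'⟩ := fd_TT n
  obtain ⟨t, ht, ht1, h1⟩ := finset_lower (A.offDiag) (fun p => fd (pt p.1) (pt p.2)) (by
    intro p hp
    rw [Finset.mem_offDiag] at hp
    exact fd_pos (hA _ hp.1 _ hp.2.1 hp.2.2))
  have he0 : e0 n ≠ 0 := by
    intro h
    have := congrFun h 0
    simp [e0] at this
  have key : ∀ a ∈ A, ∀ x : V (n * 2), ‖x‖ < t / (2 * (C * C')) →
      fd (pt (T a (sl n x))) (pt a) < t / 2 := by
    intro a ha x hx
    have hx1 : ‖x‖ ≤ 1 := by
      refine hx.le.trans ?_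
      rw [div_le_one (by positivity)]
      nlinarith
    have h2 := (hT' (T a) (hT a) (sl n x) (e0 n) (sl_ne x) he0).1
    rw [hTa a ha] at h2
    calc fd (pt (T a (sl n x))) (pt a) ≤ C' * fd (pt (sl n x)) (pt (e0 n)) := h2
      _ ≤ C' * (C * ‖x‖) := by
          have := hC1 x hx1
          gcongr
      _ < C' * (C * (t / (2 * (C * C')))) := by gcongr
      _ = t / 2 := by field_simp
  refine ⟨t / (2 * (C * C')), by positivity, ?_⟩
  intro a ha b hb hab x y hx hy h
  have h2 := key a ha x hx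
  have h3 := key b hb y hy
  rw [h] at h2
  have h4 := h1 (a, b) (Finset.mem_offDiag.2 ⟨ha, hb, hab⟩)
  simp only at h4
  have h5 := fd_triangle (pt a) (pt (T b (sl n y))) (pt b)
  have h6 := fd_comm (pt a) (pt (T b (sl n y)))
  linarith

theorem sl_zero : sl n (0 : V (n * 2)) = e0 n := by
  rw [sl_eq, map_zero, add_zero]

/-- Outside the chart balls means away from the centres. -/
theorem exists_away (n : ℕ) (A : Finset (W n)) (T : W n → W n ≃L[ℝ] W n) (hT : ∀ a, TT (T a))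
    (hTa : ∀ a ∈ A, T a (e0 n) = a) {r : ℝ} (hr : 0 < r) : ∃ t : ℝ, 0 < t ∧
    ∀ z : W n, z ≠ 0 → Out A T r z → ∀ a ∈ A, t ≤ fd (pt z) (pt a) := by
  obtain ⟨C, hC, -, hC1⟩ := chart_geom n
  obtain ⟨C', hC', hT'⟩ := fd_TT n
  have he0 : e0 n ≠ 0 := by
    intro h
    have := congrFun h 0
    simp [e0] at this
  set t : ℝ := min 1 r / (2 * (C * C')) with ht
  have ht0 : 0 < t := by positivity
  have ht1 : C * (C' * t) = min 1 r / 2 := by rw [ht]; field_simp
  refine ⟨t, ht0, ?_⟩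
  intro z hz hout a ha
  by_contra hcon
  rw [not_le] at hcon
  have hz' : (T a).symm z ≠ 0 := fun h0 => hz ((T a).symm.injective (by rw [h0, map_zero]))
  have h2 := (hT' (T a) (hT a) ((T a).symm z) (e0 n) hz' he0).2
  rw [(T a).apply_symm_apply, hTa a ha] at h2
  have h3 : C * fd (pt ((T a).symm z)) (pt (sl n (0 : V (n * 2)))) < min 1 r := by
    rw [sl_zero]
    calc C * fd (pt ((T a).symm z)) (pt (e0 n)) ≤ C * (C' * fd (pt z) (pt a)) := by gcongr
      _ ≤ C * (C' * t) := by gcongr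
      _ = min 1 r / 2 := ht1
      _ < min 1 r := half_lt_self (by positivity)
  obtain ⟨h4, h5⟩ := hC1 0 (by simp) _ hz' (h3.le.trans (min_le_left _ _))
  rw [sub_zero] at h5
  apply hout a ha (cc ((T a).symm z)) (lt_of_le_of_lt h5 (h3.trans_le (min_le_right _ _)))
  have h6 := smul_sl_cc h4
  have h7 : z = ((T a).symm z) 0 • T a (sl n (cc ((T a).symm z))) := by
    rw [← (hT a).hom, h6, (T a).apply_symm_apply]
  conv_lhs => rw [h7]
  exact pt_smul h4 _

/-- The region outside the chart balls is compact. -/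
theorem isCompact_out (A : Finset (W n)) (T : W n → W n ≃L[ℝ] W n) (hT : ∀ a, TT (T a)) (r : ℝ) :
    IsCompact {z : W n | ‖z‖ = 1 / 2 ∧ Out A T r z} := by
  classical
  have hop : ∀ a, IsOpen {z : W n | ((T a).symm z) 0 ≠ 0 ∧ ‖cc ((T a).symm z)‖ < r} := by
    intro a
    rw [isOpen_iff_mem_nhds]
    rintro z ⟨h1, h2⟩
    have c1 : ContinuousAt (fun z : W n => ((T a).symm z) 0) z :=
      ((continuous_apply 0).comp (T a).symm.continuous).continuousAt
    have c2 : ContinuousAt (fun z : W n => ‖cc ((T a).symm z)‖) z :=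
      ((contDiffAt_cc h1).continuousAt.comp (T a).symm.continuous.continuousAt).norm
    filter_upwards [c1.eventually_ne h1, c2.eventually_lt_const h2] with w hw1 hw2
    exact ⟨hw1, hw2⟩
  have hiff : ∀ z : W n, z ≠ 0 → (Out A T r z ↔ ∀ a ∈ A,
      z ∉ {z : W n | ((T a).symm z) 0 ≠ 0 ∧ ‖cc ((T a).symm z)‖ < r}) := by
    intro z hz
    constructor
    · rintro h a ha ⟨h1, h2⟩
      apply h a ha _ h2
      have h7 : z = ((T a).symm z) 0 • T a (sl n (cc ((T a).symm z))) := by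
        rw [← (hT a).hom, smul_sl_cc h1, (T a).apply_symm_apply]
      conv_lhs => rw [h7]
      exact pt_smul h1 _
    · intro h a ha x hx hpt
      apply h a ha
      have hne : T a (sl n x) ≠ 0 := fun h0 => sl_ne x ((T a).injective (by rw [h0, map_zero]))
      obtain ⟨c, hc, h1⟩ := eq_smul_of_pt_eq hne hpt
      have h2 : sl n x = c • (T a).symm z := by
        apply (T a).injective
        rw [(hT a).hom, (T a).apply_symm_apply, h1]
      have h3 : (T a).symm z = c⁻¹ • sl n x := by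
        rw [h2, smul_smul, inv_mul_cancel₀ hc, one_smul]
      refine ⟨?_, ?_⟩
      · rw [h3]
        simp only [Pi.smul_apply, sl_apply_zero, smul_eq_mul, mul_one]
        exact inv_ne_zero hc
      · rw [h3, cc_smul (inv_ne_zero hc), cc_sl]
        exact hx
  have e : {z : W n | ‖z‖ = 1 / 2 ∧ Out A T r z} = sphere (0 : W n) (1 / 2) \
      ⋃ a ∈ A, {z : W n | ((T a).symm z) 0 ≠ 0 ∧ ‖cc ((T a).symm z)‖ < r} := by
    ext z
    constructor
    · rintro ⟨h1, h2⟩
      have hz : z ≠ 0 := by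
        rintro rfl
        rw [norm_zero] at h1
        norm_num at h1
      refine ⟨by simpa using h1, ?_⟩
      rw [mem_iUnion₂]
      rintro ⟨a, ha, h3⟩
      exact (hiff z hz).1 h2 a ha h3
    · rintro ⟨h1, h2⟩
      have h1' : ‖z‖ = 1 / 2 := by simpa using h1
      have hz : z ≠ 0 := by
        rintro rfl
        rw [norm_zero] at h1'
        norm_num at h1'
      refine ⟨h1', (hiff z hz).2 fun a ha h3 => h2 ?_⟩
      rw [mem_iUnion₂]
      exact ⟨a, ha, h3⟩
  rw [e]
  exact (isCompact_sphere _ _).diff (isOpen_biUnion fun a _ => hop a)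

/-- Light balls in the chart are light in `CP^n`. -/
theorem light_of_chart (n : ℕ) : ∃ C : ℝ, 1 ≤ C ∧ ∀ T : W n ≃L[ℝ] W n, TT T →
    ∀ (ν : Measure (W n)), IsFiniteMeasure ν → ∀ (c : ℝ) (x : V (n * 2)), ‖x‖ ≤ 1 →
    ∀ r : ℝ, 0 < r → r ≤ 1 → (chm (ν.map T.symm)).real (closedBall x r) ≤ c →
    ν.real (PB (pt (T (sl n x))) (r / C)) ≤ c := by
  obtain ⟨C, hC, hchm⟩ := chm_ge n
  obtain ⟨C', hC', hT'⟩ := fd_TT n
  refine ⟨C * C', by nlinarith, ?_⟩
  intro T hT ν hν c x hx r hr hr1 h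
  have hms : Measurable (T.symm : W n → W n) := T.symm.continuous.measurable
  haveI : IsFiniteMeasure (ν.map T.symm) := inferInstance
  refine le_trans ?_ (((hchm (ν.map T.symm) inferInstance x hx r hr hr1)).trans h)
  rw [measureReal_def, measureReal_def, Measure.map_apply hms (measurableSet_PB _ _)]
  refine ENNReal.toReal_mono (measure_ne_top _ _) (measure_mono ?_)
  intro w hw
  have hTs : T (sl n x) ≠ 0 := fun h0 => sl_ne x (T.injective (by rw [h0, map_zero]))
  have hle : r / (C * C') ≤ 1 := by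
    rw [div_le_one (by positivity)]
    nlinarith
  have hw0 : w ≠ 0 := by
    rintro rfl
    exact zero_not_mem_PB hTs hle hw
  have hw0' : T.symm w ≠ 0 := fun h0 => hw0 (T.symm.injective (by rw [h0, map_zero]))
  have h1 := (hT' T hT (T.symm w) (sl n x) hw0' (sl_ne x)).2
  rw [T.apply_symm_apply] at h1
  show fd (pt (T.symm w)) (pt (sl n x)) < r / C
  have h2 : fd (pt w) (pt (T (sl n x))) < r / (C * C') := hw
  calc fd (pt (T.symm w)) (pt (sl n x)) ≤ C' * fd (pt w) (pt (T (sl n x))) := h1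
    _ < C' * (r / (C * C')) := by gcongr
    _ = r / C := by field_simp

/-- The chart measures of the energy have no atoms. -/
theorem chm_atom (hn : 1 ≤ n) (Φ : W n → W n) (T : W n ≃L[ℝ] W n) (hT : TT T)
    (x : V (n * 2)) : chm ((enW Φ).map T.symm) {x} = 0 := by
  have hms : Measurable (T.symm : W n → W n) := T.symm.continuous.measurable
  have hTs : T (sl n x) ≠ 0 := fun h0 => sl_ne x (T.injective (by rw [h0, map_zero]))
  have hm0 : MeasurableSet {z : W n | z 0 ≠ 0} :=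
    ((measurableSet_singleton (0 : ℂ)).compl).preimage (measurable_pi_apply 0)
  unfold chm
  rw [Measure.map_apply measurable_cc (measurableSet_singleton x),
    Measure.restrict_apply (measurable_cc (measurableSet_singleton x)),
    Measure.map_apply hms ((measurable_cc (measurableSet_singleton x)).inter hm0)]
  refine measure_mono_null ?_ (enW_line hn Φ hTs)
  rintro w ⟨h1, h2⟩
  have h1' : cc (T.symm w) = x := h1
  have h2' : (T.symm w) 0 ≠ 0 := h2
  show pt w = pt (T (sl n x))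
  have h7 : w = (T.symm w) 0 • T (sl n x) := by
    rw [← hT.hom, ← h1', smul_sl_cc h2', T.apply_symm_apply]
  conv_lhs => rw [h7]
  exact pt_smul h2' _

/-- The target chart at a point. -/
theorem exists_B {P : W n} (hP : P ≠ 0) : ∃ B : W n ≃L[ℝ] W n,
    (∀ (c : ℂ) (x : W n), B (c • x) = c • B x) ∧ B P = e0 n ∧
    ‖(B : EndW n)‖ * ‖(B.symm : EndW n)‖ ≤ 4 ∧ ∀ w, ‖B w‖ ≤ 2 / ‖P‖ * ‖w‖ := by
  have hp : 0 < ‖P‖ := norm_pos_iff.2 hP
  obtain ⟨r, hr, h1, -, hr2⟩ := exists_half hP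
  obtain ⟨T, hT, hTe⟩ := exists_TT h1
  have hr0 : r ≠ 0 := hr.ne'
  set S : W n ≃L[ℝ] W n := (LinearEquiv.smulOfNeZero ℝ (W n) r hr0).toContinuousLinearEquiv
    with hS
  have hSa : ∀ w, S w = r • w := fun w => rfl
  have hSs : ∀ w, S.symm w = r⁻¹ • w := by
    intro w
    apply S.injective
    rw [S.apply_symm_apply, hSa, smul_smul, mul_inv_cancel₀ hr0, one_smul]
  refine ⟨S.trans T.symm, ?_, ?_, ?_, ?_⟩
  · intro c x
    show T.symm (S (c • x)) = c • T.symm (S x)
    apply T.injective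
    rw [hT.hom, T.apply_symm_apply, T.apply_symm_apply, hSa, hSa, smul_comm]
  · show T.symm (S P) = e0 n
    rw [hSa, ← hTe, T.symm_apply_apply]
  · have h2 : ‖((S.trans T.symm : W n ≃L[ℝ] W n) : EndW n)‖ ≤ 4 * r := by
      apply ContinuousLinearMap.opNorm_le_bound _ (by positivity)
      intro w
      show ‖T.symm (S w)‖ ≤ 4 * r * ‖w‖
      refine (hT.symm_le _).trans ?_
      rw [hSa, norm_smul, Real.norm_of_nonneg hr.le]
      exact le_of_eq (by ring)
    have h3 : ‖((S.trans T.symm : W n ≃L[ℝ] W n).symm : EndW n)‖ ≤ r⁻¹ := by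
      apply ContinuousLinearMap.opNorm_le_bound _ (by positivity)
      intro w
      show ‖S.symm (T w)‖ ≤ r⁻¹ * ‖w‖
      rw [hSs, norm_smul, Real.norm_of_nonneg (by positivity)]
      have := hT.le w
      gcongr
    calc _ ≤ (4 * r) * r⁻¹ := mul_le_mul h2 h3 (norm_nonneg _) (by positivity)
      _ = 4 := by field_simp
  · intro w
    show ‖T.symm (S w)‖ ≤ 2 / ‖P‖ * ‖w‖
    refine (hT.symm_le _).trans ?_
    rw [hSa, norm_smul, Real.norm_of_nonneg hr.le, hr2]
    apply le_of_eq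
    field_simp
    ring

end Pool.Agent.Lib.P28g
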