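import Pool.Agent.Lib.P28g.Defs
import Pool.Agent.Lib.P28c.Fd

set_option autoImplicit false

/-!
# A bi-Lipschitz copy of CP^n in some V M

PROOF SKETCH. `M = finrank ℝ (Mat n)`; `e : Mat n ≃L[ℝ] V M` from `ContinuousLinearEquiv.ofFinrankEq` (`finrank ℝ (Fin M → ℝ) = M`). `q z = λ • e (pt z)` with a small `λ > 0`. The maximum norm and `fd` are comparable: `‖P - Q‖ ≤ fd P Q ≤ (n+1) ‖P - Q‖` (`fd` is the square root of the sum of the
squares of the norms of the `(n+1)²` entries). So `‖q z - q w‖ ≤ λ ‖e‖ fd` and `fd ≤ (n+1) ‖e.symm‖ λ⁻¹ ‖q z - q w‖`; `‖pt z‖ ≤ 1` gives `‖q z‖ ≤ λ ‖e‖ ≤ 1/4`. Smooth off `0` by `contDiffAt_pt`. Measurable: `pt` is measurable (quotients of continuous functions), see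
`measurableSet_PB` in `P28c/Fd.lean`.
-/

open MeasureTheory Set Metric
open scoped ContDiff Topology ENNReal

namespace Pool.Agent.Lib.P28g

open Pool.Agent.P28b04d Pool.Agent.Lib.P28e Pool.Agent.Lib.P28c
open Pool.Agent.Lib.P28f (V EV)

variable {n m : ℕ}

/-- A bi-Lipschitz copy of `CP^n` in `V M`. -/
structure QM (q : W n → V m) (C : ℝ) : Prop where
  smooth : ContDiffOn ℝ ∞ q {0}ᶜ
  meas : Measurable q
  le : ∀ z w : W n, ‖q z - q w‖ ≤ fd (pt z) (pt w)
  ge : ∀ z w : W n, fd (pt z) (pt w) ≤ C * ‖q z - q w‖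
  small : ∀ z : W n, ‖q z‖ ≤ 1 / 4
  one_le : 1 ≤ C

namespace QMapAux

theorem norm_sub_le_fd (P Q : Mat n) : ‖P - Q‖ ≤ fd P Q := by
  refine (pi_norm_le_iff_of_nonneg (fd_nonneg P Q)).2 fun i => ?_
  refine (pi_norm_le_iff_of_nonneg (fd_nonneg P Q)).2 fun j => ?_
  unfold fd
  apply Real.le_sqrt_of_sq_le
  have h1 : ‖(P - Q) i j‖ ^ 2 = Complex.normSq (P i j - Q i j) := by
    rw [Complex.normSq_eq_norm_sq]
    rfl
  rw [h1]
  have h2 : Complex.normSq (P i j - Q i j) ≤ ∑ j, Complex.normSq (P i j - Q i j) :=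
    Finset.single_le_sum (f := fun j => Complex.normSq (P i j - Q i j))
      (fun _ _ => Complex.normSq_nonneg _) (Finset.mem_univ j)
  refine h2.trans ?_
  exact Finset.single_le_sum (f := fun i => ∑ j, Complex.normSq (P i j - Q i j))
      (fun _ _ => Finset.sum_nonneg fun _ _ => Complex.normSq_nonneg _) (Finset.mem_univ i)

theorem fd_le_norm_sub (P Q : Mat n) : fd P Q ≤ ((n : ℝ) + 1) * ‖P - Q‖ := by
  unfold fd
  apply Real.sqrt_le_iff.2
  refine ⟨by positivity, ?_⟩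
  have h1 : ∀ i j, Complex.normSq (P i j - Q i j) ≤ ‖P - Q‖ ^ 2 := by
    intro i j
    rw [Complex.normSq_eq_norm_sq]
    refine pow_le_pow_left₀ (norm_nonneg _) ?_ 2
    have h2 : ‖(P - Q) i‖ ≤ ‖P - Q‖ := norm_le_pi_norm (P - Q) i
    have h3 : ‖(P - Q) i j‖ ≤ ‖(P - Q) i‖ := norm_le_pi_norm ((P - Q) i) j
    exact h3.trans h2
  calc ∑ i, ∑ j, Complex.normSq (P i j - Q i j)
      ≤ ∑ _i : Fin (n + 1), ∑ _j : Fin (n + 1), ‖P - Q‖ ^ 2 :=
        Finset.sum_le_sum fun i _ => Finset.sum_le_sum fun j _ => h1 i j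
    _ = (((n : ℝ) + 1) * ‖P - Q‖) ^ 2 := by
        simp
        ring

theorem measurable_pt : Measurable (pt : W n → Mat n) := by
  refine measurable_pi_lambda _ fun i => measurable_pi_lambda _ fun j => ?_
  unfold pt
  have h1 : Measurable (fun x : W n => ((nsq x : ℝ) : ℂ)) :=
    (Complex.continuous_ofReal.comp contDiff_nsq.continuous).measurable
  have h2 : Measurable (fun x : W n => x i * star (x j)) := by
    apply Continuous.measurable
    fun_prop
  exact h2.div h1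

theorem norm_pt_le (z : W n) : ‖pt z‖ ≤ 1 := by
  by_cases hz : z = 0
  · subst hz
    have : pt (0 : W n) = 0 := by
      ext i j
      simp [pt]
    rw [this]
    simp
  · have h := FdAux.sum_normSq_pt hz
    refine (pi_norm_le_iff_of_nonneg zero_le_one).2 fun i => ?_
    refine (pi_norm_le_iff_of_nonneg zero_le_one).2 fun j => ?_
    have h2 : Complex.normSq (pt z i j) ≤ ∑ j, Complex.normSq (pt z i j) :=
      Finset.single_le_sum (f := fun j => Complex.normSq (pt z i j))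
        (fun _ _ => Complex.normSq_nonneg _) (Finset.mem_univ j)
    have h3 : ∑ j, Complex.normSq (pt z i j) ≤ ∑ i, ∑ j, Complex.normSq (pt z i j) :=
      Finset.single_le_sum (f := fun i => ∑ j, Complex.normSq (pt z i j))
        (fun _ _ => Finset.sum_nonneg fun _ _ => Complex.normSq_nonneg _) (Finset.mem_univ i)
    have h4 : ‖pt z i j‖ ^ 2 ≤ 1 := by
      rw [← Complex.normSq_eq_norm_sq]
      linarith
    exact (sq_le_one_iff₀ (norm_nonneg _)).1 h4

end QMapAux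

open QMapAux

theorem exists_qm (n : ℕ) : ∃ (M : ℕ) (q : W n → V M) (C : ℝ), QM q C := by
  have hfr : Module.finrank ℝ (Mat n) = Module.finrank ℝ (V (Module.finrank ℝ (Mat n))) := by
    simp
  let e : Mat n ≃L[ℝ] V (Module.finrank ℝ (Mat n)) := ContinuousLinearEquiv.ofFinrankEq hfr
  set A : ℝ := ‖(e : Mat n →L[ℝ] V (Module.finrank ℝ (Mat n)))‖ with hA
  set B : ℝ := ‖(e.symm : V (Module.finrank ℝ (Mat n)) →L[ℝ] Mat n)‖ with hB
  have hA0 : 0 ≤ A := norm_nonneg _
  have hB0 : 0 ≤ B := norm_nonneg _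
  set l : ℝ := 1 / (4 * (A + 1)) with hl
  have hl0 : 0 < l := by positivity
  have hlA : l * A ≤ 1 / 4 := by
    rw [hl, one_div, inv_mul_le_iff₀ (by positivity)]
    linarith
  have hsub : ∀ z w : W n, l • e (pt z) - l • e (pt w) = l • e (pt z - pt w) := by
    intro z w
    rw [map_sub, smul_sub]
  refine ⟨Module.finrank ℝ (Mat n), fun z => l • e (pt z), max 1 (((n : ℝ) + 1) * B * l⁻¹), ?_⟩
  refine ⟨?_, ?_, ?_, ?_, ?_, le_max_left _ _⟩
  · intro z hz
    have h1 : ContDiffAt ℝ ∞ pt z := contDiffAt_pt hz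
    exact ((e.contDiff.contDiffAt.comp z h1).const_smul l).contDiffWithinAt
  · have h1 : Measurable fun z : W n => e (pt z) := e.continuous.measurable.comp measurable_pt
    exact h1.const_smul l
  · intro z w
    simp only [hsub]
    rw [norm_smul, Real.norm_of_nonneg hl0.le]
    have h1 : ‖e (pt z - pt w)‖ ≤ A * ‖pt z - pt w‖ :=
      (e : Mat n →L[ℝ] V (Module.finrank ℝ (Mat n))).le_opNorm _
    have h2 := norm_sub_le_fd (pt z) (pt w)
    calc l * ‖e (pt z - pt w)‖ ≤ l * (A * ‖pt z - pt w‖) := by gcongr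
      _ = (l * A) * ‖pt z - pt w‖ := by ring
      _ ≤ 1 * ‖pt z - pt w‖ := by gcongr; linarith
      _ ≤ fd (pt z) (pt w) := by linarith
  · intro z w
    simp only [hsub]
    rw [norm_smul, Real.norm_of_nonneg hl0.le]
    have h1 : ‖pt z - pt w‖ ≤ B * ‖e (pt z - pt w)‖ := by
      have := (e.symm : V (Module.finrank ℝ (Mat n)) →L[ℝ] Mat n).le_opNorm (e (pt z - pt w))
      simpa using this
    have h2 := fd_le_norm_sub (pt z) (pt w)
    calc fd (pt z) (pt w) ≤ ((n : ℝ) + 1) * ‖pt z - pt w‖ := h2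
      _ ≤ ((n : ℝ) + 1) * (B * ‖e (pt z - pt w)‖) := by gcongr
      _ = (((n : ℝ) + 1) * B * l⁻¹) * (l * ‖e (pt z - pt w)‖) := by
          field_simp
      _ ≤ max 1 (((n : ℝ) + 1) * B * l⁻¹) * (l * ‖e (pt z - pt w)‖) := by
          gcongr
          exact le_max_right _ _
  · intro z
    have h1 : ‖e (pt z)‖ ≤ A * ‖pt z‖ :=
      (e : Mat n →L[ℝ] V (Module.finrank ℝ (Mat n))).le_opNorm _
    have h2 := norm_pt_le z
    show ‖l • e (pt z)‖ ≤ 1 / 4
    rw [norm_smul, Real.norm_of_nonneg hl0.le]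
    calc l * ‖e (pt z)‖ ≤ l * (A * ‖pt z‖) := by gcongr
      _ ≤ l * (A * 1) := by gcongr
      _ ≤ 1 / 4 := by linarith

end Pool.Agent.Lib.P28g
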