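import Pool.Agent.Lib.P28g.ChartApi
import Pool.Agent.Lib.P28g.TTmap

set_option autoImplicit false

/-!
# Surgery: a path of chart expressions lifts to a path of lifts

The homogeneous lift is `H` outside the chart ball, and inside the chart ball
`z ↦ z 0 • (H (sl n (cc z)) 0 • sl n (K (τ t, cc z)))`. In the product coordinates `(z 0, cc z)` this is
`(c, x) ↦ (c * H (sl n x) 0, K (τ t, x))`, whose derivative is injective.
-/

open MeasureTheory Set Metric
open scoped ContDiff Topology ENNReal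

namespace Pool.Agent.Lib.P28g

open Pool.Agent.P28b04d Pool.Agent.Lib.P28e Pool.Agent.Lib.P28c
open Pool.Agent.Lib.P28f (V EV)

variable {n m : ℕ}

namespace SurgAux

/-- The product chart, multiplicative form. -/
noncomputable def Pm (n : ℕ) (p : ℂ × V (n * 2)) : W n := p.1 • sl n p.2

/-- The inverse of the product chart. -/
noncomputable def Qm (n : ℕ) (z : W n) : ℂ × V (n * 2) := (z 0, cc z)

/-- The map in the product chart. -/
noncomputable def Mm (l : V (n * 2) → ℂ) (k : V (n * 2) → V (n * 2)) (p : ℂ × V (n * 2)) :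
    ℂ × V (n * 2) := (p.1 * l p.2, k p.2)

theorem contDiff_sl : ContDiff ℝ ∞ (sl n) := by
  have : sl n = fun y => e0 n + Lv n y := funext sl_eq
  rw [this]
  exact contDiff_const.add (Lv n).contDiff

theorem contDiff_Pm : ContDiff ℝ ∞ (Pm n) := by
  unfold Pm
  exact contDiff_fst.smul (contDiff_sl.comp contDiff_snd)

theorem contDiffAt_Qm {z : W n} (hz : z 0 ≠ 0) : ContDiffAt ℝ ∞ (Qm n) z := by
  unfold Qm
  have h1 : ContDiffAt ℝ ∞ (fun z : W n => z 0) z := contDiffAt_apply ℝ ℂ 0 z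
  exact h1.prodMk (contDiffAt_cc hz)

theorem Pm_zero (p : ℂ × V (n * 2)) : Pm n p 0 = p.1 := by
  unfold Pm
  rw [Pi.smul_apply, sl_apply_zero, smul_eq_mul, mul_one]

theorem Pm_Qm {z : W n} (hz : z 0 ≠ 0) : Pm n (Qm n z) = z := smul_sl_cc hz

theorem Qm_Pm {p : ℂ × V (n * 2)} (hp : p.1 ≠ 0) : Qm n (Pm n p) = p := by
  unfold Qm
  rw [Pm_zero]
  unfold Pm
  rw [cc_smul hp, cc_sl]

theorem inj_of_left {E F : Type} [NormedAddCommGroup E] [NormedSpace ℝ E] [NormedAddCommGroup F]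
    [NormedSpace ℝ F] {f : E → F} {g : F → E} {x : E} (hf : DifferentiableAt ℝ f x)
    (hg : DifferentiableAt ℝ g (f x)) (h : ∀ᶠ y in 𝓝 x, g (f y) = y) (v : E)
    (hv : fderiv ℝ f x v = 0) : v = 0 := by
  have h1 : HasFDerivAt (g ∘ f) ((fderiv ℝ g (f x)).comp (fderiv ℝ f x)) x :=
    hg.hasFDerivAt.comp x hf.hasFDerivAt
  have h2 : HasFDerivAt (g ∘ f) (ContinuousLinearMap.id ℝ E) x :=
    (hasFDerivAt_id x).congr_of_eventuallyEq h
  have h3 := congrArg (fun L => L v) (h1.unique h2)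
  simp only [ContinuousLinearMap.comp_apply, hv, map_zero, ContinuousLinearMap.id_apply] at h3
  exact h3.symm

theorem continuous_zero_apply : Continuous fun z : W n => z 0 := continuous_apply 0

theorem inj_Qm {z : W n} (hz : z 0 ≠ 0) (v : W n) (hv : fderiv ℝ (Qm n) z v = 0) : v = 0 := by
  refine inj_of_left (g := Pm n) ((contDiffAt_Qm hz).differentiableAt (by simp))
    (contDiff_Pm.differentiable (by simp) _) ?_ v hv
  filter_upwards [continuous_zero_apply.continuousAt.eventually_ne hz] with y hy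
  exact Pm_Qm hy

theorem inj_Pm {p : ℂ × V (n * 2)} (hp : p.1 ≠ 0) (v : ℂ × V (n * 2))
    (hv : fderiv ℝ (Pm n) p v = 0) : v = 0 := by
  have h0 : Pm n p 0 ≠ 0 := by rw [Pm_zero]; exact hp
  refine inj_of_left (g := Qm n) (contDiff_Pm.differentiable (by simp) _)
    ((contDiffAt_Qm h0).differentiableAt (by simp)) ?_ v hv
  filter_upwards [continuous_fst.continuousAt.eventually_ne hp] with y hy
  exact Qm_Pm hy

theorem inj_Mm {l : V (n * 2) → ℂ} {k : V (n * 2) → V (n * 2)} {p : ℂ × V (n * 2)}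
    (hl : DifferentiableAt ℝ l p.2) (hk : DifferentiableAt ℝ k p.2) (h0 : l p.2 ≠ 0)
    (hu : IsUnit (fderiv ℝ k p.2 : EV (n * 2))) (v : ℂ × V (n * 2))
    (hv : fderiv ℝ (Mm l k) p v = 0) : v = 0 := by
  have h1 : HasFDerivAt (fun q : ℂ × V (n * 2) => q.1)
      (ContinuousLinearMap.fst ℝ ℂ (V (n * 2))) p := hasFDerivAt_fst
  have h2 : HasFDerivAt (fun q : ℂ × V (n * 2) => l q.2)
      ((fderiv ℝ l p.2).comp (ContinuousLinearMap.snd ℝ ℂ (V (n * 2)))) p :=
    hl.hasFDerivAt.comp p hasFDerivAt_snd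
  have h3 : HasFDerivAt (fun q : ℂ × V (n * 2) => k q.2)
      ((fderiv ℝ k p.2).comp (ContinuousLinearMap.snd ℝ ℂ (V (n * 2)))) p :=
    hk.hasFDerivAt.comp p hasFDerivAt_snd
  have h4 := (h1.mul h2).prodMk h3
  have h5 : fderiv ℝ (Mm l k) p = _ := h4.fderiv
  rw [h5] at hv
  have e2 : fderiv ℝ k p.2 v.2 = 0 := by
    have := congrArg Prod.snd hv
    simpa using this
  have e3 : v.2 = 0 := by
    obtain ⟨u, hu⟩ := hu
    have e4 : (↑u⁻¹ * ↑u : EV (n * 2)) v.2 = 0 := by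
      rw [ContinuousLinearMap.mul_apply, hu, e2, map_zero]
    rwa [Units.inv_mul, ContinuousLinearMap.one_apply] at e4
  have e1 : v.1 * l p.2 = 0 := by
    have := congrArg Prod.fst hv
    simp only [ContinuousLinearMap.prod_apply, ContinuousLinearMap.add_apply,
      ContinuousLinearMap.smul_apply, ContinuousLinearMap.comp_apply,
      ContinuousLinearMap.coe_fst', ContinuousLinearMap.coe_snd', e3, map_zero, smul_zero,
      zero_add, smul_eq_mul, Prod.fst_zero] at this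
    rw [mul_comm]
    simpa using this
  have e5 : v.1 = 0 := (mul_eq_zero.1 e1).resolve_right h0
  exact Prod.ext e5 e3

/-- The chart formula. -/
noncomputable def Fm (H : W n → W n) (k : V (n * 2) → V (n * 2)) (z : W n) : W n :=
  z 0 • (H (sl n (cc z)) 0 • sl n (k (cc z)))

theorem Fm_eq (H : W n → W n) (k : V (n * 2) → V (n * 2)) :
    Fm H k = fun z => Pm n (Mm (fun x => H (sl n x) 0) k (Qm n z)) := by
  funext z
  unfold Fm Pm Mm Qm
  rw [smul_smul]

theorem contDiffAt_coef {H : W n → W n} (h : HLoc H) (x : V (n * 2)) :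
    ContDiffAt ℝ ∞ (fun x => H (sl n x) 0) x := by
  have h1 : ContDiffAt ℝ ∞ (fun x => H (sl n x)) x :=
    (h.contDiffAt (sl_ne x)).comp x contDiff_sl.contDiffAt
  exact (contDiffAt_apply ℝ ℂ 0 (H (sl n x))).comp x h1

theorem inj_Fm {H : W n → W n} (h : HLoc H) {k : V (n * 2) → V (n * 2)} {z : W n} (hz : z 0 ≠ 0)
    (h0 : H (sl n (cc z)) 0 ≠ 0) (hk : DifferentiableAt ℝ k (cc z))
    (hu : IsUnit (fderiv ℝ k (cc z) : EV (n * 2))) (v : W n)
    (hv : fderiv ℝ (Fm H k) z v = 0) : v = 0 := by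
  have hl : DifferentiableAt ℝ (fun x => H (sl n x) 0) (cc z) :=
    (contDiffAt_coef h (cc z)).differentiableAt (by simp)
  have d1 : HasFDerivAt (Qm n) (fderiv ℝ (Qm n) z) z :=
    ((contDiffAt_Qm hz).differentiableAt (by simp)).hasFDerivAt
  have dM : DifferentiableAt ℝ (Mm (fun x => H (sl n x) 0) k) (Qm n z) := by
    unfold Mm
    have a2 : DifferentiableAt ℝ (fun q : ℂ × V (n * 2) => H (sl n q.2) 0) (Qm n z) :=
      DifferentiableAt.comp (f := fun q : ℂ × V (n * 2) => q.2) (Qm n z) hl differentiableAt_snd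
    have a3 : DifferentiableAt ℝ (fun q : ℂ × V (n * 2) => k q.2) (Qm n z) :=
      DifferentiableAt.comp (f := fun q : ℂ × V (n * 2) => q.2) (Qm n z) hk differentiableAt_snd
    exact (differentiableAt_fst.mul a2).prodMk a3
  have d2 := dM.hasFDerivAt.comp z d1
  have hne : (Mm (fun x => H (sl n x) 0) k (Qm n z)).1 ≠ 0 := mul_ne_zero hz h0
  have d3 : HasFDerivAt (Pm n) (fderiv ℝ (Pm n) (Mm (fun x => H (sl n x) 0) k (Qm n z)))
      (Mm (fun x => H (sl n x) 0) k (Qm n z)) :=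
    (contDiff_Pm.differentiable (by simp) _).hasFDerivAt
  have d4 := d3.comp z d2
  have d5 : Fm H k = Pm n ∘ Mm (fun x => H (sl n x) 0) k ∘ Qm n := Fm_eq H k
  rw [d5, d4.fderiv] at hv
  simp only [ContinuousLinearMap.comp_apply] at hv
  have e1 := inj_Pm hne _ hv
  have e2 := inj_Mm (p := Qm n z) hl hk h0 hu _ e1
  exact inj_Qm hz v e2

/-- Near a nonzero point outside the chart ball the chart coordinate is large. -/
theorem event_out {s : ℝ} (hs : 0 < s) {z : W n} (hz : z ≠ 0)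
    (hz1 : ¬ (z 0 ≠ 0 ∧ ‖cc z‖ < s)) : ∀ᶠ y in 𝓝 z, ¬ (y 0 ≠ 0 ∧ ‖cc y‖ < s / 2) := by
  by_cases h0 : z 0 = 0
  · have hn : 0 < ‖z‖ := norm_pos_iff.2 hz
    have h1 : Filter.Tendsto (fun y : W n => ‖y‖ - max 1 s * ‖y 0‖) (𝓝 z)
        (𝓝 (‖z‖ - max 1 s * ‖z 0‖)) := by
      have : Continuous fun y : W n => ‖y‖ - max 1 s * ‖y 0‖ :=
        continuous_norm.sub (continuous_const.mul continuous_zero_apply.norm)
      exact this.tendsto z
    have h2 : (0:ℝ) < ‖z‖ - max 1 s * ‖z 0‖ := by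
      rw [h0, norm_zero, mul_zero, sub_zero]; exact hn
    filter_upwards [h1.eventually (lt_mem_nhds h2)] with y hy
    rintro ⟨hy0, hy1⟩
    have h3 := norm_le_of_cc hy0
    have h4 : max 1 (2 * ‖cc y‖) ≤ max 1 s := max_le_max le_rfl (by linarith)
    have h5 : max 1 (2 * ‖cc y‖) * ‖y 0‖ ≤ max 1 s * ‖y 0‖ :=
      mul_le_mul_of_nonneg_right h4 (norm_nonneg _)
    linarith
  · have h1 : s ≤ ‖cc z‖ := by
      by_contra h
      exact hz1 ⟨h0, not_le.1 h⟩
    have h2 : ContinuousAt (fun y : W n => ‖cc y‖) z := (contDiffAt_cc h0).continuousAt.norm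
    have h3 : s / 2 < ‖cc z‖ := by linarith
    filter_upwards [h2.eventually (lt_mem_nhds h3)] with y hy
    rintro ⟨-, hy1⟩
    linarith

/-- The set of points inside the chart ball is a neighbourhood of each of its points. -/
theorem event_in {s : ℝ} {z : W n} (hz0 : z 0 ≠ 0) (hz1 : ‖cc z‖ < s) :
    ∀ᶠ y in 𝓝 z, y 0 ≠ 0 ∧ ‖cc y‖ < s := by
  have h2 : ContinuousAt (fun y : W n => ‖cc y‖) z := (contDiffAt_cc hz0).continuousAt.norm
  filter_upwards [continuous_zero_apply.continuousAt.eventually_ne hz0,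
    h2.eventually (gt_mem_nhds hz1)] with y h3 h4
  exact ⟨h3, h4⟩

end SurgAux

open Classical in
theorem surg {H : W n → W n} (h : HLoc H) {s : ℝ} (hs : 0 < s)
    (h0 : ∀ x : V (n * 2), ‖x‖ < s → H (sl n x) 0 ≠ 0) {g : V (n * 2) → V (n * 2)}
    (hL : LStep s (fc H) g) : ∃ H' : W n → W n, HLoc H' ∧ Conn H H' ∧
      (∀ z : W n, (z 0 = 0 ∨ s ≤ ‖cc z‖) → H' z = H z) ∧
      ∀ x : V (n * 2), ‖x‖ < s → H' (sl n x) = H (sl n x) 0 • sl n (g x) := by
  obtain ⟨K, k1, k2, k3, k4⟩ := hL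
  set τ : ℝ → ℝ := Real.smoothTransition with hτ
  -- the family
  let Λ : ℝ × W n → W n := fun q =>
    if q.2 0 ≠ 0 ∧ ‖cc q.2‖ < s then SurgAux.Fm H (fun x => K (τ q.1, x)) q.2 else H q.2
  have hin : ∀ (t : ℝ) (z : W n), z 0 ≠ 0 → ‖cc z‖ < s →
      Λ (t, z) = SurgAux.Fm H (fun x => K (τ t, x)) z := by
    intro t z a b
    simp only [Λ]
    rw [if_pos ⟨a, b⟩]
  have hout : ∀ (t : ℝ) (z : W n), ¬ (z 0 ≠ 0 ∧ ‖cc z‖ < s) → Λ (t, z) = H z := by
    intro t z a
    simp only [Λ]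
    rw [if_neg a]
  have hsame : ∀ (k : V (n * 2) → V (n * 2)) (z : W n), z 0 ≠ 0 → ‖cc z‖ < s →
      k (cc z) = fc H (cc z) → SurgAux.Fm H k z = H z := by
    intro k z a b c
    unfold SurgAux.Fm
    rw [c, fc_spec (h0 _ b), ← h.hom, smul_sl_cc a]
  have hout2 : ∀ (t : ℝ) (z : W n), ¬ (z 0 ≠ 0 ∧ ‖cc z‖ < s / 2) → Λ (t, z) = H z := by
    intro t z a
    by_cases b : z 0 ≠ 0 ∧ ‖cc z‖ < s
    · rw [hin t z b.1 b.2]
      apply hsame _ _ b.1 b.2
      have : s / 2 ≤ ‖cc z‖ := by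
        by_contra c
        exact a ⟨b.1, not_le.1 c⟩
      exact k2 _ _ this b.2
    · exact hout t z b
  have hhom : ∀ (t : ℝ) (c : ℂ) (z : W n), Λ (t, c • z) = c • Λ (t, z) := by
    intro t c z
    by_cases hc : c = 0
    · rw [hc, zero_smul, zero_smul, hout t 0 (by simp), h.zero]
    · have e0 : (c • z) 0 = c * z 0 := rfl
      have e1 : cc (c • z) = cc z := cc_smul hc z
      by_cases b : z 0 ≠ 0 ∧ ‖cc z‖ < s
      · rw [hin t z b.1 b.2, hin t (c • z) (by rw [e0]; exact mul_ne_zero hc b.1)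
          (by rw [e1]; exact b.2)]
        unfold SurgAux.Fm
        rw [e1, e0, mul_smul]
      · rw [hout t z b, hout t (c • z), h.hom]
        rintro ⟨b1, b2⟩
        rw [e0] at b1
        rw [e1] at b2
        exact b ⟨fun b3 => b1 (by rw [b3, mul_zero]), b2⟩
  have hsm : ∀ (t : ℝ) (z : W n), z ≠ 0 → ContDiffAt ℝ ∞ Λ (t, z) := by
    intro t z hz
    by_cases b : z 0 ≠ 0 ∧ ‖cc z‖ < s
    · have ev : ∀ᶠ q : ℝ × W n in 𝓝 (t, z), q.2 0 ≠ 0 ∧ ‖cc q.2‖ < s :=
        (continuous_snd.tendsto (t, z)).eventually (SurgAux.event_in b.1 b.2)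
      have ev2 : Λ =ᶠ[𝓝 (t, z)] fun q => q.2 0 • (H (sl n (cc q.2)) 0 •
          sl n (K (τ q.1, cc q.2))) := by
        filter_upwards [ev] with q hq
        exact hin q.1 q.2 hq.1 hq.2
      refine ContDiffAt.congr_of_eventuallyEq ?_ ev2
      have a0 : ContDiffAt ℝ ∞ (fun q : ℝ × W n => q.2 0) (t, z) :=
        (contDiffAt_apply ℝ ℂ 0 z).comp (t, z) contDiffAt_snd
      have a1 : ContDiffAt ℝ ∞ (fun q : ℝ × W n => cc q.2) (t, z) :=
        ContDiffAt.comp (g := cc) (f := fun q : ℝ × W n => q.2) (t, z) (contDiffAt_cc b.1)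
          contDiffAt_snd
      have a2 : ContDiffAt ℝ ∞ (fun q : ℝ × W n => H (sl n (cc q.2)) 0) (t, z) :=
        ContDiffAt.comp (g := fun x => H (sl n x) 0) (f := fun q : ℝ × W n => cc q.2) (t, z)
          (SurgAux.contDiffAt_coef h (cc z)) a1
      have a3 : ContDiffAt ℝ ∞ (fun q : ℝ × W n => (τ q.1, cc q.2)) (t, z) :=
        ((Real.smoothTransition.contDiff.comp contDiff_fst).contDiffAt).prodMk a1
      have a4 : ContDiffAt ℝ ∞ (fun q : ℝ × W n => K (τ q.1, cc q.2)) (t, z) :=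
        ContDiffAt.comp (g := K) (f := fun q : ℝ × W n => (τ q.1, cc q.2)) (t, z)
          (k1 (τ t) (cc z) b.2).1 a3
      have a5 : ContDiffAt ℝ ∞ (fun q : ℝ × W n => sl n (K (τ q.1, cc q.2))) (t, z) :=
        ContDiffAt.comp (g := sl n) (f := fun q : ℝ × W n => K (τ q.1, cc q.2)) (t, z)
          SurgAux.contDiff_sl.contDiffAt a4
      exact a0.smul (a2.smul a5)
    · have ev : ∀ᶠ q : ℝ × W n in 𝓝 (t, z), ¬ (q.2 0 ≠ 0 ∧ ‖cc q.2‖ < s / 2) :=
        (continuous_snd.tendsto (t, z)).eventually (SurgAux.event_out hs hz b)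
      have ev2 : Λ =ᶠ[𝓝 (t, z)] fun q => H q.2 := by
        filter_upwards [ev] with q hq
        exact hout2 q.1 q.2 hq
      refine ContDiffAt.congr_of_eventuallyEq ?_ ev2
      exact ContDiffAt.comp (g := H) (f := fun q : ℝ × W n => q.2) (t, z) (h.contDiffAt hz)
        contDiffAt_snd
  have hinj : ∀ (t : ℝ) (z : W n), z ≠ 0 → ∀ v, fderiv ℝ (fun w => Λ (t, w)) z v = 0 →
      v = 0 := by
    intro t z hz v hv
    by_cases b : z 0 ≠ 0 ∧ ‖cc z‖ < s
    · have ev2 : (fun w => Λ (t, w)) =ᶠ[𝓝 z] SurgAux.Fm H (fun x => K (τ t, x)) := by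
        filter_upwards [SurgAux.event_in b.1 b.2] with q hq
        exact hin t q hq.1 hq.2
      rw [ev2.fderiv_eq] at hv
      have a1 : ContDiffAt ℝ ∞ (fun x : V (n * 2) => K (τ t, x)) (cc z) := by
        have a2 : ContDiffAt ℝ ∞ (fun x : V (n * 2) => (τ t, x)) (cc z) := by fun_prop
        exact ContDiffAt.comp (g := K) (f := fun x : V (n * 2) => (τ t, x)) (cc z)
          (k1 (τ t) (cc z) b.2).1 a2
      exact SurgAux.inj_Fm h b.1 (h0 _ b.2) (a1.differentiableAt (by simp))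
        (k1 (τ t) (cc z) b.2).2 v hv
    · have ev2 : (fun w => Λ (t, w)) =ᶠ[𝓝 z] H := by
        filter_upwards [SurgAux.event_out hs hz b] with q hq
        exact hout2 t q hq
      rw [ev2.fderiv_eq] at hv
      exact h.inj z hz v hv
  have hfam : Fam Λ := by
    refine ⟨?_, hhom, hinj⟩
    rintro ⟨t, z⟩ ⟨-, hz⟩
    exact (hsm t z hz).contDiffWithinAt
  refine ⟨fun z => Λ (1, z), hfam.hloc 1, ⟨Λ, hfam, ?_, ?_⟩, ?_, ?_⟩
  · intro t ht z
    by_cases b : z 0 ≠ 0 ∧ ‖cc z‖ < s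
    · rw [hin t z b.1 b.2]
      apply hsame _ _ b.1 b.2
      show K (τ t, cc z) = fc H (cc z)
      rw [hτ, Real.smoothTransition.zero_of_nonpos ht]
      exact k3 _ b.2
    · exact hout t z b
  · intro t ht z
    by_cases b : z 0 ≠ 0 ∧ ‖cc z‖ < s
    · show Λ (t, z) = Λ (1, z)
      rw [hin t z b.1 b.2, hin 1 z b.1 b.2, hτ, Real.smoothTransition.one_of_one_le ht,
        Real.smoothTransition.one_of_one_le le_rfl]
    · show Λ (t, z) = Λ (1, z)
      rw [hout t z b, hout 1 z b]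
  · intro z hz
    apply hout
    rintro ⟨a, b⟩
    rcases hz with hz | hz
    · exact a hz
    · exact absurd hz (not_le.2 b)
  · intro x hx
    show Λ (1, sl n x) = _
    have e1 : cc (sl n x) = x := cc_sl x
    have e2 : sl n x 0 = 1 := sl_apply_zero x
    rw [hin 1 (sl n x) (by rw [e2]; exact one_ne_zero) (by rw [e1]; exact hx)]
    unfold SurgAux.Fm
    rw [e1, e2, one_smul]
    show H (sl n x) 0 • sl n (K (τ 1, x)) = _
    rw [hτ, Real.smoothTransition.one_of_one_le le_rfl, k4 x hx]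

theorem surg_TB {Φ : W n → W n} (h : HLoc Φ) (T B : W n ≃L[ℝ] W n)
    (hT : ∀ (c : ℂ) (x : W n), T (c • x) = c • T x)
    (hB : ∀ (c : ℂ) (x : W n), B (c • x) = c • B x) {s : ℝ} (hs : 0 < s)
    (h0 : ∀ x : V (n * 2), ‖x‖ < s → (B (Φ (T (sl n x)))) 0 ≠ 0) {g : V (n * 2) → V (n * 2)}
    (hL : LStep s (fc fun z => B (Φ (T z))) g) : ∃ Φ' : W n → W n, HLoc Φ' ∧ Conn Φ Φ' ∧
      (∀ z : W n, (∀ x : V (n * 2), ‖x‖ < s → pt z ≠ pt (T (sl n x))) → Φ' z = Φ z) ∧
      ∀ x : V (n * 2), ‖x‖ < s → (B (Φ' (T (sl n x)))) 0 ≠ 0 ∧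
        fc (fun z => B (Φ' (T z))) x = g x := by
  have hT' : ∀ (c : ℂ) (x : W n), T.symm (c • x) = c • T.symm x := by
    intro c x
    apply T.injective
    rw [hT, T.apply_symm_apply, T.apply_symm_apply]
  have hB' : ∀ (c : ℂ) (x : W n), B.symm (c • x) = c • B.symm x := by
    intro c x
    apply B.injective
    rw [hB, B.apply_symm_apply, B.apply_symm_apply]
  have hH : HLoc fun z => B (Φ (T z)) := hloc_left (hloc_right h T hT) B hB
  obtain ⟨H', g1, g2, g3, g4⟩ := surg hH hs h0 hL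
  have hid : HLoc (fun z : W n => z) := hloc_id
  have hTs : HLoc fun z : W n => T.symm z := hloc_left hid T.symm hT'
  have hBs : HLoc fun z : W n => B.symm z := hloc_left hid B.symm hB'
  have hconn := conn_comp_right (conn_comp_left g2 hBs) hTs
  have e1 : (fun z : W n => B.symm (B (Φ (T (T.symm z))))) = Φ := by
    funext z
    rw [T.apply_symm_apply, B.symm_apply_apply]
  refine ⟨fun z => B.symm (H' (T.symm z)), hloc_left (hloc_right g1 T.symm hT') B.symm hB',
    ?_, ?_, ?_⟩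
  · rw [e1] at hconn
    exact hconn
  · intro z hz
    have hw : (T.symm z) 0 = 0 ∨ s ≤ ‖cc (T.symm z)‖ := by
      by_contra hc
      rw [not_or, not_le] at hc
      apply hz (cc (T.symm z)) hc.2
      have e2 : z = (T.symm z) 0 • T (sl n (cc (T.symm z))) := by
        rw [← hT, smul_sl_cc hc.1, T.apply_symm_apply]
      rw [show pt z = pt ((T.symm z) 0 • T (sl n (cc (T.symm z)))) from congrArg pt e2,
        pt_smul hc.1]
    show B.symm (H' (T.symm z)) = Φ z
    rw [g3 _ hw, T.apply_symm_apply, B.symm_apply_apply]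
  · intro x hx
    have e2 : B (B.symm (H' (T.symm (T (sl n x))))) = (B (Φ (T (sl n x)))) 0 • sl n (g x) := by
      rw [T.symm_apply_apply, B.apply_symm_apply, g4 x hx]
    constructor
    · show (B (B.symm (H' (T.symm (T (sl n x)))))) 0 ≠ 0
      rw [e2, Pi.smul_apply, sl_apply_zero, smul_eq_mul, mul_one]
      exact h0 x hx
    · unfold fc
      show cc (B (B.symm (H' (T.symm (T (sl n x)))))) = g x
      rw [e2, cc_smul (h0 x hx), cc_sl]

end Pool.Agent.Lib.P28g
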